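import Pool.Agent.H48.CR.Chart

/-!
# CR Fat: Fatou coordinates of `f_0` in terms of the chart (interface)

`B`: the points whose orbit enters the attracting side of the sheets with index `-1`, `phi` their Fatou coordinate
(`(f_0)^[m] z = W0 (-1 + m p) w`, `phi z ≈ w - m`).
`pr m w = psi_r^{(-1 - m p)} (w - m)`, `psi_r^{(j)} w = lim_k (f_0)^[k] (W0 (j - k p) (w - k))`.
-/

set_option autoImplicit false

open Set Filter Topology Metric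

namespace Pool.Agent.CR

/-- right of the hole, or above it -/
def Ra (r : ℝ) : Set ℂ := {w | (r < w.re ∧ -w.im < w.re / 4) ∨ r < w.im}

/-- left of the hole, or above it -/
def Rr (r : ℝ) : Set ℂ := {w | (w.re < -r ∧ -w.im < -w.re / 4) ∨ r < w.im}

structure Fat {p q s e : ℕ} (X : Chart p q s e) where
  r0 : ℝ
  C : ℝ
  B : Set ℂ
  phi : ℂ → ℂ
  pr : ℕ → ℂ → ℂ
  r0_ge : 2 * X.R + 2 ≤ r0
  C_pos : 0 < C
  C_small : C * r0 ^ (-(1 / (q : ℝ))) ≤ 1 / 8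
  isOpen_B : IsOpen B
  diff_phi : DifferentiableOn ℂ phi B
  mem_B : ∀ (z : ℂ) (m : ℕ) (w : ℂ) (r : ℝ), r0 ≤ r → w ∈ Ra r →
    (f (mu ((p : ℝ) / q)))^[m] z = X.W0 (-1 + m * p) w → z ∈ B ∧ ‖phi z - (w - m)‖ ≤ C * r ^ (-(1 / (q : ℝ)))
  exists_B : ∀ z ∈ B, ∀ r : ℝ, ∀ᶠ m : ℕ in atTop, ∃ w : ℂ, r < w.re ∧ -w.im < w.re / 4 ∧
    (f (mu ((p : ℝ) / q)))^[m] z = X.W0 (-1 + m * p) w
  diff_pr : ∀ m, Differentiable ℂ (pr m)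
  pr_f : ∀ m w, f (mu ((p : ℝ) / q)) (pr (m + 1) w) = pr m w
  pr_add : ∀ m w, pr (m + q) (w + q) = pr m w
  pr_W0 : ∀ (m : ℕ) (w : ℂ) (r : ℝ), r0 ≤ r → w - m ∈ Rr r →
    ∃ w' : ℂ, w' ∈ Wd0 X.R ∧ pr m w = X.W0 (-1 - m * p) w' ∧ ‖w' - (w - m)‖ ≤ C * r ^ (-(1 / (q : ℝ)))
  W0_pr : ∀ (m : ℕ) (w' : ℂ) (r : ℝ), r0 ≤ r → w' ∈ Rr r →
    ∃ w : ℂ, pr m w = X.W0 (-1 - m * p) w' ∧ ‖w' - (w - m)‖ ≤ C * r ^ (-(1 / (q : ℝ)))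

end Pool.Agent.CR
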