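import Pool.Agent.H48.CR.GDefs

/-!
# CR G5a: the distance `dn` to the holes and the domains

`round (ζ.re / n)` gives the nearest hole: `|ζ.re - k n|` is minimal for `k = round (ζ.re / n)`, `n > 0` (`round_le`), and `‖ζ - k n‖^2 = (ζ.re - k n)^2 + ζ.im^2`.
`dn_lip` from `dn_le` with `k = round (ζ'.re / n)`. `V_im`, `Wd_im`: take `k = round`, `|ζ.re - k n| ≤ n / 2`.
`isOpen_Wd`: `Wd n R = {w | R < dn n w ∧ -w.im < |w.re - round (w.re / n) * n|}` and both functions are continuous (the second is the distance of a real number to `n ℤ`, 1-Lipschitz).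
`Wd_V`: `‖ζ - k n‖ ≥ ‖w - k n‖ - dn n w / 8 ≥ 7/8 ‖w - k n‖ > R/2`. If `-ζ.im ≥ 2 |ζ.re - k n|`, then with `d = dn n w ≤ D = ‖w - k n‖`:
either `-w.im > 0`... : `-w.im ≥ -ζ.im - d/8`, `|w.re - k n| ≤ |ζ.re - k n| + d/8 ≤ -ζ.im/2 + d/8 `, and `-w.im < |w.re - k n|` gives `-ζ.im < d/2`, `|w.re - k n| < 3 d/8`; and `w.im ≤ ζ.im + d/8 ≤ d/8`, `-w.im < 3d/8`: so `|w.im| < 3d/8`, `D < d`,
contradiction. `Wi_Wd` similar (if `|w.re - k n| < 1` then `‖w - k n‖ > 5` and `-w.im < 1/2` give `w.im > 4`).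
`Wd0_ev`: for a compact neighbourhood of `w` in `Wd0 R` (bounded), and `n N` large, the conditions for `k ≠ 0` hold since `|w'.re - k n| ≥ n - |w'.re|` is large. The same for `Wi0`.
-/

set_option autoImplicit false

open Set Filter Topology Metric

namespace Pool.Agent.CR.G

/-! ### Auxiliary lemmas -/

private theorem G5a_re (ζ : ℂ) (k : ℤ) (n : ℝ) : (ζ - k * n).re = ζ.re - k * n := by
  simp

private theorem G5a_im (ζ : ℂ) (k : ℤ) (n : ℝ) : (ζ - k * n).im = ζ.im := by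
  simp

private theorem G5a_rd {n : ℝ} (hn : 0 < n) (x : ℝ) (k : ℤ) :
    |x - (round (x / n) : ℤ) * n| ≤ |x - k * n| := by
  have h1 := round_le (x / n) k
  have h2 : ∀ j : ℤ, |x - j * n| = |x / n - j| * n := by
    intro j
    have h3 : x - j * n = (x / n - j) * n := by field_simp
    rw [h3, abs_mul, abs_of_pos hn]
  rw [h2, h2]
  exact mul_le_mul_of_nonneg_right h1 hn.le

private theorem G5a_half {n : ℝ} (hn : 0 < n) (x : ℝ) :
    |x - (round (x / n) : ℤ) * n| ≤ n / 2 := by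
  have h3 : x - (round (x / n) : ℤ) * n = (x / n - (round (x / n) : ℤ)) * n := by field_simp
  rw [h3, abs_mul, abs_of_pos hn]
  have h1 := abs_sub_round (x / n)
  nlinarith

private theorem G5a_norm_le {z z' : ℂ} (h1 : |z.re| ≤ |z'.re|) (h2 : |z.im| ≤ |z'.im|) :
    ‖z‖ ≤ ‖z'‖ := by
  rw [Complex.norm_def, Complex.norm_def]
  apply Real.sqrt_le_sqrt
  rw [Complex.normSq_apply, Complex.normSq_apply, ← sq, ← sq, ← sq, ← sq]
  exact add_le_add (sq_le_sq.mpr h1) (sq_le_sq.mpr h2)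

/-- the distance of a real number to the multiples of `n` -/
private noncomputable def G5a_d (n x : ℝ) : ℝ := |x - (round (x / n) : ℤ) * n|

private theorem G5a_d_lip {n : ℝ} (hn : 0 < n) (x y : ℝ) : G5a_d n x ≤ G5a_d n y + |x - y| := by
  unfold G5a_d
  refine (G5a_rd hn x (round (y / n))).trans ?_
  have h1 : x - (round (y / n) : ℤ) * n = (y - (round (y / n) : ℤ) * n) + (x - y) := by ring
  rw [h1]
  exact abs_add_le _ _

private theorem G5a_d_cont {n : ℝ} (hn : 0 < n) : Continuous (G5a_d n) := by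
  have h : LipschitzWith 1 (G5a_d n) := by
    apply LipschitzWith.of_le_add
    intro x y
    rw [Real.dist_eq]
    exact G5a_d_lip hn x y
  exact h.continuous

/-- the one step estimate for the inner domain -/
private theorem G5a_step {R : ℝ} (hR : 4 ≤ R) {z z' : ℂ} (h1 : R + 1 < ‖z‖)
    (h2 : -z.im < |z.re| / 2) (h : ‖z' - z‖ ≤ 1 / 8) : R < ‖z'‖ ∧ -z'.im < |z'.re| := by
  have h3 : ‖z‖ ≤ ‖z'‖ + ‖z' - z‖ := by
    have h4 : z = z' - (z' - z) := by ring
    calc ‖z‖ = ‖z' - (z' - z)‖ := by rw [← h4]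
      _ ≤ ‖z'‖ + ‖z' - z‖ := norm_sub_le _ _
  have hre : |z'.re - z.re| ≤ 1 / 8 := by
    have := (Complex.abs_re_le_norm (z' - z)).trans h
    rwa [Complex.sub_re] at this
  have him : |z'.im - z.im| ≤ 1 / 8 := by
    have := (Complex.abs_im_le_norm (z' - z)).trans h
    rwa [Complex.sub_im] at this
  refine ⟨by linarith, ?_⟩
  have h5 := abs_le.mp hre
  have h6 := abs_le.mp him
  have h7 : |z.re| ≤ |z'.re| + 1 / 8 := by
    have h8 : z.re = z'.re - (z'.re - z.re) := by ring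
    calc |z.re| = |z'.re - (z'.re - z.re)| := by rw [← h8]
      _ ≤ |z'.re| + |z'.re - z.re| := abs_sub _ _
      _ ≤ |z'.re| + 1 / 8 := by linarith
  by_cases hc : 1 / 2 ≤ |z.re|
  · linarith
  · have h8 : ‖z‖ ≤ |z.re| + |z.im| := Complex.norm_le_abs_re_add_abs_im z
    have h9 : 0 ≤ |z'.re| := abs_nonneg _
    rcases le_abs'.mp (show (4 : ℝ) ≤ |z.im| by linarith) with h10 | h10
    · linarith
    · linarith

/-- holes different from `0` are far away -/
private theorem G5a_far {M n : ℝ} (hn : 0 < n) {w' : ℂ} (hw : |w'.re| ≤ M) {k : ℤ} (hk : k ≠ 0) :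
    n - M ≤ |w'.re - k * n| := by
  have h1 : (1 : ℝ) ≤ |(k : ℝ)| := by
    have h2 : (1 : ℤ) ≤ |k| := Int.one_le_abs hk
    exact_mod_cast h2
  have h3 : n ≤ |(k : ℝ) * n| := by
    rw [abs_mul, abs_of_pos hn]
    nlinarith
  have h4 : |(k : ℝ) * n| ≤ |w'.re| + |w'.re - k * n| := by
    have h5 : (k : ℝ) * n = w'.re - (w'.re - k * n) := by ring
    calc |(k : ℝ) * n| = |w'.re - (w'.re - k * n)| := by rw [← h5]
      _ ≤ |w'.re| + |w'.re - k * n| := abs_sub _ _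
  linarith

private theorem G5a_nhd (w : ℂ) : ∀ᶠ w' in 𝓝 w, |w'.re| ≤ ‖w‖ + 1 ∧ |w'.im| ≤ ‖w‖ + 1 := by
  have h : ∀ᶠ w' in 𝓝 w, ‖w' - w‖ < 1 := by
    have := Metric.ball_mem_nhds w (zero_lt_one' ℝ)
    filter_upwards [this] with w' hw'
    rwa [mem_ball, dist_eq_norm] at hw'
  filter_upwards [h] with w' hw'
  have h1 : ‖w'‖ ≤ ‖w‖ + 1 := by
    have h2 : w' = w + (w' - w) := by ring
    calc ‖w'‖ = ‖w + (w' - w)‖ := by rw [← h2]
      _ ≤ ‖w‖ + ‖w' - w‖ := norm_add_le _ _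
      _ ≤ ‖w‖ + 1 := by linarith
  exact ⟨(Complex.abs_re_le_norm w').trans h1, (Complex.abs_im_le_norm w').trans h1⟩

theorem dn_le {n : ℝ} (hn : 0 < n) (ζ : ℂ) (k : ℤ) : dn n ζ ≤ ‖ζ - k * n‖ := by
  unfold dn
  apply G5a_norm_le
  · rw [G5a_re, G5a_re]
    exact G5a_rd hn _ k
  · rw [G5a_im, G5a_im]

theorem dn_nonneg (n : ℝ) (ζ : ℂ) : 0 ≤ dn n ζ := by
  exact norm_nonneg _

theorem dn_lip {n : ℝ} (hn : 0 < n) (ζ ζ' : ℂ) : dn n ζ ≤ dn n ζ' + ‖ζ - ζ'‖ := by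
  refine (dn_le hn ζ (round (ζ'.re / n))).trans ?_
  unfold dn
  have h1 : ζ - (round (ζ'.re / n) : ℤ) * n = (ζ' - (round (ζ'.re / n) : ℤ) * n) + (ζ - ζ') := by
    ring
  rw [h1]
  exact norm_add_le _ _

theorem dn_continuous {n : ℝ} (hn : 0 < n) : Continuous (dn n) := by
  have h : LipschitzWith 1 (dn n) := by
    apply LipschitzWith.of_le_add
    intro x y
    rw [dist_eq_norm]
    exact dn_lip hn x y
  exact h.continuous

theorem dn_add {n : ℝ} (hn : 0 < n) (ζ : ℂ) (k : ℤ) : dn n (ζ + k * n) = dn n ζ := by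
  unfold dn
  have h1 : (ζ + k * n).re / n = ζ.re / n + k := by
    have h2 : (ζ + k * n).re = ζ.re + k * n := by simp
    rw [h2]
    field_simp
  rw [h1, round_add_intCast]
  congr 1
  push_cast
  ring

theorem V_im {n r : ℝ} (hn : 0 < n) {ζ : ℂ} (h : ζ ∈ V n r) : -n < ζ.im := by
  have h1 := (h (round (ζ.re / n))).2
  have h2 := G5a_half hn ζ.re
  linarith

theorem V_dn {n r : ℝ} {ζ : ℂ} (h : ζ ∈ V n r) : r < dn n ζ := by
  exact (h (round (ζ.re / n))).1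

theorem V_add {n r : ℝ} {ζ : ℂ} (h : ζ ∈ V n r) (k : ℤ) : ζ + k * n ∈ V n r := by
  intro j
  have h1 := h (j - k)
  have h2 : ζ + k * n - j * n = ζ - ((j - k : ℤ) : ℂ) * n := by push_cast; ring
  have h3 : (ζ + k * n).re - j * n = ζ.re - ((j - k : ℤ) : ℝ) * n := by
    have h4 : (ζ + k * n).re = ζ.re + k * n := by simp
    rw [h4]; push_cast; ring
  have h4 : (ζ + k * n).im = ζ.im := by simp
  rw [h2, h3, h4]
  exact h1

theorem V_mono {n r r' : ℝ} (h : r ≤ r') : V n r' ⊆ V n r := by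
  intro ζ hζ k
  exact ⟨lt_of_le_of_lt h (hζ k).1, (hζ k).2⟩

theorem isOpen_V {n : ℝ} (hn : 0 < n) (r : ℝ) : IsOpen (V n r) := by
  have h1 : V n r = {ζ | r < dn n ζ ∧ -ζ.im < 2 * G5a_d n ζ.re} := by
    ext ζ
    constructor
    · intro h
      exact ⟨(h _).1, (h _).2⟩
    · rintro ⟨h2, h3⟩ k
      refine ⟨lt_of_lt_of_le h2 (dn_le hn ζ k), lt_of_lt_of_le h3 ?_⟩
      exact mul_le_mul_of_nonneg_left (G5a_rd hn ζ.re k) (by norm_num)
  rw [h1]
  exact (isOpen_lt continuous_const (dn_continuous hn)).inter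
    (isOpen_lt Complex.continuous_im.neg
      (continuous_const.mul ((G5a_d_cont hn).comp Complex.continuous_re)))

theorem isOpen_Wd {n : ℝ} (hn : 0 < n) (R : ℝ) : IsOpen (Wd n R) := by
  have h1 : Wd n R = {ζ | R < dn n ζ ∧ -ζ.im < G5a_d n ζ.re} := by
    ext ζ
    constructor
    · intro h
      exact ⟨(h _).1, (h _).2⟩
    · rintro ⟨h2, h3⟩ k
      exact ⟨lt_of_lt_of_le h2 (dn_le hn ζ k), lt_of_lt_of_le h3 (G5a_rd hn ζ.re k)⟩
  rw [h1]
  exact (isOpen_lt continuous_const (dn_continuous hn)).inter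
    (isOpen_lt Complex.continuous_im.neg ((G5a_d_cont hn).comp Complex.continuous_re))

theorem isOpen_Wi {n : ℝ} (hn : 0 < n) (R : ℝ) : IsOpen (Wi n R) := by
  have h1 : Wi n R = {ζ | R + 1 < dn n ζ ∧ -ζ.im < G5a_d n ζ.re / 2} := by
    ext ζ
    constructor
    · intro h
      exact ⟨(h _).1, (h _).2⟩
    · rintro ⟨h2, h3⟩ k
      refine ⟨lt_of_lt_of_le h2 (dn_le hn ζ k), lt_of_lt_of_le h3 ?_⟩
      exact div_le_div_of_nonneg_right (G5a_rd hn ζ.re k) (by norm_num)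
  rw [h1]
  exact (isOpen_lt continuous_const (dn_continuous hn)).inter
    (isOpen_lt Complex.continuous_im.neg
      (((G5a_d_cont hn).comp Complex.continuous_re).div_const 2))

theorem isOpen_Wd0 (R : ℝ) : IsOpen (Wd0 R) := by
  exact (isOpen_lt continuous_const continuous_norm).inter
    (isOpen_lt Complex.continuous_im.neg Complex.continuous_re.abs)

theorem isOpen_Wi0 (R : ℝ) : IsOpen (Wi0 R) := by
  exact (isOpen_lt continuous_const continuous_norm).inter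
    (isOpen_lt Complex.continuous_im.neg (Complex.continuous_re.abs.div_const 2))

theorem Wd_dn {n R : ℝ} {w : ℂ} (h : w ∈ Wd n R) : R < dn n w := by
  exact (h (round (w.re / n))).1

theorem Wd_im {n R : ℝ} (hn : 0 < n) {w : ℂ} (h : w ∈ Wd n R) : -(n / 2) < w.im := by
  have h1 := (h (round (w.re / n))).2
  have h2 := G5a_half hn w.re
  linarith

theorem Wd_add {n R : ℝ} {w : ℂ} (h : w ∈ Wd n R) (k : ℤ) : w + k * n ∈ Wd n R := by
  intro j
  have h1 := h (j - k)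
  have h2 : w + k * n - j * n = w - ((j - k : ℤ) : ℂ) * n := by push_cast; ring
  have h3 : (w + k * n).re - j * n = w.re - ((j - k : ℤ) : ℝ) * n := by
    have h4 : (w + k * n).re = w.re + k * n := by simp
    rw [h4]; push_cast; ring
  have h4 : (w + k * n).im = w.im := by simp
  rw [h2, h3, h4]
  exact h1

theorem Wi_add {n R : ℝ} {w : ℂ} (h : w ∈ Wi n R) (k : ℤ) : w + k * n ∈ Wi n R := by
  intro j
  have h1 := h (j - k)
  have h2 : w + k * n - j * n = w - ((j - k : ℤ) : ℂ) * n := by push_cast; ring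
  have h3 : (w + k * n).re - j * n = w.re - ((j - k : ℤ) : ℝ) * n := by
    have h4 : (w + k * n).re = w.re + k * n := by simp
    rw [h4]; push_cast; ring
  have h4 : (w + k * n).im = w.im := by simp
  rw [h2, h3, h4]
  exact h1

theorem Wd_V {n R : ℝ} (hn : 0 < n) (hR : 0 < R) {w ζ : ℂ} (h : w ∈ Wd n R) (hζ : ‖ζ - w‖ ≤ dn n w / 8) :
    ζ ∈ V n (R / 2) := by
  intro k
  have hd := dn_le hn w k
  have hdR := Wd_dn h
  have h2 := (h k).2
  set d := dn n w with hd'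
  have hd0 : 0 < d := lt_trans hR hdR
  have hre : |ζ.re - w.re| ≤ d / 8 := by
    have := (Complex.abs_re_le_norm (ζ - w)).trans hζ
    rwa [Complex.sub_re] at this
  have him : |ζ.im - w.im| ≤ d / 8 := by
    have := (Complex.abs_im_le_norm (ζ - w)).trans hζ
    rwa [Complex.sub_im] at this
  have hre' := abs_le.mp hre
  have him' := abs_le.mp him
  constructor
  · have h3 : ‖w - k * n‖ ≤ ‖ζ - k * n‖ + ‖ζ - w‖ := by
      have h4 : w - k * n = (ζ - k * n) - (ζ - w) := by ring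
      rw [h4]
      exact norm_sub_le _ _
    linarith
  · by_contra hcon
    push Not at hcon
    have h3 : |w.re - k * n| ≤ |ζ.re - k * n| + d / 8 := by
      have h4 : w.re - k * n = (ζ.re - k * n) - (ζ.re - w.re) := by ring
      rw [h4]
      exact (abs_sub _ _).trans (by linarith)
    have h5 : 0 ≤ |ζ.re - k * n| := abs_nonneg _
    have h6 : |w.re - k * n| < 3 * d / 8 := by linarith
    have h7 : |w.im| < 3 * d / 8 := by
      rw [abs_lt]
      constructor <;> linarith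
    have h8 : ‖w - k * n‖ ≤ |w.re - k * n| + |w.im| := by
      have := Complex.norm_le_abs_re_add_abs_im (w - k * n)
      rwa [G5a_re, G5a_im] at this
    linarith

theorem Wi_Wd {n R : ℝ} (hn : 0 < n) (hR : 4 ≤ R) {w w' : ℂ} (h : w ∈ Wi n R) (hw : ‖w' - w‖ ≤ 1 / 8) :
    w' ∈ Wd n R := by
  intro k
  have h1 := (h k).1
  have h2 := (h k).2
  have h3 := G5a_step hR (z := w - k * n) (z' := w' - k * n) h1
    (by rw [G5a_re, G5a_im]; exact h2)
    (by
      have h4 : w' - k * n - (w - k * n) = w' - w := by ring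
      rw [h4]; exact hw)
  rw [G5a_re, G5a_im] at h3
  exact h3

theorem Wi0_Wd0 {R : ℝ} (hR : 4 ≤ R) {w w' : ℂ} (h : w ∈ Wi0 R) (hw : ‖w' - w‖ ≤ 1 / 8) : w' ∈ Wd0 R := by
  exact G5a_step hR h.1 h.2 hw

theorem Wd0_ev {n : ℕ → ℝ} (hn : Tendsto n atTop atTop) {R : ℝ} {w : ℂ} (hw : w ∈ Wd0 R) :
    ∀ᶠ x : ℕ × ℂ in atTop ×ˢ 𝓝 w, x.2 ∈ Wd (n x.1) R := by
  have h1 : ∀ᶠ w' in 𝓝 w, w' ∈ Wd0 R := (isOpen_Wd0 R).mem_nhds hw
  have h2 := h1.and (G5a_nhd w)
  have h3 := hn.eventually_gt_atTop (4 * (‖w‖ + 1) + |R|)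
  filter_upwards [h3.prod_mk h2] with x hx
  obtain ⟨hx1, ⟨hx2, hx3⟩, hx4, hx5⟩ := hx
  have hw0 : 0 ≤ ‖w‖ := norm_nonneg w
  have hR0 : R ≤ |R| := le_abs_self R
  have hR1 : 0 ≤ |R| := abs_nonneg R
  have hn0 : 0 < n x.1 := by linarith
  intro k
  by_cases hk : k = 0
  · subst hk
    simp only [Int.cast_zero, zero_mul, sub_zero]
    exact ⟨hx2, hx3⟩
  · have h4 := G5a_far hn0 hx4 hk
    have h5 : |x.2.re - k * n x.1| ≤ ‖x.2 - k * n x.1‖ := by
      have := Complex.abs_re_le_norm (x.2 - k * n x.1)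
      rwa [G5a_re] at this
    have h6 := (abs_le.mp hx5).1
    exact ⟨by linarith, by linarith⟩

theorem Wi0_ev {n : ℕ → ℝ} (hn : Tendsto n atTop atTop) {R : ℝ} {w : ℂ} (hw : w ∈ Wi0 R) :
    ∀ᶠ x : ℕ × ℂ in atTop ×ˢ 𝓝 w, x.2 ∈ Wi (n x.1) R := by
  have h1 : ∀ᶠ w' in 𝓝 w, w' ∈ Wi0 R := (isOpen_Wi0 R).mem_nhds hw
  have h2 := h1.and (G5a_nhd w)
  have h3 := hn.eventually_gt_atTop (4 * (‖w‖ + 1) + |R|)
  filter_upwards [h3.prod_mk h2] with x hx
  obtain ⟨hx1, ⟨hx2, hx3⟩, hx4, hx5⟩ := hx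
  have hw0 : 0 ≤ ‖w‖ := norm_nonneg w
  have hR0 : R ≤ |R| := le_abs_self R
  have hR1 : 0 ≤ |R| := abs_nonneg R
  have hn0 : 0 < n x.1 := by linarith
  intro k
  by_cases hk : k = 0
  · subst hk
    simp only [Int.cast_zero, zero_mul, sub_zero]
    exact ⟨hx2, hx3⟩
  · have h4 := G5a_far hn0 hx4 hk
    have h5 : |x.2.re - k * n x.1| ≤ ‖x.2 - k * n x.1‖ := by
      have := Complex.abs_re_le_norm (x.2 - k * n x.1)
      rwa [G5a_re] at this
    have h6 := (abs_le.mp hx5).1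
    exact ⟨by linarith, by linarith⟩

/-- near `0` the distance to the holes is the norm -/
theorem dn_ev {n : ℕ → ℝ} (hn : Tendsto n atTop atTop) (w : ℂ) :
    ∀ᶠ x : ℕ × ℂ in atTop ×ˢ 𝓝 w, dn (n x.1) x.2 = ‖x.2‖ := by
  have h3 := hn.eventually_gt_atTop (4 * (‖w‖ + 1))
  filter_upwards [h3.prod_mk (G5a_nhd w)] with x hx
  obtain ⟨hx1, hx4, hx5⟩ := hx
  have hw0 : 0 ≤ ‖w‖ := norm_nonneg w
  have hn0 : 0 < n x.1 := by linarith
  have h4 : round (x.2.re / n x.1) = 0 := by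
    rw [round_eq_zero_iff]
    obtain ⟨h5, h6⟩ := abs_le.mp hx4
    constructor
    · rw [le_div_iff₀ hn0]; linarith
    · rw [div_lt_iff₀ hn0]; linarith
  unfold dn
  rw [h4]
  simp

end Pool.Agent.CR.G
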