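import Pool.Agent.H48.CR.GC

/-!
# CR Hz: Hurwitz for injective limits

`F N → G` locally uniformly on the open set `U`, `F N` holomorphic near `w0 ∈ U`, `G` injective on `U` (hence `G' ≠ 0`, open): then for every `ε > 0` with small ball in `U`, for `N` large and `v` close to `G w0` there is `w'` with `‖w' - w0‖ ≤ ε`, `F N w' = v`.
Proof. Let `closedBall w0 ε ⊆ U` (shrink `ε`). `m = min ‖G w - G w0‖` on the sphere `> 0`. For `N` large `‖F N - G‖ < m/4` on the closed ball (uniformly, compactness), `‖v - G w0‖ < m/4`. If `F N w ≠ v` on the closed ball, `g = 1/(F N - v)` is holomorphic there, on the sphere `‖g‖ ≤ 1/(m - m/4 - m/4) = 2/m`, at the center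
`‖g w0‖ ≥ 1/(m/4 + m/4) = 2/m`... use strict inequalities (`m/5`): contradiction to the maximum principle (`Complex.norm_le_of_forall_mem_frontier_norm_le`).
-/

set_option autoImplicit false

open Set Filter Topology Metric

namespace Pool.Agent.CR.G

private theorem Hz_diff {F : ℕ → ℂ → ℂ} {U K : Set ℂ} (hK : IsCompact K) (hKU : K ⊆ U)
    (hF : ∀ w ∈ U, ∀ᶠ x : ℕ × ℂ in atTop ×ˢ 𝓝 w, DifferentiableAt ℂ (F x.1) x.2) :
    ∀ᶠ N : ℕ in atTop, ∀ w ∈ K, DifferentiableAt ℂ (F N) w := by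
  refine hK.induction_on (p := fun s => ∀ᶠ N : ℕ in atTop, ∀ w ∈ s, DifferentiableAt ℂ (F N) w)
    ?_ ?_ ?_ ?_
  · exact Eventually.of_forall fun N w hw => absurd hw (notMem_empty w)
  · intro s t hst ht
    exact ht.mono fun N hN w hw => hN w (hst hw)
  · intro s t hs ht
    filter_upwards [hs, ht] with N h1 h2 w hw
    rcases hw with hw | hw
    · exact h1 w hw
    · exact h2 w hw
  · intro x hx
    obtain ⟨pa, ha, pb, hb, hab⟩ := eventually_prod_iff.1 (hF x (hKU hx))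
    refine ⟨{w | pb w}, mem_nhdsWithin_of_mem_nhds hb, ?_⟩
    filter_upwards [ha] with N hN w hw
    exact hab hN hw

theorem hurwitz {F : ℕ → ℂ → ℂ} {G : ℂ → ℂ} {U : Set ℂ} (hU : IsOpen U) (h : CC F G U)
    (hF : ∀ w ∈ U, ∀ᶠ x : ℕ × ℂ in atTop ×ˢ 𝓝 w, DifferentiableAt ℂ (F x.1) x.2) (hG : InjOn G U) {w0 : ℂ}
    (hw0 : w0 ∈ U) {ε : ℝ} (hε : 0 < ε) :
    ∀ᶠ x : ℕ × ℂ in atTop ×ˢ 𝓝 (G w0), ∃ w' : ℂ, ‖w' - w0‖ ≤ ε ∧ F x.1 w' = x.2 := by
  obtain ⟨ε1, hε1, hball⟩ := Metric.isOpen_iff.1 hU w0 hw0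
  obtain ⟨δ, hδ, hδε, hδ1⟩ : ∃ δ : ℝ, 0 < δ ∧ δ ≤ ε ∧ δ < ε1 :=
    ⟨min ε (ε1 / 2), by positivity, min_le_left _ _, (min_le_right _ _).trans_lt (by linarith)⟩
  have hsub : closedBall w0 δ ⊆ U := (closedBall_subset_ball hδ1).trans hball
  have hcont := h.continuousOn hU
  have hsph : sphere w0 δ ⊆ U := sphere_subset_closedBall.trans hsub
  obtain ⟨w1, hw1, hmin⟩ := (isCompact_sphere w0 δ).exists_isMinOn
    (NormedSpace.sphere_nonempty.2 hδ.le) (f := fun w => ‖G w - G w0‖)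
    (((hcont.mono hsph).sub continuousOn_const).norm)
  have hne : w1 ≠ w0 := by
    rintro rfl
    rw [mem_sphere, dist_self] at hw1
    exact hδ.ne hw1
  have hm : 0 < ‖G w1 - G w0‖ := by
    rw [norm_pos_iff, sub_ne_zero]
    intro he
    exact hne (hG (hsph hw1) hw0 he)
  set m := ‖G w1 - G w0‖ with hmdef
  have hunif : TendstoUniformlyOn F G atTop (closedBall w0 δ) :=
    (tendstoLocallyUniformlyOn_iff_forall_isCompact hU).1 (h.tlu hU) _ hsub
      (isCompact_closedBall w0 δ)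
  have e1 := Metric.tendstoUniformlyOn_iff.1 hunif (m / 5) (by positivity)
  have e2 := Hz_diff (isCompact_closedBall w0 δ) hsub hF
  have e3 : ∀ᶠ v : ℂ in 𝓝 (G w0), dist v (G w0) < m / 5 := Metric.ball_mem_nhds _ (by positivity)
  have e4 := (e1.and e2).prod_mk e3
  filter_upwards [e4] with x hx
  obtain ⟨⟨h1, h2⟩, h3⟩ := hx
  by_contra hcon
  push Not at hcon
  have hnz : ∀ w ∈ closedBall w0 δ, F x.1 w - x.2 ≠ 0 := by
    intro w hw
    rw [sub_ne_zero]
    refine hcon w ?_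
    rw [mem_closedBall, dist_eq_norm] at hw
    exact hw.trans hδε
  have hd : DiffContOnCl ℂ (fun w => (F x.1 w - x.2)⁻¹) (ball w0 δ) := by
    refine DifferentiableOn.diffContOnCl ?_
    rw [closure_ball w0 hδ.ne']
    intro w hw
    exact (((h2 w hw).sub_const x.2).inv (hnz w hw)).differentiableWithinAt
  have hfr : ∀ z ∈ frontier (ball w0 δ), ‖(F x.1 z - x.2)⁻¹‖ ≤ 5 / (3 * m) := by
    intro z hz
    rw [frontier_ball w0 hδ.ne'] at hz
    have k1 := h1 z (sphere_subset_closedBall hz)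
    have k2 : m ≤ ‖G z - G w0‖ := hmin hz
    have k3 : ‖G z - G w0‖ ≤ ‖G z - F x.1 z‖ + ‖F x.1 z - x.2‖ + ‖x.2 - G w0‖ := by
      calc ‖G z - G w0‖ = ‖(G z - F x.1 z) + (F x.1 z - x.2) + (x.2 - G w0)‖ := by
            congr 1
            ring
        _ ≤ _ := norm_add₃_le
    rw [dist_eq_norm] at k1 h3
    have k4 : 3 * m / 5 ≤ ‖F x.1 z - x.2‖ := by linarith
    rw [norm_inv, show 5 / (3 * m) = (3 * m / 5)⁻¹ by rw [inv_div]]
    exact inv_anti₀ (by positivity) k4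
  have hc := Complex.norm_le_of_forall_mem_frontier_norm_le isBounded_ball hd hfr
    (subset_closure (mem_ball_self hδ))
  have k1 := h1 w0 (mem_closedBall_self hδ.le)
  rw [dist_eq_norm] at k1 h3
  have k3 : ‖F x.1 w0 - x.2‖ ≤ ‖G w0 - F x.1 w0‖ + ‖x.2 - G w0‖ := by
    calc ‖F x.1 w0 - x.2‖ = ‖-((G w0 - F x.1 w0) + (x.2 - G w0))‖ := by
          congr 1
          ring
      _ ≤ _ := by
          rw [norm_neg]
          exact norm_add_le _ _
  have k4 : ‖F x.1 w0 - x.2‖ ≤ 2 * m / 5 := by linarith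
  have k5 : 0 < ‖F x.1 w0 - x.2‖ := norm_pos_iff.2 (hnz w0 (mem_closedBall_self hδ.le))
  rw [norm_inv] at hc
  have k6 : (2 * m / 5)⁻¹ ≤ ‖F x.1 w0 - x.2‖⁻¹ := inv_anti₀ k5 k4
  rw [inv_div] at k6
  have k7 : 5 / (2 * m) ≤ 5 / (3 * m) := k6.trans hc
  rw [div_le_div_iff₀ (by positivity) (by positivity)] at k7
  linarith

end Pool.Agent.CR.G
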