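import Pool.Agent.H48.CR.Chart

/-!
# CR Low: passing below the hole

A point of the left side of sheet `j`, far down, is mapped by some iterate of `f_0` to the right side of the sheet
`j - 1 + n p`.

Proof. Write `l0 = mu (p/q)`, `f0 = f l0`, `z_0 = X.W0 j w`, `z_n = f0^[n] z_0`, `y_n = X.Y0 z_n`. For `z ≠ 0` small, `y = Y0 z` with
`y.im < |y.re| / 2` put `I(z) = X z / (exp (-π i / q) * (i y)^(-1/q))` (principal power; `i y` has real part `-y.im > - |y.re| / 2`,
so `i y` is in the slit plane, and for such `y`, `|arg (i y)| ≤ 3 π / 4`, say). As `Y0 z = i / (X z)^q`, `I(z)^q = 1`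
(`(exp (-π i/q))^q = -1`, `((i y)^(-1/q))^q = 1 / (i y)`).
(1) `I (f0 z) = l0 I(z)` if both `z` and `f0 z` are small and lie in this region: `X (f0 z) / X z → l0` for `z → 0` (both `X ∘ f0` and `X`
are analytic with a simple zero at `0`, derivatives `l0 X'(0)`, `X'(0)`), `y' = Y0 (f0 z) = y + 1 + o(1)` and `|y|` is large, so
`(i y')^(-1/q) / (i y)^(-1/q) → 1` (the quotient `y'/y → 1`, both in the sector `|arg| ≤ 3π/4`); so `I (f0 z) / (l0 I(z))` is a `q`-th root of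
unity close to `1`, hence equal to `1`.
(2) `I (W0 j w) = exp (2 π i j / q)` for `w ∈ Wd0 R`, `‖w‖` large, `w.re < 0`, `|w.im| < |w.re| / 4`... in fact for all `w ∈ Wd0 R` large with
`w.re < 0`, `Y0 (W0 j w).im < |..|/2`: by `X_W0`, `X (W0 j w) ≈ exp (2 π i j/q) (-i w)^(-1/q)` and `(-i w)^(-1/q) = exp(-π i/q) (i w)^(-1/q)` for
`w.re < 0` and `-i w`, `i w` in the slit plane (`arg (-i w) = π + arg (i w)`), `y ≈ w` by `Y0_W0`. (3) `I (W0 j' w) = exp (2 π i (j'+1) / q)`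
for `w.re > 0` (`arg (-i w) = -π + arg (i w)`, so `(-i w)^(-1/q) = exp (π i/q) (i w)^(-1/q)`).
(4) The passage: given `S`, choose `A` large. `w ∈ Wd0 R`, `w.re < 0`, `w.im < - M1`: so `w.re < -M1` too (`-w.im < |w.re|`), `y_0 ≈ w` (relative
error `ε`). As long as `|y_k| ≥ A` the point `z_k` has to be small: this uses `small0` at the start and then a continuity argument: `z` small
(`‖z‖ < r`) gives `Y0 (f0 z) = Y0 z + 1 + O(ε)`; and `‖X z‖^q = 1 / ‖Y0 z‖`, so `Y0 z` large and `z` small gives `X z` small; `‖z‖ ≤ 2 ‖X z‖ / ‖X'(0)‖`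
for `z` small; `‖f0 z‖ ≤ 2 ‖z‖`; so by induction `y_k = y_0 + k + O(ε k)`, `‖z_k‖ ≤ 2 ‖X z_k‖/‖X'(0)‖ = 2 ‖y_k‖^(-1/q)/‖X'(0)‖` stays small as long as
`‖y_k‖ ≥ A`, which holds for all `k` (`y_0.im < -M1/2`, `|y_k - y_0 - k| ≤ ε k`; while `k ≤ 4 ‖y_0‖` the imaginary part is
`≤ -‖y_0‖ (c - 4 ε) `: note that `-y_0.im ≥ M1/2` only. Hence use: `‖y_0 + k‖ ≥ ‖y_0‖ / 8` is false in general when `|w.im| ≪ |w.re|`!).
CAREFUL: if `|w.im|` is small compared with `|w.re|` the orbit comes close to the hole and the error `ε k` is not good enough. Therefore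
first move inside the sheet by the map equation: `map0` with `‖δ0‖ ≤ min (1/8, C ‖·‖^(-1-1/q))`: the total error is `≤ C' M1^(-1/q) ≤ 1` as long
as the points `w_k = w_{k-1} + 1 + δ0` are in `Wd0 R` with `w_k + 1 ∈ Wi0 R`, i.e. until `|w_k.re| ≤ 2 |w_k.im| + 2`, roughly; there `|w_k.im| ≥ M1 - 1`. This
first phase stays on the left side (`w_k.re < 0`) and the sheet changes to `j + k p`. So we may assume `|w.re| ≤ 3 |w.im|`, `w.im < -M1/2`.
Then with `y = Y0`: `y_0 ≈ w`, `ε` small (absolute constant), the passage below the hole takes `k ≤ 20 |w.im|` steps, `|y_k - (y_0 + k)| ≤ ε k ≤ 20 ε |w.im|`,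
so `y_k.im ≤ -|w.im| / 2` for these `k`, and at the end `y_k.re ≥ 8 |w.im|`, `|y_k.im| ≤ 2 |w.im|`: so `-y_k.im < y_k.re / 2` (in fact `≤ y_k.re/4`),
and `Y0_surj` gives `z_k = W0 j' w'` with `‖w'‖` large, `w' ≈ y_k` (by `Y0_W0`), so `w'.re + 4 w'.im > ` ...
(continue the orbit a little: `k` up to `60 |w.im|`, then `y_k.re ≥ 20 |y_k.im|` and `w'.re + 4 w'.im ≥ y_k.re/2 > S`).
By (1), (2), (3) `exp (2 π i (j' + 1)/q) = l0^k exp (2 π i j/q) = exp (2 π i (j + k p)/q)`, so `j' ≡ j - 1 + k p (mod q)` and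
`W0 j' = W0 (j - 1 + k p)` by `per0`.
-/

set_option autoImplicit false

open Set Filter Topology Metric

namespace Pool.Agent.CR

private theorem Low_root (q : ℕ) (hq : 0 < q) : ∃ c : ℝ, 0 < c ∧ ∀ ζ : ℂ, ζ ^ q = 1 → ‖ζ - 1‖ < c → ζ = 1 := by
  have h1 : ContinuousAt (fun ζ : ℂ => ∑ i ∈ Finset.range q, ζ ^ i) 1 := by fun_prop
  have h2 : (∑ i ∈ Finset.range q, (1 : ℂ) ^ i) ≠ 0 := by
    simp only [one_pow, Finset.sum_const, Finset.card_range, nsmul_eq_mul, mul_one]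
    exact_mod_cast hq.ne'
  have h3 : ∀ᶠ ζ : ℂ in 𝓝 1, (∑ i ∈ Finset.range q, ζ ^ i) ≠ 0 := h1.eventually_ne h2
  obtain ⟨c, hc, h4⟩ := Metric.eventually_nhds_iff.mp h3
  refine ⟨c, hc, fun ζ hζ hc' => ?_⟩
  have h5 := h4 (by rw [dist_eq_norm]; exact hc')
  have h6 : (∑ i ∈ Finset.range q, ζ ^ i) * (ζ - 1) = ζ ^ q - 1 := geom_sum_mul ζ q
  rw [hζ, sub_self] at h6
  rcases mul_eq_zero.mp h6 with h | h
  · exact absurd h h5
  · exact sub_eq_zero.mp h

private theorem Low_arg {a : ℂ} (ha : 0 < a.re) : -(Real.pi / 2) < a.arg ∧ a.arg < Real.pi / 2 := by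
  have := Complex.abs_arg_lt_pi_div_two_iff.mpr (Or.inl ha)
  exact abs_lt.mp this

private theorem Low_cpow {a b : ℂ} (ha : 0 < a.re) (hb : 0 < b.re) (x : ℂ) :
    a ^ x = (a / b) ^ x * b ^ x := by
  have ha0 : a ≠ 0 := by rintro rfl; simp at ha
  have hb0 : b ≠ 0 := by rintro rfl; simp at hb
  have h1 := Low_arg ha
  have h2 := Low_arg hb
  have h3 : (b⁻¹).arg = - b.arg := by
    rw [Complex.arg_inv, if_neg]
    intro h
    have := Real.pi_pos
    linarith
  have h4 : Complex.log (a / b) = Complex.log a - Complex.log b := by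
    rw [div_eq_mul_inv, (Complex.log_mul_eq_add_log_iff ha0 (inv_ne_zero hb0)).mpr]
    · rw [Complex.log_inv _ (by have := Real.pi_pos; intro h; linarith)]
      ring
    · rw [h3]
      constructor <;> linarith
  rw [Complex.cpow_def_of_ne_zero ha0, Complex.cpow_def_of_ne_zero hb0,
    Complex.cpow_def_of_ne_zero (div_ne_zero ha0 hb0), h4, ← Complex.exp_add]
  congr 1
  ring

private theorem Low_neg {w : ℂ} (hw : w.im < 0) (q : ℂ) :
    (w.re < 0 → (-Complex.I * w) ^ (-(1 / q)) =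
      Complex.exp (-(Real.pi * Complex.I / q)) * (Complex.I * w) ^ (-(1 / q))) ∧
    (0 < w.re → (-Complex.I * w) ^ (-(1 / q)) =
      Complex.exp (Real.pi * Complex.I / q) * (Complex.I * w) ^ (-(1 / q))) := by
  have hw0 : w ≠ 0 := by rintro rfl; simp at hw
  have h0 : Complex.I * w ≠ 0 := mul_ne_zero Complex.I_ne_zero hw0
  have h0' : -Complex.I * w ≠ 0 := mul_ne_zero (neg_ne_zero.mpr Complex.I_ne_zero) hw0
  have him : (Complex.I * w).im = w.re := by simp
  have hre : (Complex.I * w).re = -w.im := by simp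
  have hneg : -Complex.I * w = -(Complex.I * w) := by ring
  constructor
  · intro h
    have h1 : (-(Complex.I * w)).arg = (Complex.I * w).arg + Real.pi :=
      Complex.arg_neg_eq_arg_add_pi_of_im_neg (by rw [him]; exact h)
    have h2 : Complex.log (-(Complex.I * w)) = Complex.log (Complex.I * w) + Real.pi * Complex.I := by
      rw [Complex.log, Complex.log, norm_neg, h1]
      push_cast
      ring
    rw [hneg, Complex.cpow_def_of_ne_zero (neg_ne_zero.mpr h0), Complex.cpow_def_of_ne_zero h0, h2,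
      ← Complex.exp_add]
    congr 1
    ring
  · intro h
    have h1 : (-(Complex.I * w)).arg = (Complex.I * w).arg - Real.pi :=
      Complex.arg_neg_eq_arg_sub_pi_of_im_pos (by rw [him]; exact h)
    have h2 : Complex.log (-(Complex.I * w)) = Complex.log (Complex.I * w) - Real.pi * Complex.I := by
      rw [Complex.log, Complex.log, norm_neg, h1]
      push_cast
      ring
    rw [hneg, Complex.cpow_def_of_ne_zero (neg_ne_zero.mpr h0), Complex.cpow_def_of_ne_zero h0, h2,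
      ← Complex.exp_add]
    congr 1
    ring

private theorem Low_pot {a x x' : ℝ} (ha : 0 < a) (hx' : 0 < x') (hx : x' + 7 / 8 ≤ x) :
    x ^ (-a) + 7 / 8 * a * x ^ (-(1 + a)) ≤ x' ^ (-a) := by
  have hx0 : 0 < x := by linarith
  have h1 : x' = x * (x' / x) := by field_simp
  have h2 : x' ^ (-a) = x ^ (-a) * (x' / x) ^ (-a) := by
    conv_lhs => rw [h1]
    exact Real.mul_rpow hx0.le (div_pos hx' hx0).le
  have h3 : 1 + a * (1 - x' / x) ≤ (x' / x) ^ (-a) := by
    rw [Real.rpow_def_of_pos (div_pos hx' hx0)]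
    have h4 := Real.add_one_le_exp (Real.log (x' / x) * -a)
    have h5 := Real.log_le_sub_one_of_pos (div_pos hx' hx0)
    nlinarith
  have h6 : x ^ (-(1 + a)) = x ^ (-a) / x := by
    rw [show -(1 + a) = -a - 1 by ring, Real.rpow_sub_one hx0.ne']
  have h7 : 0 < x ^ (-a) := Real.rpow_pos_of_pos hx0 _
  have h8 : 7 / 8 / x ≤ 1 - x' / x := by
    rw [div_le_iff₀ hx0, sub_mul, one_mul, div_mul_cancel₀ _ hx0.ne']
    linarith
  rw [h2, h6]
  calc x ^ (-a) + 7 / 8 * a * (x ^ (-a) / x) = x ^ (-a) * (1 + a * (7 / 8 / x)) := by ring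
    _ ≤ x ^ (-a) * (1 + a * (1 - x' / x)) := by gcongr
    _ ≤ _ := by gcongr

private theorem Low_phase {p q s e : ℕ} (hq : 0 < q) (X : Chart p q s e) :
    ∃ C' : ℝ, 0 ≤ C' ∧ ∀ M : ℝ, X.R + 10 ≤ M → ∀ (k : ℕ) (j : ℤ) (w : ℂ), w ∈ Wd0 X.R → w.re ≤ -1 →
      -w.re ≤ 7 / 8 * k → w.im - C' * (-w.re) ^ (-(1 / (q : ℝ))) < -M - C' →
      ∃ (n : ℕ) (w' : ℂ), w' ∈ Wd0 X.R ∧ w'.re < 0 ∧ w'.im < -M ∧ -w'.re - 1 ≤ 2 * (-w'.im) ∧
        (f (mu ((p : ℝ) / q)))^[n] (X.W0 j w) = X.W0 (j + n * p) w' := by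
  have ha : (0 : ℝ) < 1 / (q : ℝ) := by positivity
  have hCpos := X.C_pos
  have hR := X.R_ge
  refine ⟨8 / 7 * X.C * q, by positivity, fun M hM k => ?_⟩
  set a : ℝ := 1 / (q : ℝ) with hadef
  set C' : ℝ := 8 / 7 * X.C * q with hC'
  have hC'0 : 0 ≤ C' := by positivity
  have hC'a : C' * (7 / 8 * a) = X.C := by
    rw [hC', hadef]
    field_simp
  induction k with
  | zero =>
    intro j w _ h1 h2 _
    simp only [Nat.cast_zero, mul_zero] at h2
    linarith
  | succ k ih =>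
    intro j w hw h1 h2 h3
    have hx1 : (-w.re) ^ (-a) ≤ 1 := Real.rpow_le_one_of_one_le_of_nonpos (by linarith) (by linarith)
    have him : w.im < -M := by nlinarith
    by_cases h : -w.im < |w.re + 1| / 2
    · have habs : |w.re + 1| = -(w.re + 1) := abs_of_nonpos (by linarith)
      rw [habs] at h
      have hwi : w + 1 ∈ Wi0 X.R := by
        constructor
        · have h4 : |(w + 1).re| ≤ ‖w + 1‖ := Complex.abs_re_le_norm _
          have h5 : |(w + 1).re| = -(w.re + 1) := by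
            rw [Complex.add_re, Complex.one_re]
            exact habs
          rw [h5] at h4
          linarith
        · rw [Complex.add_im, Complex.one_im, Complex.add_re, Complex.one_re, add_zero, habs]
          exact h
      obtain ⟨hδ1, hδ2⟩ := X.δ0_small j w hw hwi
      have hmap := X.map0 j w hw hwi
      set δ := X.δ0 j w with hδ
      have hδre : |δ.re| ≤ 1 / 8 := (Complex.abs_re_le_norm _).trans hδ1
      have hδim : |δ.im| ≤ ‖δ‖ := Complex.abs_im_le_norm _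
      obtain ⟨hδre1, hδre2⟩ := abs_le.mp hδre
      obtain ⟨hδim1, hδim2⟩ := abs_le.mp hδim
      have hre : (w + 1 + δ).re = w.re + 1 + δ.re := by simp
      have him' : (w + 1 + δ).im = w.im + δ.im := by simp
      have hnw : -w.re ≤ ‖w‖ := (neg_le_abs _).trans (Complex.abs_re_le_norm _)
      have hδ3 : ‖δ‖ ≤ X.C * (-w.re) ^ (-(1 + a)) := by
        refine hδ2.trans ?_
        gcongr 1
        exact Real.rpow_le_rpow_of_nonpos (by linarith) hnw (by linarith)
      have hx' : 0 < -(w + 1 + δ).re := by rw [hre]; linarith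
      have hpot := Low_pot (a := a) (x := -w.re) (x' := -(w + 1 + δ).re) ha hx'
        (by rw [hre]; linarith)
      have hw1 : w + 1 + δ ∈ Wd0 X.R := by
        constructor
        · have h4 : |(w + 1 + δ).re| ≤ ‖w + 1 + δ‖ := Complex.abs_re_le_norm _
          have h5 : |(w + 1 + δ).re| = -(w.re + 1 + δ.re) := by
            rw [hre]
            exact abs_of_neg (by rw [hre] at hx'; linarith)
          rw [h5] at h4
          linarith
        · rw [him', hre, abs_of_neg (by rw [hre] at hx'; linarith)]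
          linarith
      obtain ⟨n, w', hw', hre', him'', hbal, hit⟩ := ih (j + p) (w + 1 + δ) hw1
        (by rw [hre]; linarith)
        (by
          rw [hre]
          push_cast at h2
          linarith)
        (by
          have h6 : C' * (7 / 8 * a * (-w.re) ^ (-(1 + a))) = X.C * (-w.re) ^ (-(1 + a)) := by
            rw [← mul_assoc, hC'a]
          have h7 := mul_le_mul_of_nonneg_left hpot hC'0
          rw [mul_add, h6] at h7
          rw [him']
          linarith)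
      refine ⟨n + 1, w', hw', hre', him'', hbal, ?_⟩
      rw [Function.iterate_succ_apply, hmap, hit]
      congr 1
      push_cast
      ring
    · refine ⟨0, w, hw, by linarith, him, ?_, by simp⟩
      rw [not_lt] at h
      have := neg_le_abs (w.re + 1)
      linarith


private theorem Low_mu {p q : ℕ} (hq : 0 < q) : (mu ((p : ℝ) / q)) ^ q = 1 := by
  rw [mu, ← Complex.exp_nat_mul]
  rw [Complex.exp_eq_one_iff]
  refine ⟨p, ?_⟩
  have : (q : ℂ) ≠ 0 := by exact_mod_cast hq.ne'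
  push_cast
  field_simp

/-- the local analysis at `0` -/
private theorem Low_local {p q s e : ℕ} (hq : 0 < q) (X : Chart p q s e) :
    ∃ r c0 : ℝ, 0 < r ∧ 0 < c0 ∧ ∀ z : ℂ, z ≠ 0 → ‖z‖ < r →
      X.X z ≠ 0 ∧ X.Y0 z = Complex.I / X.X z ^ q ∧ c0 * ‖z‖ ≤ ‖X.X z‖ ∧
      f (mu ((p : ℝ) / q)) z ≠ 0 ∧ ‖f (mu ((p : ℝ) / q)) z‖ ≤ 2 * ‖z‖ ∧
      ‖X.Y0 (f (mu ((p : ℝ) / q)) z) - X.Y0 z - 1‖ ≤ 1 / 1000 ∧
      ((X.Y0 z).im < 0 → (X.Y0 (f (mu ((p : ℝ) / q)) z)).im < 0 →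
        X.X (f (mu ((p : ℝ) / q)) z) * (Complex.I * X.Y0 (f (mu ((p : ℝ) / q)) z)) ^ (1 / (q : ℂ)) =
          mu ((p : ℝ) / q) * (X.X z * (Complex.I * X.Y0 z) ^ (1 / (q : ℂ)))) := by
  set l := mu ((p : ℝ) / q) with hl
  have hlq : l ^ q = 1 := Low_mu hq
  have hl1 : ‖l‖ = 1 := by
    rw [hl, mu, Complex.norm_exp]
    simp
  have hl0 : l ≠ 0 := by
    intro h
    rw [h, norm_zero] at hl1
    exact zero_ne_one hl1
  obtain ⟨c, hc, hroot⟩ := Low_root q hq
  have hD := X.X_an.differentiableAt.hasDerivAt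
  set D := deriv X.X 0 with hDdef
  have hD0 : D ≠ 0 := X.X_deriv
  have hX0 := X.X_zero
  have hf : HasDerivAt (f l) l 0 := by
    have h2 := (hasDerivAt_pow 2 (0 : ℂ)).add ((hasDerivAt_id (0 : ℂ)).const_mul l)
    have h3 : ((2 : ℕ) : ℂ) * 0 ^ (2 - 1) + l * 1 = l := by simp
    rw [h3] at h2
    exact h2
  have hf0 : f l 0 = 0 := by simp [f]
  have hslope : Tendsto (fun z => X.X z / z) (𝓝[≠] 0) (𝓝 D) := by
    have h1 := hD.tendsto_slope
    refine h1.congr' ?_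
    filter_upwards [self_mem_nhdsWithin] with z hz
    rw [slope_def_field, hX0, sub_zero, sub_zero]
  have hslope2 : Tendsto (fun z => X.X (f l z) / z) (𝓝[≠] 0) (𝓝 (D * l)) := by
    have h0 : HasDerivAt X.X D (f l 0) := by rw [hf0]; exact hD
    have h1 := (h0.comp 0 hf).tendsto_slope
    refine h1.congr' ?_
    filter_upwards [self_mem_nhdsWithin] with z hz
    rw [slope_def_field, Function.comp_apply, Function.comp_apply, hf0, hX0, sub_zero, sub_zero]
  have hratio : Tendsto (fun z => X.X (f l z) / (l * X.X z)) (𝓝[≠] 0) (𝓝 1) := by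
    have h1 := hslope2.div (hslope.const_mul l) (mul_ne_zero hl0 hD0)
    have h2 : D * l / (l * D) = 1 := by field_simp
    rw [h2] at h1
    refine h1.congr' ?_
    filter_upwards [self_mem_nhdsWithin] with z hz
    have hz0 : z ≠ 0 := hz
    simp only [Pi.div_apply]
    by_cases hXz : X.X z = 0
    · simp [hXz]
    · field_simp
  have hev : ∀ {P : ℂ → Prop}, (∃ r : ℝ, 0 < r ∧ ∀ z : ℂ, z ≠ 0 → ‖z‖ < r → P z) →
      ∀ᶠ z in 𝓝[≠] (0 : ℂ), P z := by
    rintro P ⟨r, hr, h⟩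
    rw [eventually_nhdsWithin_iff]
    filter_upwards [Metric.ball_mem_nhds (0 : ℂ) hr] with z hz hz0
    exact h z hz0 (by simpa using hz)
  have hYratio : Tendsto (fun z => X.Y0 (f l z) / X.Y0 z) (𝓝[≠] 0) (𝓝 1) := by
    rw [Metric.tendsto_nhds]
    intro ε hε
    filter_upwards [hev (X.Y0_map 1 one_pos), hev (X.Y0_large (4 / ε + 1))] with z h1 h2
    have h3 : 0 < ‖X.Y0 z‖ := lt_of_lt_of_le (by positivity) h2
    have h4 : X.Y0 z ≠ 0 := norm_pos_iff.mp h3
    rw [dist_eq_norm]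
    have h5 : X.Y0 (f l z) / X.Y0 z - 1 = (X.Y0 (f l z) - X.Y0 z - 1 + 1) / X.Y0 z := by
      field_simp
      ring
    rw [h5, norm_div, div_lt_iff₀ h3]
    calc ‖X.Y0 (f l z) - X.Y0 z - 1 + 1‖ ≤ ‖X.Y0 (f l z) - X.Y0 z - 1‖ + ‖(1 : ℂ)‖ := norm_add_le _ _
      _ ≤ 1 + 1 := by
        rw [norm_one]
        linarith
      _ < 4 := by norm_num
      _ = ε * (4 / ε) := by field_simp
      _ ≤ ε * ‖X.Y0 z‖ := by
        gcongr
        linarith
  have hζ : Tendsto (fun z => X.X (f l z) / (l * X.X z) * (X.Y0 (f l z) / X.Y0 z) ^ (1 / (q : ℂ)))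
      (𝓝[≠] 0) (𝓝 1) := by
    have h1 : Tendsto (fun u : ℂ => u ^ (1 / (q : ℂ))) (𝓝 1) (𝓝 (1 ^ (1 / (q : ℂ)))) :=
      (continuousAt_cpow_const (by simp [Complex.one_mem_slitPlane]))
    rw [Complex.one_cpow] at h1
    have h2 := hratio.mul (h1.comp hYratio)
    rwa [mul_one] at h2
  have hfsmall : ∀ z : ℂ, z ≠ 0 → ‖z‖ < 1 → f l z ≠ 0 ∧ ‖f l z‖ ≤ 2 * ‖z‖ := by
    intro z hz0 hz
    have h1 : f l z = z * (z + l) := by
      rw [f]
      ring
    rw [h1]
    constructor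
    · refine mul_ne_zero hz0 fun h => ?_
      have h2 : z = -l := by linear_combination h
      rw [h2, norm_neg, hl1] at hz
      exact lt_irrefl _ hz
    · rw [norm_mul]
      have h2 : ‖z + l‖ ≤ 2 := (norm_add_le _ _).trans (by rw [hl1]; linarith)
      nlinarith [norm_nonneg z]
  have hXlow : ∀ᶠ z in 𝓝[≠] (0 : ℂ), ‖D‖ / 2 * ‖z‖ ≤ ‖X.X z‖ := by
    have h1 : ∀ᶠ z in 𝓝[≠] (0 : ℂ), ‖D‖ / 2 < ‖X.X z / z‖ :=
      hslope.norm.eventually_const_lt (by linarith [norm_pos_iff.mpr hD0])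
    filter_upwards [h1, self_mem_nhdsWithin] with z h2 h3
    have h4 : 0 < ‖z‖ := norm_pos_iff.mpr h3
    rw [norm_div, lt_div_iff₀ h4] at h2
    exact h2.le
  have hcont : Tendsto (f l) (𝓝[≠] 0) (𝓝[≠] 0) := by
    rw [tendsto_nhdsWithin_iff]
    constructor
    · have h1 := hf.continuousAt
      rw [ContinuousAt, hf0] at h1
      exact h1.mono_left nhdsWithin_le_nhds
    · filter_upwards [hev ⟨1, one_pos, fun z hz0 hz => hfsmall z hz0 hz⟩] with z hz
      exact hz.1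
  have hYeq := hev X.Y0_eq
  have hall : ∀ᶠ z in 𝓝[≠] (0 : ℂ),
      X.X z ≠ 0 ∧ X.Y0 z = Complex.I / X.X z ^ q ∧ ‖D‖ / 2 * ‖z‖ ≤ ‖X.X z‖ ∧
      f l z ≠ 0 ∧ ‖f l z‖ ≤ 2 * ‖z‖ ∧
      ‖X.Y0 (f l z) - X.Y0 z - 1‖ ≤ 1 / 1000 ∧
      ((X.Y0 z).im < 0 → (X.Y0 (f l z)).im < 0 →
        X.X (f l z) * (Complex.I * X.Y0 (f l z)) ^ (1 / (q : ℂ)) =
          l * (X.X z * (Complex.I * X.Y0 z) ^ (1 / (q : ℂ)))) := by
    filter_upwards [hYeq, hcont.eventually hYeq, hXlow, hev ⟨1, one_pos, fun z hz0 hz => hfsmall z hz0 hz⟩,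
      hev (X.Y0_map (1 / 1000) (by norm_num)), (Metric.tendsto_nhds.mp hζ) c hc] with z h1 h2 h3 h4 h5 h6
    refine ⟨h1.1, h1.2, h3, h4.1, h4.2, h5, fun him him' => ?_⟩
    set y := X.Y0 z with hy
    set y' := X.Y0 (f l z) with hy'
    set ζ := X.X (f l z) / (l * X.X z) * (y' / y) ^ (1 / (q : ℂ)) with hζdef
    have hre : 0 < (Complex.I * y).re := by simpa using him
    have hre' : 0 < (Complex.I * y').re := by simpa using him'
    have hy0 : y ≠ 0 := by rintro h; rw [h] at him; simp at him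
    have hy'0 : y' ≠ 0 := by rintro h; rw [h] at him'; simp at him'
    have h7 := Low_cpow hre' hre (1 / (q : ℂ))
    have h8 : Complex.I * y' / (Complex.I * y) = y' / y := by
      rw [mul_div_mul_left _ _ Complex.I_ne_zero]
    rw [h8] at h7
    have h9 : X.X (f l z) * (Complex.I * y') ^ (1 / (q : ℂ)) =
        ζ * (l * (X.X z * (Complex.I * y) ^ (1 / (q : ℂ)))) := by
      rw [h7, hζdef]
      have := h1.1
      field_simp
    have hpow : ∀ u : ℂ, (u ^ (1 / (q : ℂ))) ^ q = u := by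
      intro u
      rw [one_div]
      exact Complex.cpow_nat_inv_pow u hq.ne'
    have hA : (X.X (f l z) * (Complex.I * y') ^ (1 / (q : ℂ))) ^ q = -1 := by
      rw [mul_pow, hpow, h2.2]
      have := h2.1
      field_simp
      exact Complex.I_sq
    have hB : (X.X z * (Complex.I * y) ^ (1 / (q : ℂ))) ^ q = -1 := by
      rw [mul_pow, hpow, h1.2]
      have := h1.1
      field_simp
      exact Complex.I_sq
    have hζq : ζ ^ q = 1 := by
      rw [h9, mul_pow, mul_pow l, hlq, hB] at hA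
      linear_combination -hA
    have hζ1 : ζ = 1 := hroot ζ hζq (by rw [← dist_eq_norm]; exact h6)
    rw [h9, hζ1, one_mul]
  rw [eventually_nhdsWithin_iff] at hall
  obtain ⟨r, hr, hball⟩ := Metric.eventually_nhds_iff.mp hall
  exact ⟨r, ‖D‖ / 2, hr, by positivity, fun z hz0 hz => hball (by simpa using hz) hz0⟩

private theorem Low_ej {q : ℕ} (hq : 0 < q) (j : ℤ) {E : ℂ} (hE : E ^ q = -1) :
    (Complex.exp (2 * Real.pi * Complex.I * j / q) * E) ^ q = -1 := by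
  have hq0 : (q : ℂ) ≠ 0 := by exact_mod_cast hq.ne'
  rw [mul_pow, hE, ← Complex.exp_nat_mul]
  have h1 : (q : ℂ) * (2 * Real.pi * Complex.I * j / q) = j * (2 * Real.pi * Complex.I) := by
    field_simp
  rw [h1, Complex.exp_int_mul_two_pi_mul_I, one_mul]

/-- the sheets are recognised by a root of unity -/
private theorem Low_sheet {p q s e : ℕ} (hq : 0 < q) (X : Chart p q s e) :
    ∃ R' : ℝ, 0 < R' ∧ ∀ (j : ℤ) (w : ℂ), w ∈ Wd0 X.R → R' < ‖w‖ → w.im < 0 → (X.Y0 (X.W0 j w)).im < 0 →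
      (w.re < 0 → X.X (X.W0 j w) * (Complex.I * X.Y0 (X.W0 j w)) ^ (1 / (q : ℂ)) =
        Complex.exp (2 * Real.pi * Complex.I * j / q) * Complex.exp (-(Real.pi * Complex.I / q))) ∧
      (0 < w.re → X.X (X.W0 j w) * (Complex.I * X.Y0 (X.W0 j w)) ^ (1 / (q : ℂ)) =
        Complex.exp (2 * Real.pi * Complex.I * j / q) * Complex.exp (Real.pi * Complex.I / q)) := by
  obtain ⟨c, hc, hroot⟩ := Low_root q hq
  have hq0 : (q : ℂ) ≠ 0 := by exact_mod_cast hq.ne'
  have hcont : ContinuousAt (fun u : ℂ => u ^ (1 / (q : ℂ))) 1 :=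
    continuousAt_cpow_const (by simp [Complex.one_mem_slitPlane])
  have hone : (1 : ℂ) ^ (1 / (q : ℂ)) = 1 := Complex.one_cpow _
  obtain ⟨ε1, hε1, h1⟩ := Metric.continuousAt_iff.mp hcont (min (c / 3) 1) (by positivity)
  simp only [hone] at h1
  set ε : ℝ := min (ε1 / 2) (c / 6) with hεdef
  have hε : 0 < ε := by positivity
  obtain ⟨R1, hR1⟩ := X.Y0_W0 ε hε
  obtain ⟨R2, hR2⟩ := X.X_W0 ε hε
  obtain ⟨r0, hr0, hYeq⟩ := X.Y0_eq
  have hqr : (0 : ℝ) < 1 / (q : ℝ) := by positivity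
  have hsm : ∃ R3 : ℝ, 0 < R3 ∧ X.C * R3 ^ (-(1 / (q : ℝ))) < r0 := by
    have h2 : Tendsto (fun x : ℝ => X.C * x ^ (-(1 / (q : ℝ)))) atTop (𝓝 (X.C * 0)) :=
      (tendsto_rpow_neg_atTop hqr).const_mul _
    rw [mul_zero] at h2
    have h3 := (h2.eventually_lt_const hr0).and (eventually_gt_atTop 0)
    obtain ⟨R3, h4, h5⟩ := h3.exists
    exact ⟨R3, h5, h4⟩
  obtain ⟨R3, hR3, hsm⟩ := hsm
  refine ⟨max (max R1 R2) (max R3 1), by positivity, fun j w hw hRw him hYim => ?_⟩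
  have hw1 : R1 < ‖w‖ := ((le_max_left _ _).trans (le_max_left _ _)).trans_lt hRw
  have hw2 : R2 < ‖w‖ := ((le_max_right _ _).trans (le_max_left _ _)).trans_lt hRw
  have hw3 : R3 < ‖w‖ := ((le_max_left _ _).trans (le_max_right _ _)).trans_lt hRw
  have hwpos : 0 < ‖w‖ := hR3.trans hw3
  have hw0 : w ≠ 0 := norm_pos_iff.mp hwpos
  set z := X.W0 j w with hz
  have hz0 : z ≠ 0 := X.ne_zero0 j w hw
  have hzr : ‖z‖ < r0 := by
    refine (X.small0 j w hw).trans_lt (lt_of_le_of_lt ?_ hsm)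
    have := X.C_pos
    gcongr 1
    exact Real.rpow_le_rpow_of_nonpos hR3 hw3.le (by linarith)
  obtain ⟨hXz, hYz⟩ := hYeq z hz0 hzr
  set y := X.Y0 z with hy
  have hyw := hR1 j w hw hw1
  rw [← hz, ← hy] at hyw
  have hXw := hR2 j w hw hw2
  rw [← hz] at hXw
  have hre : 0 < (Complex.I * w).re := by simpa using him
  have hre' : 0 < (Complex.I * y).re := by simpa using hYim
  have hpow : ∀ u : ℂ, (u ^ (1 / (q : ℂ))) ^ q = u := by
    intro u
    rw [one_div]
    exact Complex.cpow_nat_inv_pow u hq.ne'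
  have hB : (X.X z * (Complex.I * y) ^ (1 / (q : ℂ))) ^ q = -1 := by
    rw [mul_pow, hpow, hYz]
    field_simp
    exact Complex.I_sq
  -- the quotient `y / w`
  have hyw1 : dist (y / w) 1 < ε1 := by
    rw [dist_eq_norm]
    have h2 : y / w - 1 = (y - w) / w := by field_simp
    rw [h2, norm_div, div_lt_iff₀ hwpos]
    calc ‖y - w‖ ≤ ε * ‖w‖ := hyw
      _ ≤ ε1 / 2 * ‖w‖ := by gcongr; exact min_le_left _ _
      _ < ε1 * ‖w‖ := by nlinarith
  have h2 := h1 hyw1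
  rw [dist_eq_norm] at h2
  have h3 : ‖(y / w) ^ (1 / (q : ℂ)) - 1‖ < c / 3 := h2.trans_le (min_le_left _ _)
  have h4 : ‖(y / w) ^ (1 / (q : ℂ))‖ ≤ 2 := by
    have h5 := h2.trans_le (min_le_right _ _)
    calc ‖(y / w) ^ (1 / (q : ℂ))‖ = ‖((y / w) ^ (1 / (q : ℂ)) - 1) + 1‖ := by ring_nf
      _ ≤ ‖(y / w) ^ (1 / (q : ℂ)) - 1‖ + ‖(1 : ℂ)‖ := norm_add_le _ _
      _ ≤ 2 := by rw [norm_one]; linarith
  have h5 := Low_cpow hre' hre (1 / (q : ℂ))
  rw [mul_div_mul_left _ _ Complex.I_ne_zero] at h5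
  have hIw : Complex.I * w ≠ 0 := mul_ne_zero Complex.I_ne_zero hw0
  have h6 : (Complex.I * w) ^ (-(1 / (q : ℂ))) * (Complex.I * w) ^ (1 / (q : ℂ)) = 1 := by
    rw [← Complex.cpow_add _ _ hIw, neg_add_cancel, Complex.cpow_zero]
  have h7 : ‖(Complex.I * w) ^ (1 / (q : ℂ))‖ = ‖w‖ ^ (1 / (q : ℝ)) := by
    have h8 := Complex.norm_cpow_inv_nat (Complex.I * w) q
    rw [norm_mul, Complex.norm_I, one_mul] at h8
    rw [one_div, one_div]
    exact h8
  have h8 : ‖w‖ ^ (-(1 / (q : ℝ))) * ‖w‖ ^ (1 / (q : ℝ)) = 1 := by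
    rw [← Real.rpow_add hwpos, neg_add_cancel, Real.rpow_zero]
  -- the common conclusion
  have key : ∀ E : ℂ, E ^ q = -1 → ‖E‖ = 1 →
      (-Complex.I * w) ^ (-(1 / (q : ℂ))) = E * (Complex.I * w) ^ (-(1 / (q : ℂ))) →
      X.X z * (Complex.I * y) ^ (1 / (q : ℂ)) = Complex.exp (2 * Real.pi * Complex.I * j / q) * E := by
    intro E hE hE1 hEw
    set e1 := Complex.exp (2 * Real.pi * Complex.I * j / q) with he1
    have he1n : ‖e1‖ = 1 := by
      rw [he1, Complex.norm_exp]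
      have : (2 * Real.pi * Complex.I * j / q : ℂ) = ((2 * Real.pi * j / q : ℝ) : ℂ) * Complex.I := by
        push_cast
        ring
      rw [this]
      simp
    have hE0 : E ≠ 0 := by
      rintro rfl
      rw [norm_zero] at hE1
      exact zero_ne_one hE1
    have he10 : e1 ≠ 0 := Complex.exp_ne_zero _
    have h9 : (e1 * E) ^ q = -1 := Low_ej hq j hE
    rw [hEw] at hXw
    set η := X.X z - e1 * (E * (Complex.I * w) ^ (-(1 / (q : ℂ)))) with hη
    have h10 : X.X z * (Complex.I * y) ^ (1 / (q : ℂ)) =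
        e1 * E * (y / w) ^ (1 / (q : ℂ)) +
          η * (y / w) ^ (1 / (q : ℂ)) * (Complex.I * w) ^ (1 / (q : ℂ)) := by
      rw [h5, hη]
      linear_combination (e1 * E * (y / w) ^ (1 / (q : ℂ))) * h6
    have h11 : ‖η * (y / w) ^ (1 / (q : ℂ)) * (Complex.I * w) ^ (1 / (q : ℂ))‖ ≤ 2 * ε := by
      rw [norm_mul, norm_mul, h7]
      calc ‖η‖ * ‖(y / w) ^ (1 / (q : ℂ))‖ * ‖w‖ ^ (1 / (q : ℝ))
          ≤ (ε * ‖w‖ ^ (-(1 / (q : ℝ)))) * 2 * ‖w‖ ^ (1 / (q : ℝ)) := by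
            gcongr
        _ = 2 * ε * (‖w‖ ^ (-(1 / (q : ℝ))) * ‖w‖ ^ (1 / (q : ℝ))) := by ring
        _ = 2 * ε := by rw [h8, mul_one]
    have hEE : e1 * E ≠ 0 := mul_ne_zero he10 hE0
    have h12 : X.X z * (Complex.I * y) ^ (1 / (q : ℂ)) / (e1 * E) = 1 := by
      apply hroot
      · rw [div_pow, hB, h9, div_self (by norm_num)]
      · have h13 : X.X z * (Complex.I * y) ^ (1 / (q : ℂ)) / (e1 * E) - 1 =
            ((y / w) ^ (1 / (q : ℂ)) - 1) +
              η * (y / w) ^ (1 / (q : ℂ)) * (Complex.I * w) ^ (1 / (q : ℂ)) / (e1 * E) := by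
          rw [h10]
          field_simp
          ring
        rw [h13]
        refine (norm_add_le _ _).trans_lt ?_
        rw [norm_div, norm_mul e1 E, he1n, hE1, one_mul, div_one]
        have h14 : ε ≤ c / 6 := min_le_right _ _
        linarith
    rwa [div_eq_one_iff_eq hEE] at h12
  have hexp : ∀ t : ℝ, ‖Complex.exp (t * Complex.I)‖ = 1 := Complex.norm_exp_ofReal_mul_I
  have hA : Complex.exp (-(Real.pi * Complex.I / q)) ^ q = -1 := by
    rw [← Complex.exp_nat_mul]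
    have : (q : ℂ) * (-(Real.pi * Complex.I / q)) = -(Real.pi * Complex.I) := by field_simp
    rw [this, Complex.exp_neg, Complex.exp_pi_mul_I]
    norm_num
  have hA' : Complex.exp (Real.pi * Complex.I / q) ^ q = -1 := by
    rw [← Complex.exp_nat_mul]
    have : (q : ℂ) * (Real.pi * Complex.I / q) = Real.pi * Complex.I := by field_simp
    rw [this, Complex.exp_pi_mul_I]
  have hN : ‖Complex.exp (-(Real.pi * Complex.I / q))‖ = 1 := by
    have : (-(Real.pi * Complex.I / q) : ℂ) = ((-(Real.pi / q) : ℝ) : ℂ) * Complex.I := by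
      push_cast
      ring
    rw [this]
    exact hexp _
  have hN' : ‖Complex.exp (Real.pi * Complex.I / q)‖ = 1 := by
    have : (Real.pi * Complex.I / q : ℂ) = ((Real.pi / q : ℝ) : ℂ) * Complex.I := by
      push_cast
      ring
    rw [this]
    exact hexp _
  exact ⟨fun h => key _ hA hN ((Low_neg him q).1 h), fun h => key _ hA' hN' ((Low_neg him q).2 h)⟩

private theorem Low_per {p q s e : ℕ} (X : Chart p q s e) (m : ℕ) (j : ℤ) (w : ℂ) :
    X.W0 (j + m * q) w = X.W0 j w := by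
  induction m with
  | zero => simp
  | succ m ih =>
    have h1 : j + ((m + 1 : ℕ) : ℤ) * q = (j + m * q) + q := by
      push_cast
      ring
    rw [h1, X.per0, ih]

private theorem Low_perZ {p q s e : ℕ} (X : Chart p q s e) (m : ℤ) (j : ℤ) (w : ℂ) :
    X.W0 (j + m * q) w = X.W0 j w := by
  rcases Int.le_total 0 m with h | h
  · obtain ⟨k, rfl⟩ := Int.eq_ofNat_of_zero_le h
    exact Low_per X k j w
  · obtain ⟨k, hk⟩ := Int.eq_ofNat_of_zero_le (neg_nonneg.mpr h)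
    have h1 := Low_per X k (j + m * q) w
    have h2 : j + m * q + k * q = j := by
      have : m = -(k : ℤ) := by omega
      rw [this]
      ring
    rw [h2] at h1
    exact h1.symm

/-- the passage below the hole -/
private theorem Low_pass {p q s e : ℕ} (hq : 0 < q) (X : Chart p q s e) :
    ∃ M : ℝ, X.R + 10 ≤ M ∧ ∀ (j : ℤ) (w : ℂ), w ∈ Wd0 X.R → w.re < 0 → w.im < -M →
      -w.re - 1 ≤ 2 * (-w.im) →
      ∃ (n : ℕ) (j' : ℤ) (w' : ℂ), w' ∈ Wd0 X.R ∧ -w.im < w'.re + 4 * w'.im ∧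
        (f (mu ((p : ℝ) / q)))^[n] (X.W0 j w) = X.W0 j' w' ∧
        Complex.exp (2 * Real.pi * Complex.I * (j' + 1) / q) =
          Complex.exp (2 * Real.pi * Complex.I * (j + n * p) / q) := by
  have hqr : (0 : ℝ) < 1 / (q : ℝ) := by positivity
  have hCX := X.C_pos
  have hR4 := X.R_ge
  obtain ⟨r, c0, hr, hc0, hloc⟩ := Low_local hq X
  set l := mu ((p : ℝ) / q) with hl
  obtain ⟨Rs, hRs, hsheet⟩ := Low_sheet hq X
  obtain ⟨R1, hR1⟩ := X.Y0_W0 (1 / 1000) (by norm_num)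
  obtain ⟨r2, hr2, hsurj⟩ := X.Y0_surj (max Rs R1)
  set ρ : ℝ := min r r2 with hρ
  have hρ0 : 0 < ρ := by positivity
  set A : ℝ := 2 / (c0 * (ρ / 2)) ^ q with hA
  have hA0 : 0 < A := by positivity
  have hsm : ∃ R3 : ℝ, 0 < R3 ∧ X.C * R3 ^ (-(1 / (q : ℝ))) < ρ / 2 := by
    have h2 : Tendsto (fun x : ℝ => X.C * x ^ (-(1 / (q : ℝ)))) atTop (𝓝 (X.C * 0)) :=
      (tendsto_rpow_neg_atTop hqr).const_mul _
    rw [mul_zero] at h2
    have h3 := (h2.eventually_lt_const (half_pos hρ0)).and (eventually_gt_atTop 0)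
    obtain ⟨R3, h4, h5⟩ := h3.exists
    exact ⟨R3, h5, h4⟩
  obtain ⟨R3, hR3, hsm⟩ := hsm
  refine ⟨max (max (X.R + 10) (2 * A)) (max R3 (max Rs R1)),
    (le_max_left _ _).trans (le_max_left _ _), fun j w hw hwre hwim hbal => ?_⟩
  set M := max (max (X.R + 10) (2 * A)) (max R3 (max Rs R1)) with hM
  have hM1 : X.R + 10 ≤ M := (le_max_left _ _).trans (le_max_left _ _)
  have hM2 : 2 * A ≤ M := (le_max_right _ _).trans (le_max_left _ _)
  have hM3 : R3 ≤ M := (le_max_left _ _).trans (le_max_right _ _)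
  have hM4 : max Rs R1 ≤ M := (le_max_right _ _).trans (le_max_right _ _)
  obtain ⟨T, hT⟩ : ∃ T : ℝ, T = -w.im := ⟨_, rfl⟩
  have hTM : M < T := by rw [hT]; linarith
  have hT10 : 14 < T := by linarith
  have hnw : ‖w‖ ≤ 4 * T := by
    have h1 := Complex.norm_le_abs_re_add_abs_im w
    rw [abs_of_neg hwre, abs_of_neg (by linarith : w.im < 0)] at h1
    linarith
  have hnw' : T ≤ ‖w‖ := by
    have h1 := Complex.abs_im_le_norm w
    rw [abs_of_neg (by linarith : w.im < 0)] at h1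
    linarith
  set z : ℕ → ℂ := fun k => (f l)^[k] (X.W0 j w) with hz
  have hz0 : z 0 = X.W0 j w := rfl
  have hzs : ∀ k, z (k + 1) = f l (z k) := fun k => Function.iterate_succ_apply' _ _ _
  have hy0 : ‖X.Y0 (z 0) - w‖ ≤ 1 / 1000 * ‖w‖ := hR1 j w hw
    (lt_of_le_of_lt ((le_max_right _ _).trans hM4) (hTM.trans_le hnw'))
  have hy0' : ‖X.Y0 (z 0) - w‖ ≤ T / 250 := by linarith
  obtain ⟨hy0re1, hy0re2⟩ := abs_le.mp ((Complex.abs_re_le_norm _).trans hy0')
  obtain ⟨hy0im1, hy0im2⟩ := abs_le.mp ((Complex.abs_im_le_norm _).trans hy0')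
  rw [Complex.sub_re] at hy0re1 hy0re2
  rw [Complex.sub_im] at hy0im1 hy0im2
  obtain ⟨N, hN⟩ : ∃ N : ℕ, N = ⌈60 * T⌉₊ := ⟨_, rfl⟩
  have hN1 : 60 * T ≤ N := by rw [hN]; exact Nat.le_ceil _
  have hN2 : (N : ℝ) < 60 * T + 1 := by rw [hN]; exact Nat.ceil_lt_add_one (by linarith)
  -- the induction
  have hind : ∀ k : ℕ, k ≤ N → z k ≠ 0 ∧ ‖z k‖ < ρ / 2 ∧
      ‖X.Y0 (z k) - X.Y0 (z 0) - k‖ ≤ 1 / 1000 * k ∧ (X.Y0 (z k)).im < 0 ∧
      X.X (z k) * (Complex.I * X.Y0 (z k)) ^ (1 / (q : ℂ)) =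
        l ^ k * (X.X (z 0) * (Complex.I * X.Y0 (z 0)) ^ (1 / (q : ℂ))) := by
    intro k
    induction k with
    | zero =>
      intro _
      refine ⟨X.ne_zero0 j w hw, ?_, by simp, by linarith, by simp⟩
      refine (X.small0 j w hw).trans_lt (lt_of_le_of_lt ?_ hsm)
      gcongr 1
      exact Real.rpow_le_rpow_of_nonpos hR3 (hM3.trans (hTM.le.trans hnw')) (by linarith)
    | succ k ih =>
      intro hk
      obtain ⟨hzk0, hzk, hYk, hYim, hIk⟩ := ih (by omega)
      have hkN : ((k + 1 : ℕ) : ℝ) ≤ N := by exact_mod_cast hk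
      push_cast at hkN
      have hzkr : ‖z k‖ < r := by
        have : ρ ≤ r := min_le_left _ _
        linarith
      obtain ⟨-, -, -, hf0, hf2, hYstep, hIstep⟩ := hloc (z k) hzk0 hzkr
      rw [← hzs k] at hf0 hf2 hYstep hIstep
      have hzk1r : ‖z (k + 1)‖ < r := by
        have : ρ ≤ r := min_le_left _ _
        linarith
      obtain ⟨hX1, hY1, hXlow, -, -, -, -⟩ := hloc (z (k + 1)) hf0 hzk1r
      have hY : ‖X.Y0 (z (k + 1)) - X.Y0 (z 0) - ((k + 1 : ℕ) : ℂ)‖ ≤ 1 / 1000 * ((k + 1 : ℕ) : ℝ) := by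
        push_cast
        calc ‖X.Y0 (z (k + 1)) - X.Y0 (z 0) - ((k : ℂ) + 1)‖ =
            ‖(X.Y0 (z (k + 1)) - X.Y0 (z k) - 1) + (X.Y0 (z k) - X.Y0 (z 0) - k)‖ := by
              congr 1
              ring
          _ ≤ ‖X.Y0 (z (k + 1)) - X.Y0 (z k) - 1‖ + ‖X.Y0 (z k) - X.Y0 (z 0) - k‖ := norm_add_le _ _
          _ ≤ 1 / 1000 + 1 / 1000 * k := add_le_add hYstep hYk
          _ = _ := by ring
      have hYi := (Complex.abs_im_le_norm _).trans hY
      rw [Complex.sub_im, Complex.sub_im, Complex.natCast_im, sub_zero] at hYi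
      obtain ⟨hYi1, hYi2⟩ := abs_le.mp hYi
      push_cast at hYi1 hYi2
      have him1 : (X.Y0 (z (k + 1))).im ≤ -(T / 2) := by linarith
      have hYn : T / 2 ≤ ‖X.Y0 (z (k + 1))‖ := by
        have h1 := Complex.abs_im_le_norm (X.Y0 (z (k + 1)))
        rw [abs_of_neg (by linarith : (X.Y0 (z (k + 1))).im < 0)] at h1
        linarith
      refine ⟨hf0, ?_, hY, by linarith, ?_⟩
      · -- smallness
        have h1 : ‖X.Y0 (z (k + 1))‖ = 1 / ‖X.X (z (k + 1))‖ ^ q := by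
          rw [hY1, norm_div, Complex.norm_I, norm_pow]
        have h2 : A < ‖X.Y0 (z (k + 1))‖ := by linarith
        have h3 : 0 < ‖X.X (z (k + 1))‖ ^ q := by
          have := norm_pos_iff.mpr hX1
          positivity
        rw [h1, hA, div_lt_div_iff₀ (by positivity) h3] at h2
        have h4 : ‖X.X (z (k + 1))‖ ^ q < (c0 * (ρ / 2)) ^ q := by linarith
        have h5 : ‖X.X (z (k + 1))‖ < c0 * (ρ / 2) := lt_of_pow_lt_pow_left₀ q (by positivity) h4
        have h6 : c0 * ‖z (k + 1)‖ < c0 * (ρ / 2) := hXlow.trans_lt h5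
        exact lt_of_mul_lt_mul_left h6 hc0.le
      · rw [hIstep hYim (by linarith), hIk]
        ring
  obtain ⟨hzN0, hzN, hYN, hYimN, hIN⟩ := hind N le_rfl
  have hYr := (Complex.abs_re_le_norm _).trans hYN
  have hYi := (Complex.abs_im_le_norm _).trans hYN
  rw [Complex.sub_im, Complex.sub_im, Complex.natCast_im, sub_zero] at hYi
  rw [Complex.sub_re, Complex.sub_re, Complex.natCast_re] at hYr
  obtain ⟨hYi1, hYi2⟩ := abs_le.mp hYi
  obtain ⟨hYr1, hYr2⟩ := abs_le.mp hYr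
  set y := X.Y0 (z N) with hy
  have hyre1 : 50 * T ≤ y.re := by linarith
  have hyre2 : y.re ≤ 62 * T := by linarith
  have hyim1 : -(6 / 5 * T) ≤ y.im := by linarith
  have hyim2 : y.im ≤ -(T / 2) := by linarith
  obtain ⟨j', w', hw', hRw', hW'⟩ := hsurj (z N) hzN0
    (hzN.trans_le (by
      have : ρ ≤ r2 := min_le_right _ _
      linarith))
    (by
      rw [← hy]
      have := le_abs_self y.re
      linarith)
  have hYw' : ‖y - w'‖ ≤ 1 / 1000 * ‖w'‖ := by
    have h1 := hR1 j' w' hw' ((le_max_right _ _).trans_lt hRw')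
    rwa [hW'] at h1
  have hny : ‖y‖ ≤ 64 * T := by
    have h1 := Complex.norm_le_abs_re_add_abs_im y
    rw [abs_of_pos (by linarith : 0 < y.re), abs_of_neg (by linarith : y.im < 0)] at h1
    linarith
  have hnw1 : ‖w'‖ ≤ 66 * T := by
    have h1 : ‖w'‖ ≤ ‖y‖ + ‖y - w'‖ := by
      calc ‖w'‖ = ‖y - (y - w')‖ := by congr 1; ring
        _ ≤ ‖y‖ + ‖y - w'‖ := norm_sub_le _ _
    linarith
  have hYw2 : ‖y - w'‖ ≤ T / 10 := by linarith
  obtain ⟨hr1, hr2'⟩ := abs_le.mp ((Complex.abs_re_le_norm _).trans hYw2)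
  obtain ⟨hi1, hi2⟩ := abs_le.mp ((Complex.abs_im_le_norm _).trans hYw2)
  rw [Complex.sub_re] at hr1 hr2'
  rw [Complex.sub_im] at hi1 hi2
  refine ⟨N, j', w', hw', by linarith, by rw [hW'], ?_⟩
  -- the sheet
  have hI0 := (hsheet j w hw (by
    refine lt_of_le_of_lt ((le_max_left _ _).trans hM4) (hTM.trans_le hnw')) (by linarith)
    (by
      have := (hind 0 (Nat.zero_le _)).2.2.2.1
      rwa [hz0] at this)).1 hwre
  have hI1 := (hsheet j' w' hw' ((le_max_left _ _).trans_lt hRw') (by linarith)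
    (by rw [hW']; exact hYimN)).2 (by linarith)
  rw [hW'] at hI1
  rw [hz0] at hIN
  rw [← hy] at hI1
  rw [hI1, hI0] at hIN
  have hlN : l ^ N = Complex.exp (2 * Real.pi * Complex.I * (N * p) / q) := by
    rw [hl, mu, ← Complex.exp_nat_mul]
    congr 1
    push_cast
    ring
  rw [hlN, ← Complex.exp_add, ← Complex.exp_add, ← Complex.exp_add] at hIN
  have h1 := congrArg (fun u => u * Complex.exp (Real.pi * Complex.I / q)) hIN
  simp only [← Complex.exp_add] at h1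
  convert h1 using 2 <;> ring

theorem low0 {p q s e : ℕ} (hp : 0 < p) (hpq : p < q) (hs : q * s = p * e + 1) (X : Chart p q s e) :
    ∀ S : ℝ, ∃ M1 : ℝ, ∀ (j : ℤ) (w : ℂ), w ∈ Wd0 X.R → w.re < 0 → w.im < -M1 →
      ∃ (n : ℕ) (w' : ℂ), w' ∈ Wd0 X.R ∧ S < w'.re + 4 * w'.im ∧
        (f (mu ((p : ℝ) / q)))^[n] (X.W0 j w) = X.W0 (j - 1 + n * p) w' := by
  intro S
  have hq : 0 < q := hp.trans hpq
  have hq0 : (q : ℂ) ≠ 0 := by exact_mod_cast hq.ne'
  have hR4 := X.R_ge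
  obtain ⟨C', hC', hphase⟩ := Low_phase hq X
  obtain ⟨M, hM, hpass⟩ := Low_pass hq X
  refine ⟨max M S + C', fun j w hw hre him => ?_⟩
  have hMS : X.R + 10 ≤ max M S := hM.trans (le_max_left _ _)
  have h1 : w.re ≤ -1 := by
    have h2 := hw.2
    rw [abs_of_neg hre] at h2
    linarith
  obtain ⟨k, hk⟩ := exists_nat_ge (-w.re / (7 / 8))
  rw [div_le_iff₀ (by norm_num)] at hk
  have hV : 0 ≤ C' * (-w.re) ^ (-(1 / (q : ℝ))) :=
    mul_nonneg hC' (Real.rpow_nonneg (by linarith) _)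
  obtain ⟨n1, w1, hw1, hw1re, hw1im, hbal, hit1⟩ := hphase (max M S) hMS k j w hw h1 (by linarith)
    (by linarith)
  obtain ⟨n2, j', w', hw', hS, hit2, hexp⟩ := hpass (j + n1 * p) w1 hw1 hw1re
    (by
      have := le_max_left M S
      linarith) hbal
  refine ⟨n2 + n1, w', hw', ?_, ?_⟩
  · have := le_max_right M S
    linarith
  · rw [Function.iterate_add_apply, hit1, hit2]
    obtain ⟨m, hm⟩ := Complex.exp_eq_exp_iff_exists_int.mp hexp
    have hpi : (2 * Real.pi * Complex.I : ℂ) ≠ 0 := Complex.two_pi_I_ne_zero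
    have h2 : ((j' : ℂ) + 1) = (j + n1 * p + n2 * p) + m * q := by
      have h3 : 2 * Real.pi * Complex.I * ((j' : ℂ) + 1) =
          2 * Real.pi * Complex.I * ((j + n1 * p + n2 * p) + m * q) := by
        field_simp at hm
        push_cast at hm
        linear_combination (2 * Real.pi * Complex.I) * hm
      exact mul_left_cancel₀ hpi h3
    have h4 : j' = j - 1 + ((n2 + n1 : ℕ) : ℤ) * p + m * q := by
      have h5 : ((j' + 1 : ℤ) : ℂ) = ((j + n1 * p + n2 * p + m * q : ℤ) : ℂ) := by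
        push_cast
        exact h2
      have h6 : j' + 1 = j + n1 * p + n2 * p + m * q := by exact_mod_cast h5
      push_cast
      linarith
    rw [h4]
    exact Low_perZ X m _ w'

end Pool.Agent.CR
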