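import Pool.Agent.H73.CR.Gate

/-!
# CR Chart: the gate chart (Part G, helper48), interface for Parts G and T

Level `N`: `n = q_N`. `W N : Wd n R → ℂ` is holomorphic, `q n`-periodic, injective modulo `q n`, and
`f_N (W N w) = W N (w + p n + 1 + δ N w)` with a SUMMABLE error `δ N w = O(d^(-1-1/q))`, `d` the distance of `w` to `n ℤ`
(`W N w = Z_N (Φ*_N^(-1) w)` in the notation of the plan). Near the hole `j n`: `W N (w + j n) → W0 j w`.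
-/

set_option autoImplicit false

open Set Filter Topology Metric

namespace Pool.Agent.CR

/-- The domain of the chart: `w` has distance `> R` from the holes `k n` and does not lie below a hole. -/
def Wd (n R : ℝ) : Set ℂ := {w | ∀ k : ℤ, R < ‖w - k * n‖ ∧ -w.im < |w.re - k * n|}

/-- The inner domain. -/
def Wi (n R : ℝ) : Set ℂ := {w | ∀ k : ℤ, R + 1 < ‖w - k * n‖ ∧ -w.im < |w.re - k * n| / 2}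

/-- The limit domain. -/
def Wd0 (R : ℝ) : Set ℂ := {w | R < ‖w‖ ∧ -w.im < |w.re|}

/-- The inner limit domain. -/
def Wi0 (R : ℝ) : Set ℂ := {w | R + 1 < ‖w‖ ∧ -w.im < |w.re| / 2}

/-- The chart of the gates. -/
structure Chart (p q s e : ℕ) where
  R : ℝ
  C : ℝ
  N0 : ℕ
  W : ℕ → ℂ → ℂ
  δ : ℕ → ℂ → ℂ
  W0 : ℤ → ℂ → ℂ
  δ0 : ℤ → ℂ → ℂ
  R_ge : 4 ≤ R
  C_pos : 0 < C
  /-- the period is large compared with `R` -/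
  n_ge : ∀ N ≥ N0, 100 * R ≤ (qN q e N : ℝ)
  diff : ∀ N ≥ N0, DifferentiableOn ℂ (W N) (Wd (qN q e N) R)
  per : ∀ N ≥ N0, ∀ w ∈ Wd (qN q e N) R, W N (w + q * qN q e N) = W N w
  inj : ∀ N ≥ N0, ∀ w ∈ Wd (qN q e N) R, ∀ w' ∈ Wd (qN q e N) R, W N w = W N w' →
    ∃ k : ℤ, w' = w + k * (q * qN q e N)
  ne_zero : ∀ N ≥ N0, ∀ w ∈ Wd (qN q e N) R, W N w ≠ 0
  small : ∀ N ≥ N0, ∀ w ∈ Wd (qN q e N) R, ∀ r : ℝ, R ≤ r → (∀ k : ℤ, r ≤ ‖w - k * qN q e N‖) →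
    ‖W N w‖ ≤ C * r ^ (-(1 / (q : ℝ)))
  δ_diff : ∀ N ≥ N0, DifferentiableOn ℂ (δ N) {w | w ∈ Wd (qN q e N) R ∧ w + 1 ∈ Wi (qN q e N) R}
  δ_small : ∀ N ≥ N0, ∀ w ∈ Wd (qN q e N) R, w + 1 ∈ Wi (qN q e N) R → ‖δ N w‖ ≤ 1 / 8 ∧
    ∀ r : ℝ, R ≤ r → (∀ k : ℤ, r ≤ ‖w - k * qN q e N‖) → ‖δ N w‖ ≤ C * r ^ (-(1 + 1 / (q : ℝ)))
  map : ∀ N ≥ N0, ∀ w ∈ Wd (qN q e N) R, w + 1 ∈ Wi (qN q e N) R →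
    f (lN p q s e N) (W N w) = W N (w + p * qN q e N + 1 + δ N w)
  /-- the top end: `W N w → 0`, and `exp (2 π i w / (q n))` is a holomorphic coordinate at `0` -/
  topc : ∀ N ≥ N0, ∃ g : ℂ → ℂ, AnalyticAt ℂ g 0 ∧ g 0 = 0 ∧ deriv g 0 ≠ 0 ∧ ∃ M : ℝ, ∀ w : ℂ, M < w.im →
    W N w = g (Complex.exp (2 * Real.pi * Complex.I * w / (q * qN q e N)))
  /-- convergence near the holes -/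
  lim : ∀ j : ℤ, TendstoLocallyUniformlyOn (fun N w => W N (w + j * qN q e N)) (W0 j) atTop (Wd0 R)
  δ_lim : ∀ j : ℤ, TendstoLocallyUniformlyOn (fun N w => δ N (w + j * qN q e N)) (δ0 j) atTop
    {w | w ∈ Wd0 R ∧ w + 1 ∈ Wi0 R}
  diff0 : ∀ j : ℤ, DifferentiableOn ℂ (W0 j) (Wd0 R)
  per0 : ∀ (j : ℤ) (w : ℂ), W0 (j + q) w = W0 j w
  inj0 : ∀ (j j' : ℤ), ∀ w ∈ Wd0 R, ∀ w' ∈ Wd0 R, W0 j w = W0 j' w' → w = w' ∧ ∃ k : ℤ, j' = j + k * q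
  ne_zero0 : ∀ (j : ℤ), ∀ w ∈ Wd0 R, W0 j w ≠ 0
  small0 : ∀ (j : ℤ), ∀ w ∈ Wd0 R, ‖W0 j w‖ ≤ C * ‖w‖ ^ (-(1 / (q : ℝ)))
  δ0_diff : ∀ j : ℤ, DifferentiableOn ℂ (δ0 j) {w | w ∈ Wd0 R ∧ w + 1 ∈ Wi0 R}
  δ0_small : ∀ (j : ℤ), ∀ w ∈ Wd0 R, w + 1 ∈ Wi0 R →
    ‖δ0 j w‖ ≤ 1 / 8 ∧ ‖δ0 j w‖ ≤ C * ‖w‖ ^ (-(1 + 1 / (q : ℝ)))
  map0 : ∀ (j : ℤ), ∀ w ∈ Wd0 R, w + 1 ∈ Wi0 R →
    f (mu ((p : ℝ) / q)) (W0 j w) = W0 (j + p) (w + 1 + δ0 j w)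
  /-- a local coordinate `X` at `0` and `Y0 = i / X^q`, which locate the points of the sheets -/
  X : ℂ → ℂ
  X_an : AnalyticAt ℂ X 0
  X_zero : X 0 = 0
  X_deriv : deriv X 0 ≠ 0
  X_W0 : ∀ ε : ℝ, 0 < ε → ∃ R' : ℝ, ∀ (j : ℤ), ∀ w ∈ Wd0 R, R' < ‖w‖ →
    ‖X (W0 j w) - Complex.exp (2 * Real.pi * Complex.I * j / q) * (-Complex.I * w) ^ (-(1 / (q : ℂ)))‖ ≤
      ε * ‖w‖ ^ (-(1 / (q : ℝ)))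
  Y0 : ℂ → ℂ
  Y0_eq : ∃ r : ℝ, 0 < r ∧ ∀ z : ℂ, z ≠ 0 → ‖z‖ < r → X z ≠ 0 ∧ Y0 z = Complex.I / X z ^ q
  Y0_map : ∀ ε : ℝ, 0 < ε → ∃ r : ℝ, 0 < r ∧ ∀ z : ℂ, z ≠ 0 → ‖z‖ < r →
    ‖Y0 (f (mu ((p : ℝ) / q)) z) - Y0 z - 1‖ ≤ ε
  Y0_large : ∀ A : ℝ, ∃ r : ℝ, 0 < r ∧ ∀ z : ℂ, z ≠ 0 → ‖z‖ < r → A ≤ ‖Y0 z‖
  /-- the points of the sheets -/
  Y0_surj : ∀ R' : ℝ, ∃ r : ℝ, 0 < r ∧ ∀ z : ℂ, z ≠ 0 → ‖z‖ < r → -(Y0 z).im < |(Y0 z).re| / 2 →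
    ∃ (j : ℤ) (w : ℂ), w ∈ Wd0 R ∧ R' < ‖w‖ ∧ W0 j w = z
  Y0_W0 : ∀ ε : ℝ, 0 < ε → ∃ R' : ℝ, ∀ (j : ℤ), ∀ w ∈ Wd0 R, R' < ‖w‖ → ‖Y0 (W0 j w) - w‖ ≤ ε * ‖w‖

end Pool.Agent.CR
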