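import Mathlib

/-!
# CR G1: formal normal form (algebra)

Normal form of `f = X^2 + Λ X` up to order `2 q + 1` over a commutative ring in which `Λ` and the `Λ^k - 1` (`1 ≤ k ≤ 2 q - 1`, `k ≠ q`) are units.

Proof. Show by induction on `d`, `2 ≤ d ≤ 2 q + 2`: there are `χ`, `b`, `c` with `X^2 ∣ χ - X` and `X^d ∣ χ ∘ f - Λ χ (1 + b χ^q + c χ^(2q))`, where moreover `b = 0` if `d ≤ q + 1` and `c = 0` if `d ≤ 2 q + 1`.
`d = 2`: `χ = X`, `b = c = 0` (`f - Λ X = X^2`). Step: let `r` be the coefficient of `X^d` of the difference. If `d - 1 ≠ q, 2 q`: replace `χ` by `χ + a X^d`: modulo `X^(d+1)`, `χ ∘ f` changes by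
`a f^d ≡ a Λ^d X^d`, `Λ χ (1 + b χ^q + c χ^(2q))` changes by `Λ a X^d` (note `(χ + a X^d)^j - χ^j` is divisible by `X^(d + j - 1)`); so the new coefficient is `r + a Λ (Λ^(d-1) - 1)`, `a = - r / (Λ (Λ^(d-1) - 1))`.
If `d - 1 = q`: replace `b` by `b + r / Λ` (`χ^(q+1) ≡ X^(q+1)` modulo `X^(q+2)`). If `d - 1 = 2 q`: replace `c` by `c + r/Λ`.
-/

set_option autoImplicit false

open Polynomial

namespace Pool.Agent.CR.G

private theorem G1_pow_sub {R : Type*} [CommRing R] {u v : R[X]} {d n : ℕ} (hu : X ∣ u)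
    (hv : X ∣ v) (h : X ^ d ∣ u - v) (hn : n ≠ 0) : X ^ (d + 1) ∣ u ^ (n + 1) - v ^ (n + 1) := by
  have h1 : u ^ (n + 1) - v ^ (n + 1) = (u ^ n - v ^ n) * u + (u - v) * v ^ n := by ring
  rw [h1, pow_succ]
  exact dvd_add (mul_dvd_mul (h.trans (sub_dvd_pow_sub_pow u v n)) hu)
    (mul_dvd_mul h (dvd_pow hv hn))

private theorem G1_pow_X {R : Type*} [CommRing R] {χ : R[X]} (h : X ^ 2 ∣ χ - X) (n : ℕ) :
    X ^ (n + 1) ∣ χ ^ n - X ^ n := by
  obtain ⟨e, he⟩ := h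
  have h1 : χ = X * (1 + X * e) := by linear_combination he
  have h2 : χ ^ n - X ^ n = X ^ n * ((1 + X * e) ^ n - 1) := by
    conv_lhs => rw [h1, mul_pow]
    ring
  rw [h2, pow_succ]
  refine mul_dvd_mul_left _ ?_
  have h3 := sub_dvd_pow_sub_pow (1 + X * e) 1 n
  rw [one_pow] at h3
  exact (Dvd.intro e (by ring)).trans h3

private theorem G1_coeff {R : Type*} [CommRing R] {D : R[X]} {d : ℕ} (h : X ^ d ∣ D) :
    ∃ r : R, X ^ (d + 1) ∣ D - X ^ d * C r := by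
  obtain ⟨g, rfl⟩ := h
  refine ⟨g.coeff 0, ?_⟩
  rw [← mul_sub, pow_succ]
  refine mul_dvd_mul_left _ ?_
  rw [X_dvd_iff]
  simp

private theorem G1_f_pow {R : Type*} [CommRing R] (Λ : R) (d : ℕ) :
    X ^ (d + 1) ∣ ((X : R[X]) ^ 2 + C Λ * X) ^ d - X ^ d * C (Λ ^ d) := by
  have h1 : ((X : R[X]) ^ 2 + C Λ * X) ^ d - X ^ d * C (Λ ^ d) =
      X ^ d * ((X + C Λ) ^ d - (C Λ) ^ d) := by
    rw [show (X : R[X]) ^ 2 + C Λ * X = X * (X + C Λ) by ring, mul_pow, C_pow]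
    ring
  rw [h1, pow_succ]
  refine mul_dvd_mul_left _ ?_
  have h3 := sub_dvd_pow_sub_pow (X + C Λ) (C Λ) d
  rwa [add_sub_cancel_right] at h3

private theorem G1_step {R : Type*} [CommRing R] {Λ : R} (hΛ : IsUnit Λ) {q : ℕ} (hq : 1 ≤ q)
    (hk : ∀ k, 1 ≤ k → k ≤ 2 * q - 1 → k ≠ q → IsUnit (Λ ^ k - 1)) {d : ℕ} (hd : 2 ≤ d)
    (hd' : d ≤ 2 * q + 1) {χ : R[X]} {b c : R} (hχ : X ^ 2 ∣ χ - X)
    (h : X ^ d ∣ χ.comp (X ^ 2 + C Λ * X) -
      C Λ * χ * (1 + C b * χ ^ q + C c * χ ^ (2 * q))) :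
    ∃ (χ : R[X]) (b c : R), X ^ 2 ∣ χ - X ∧
      X ^ (d + 1) ∣ χ.comp (X ^ 2 + C Λ * X) -
        C Λ * χ * (1 + C b * χ ^ q + C c * χ ^ (2 * q)) := by
  obtain ⟨r, hr⟩ := G1_coeff h
  obtain ⟨L, hL⟩ := hΛ.exists_right_inv
  by_cases h1 : d = q + 1
  · refine ⟨χ, b + r * L, c, hχ, ?_⟩
    have h2 := G1_pow_X hχ (q + 1)
    rw [← h1] at h2
    have h3 : χ.comp (X ^ 2 + C Λ * X) -
        C Λ * χ * (1 + C (b + r * L) * χ ^ q + C c * χ ^ (2 * q)) =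
        (χ.comp (X ^ 2 + C Λ * X) - C Λ * χ * (1 + C b * χ ^ q + C c * χ ^ (2 * q)) -
          X ^ d * C r) - C r * (χ ^ d - X ^ d) := by
      have h4 : (C Λ * C L : R[X]) = 1 := by rw [← C_mul, hL, C_1]
      rw [h1, C_add, C_mul]
      linear_combination (- C r * χ ^ (q + 1)) * h4
    rw [h3]
    exact dvd_sub hr (h2.mul_left _)
  by_cases h1' : d = 2 * q + 1
  · refine ⟨χ, b, c + r * L, hχ, ?_⟩
    have h2 := G1_pow_X hχ (2 * q + 1)
    rw [← h1'] at h2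
    have h3 : χ.comp (X ^ 2 + C Λ * X) -
        C Λ * χ * (1 + C b * χ ^ q + C (c + r * L) * χ ^ (2 * q)) =
        (χ.comp (X ^ 2 + C Λ * X) - C Λ * χ * (1 + C b * χ ^ q + C c * χ ^ (2 * q)) -
          X ^ d * C r) - C r * (χ ^ d - X ^ d) := by
      have h4 : (C Λ * C L : R[X]) = 1 := by rw [← C_mul, hL, C_1]
      rw [h1', C_add, C_mul]
      linear_combination (- C r * χ ^ (2 * q + 1)) * h4
    rw [h3]
    exact dvd_sub hr (h2.mul_left _)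
  · obtain ⟨k, rfl⟩ : ∃ k, d = k + 1 := ⟨d - 1, by omega⟩
    obtain ⟨M, hM⟩ := (hk k (by omega) (by omega) (by omega)).exists_right_inv
    obtain ⟨a, ha⟩ : ∃ a : R, r + a * Λ ^ (k + 1) - Λ * a = 0 := by
      refine ⟨- r * L * M, ?_⟩
      linear_combination (-r * (L * Λ)) * hM - r * hL
    have hX : (X : R[X]) ∣ χ := by
      have h2 : χ = (χ - X) + X := by ring
      rw [h2]
      exact dvd_add ((dvd_pow_self X (by norm_num)).trans hχ) dvd_rfl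
    have hX' : (X : R[X]) ∣ χ + C a * X ^ (k + 1) :=
      dvd_add hX ((dvd_pow_self X (by omega)).mul_left _)
    have hsub : (X : R[X]) ^ (k + 1) ∣ (χ + C a * X ^ (k + 1)) - χ := by
      rw [add_sub_cancel_left]
      exact dvd_mul_left _ _
    refine ⟨χ + C a * X ^ (k + 1), b, c, ?_, ?_⟩
    · have h2 : χ + C a * X ^ (k + 1) - X = (χ - X) + C a * X ^ (k + 1) := by ring
      rw [h2]
      exact dvd_add hχ ((pow_dvd_pow X hd).mul_left _)
    · have e1 := G1_pow_sub hX' hX hsub (n := q) (by omega)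
      have e2 := G1_pow_sub hX' hX hsub (n := 2 * q) (by omega)
      have e3 := G1_f_pow Λ (k + 1)
      have h3 : (χ + C a * X ^ (k + 1)).comp (X ^ 2 + C Λ * X) -
          C Λ * (χ + C a * X ^ (k + 1)) * (1 + C b * (χ + C a * X ^ (k + 1)) ^ q +
            C c * (χ + C a * X ^ (k + 1)) ^ (2 * q)) =
          (χ.comp (X ^ 2 + C Λ * X) - C Λ * χ * (1 + C b * χ ^ q + C c * χ ^ (2 * q)) -
            X ^ (k + 1) * C r) + C a * ((X ^ 2 + C Λ * X) ^ (k + 1) - X ^ (k + 1) * C (Λ ^ (k + 1)))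
          - C Λ * C b * ((χ + C a * X ^ (k + 1)) ^ (q + 1) - χ ^ (q + 1))
          - C Λ * C c * ((χ + C a * X ^ (k + 1)) ^ (2 * q + 1) - χ ^ (2 * q + 1)) := by
        have h4 : (C r + C a * C (Λ ^ (k + 1)) - C Λ * C a : R[X]) = 0 := by
          rw [← C_mul, ← C_mul, ← C_add, ← C_sub, ha, C_0]
        rw [add_comp, mul_comp, C_comp, pow_comp, X_comp]
        linear_combination X ^ (k + 1) * h4
      rw [h3]
      exact dvd_sub (dvd_sub (dvd_add hr (e3.mul_left _)) (e1.mul_left _)) (e2.mul_left _)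

theorem normal_form {R : Type*} [CommRing R] {Λ : R} (hΛ : IsUnit Λ) {q : ℕ} (hq : 1 ≤ q)
    (hk : ∀ k, 1 ≤ k → k ≤ 2 * q - 1 → k ≠ q → IsUnit (Λ ^ k - 1)) :
    ∃ (χ : R[X]) (b c : R), X ^ 2 ∣ χ - X ∧
      X ^ (2 * q + 2) ∣ χ.comp (X ^ 2 + C Λ * X) - C Λ * χ * (1 + C b * χ ^ q + C c * χ ^ (2 * q)) := by
  have key : ∀ n, n ≤ 2 * q → ∃ (χ : R[X]) (b c : R), X ^ 2 ∣ χ - X ∧
      X ^ (n + 2) ∣ χ.comp (X ^ 2 + C Λ * X) -
        C Λ * χ * (1 + C b * χ ^ q + C c * χ ^ (2 * q)) := by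
    intro n
    induction n with
    | zero =>
      intro _
      refine ⟨X, 0, 0, by rw [sub_self]; exact dvd_zero _, ?_⟩
      rw [X_comp]
      simp
    | succ n ih =>
      intro hn
      obtain ⟨χ, b, c, h1, h2⟩ := ih (by omega)
      have := G1_step hΛ hq hk (d := n + 2) (by omega) (by omega) h1 h2
      exact this
  exact key (2 * q) le_rfl

end Pool.Agent.CR.G
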