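import Pool.Agent.H48.CR.G5c

/-!
# CR G7a: the error of the step in the coordinate `ζ` (pure estimate)

Let `e = ee n ζ`, `c = cn n`, `Y = YY n ζ = c (1 - 1/e)`, `d = dn n ζ ≥ R1`, `v = R1v`, `t = e v / c`. Constants `C` depend on `P`, `C1`, `a` only. `d ≤ C ‖Y‖` (`YY_lower`; `ζ.im > -n` by `V_im`), `n ≤ C ‖c‖ ≤ C' n`, `‖e‖ ≤ C` (`ee_bound`), `‖e‖ d ≤ C n` (`ee_dn`).
So `‖v‖ ≤ P/‖Y‖ + C1 ‖Y‖^(-(1+a)) ≤ C / d`, `‖t‖ ≤ C ‖v‖ / n ≤ 1/2` for `R1` large. `log (1 - t) = -t + O(t^2)` for `‖t‖ ≤ 1/2` (Mathlib: `Complex.norm_log_sub_logTaylor_le` or similar, or via `norm_log_one_add_sub_self_le`), so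
`err = -(n/2πi) log (1 - t) = (n/(2πi c)) e v + O(n ‖t‖^2)`, `n ‖t‖^2 ≤ C ‖v‖^2 / n ≤ C/d^2`. Put `κ1 = n/(2πi c)`, `‖κ1 - 1‖ ≤ C/n` (`cn_bound`). `e ρ / Y = - ρ e^2/(c (1 - e)) = κ1 ρ cs'(ζ)` because `cs' = -(2πi/n) e^2/(1-e)` (`cs_hasDerivAt`).
So `err - ρ cs' = (κ1^2 - 1) ρ cs' + κ1 e (v - ρ/Y) + O(1/d^2)`; `‖κ1^2 - 1‖ ‖cs'‖ ≤ (C/n) (‖e‖/d) ≤ C/d^2` (`cs_deriv`, `ee_dn`), `‖κ1 e (v - ρ/Y)‖ ≤ C ‖Y‖^(-(1+a)) ≤ C d^(-(1+a))`; and `d^(-2) ≤ d^(-(1+a))`.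
`‖err‖ ≤ ‖ρ cs'‖ + C d^(-(1+a)) ≤ C/d`.
-/

set_option autoImplicit false

open Set Filter Topology Metric

namespace Pool.Agent.CR.G

theorem err_core {P C1 a : ℝ} (ha : 0 < a) (ha1 : a ≤ 1) : ∃ R1 C : ℝ, 4 ≤ R1 ∧ 0 < C ∧ ∀ n ≥ R1, ∀ ζ ∈ V n R1,
    ∀ ρ v : ℂ, ‖ρ‖ ≤ P → ‖v - ρ / YY n ζ‖ ≤ C1 * ‖YY n ζ‖ ^ (-(1 + a)) →
    ‖v‖ ≤ C / dn n ζ ∧ ‖ee n ζ * v / cn n‖ ≤ 1 / 2 ∧
    ‖-((n : ℂ) / (2 * Real.pi * Complex.I)) * Complex.log (1 - ee n ζ * v / cn n)‖ ≤ C / dn n ζ ∧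
    ‖-((n : ℂ) / (2 * Real.pi * Complex.I)) * Complex.log (1 - ee n ζ * v / cn n) - ρ * deriv (cs n) ζ‖ ≤
      C * dn n ζ ^ (-(1 + a)) := by
  obtain ⟨CY0, hCY0, hYY⟩ := YY_lower
  obtain ⟨Cc, hCc, hcn⟩ := cn_bound
  obtain ⟨Cd, hCd, hed⟩ := ee_dn
  obtain ⟨Cs, hCs, hcs⟩ := cs_deriv
  set KY : ℝ := max CY0 1 with hKY
  have hKY1 : 1 ≤ KY := le_max_right _ _
  have hKY0 : CY0 ≤ KY := le_max_left _ _
  set E : ℝ := Real.exp (2 * Real.pi) with hE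
  have hE0 : 0 < E := Real.exp_pos _
  set A : ℝ := |C1| * KY ^ 2 with hA
  have hA0 : 0 ≤ A := by positivity
  set B : ℝ := |P| * KY + A with hB
  have hB0 : 0 ≤ B := by positivity
  set T : ℝ := E * B * Cc with hT
  have hT0 : 0 ≤ T := by positivity
  set C2 : ℝ := T ^ 2 + (1 + Cc) * E * A + Cc * (2 + Cc) * |P| * Cs * Cd with hC2
  have hC20 : 0 ≤ C2 := by positivity
  refine ⟨max 4 T, B + |P| * Cs + C2 + 1, le_max_left _ _, by positivity, ?_⟩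
  intro n hn ζ hζ ρ v hρ hv
  have hR4 : (4 : ℝ) ≤ max 4 T := le_max_left _ _
  have hRT : T ≤ max 4 T := le_max_right _ _
  have hn4 : 4 ≤ n := hR4.trans hn
  have hn0 : 0 < n := by linarith
  have him : -n ≤ ζ.im := (V_im hn0 hζ).le
  have hd : max 4 T < dn n ζ := V_dn hζ
  have hV1 : ζ ∈ V n 1 := V_mono (by linarith) hζ
  have hV0 : ζ ∈ V n 0 := V_mono (by linarith) hζ
  set d : ℝ := dn n ζ with hdd
  have hd4 : 4 < d := lt_of_le_of_lt hR4 hd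
  have hd0 : 0 < d := by linarith
  have hdT : T ≤ d := hRT.trans hd.le
  set Y : ℂ := YY n ζ with hYd
  set e : ℂ := ee n ζ with hed'
  set c : ℂ := cn n with hcd
  obtain ⟨hc0, hcU, hcL, hκ⟩ := hcn n hn4
  have hc0' : 0 < ‖c‖ := norm_pos_iff.2 hc0
  have heB : ‖e‖ ≤ E := ee_bound hn0 him
  have he0 : e ≠ 0 := ee_ne_zero n ζ
  have hYl : d / KY ≤ ‖Y‖ := by
    rw [div_le_iff₀ (by linarith)]
    calc d ≤ CY0 * ‖Y‖ := hYY n hn4 ζ him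
      _ ≤ KY * ‖Y‖ := by gcongr
      _ = ‖Y‖ * KY := by ring
  have hdK : 0 < d / KY := by positivity
  have hY0' : 0 < ‖Y‖ := lt_of_lt_of_le hdK hYl
  have hY0 : Y ≠ 0 := norm_pos_iff.1 hY0'
  have hP : |P| = P := abs_of_nonneg ((norm_nonneg ρ).trans hρ)
  have hρ' : ‖ρ‖ ≤ |P| := by rw [hP]; exact hρ
  -- powers
  have hpow : ‖Y‖ ^ (-(1 + a)) ≤ KY ^ 2 * d ^ (-(1 + a)) := by
    have h1 : ‖Y‖ ^ (-(1 + a)) ≤ (d / KY) ^ (-(1 + a)) :=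
      Real.rpow_le_rpow_of_nonpos hdK hYl (by linarith)
    have h2 : (d / KY) ^ (-(1 + a)) = KY ^ (1 + a) * d ^ (-(1 + a)) := by
      rw [Real.div_rpow hd0.le (by linarith), Real.rpow_neg (by linarith : (0 : ℝ) ≤ KY), div_inv_eq_mul, mul_comm]
    have h3 : KY ^ (1 + a) ≤ KY ^ 2 := by
      rw [← Real.rpow_natCast KY 2]
      exact Real.rpow_le_rpow_of_exponent_le hKY1 (by push_cast; linarith)
    rw [h2] at h1
    refine h1.trans ?_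
    gcongr
  have hD : d ^ (-(1 + a)) ≤ 1 / d := by
    have h1 : d ^ (-(1 + a)) ≤ d ^ (-1 : ℝ) :=
      Real.rpow_le_rpow_of_exponent_le (by linarith) (by linarith)
    rwa [Real.rpow_neg_one, ← one_div] at h1
  have hD2 : 1 / d ^ 2 ≤ d ^ (-(1 + a)) := by
    have h1 : d ^ (-2 : ℝ) ≤ d ^ (-(1 + a)) :=
      Real.rpow_le_rpow_of_exponent_le (by linarith) (by linarith)
    have h2 : d ^ (-2 : ℝ) = 1 / d ^ 2 := by
      rw [Real.rpow_neg hd0.le, one_div]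
      norm_num
    rwa [h2] at h1
  have hDn : 0 ≤ d ^ (-(1 + a)) := Real.rpow_nonneg hd0.le _
  -- `v`
  have hv1 : ‖v - ρ / Y‖ ≤ A * d ^ (-(1 + a)) := by
    calc ‖v - ρ / Y‖ ≤ C1 * ‖Y‖ ^ (-(1 + a)) := hv
      _ ≤ |C1| * ‖Y‖ ^ (-(1 + a)) := by
        gcongr
        exact le_abs_self _
      _ ≤ |C1| * (KY ^ 2 * d ^ (-(1 + a))) := by gcongr
      _ = A * d ^ (-(1 + a)) := by rw [hA]; ring
  have hρY : ‖ρ / Y‖ ≤ |P| * KY / d := by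
    rw [norm_div, div_le_div_iff₀ hY0' hd0]
    have : d ≤ KY * ‖Y‖ := by
      rw [div_le_iff₀ (by linarith)] at hYl
      linarith
    calc ‖ρ‖ * d ≤ |P| * (KY * ‖Y‖) := by gcongr
      _ = |P| * KY * ‖Y‖ := by ring
  have hvB : ‖v‖ ≤ B / d := by
    calc ‖v‖ = ‖(v - ρ / Y) + ρ / Y‖ := by rw [sub_add_cancel]
      _ ≤ ‖v - ρ / Y‖ + ‖ρ / Y‖ := norm_add_le _ _
      _ ≤ A * (1 / d) + |P| * KY / d := by
        refine add_le_add (hv1.trans ?_) hρY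
        gcongr
      _ = B / d := by rw [hB]; ring
  -- `t`
  set t : ℂ := e * v / c with ht
  have hcinv : 1 / ‖c‖ ≤ Cc / n := by
    rw [div_le_div_iff₀ hc0' hn0]
    linarith
  have htn : ‖t‖ ≤ T / (n * d) := by
    calc ‖t‖ = ‖e‖ * ‖v‖ * (1 / ‖c‖) := by rw [ht, norm_div, norm_mul]; ring
      _ ≤ E * (B / d) * (Cc / n) := by gcongr
      _ = T / (n * d) := by
        rw [hT]
        field_simp
  have hth : ‖t‖ ≤ 1 / 2 := by
    refine htn.trans ?_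
    rw [div_le_div_iff₀ (by positivity) (by norm_num)]
    nlinarith
  have hlog : ‖Complex.log (1 - t) + t‖ ≤ ‖t‖ ^ 2 := by
    have h1 := Complex.norm_log_one_add_sub_self_le (z := -t) (by rw [norm_neg]; linarith)
    rw [norm_neg, sub_neg_eq_add, ← sub_eq_add_neg] at h1
    refine h1.trans ?_
    have h2 : (1 - ‖t‖)⁻¹ ≤ 2 := by
      rw [inv_le_comm₀ (by linarith) (by norm_num)]
      linarith
    calc ‖t‖ ^ 2 * (1 - ‖t‖)⁻¹ / 2 ≤ ‖t‖ ^ 2 * 2 / 2 := by gcongr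
      _ = ‖t‖ ^ 2 := by ring
  -- `κ`
  set κ : ℂ := (n : ℂ) / (2 * Real.pi * Complex.I * c) with hκd
  have hpi : (2 * Real.pi * Complex.I : ℂ) ≠ 0 := by
    simp [Real.pi_ne_zero, Complex.I_ne_zero]
  have hnC : (n : ℂ) ≠ 0 := by exact_mod_cast hn0.ne'
  have hκ1 : ‖κ‖ ≤ 1 + Cc := by
    calc ‖κ‖ = ‖(κ - 1) + 1‖ := by rw [sub_add_cancel]
      _ ≤ ‖κ - 1‖ + ‖(1 : ℂ)‖ := norm_add_le _ _
      _ ≤ Cc / n + 1 := by rw [norm_one]; gcongr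
      _ ≤ 1 + Cc := by
        have : Cc / n ≤ Cc := div_le_self hCc.le (by linarith)
        linarith
  set pre : ℂ := (n : ℂ) / (2 * Real.pi * Complex.I) with hpre
  have hpren : ‖pre‖ ≤ n := by
    rw [hpre, norm_div, norm_mul, norm_mul, Complex.norm_I, Complex.norm_real, Complex.norm_real]
    simp only [Complex.norm_ofNat, mul_one, Real.norm_eq_abs, abs_of_pos hn0, abs_of_pos Real.pi_pos]
    apply div_le_self hn0.le
    linarith [Real.pi_gt_three]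
  have hpret : pre * t = κ * e * v := by
    rw [hpre, ht, hκd]
    field_simp
  set err : ℂ := -pre * Complex.log (1 - t) with herr
  have h1 : ‖err - κ * e * v‖ ≤ T ^ 2 * d ^ (-(1 + a)) := by
    have : err - κ * e * v = -(pre * (Complex.log (1 - t) + t)) := by
      rw [← hpret, herr]; ring
    rw [this, norm_neg, norm_mul]
    calc ‖pre‖ * ‖Complex.log (1 - t) + t‖ ≤ n * (T / (n * d)) ^ 2 := by
          gcongr
          exact hlog.trans (by gcongr)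
      _ = T ^ 2 * (1 / d ^ 2) * (1 / n) := by field_simp
      _ ≤ T ^ 2 * (1 / d ^ 2) * 1 := by
          gcongr
          rw [div_le_one hn0]
          linarith
      _ ≤ T ^ 2 * d ^ (-(1 + a)) := by
          rw [mul_one]
          gcongr
  have h2 : ‖κ * e * (v - ρ / Y)‖ ≤ (1 + Cc) * E * A * d ^ (-(1 + a)) := by
    rw [norm_mul, norm_mul]
    calc ‖κ‖ * ‖e‖ * ‖v - ρ / Y‖ ≤ (1 + Cc) * E * (A * d ^ (-(1 + a))) := by gcongr
      _ = _ := by ring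
  -- derivative of cs
  have hcsd : deriv (cs n) ζ = -(2 * Real.pi * Complex.I / n) * (e ^ 2 / (1 - e)) :=
    (cs_hasDerivAt hn0 hV0).deriv
  have he1 : 1 - e ≠ 0 := by
    intro h0
    apply hY0
    have : e = 1 := (sub_eq_zero.1 h0).symm
    rw [hYd, YY, ← hed', this]
    simp
  have hYe : Y = c * (1 - e⁻¹) := rfl
  have hkey : κ * e * (ρ / Y) = κ ^ 2 * (ρ * deriv (cs n) ζ) := by
    have he1' : e - 1 ≠ 0 := by
      intro h0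
      apply he1
      linear_combination -h0
    have hYe' : Y = c * (e - 1) / e := by
      rw [hYe]
      field_simp
    rw [hYe', hcsd, hκd]
    have h12 : (1 - e) = -(e - 1) := by ring
    rw [h12]
    field_simp
  have h3 : ‖(κ ^ 2 - 1) * (ρ * deriv (cs n) ζ)‖ ≤ Cc * (2 + Cc) * |P| * Cs * Cd * d ^ (-(1 + a)) := by
    have hk : ‖κ ^ 2 - 1‖ ≤ Cc / n * (2 + Cc) := by
      have : κ ^ 2 - 1 = (κ - 1) * (κ + 1) := by ring
      rw [this, norm_mul]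
      have hk1 : ‖κ + 1‖ ≤ 2 + Cc := by
        calc ‖κ + 1‖ ≤ ‖κ‖ + ‖(1 : ℂ)‖ := norm_add_le _ _
          _ ≤ (1 + Cc) + 1 := by rw [norm_one]; gcongr
          _ = 2 + Cc := by ring
      gcongr
    have hed2 : ‖e‖ ≤ Cd * n / d := by
      rw [le_div_iff₀ hd0]
      exact hed n hn0 ζ him
    have hcs1 : ‖deriv (cs n) ζ‖ ≤ Cs * (Cd * n / d / d) := by
      refine (hcs n hn4 ζ hV1).1.trans ?_
      gcongr
    rw [norm_mul, norm_mul]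
    calc ‖κ ^ 2 - 1‖ * (‖ρ‖ * ‖deriv (cs n) ζ‖) ≤ (Cc / n * (2 + Cc)) * (|P| * (Cs * (Cd * n / d / d))) := by
          gcongr
      _ = Cc * (2 + Cc) * |P| * Cs * Cd * (1 / d ^ 2) := by field_simp
      _ ≤ Cc * (2 + Cc) * |P| * Cs * Cd * d ^ (-(1 + a)) := by gcongr
  have h4 : ‖err - ρ * deriv (cs n) ζ‖ ≤ C2 * d ^ (-(1 + a)) := by
    have hsplit : err - ρ * deriv (cs n) ζ = (err - κ * e * v) + κ * e * (v - ρ / Y) +
        (κ ^ 2 - 1) * (ρ * deriv (cs n) ζ) := by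
      have : κ * e * (v - ρ / Y) = κ * e * v - κ ^ 2 * (ρ * deriv (cs n) ζ) := by
        rw [← hkey]; ring
      rw [this]; ring
    rw [hsplit]
    calc _ ≤ ‖(err - κ * e * v) + κ * e * (v - ρ / Y)‖ + ‖(κ ^ 2 - 1) * (ρ * deriv (cs n) ζ)‖ := norm_add_le _ _
      _ ≤ ‖err - κ * e * v‖ + ‖κ * e * (v - ρ / Y)‖ + ‖(κ ^ 2 - 1) * (ρ * deriv (cs n) ζ)‖ := by
          gcongr
          exact norm_add_le _ _
      _ ≤ T ^ 2 * d ^ (-(1 + a)) + (1 + Cc) * E * A * d ^ (-(1 + a)) +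
          Cc * (2 + Cc) * |P| * Cs * Cd * d ^ (-(1 + a)) := by gcongr
      _ = C2 * d ^ (-(1 + a)) := by rw [hC2]; ring
  have h5 : ‖err‖ ≤ (|P| * Cs + C2) / d := by
    have hρcs : ‖ρ * deriv (cs n) ζ‖ ≤ |P| * (Cs / d) := by
      rw [norm_mul]
      have := (hcs n hn4 ζ hV1).2
      gcongr
    calc ‖err‖ = ‖(err - ρ * deriv (cs n) ζ) + ρ * deriv (cs n) ζ‖ := by rw [sub_add_cancel]
      _ ≤ ‖err - ρ * deriv (cs n) ζ‖ + ‖ρ * deriv (cs n) ζ‖ := norm_add_le _ _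
      _ ≤ C2 * (1 / d) + |P| * (Cs / d) := by
          refine add_le_add (h4.trans ?_) hρcs
          gcongr
      _ = (|P| * Cs + C2) / d := by ring
  have hPC : 0 ≤ |P| * Cs := by positivity
  refine ⟨hvB.trans ?_, hth, h5.trans ?_, h4.trans ?_⟩
  · exact div_le_div_of_nonneg_right (by linarith) hd0.le
  · exact div_le_div_of_nonneg_right (by linarith) hd0.le
  · exact mul_le_mul_of_nonneg_right (by linarith) hDn

end Pool.Agent.CR.G
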