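import Pool.Agent.H48.CR.GDefs2
import Pool.Agent.H48.CR.G7a

/-!
# CR G7b: the explicit function `yN` and the error `errN`

`YX_yN`: `(yN)^q = κ^q e S^(-1)` (`e = ee n ζ`; `(S^(-(1/q)))^q = S⁻¹` for `S ≠ 0`, `q ≠ 0`: `Complex.cpow_nat_mul` ...), `S = (n/2π)(1 - e)`; `-1/(q b κ^q e / S) = - S/(q b κ^q e)`, and `1/(q b κ^q) = cn 2π/n` (`κ_eq`): `= -cn (1 - e)/e = cn (1 - e⁻¹) = YY`.
`err_bound`: all constants depend on `X` only: `b` and `ρ` are continuous on the compact ball `closedBall (mu (p/q)) r0`: `1/B ≤ ‖b l‖ ≤ B`, `‖ρ l‖ ≤ P`. `‖yN‖^q = 1/(q ‖b‖ ‖YY‖) ≤ C/dn` (`YY_lower`), so `‖yN‖ ≤ C dn^(-1/q) < r1` for `R1` large.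
`z = η l (yN ζ)`: `χ l z = yN ζ ≠ 0`, `z ≠ 0` (`χ_zero`), `‖z‖ ≤ 2 ‖yN‖ < 2 r1`: `X.step` gives `‖R1N - ρ/YY‖ ≤ C ‖YY‖^(-(1 + 1/q))` and `err_core` with `a = 1/q` applies.
Differentiability: `yN` is differentiable on `V n 0` (`S_slit`), `η l` on `ball 0 r1`, `f l`, `χ l` are entire, `YX` is differentiable where `x ≠ 0` (`x = χ l (f l z) ≠ 0` by `X.step`), `log` at `1 - t`, `‖t‖ ≤ 1/2`.
-/

set_option autoImplicit false

open Set Filter Topology Metric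

namespace Pool.Agent.CR.G

private theorem g7b_kne {p q : ℕ} (hq : 0 < q) {X : NF p q} {n : ℝ} {l κ : ℂ} (h : Lev X n l κ) :
    κ ≠ 0 := by
  intro h0
  have h1 := h.κ_eq
  rw [h0, zero_pow hq.ne', zero_mul] at h1
  exact zero_ne_one h1

private theorem g7b_pow {q : ℕ} (hq : 0 < q) {n : ℝ} {κ ζ : ℂ} :
    (yN q n κ ζ) ^ q = κ ^ q * ee n ζ * (S n ζ)⁻¹ := by
  have hq0 : (q : ℂ) ≠ 0 := by exact_mod_cast hq.ne'
  unfold yN
  rw [mul_pow, mul_pow, ← Complex.exp_nat_mul, ← Complex.cpow_mul_nat]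
  congr 1
  · congr 1
    unfold ee
    congr 1
    by_cases hn : (n : ℂ) = 0
    · rw [hn]; simp
    · field_simp
  · rw [show (-(1 / (q : ℂ)) * q) = -1 by field_simp, Complex.cpow_neg_one]

theorem YX_yN {p q : ℕ} (hq : 0 < q) (X : NF p q) {n : ℝ} (hn : 0 < n) {l κ : ℂ} (h : Lev X n l κ) {ζ : ℂ}
    (hζ : ζ ∈ V n 0) : yN q n κ ζ ≠ 0 ∧ YX q (X.b l) (yN q n κ ζ) = YY n ζ := by
  have hq0 : (q : ℂ) ≠ 0 := by exact_mod_cast hq.ne'
  have hκ : κ ≠ 0 := g7b_kne hq h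
  have hS : S n ζ ≠ 0 := Complex.slitPlane_ne_zero (S_slit hn hζ)
  have he := ee_ne_zero n ζ
  have hb := X.b_ne l h.mem
  refine ⟨?_, ?_⟩
  · unfold yN
    refine mul_ne_zero (mul_ne_zero hκ (Complex.exp_ne_zero _)) ?_
    intro h0
    rw [Complex.cpow_eq_zero_iff] at h0
    exact hS h0.1
  · unfold YX
    rw [g7b_pow hq]
    have hk := h.κ_eq
    have hn0 : (n : ℂ) ≠ 0 := by exact_mod_cast hn.ne'
    have hpi : (Real.pi : ℂ) ≠ 0 := by exact_mod_cast Real.pi_ne_zero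
    have h1 : -1 / (q * X.b l * (κ ^ q * ee n ζ * (S n ζ)⁻¹)) =
        -(S n ζ) / (ee n ζ) * (q * X.b l * κ ^ q)⁻¹ := by
      field_simp
    have h2 : (q * X.b l * κ ^ q)⁻¹ = cn n * (2 * Real.pi / n) := by
      rw [inv_eq_iff_eq_inv]
      have h3 : (q * X.b l * κ ^ q) * (cn n * (2 * Real.pi / n)) = 1 := by
        rw [← hk]; ring
      exact eq_inv_of_mul_eq_one_left h3
    rw [h1, h2]
    unfold S YY
    push_cast
    field_simp
    ring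

private theorem g7b_const {p q : ℕ} (X : NF p q) : ∃ B : ℝ, 1 ≤ B ∧
    ∀ l ∈ closedBall (mu ((p : ℝ) / q)) X.r0, ‖X.b l‖ ≤ B ∧ B⁻¹ ≤ ‖X.b l‖ ∧ ‖X.ρ l‖ ≤ B := by
  have hK : IsCompact (closedBall (mu ((p : ℝ) / q)) X.r0) := isCompact_closedBall _ _
  obtain ⟨B1, hB1⟩ := hK.exists_bound_of_continuousOn X.b_cont
  obtain ⟨B2, hB2⟩ := hK.exists_bound_of_continuousOn X.ρ_cont
  have hinv : ContinuousOn (fun l => (X.b l)⁻¹) (closedBall (mu ((p : ℝ) / q)) X.r0) :=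
    X.b_cont.inv₀ fun l hl => X.b_ne l hl
  obtain ⟨B3, hB3⟩ := hK.exists_bound_of_continuousOn hinv
  refine ⟨max 1 (max B1 (max B2 B3)), le_max_left _ _, fun l hl => ⟨?_, ?_, ?_⟩⟩
  · exact (hB1 l hl).trans ((le_max_left _ _).trans (le_max_right _ _))
  · have h1 := hB3 l hl
    rw [norm_inv] at h1
    have h2 : B3 ≤ max 1 (max B1 (max B2 B3)) :=
      (le_max_right _ _).trans ((le_max_right _ _).trans (le_max_right _ _))
    have h3 : 0 < ‖X.b l‖ := norm_pos_iff.2 (X.b_ne l hl)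
    have h4 := h1.trans h2
    exact (inv_le_comm₀ h3 (lt_of_lt_of_le one_pos (le_max_left _ _))).1 h4
  · exact (hB2 l hl).trans ((le_max_left _ _).trans ((le_max_right _ _).trans (le_max_right _ _)))

private theorem g7b_S_diff (n : ℝ) (hn : 0 < n) (ζ : ℂ) : DifferentiableAt ℂ (S n) ζ := by
  have h1 := (ee_hasDerivAt hn ζ).differentiableAt
  exact (differentiableAt_const _).mul ((differentiableAt_const _).sub h1)

private theorem g7b_yN_diff {q : ℕ} {n : ℝ} (hn : 0 < n) {κ ζ : ℂ} (hζ : ζ ∈ V n 0) :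
    DifferentiableAt ℂ (yN q n κ) ζ := by
  have h1 : DifferentiableAt ℂ (fun t => (S n t) ^ (-(1 / (q : ℂ)))) ζ :=
    (g7b_S_diff n hn ζ).cpow (differentiableAt_const _) (S_slit hn hζ)
  have h2 : DifferentiableAt ℂ (fun t : ℂ => κ * Complex.exp (2 * Real.pi * Complex.I * t / (q * n))) ζ := by
    fun_prop
  exact h2.mul h1

private theorem g7b_norm {p q : ℕ} (hq : 0 < q) (X : NF p q) {B CY n : ℝ} {l κ ζ : ℂ} (hB : 1 ≤ B)
    (hCY : 0 < CY) (hBl : B⁻¹ ≤ ‖X.b l‖) (hd : 0 < dn n ζ) (h1 : dn n ζ ≤ CY * ‖YY n ζ‖)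
    (h2 : yN q n κ ζ ≠ 0) (h3 : YX q (X.b l) (yN q n κ ζ) = YY n ζ) :
    ‖yN q n κ ζ‖ ^ q ≤ B * CY / dn n ζ := by
  have h4 : ‖YY n ζ‖ = 1 / (q * ‖X.b l‖ * ‖yN q n κ ζ‖ ^ q) := by
    rw [← h3]
    unfold YX
    rw [norm_div, norm_neg, norm_one, norm_mul, norm_mul, norm_pow]
    simp
  have hB0 : 0 < B := lt_of_lt_of_le one_pos hB
  have hbl : 0 < ‖X.b l‖ := lt_of_lt_of_le (inv_pos.2 hB0) hBl
  have hy : 0 < ‖yN q n κ ζ‖ ^ q := pow_pos (norm_pos_iff.2 h2) _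
  have hq1 : (1 : ℝ) ≤ q := by exact_mod_cast hq
  rw [h4] at h1
  rw [le_div_iff₀ hd]
  have h5 : B⁻¹ ≤ q * ‖X.b l‖ := by nlinarith
  have h6 : CY * (1 / (q * ‖X.b l‖ * ‖yN q n κ ζ‖ ^ q)) * ‖yN q n κ ζ‖ ^ q = CY / (q * ‖X.b l‖) := by
    field_simp
  have h7 : CY / (q * ‖X.b l‖) ≤ CY * B := by
    rw [div_le_iff₀ (by positivity)]
    have h8 : 1 ≤ B * (q * ‖X.b l‖) := by
      have h9 := mul_le_mul_of_nonneg_left h5 hB0.le
      rwa [mul_inv_cancel₀ hB0.ne'] at h9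
    nlinarith
  calc ‖yN q n κ ζ‖ ^ q * dn n ζ ≤ ‖yN q n κ ζ‖ ^ q * (CY * (1 / (q * ‖X.b l‖ * ‖yN q n κ ζ‖ ^ q))) :=
        mul_le_mul_of_nonneg_left h1 hy.le
    _ = CY / (q * ‖X.b l‖) := by rw [← h6]; ring
    _ ≤ CY * B := h7
    _ = B * CY := mul_comm _ _


theorem err_bound {p q : ℕ} (hq : 0 < q) (X : NF p q) : ∃ R1 C : ℝ, 4 ≤ R1 ∧ 0 < C ∧ ∀ n ≥ R1, ∀ l κ : ℂ,
    Lev X n l κ → ∀ ζ ∈ V n R1,
      ‖yN q n κ ζ‖ < X.r1 ∧ ‖yN q n κ ζ‖ ≤ C * dn n ζ ^ (-(1 / (q : ℝ))) ∧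
      DifferentiableAt ℂ (yN q n κ) ζ ∧ DifferentiableAt ℂ (fun t => X.η l (yN q n κ t)) ζ ∧
      DifferentiableAt ℂ (errN X n l κ) ζ ∧ ‖ee n ζ * R1N X n l κ ζ / cn n‖ ≤ 1 / 2 ∧
      ‖errN X n l κ ζ‖ ≤ C / dn n ζ ∧
      ‖errN X n l κ ζ - X.ρ l * deriv (cs n) ζ‖ ≤ C * dn n ζ ^ (-(1 + 1 / (q : ℝ))) := by
  classical
  obtain ⟨B, hB, hBK⟩ := g7b_const X
  obtain ⟨CY, hCY0, hCY⟩ := YY_lower
  have hq1 : (1 : ℝ) ≤ q := by exact_mod_cast hq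
  have hqpos : (0 : ℝ) < q := by linarith
  obtain ⟨R2, C2, hR2, hC2, hcore⟩ := err_core (P := B) (C1 := X.C) (a := 1 / (q : ℝ)) (by positivity)
    (by rw [div_le_one hqpos]; exact hq1)
  have hB0 : 0 < B := lt_of_lt_of_le one_pos hB
  have hr1 : 0 < X.r1 ^ q := pow_pos X.r1_pos _
  refine ⟨max R2 (B * CY / X.r1 ^ q), max C2 ((B * CY) ^ (1 / (q : ℝ))), hR2.trans (le_max_left _ _),
    lt_of_lt_of_le hC2 (le_max_left _ _), ?_⟩
  intro n hn l κ hlev ζ hζ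
  have hn2 : R2 ≤ n := (le_max_left _ _).trans hn
  have hn4 : 4 ≤ n := hR2.trans hn2
  have hn0 : 0 < n := by linarith
  have hζ2 : ζ ∈ V n R2 := V_mono (le_max_left _ _) hζ
  have hR20 : 0 ≤ R2 := by linarith
  have hζ0 : ζ ∈ V n 0 := V_mono hR20 hζ2
  have him : -n ≤ ζ.im := (V_im hn0 hζ0).le
  have hdR : max R2 (B * CY / X.r1 ^ q) < dn n ζ := V_dn hζ
  have hd2 : R2 < dn n ζ := lt_of_le_of_lt (le_max_left _ _) hdR
  have hd0 : 0 < dn n ζ := by linarith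
  have hd3 : B * CY / X.r1 ^ q < dn n ζ := lt_of_le_of_lt (le_max_right _ _) hdR
  obtain ⟨hy0, hyY⟩ := YX_yN hq X hn0 hlev hζ0
  obtain ⟨hb1, hb2, hb3⟩ := hBK l hlev.mem
  have hnorm := g7b_norm hq X hB hCY0 hb2 hd0 (hCY n hn4 ζ him) hy0 hyY
  have hyr : ‖yN q n κ ζ‖ < X.r1 := by
    refine lt_of_pow_lt_pow_left₀ q X.r1_pos.le (lt_of_le_of_lt hnorm ?_)
    rw [div_lt_iff₀ hd0]
    rw [div_lt_iff₀ hr1] at hd3
    rw [mul_comm]
    linarith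
  have hyC : ‖yN q n κ ζ‖ ≤ max C2 ((B * CY) ^ (1 / (q : ℝ))) * dn n ζ ^ (-(1 / (q : ℝ))) := by
    have h1 : ‖yN q n κ ζ‖ = (‖yN q n κ ζ‖ ^ q) ^ (1 / (q : ℝ)) := by
      rw [one_div, Real.pow_rpow_inv_natCast (norm_nonneg _) hq.ne']
    have h2 : (‖yN q n κ ζ‖ ^ q) ^ (1 / (q : ℝ)) ≤ (B * CY / dn n ζ) ^ (1 / (q : ℝ)) :=
      Real.rpow_le_rpow (by positivity) hnorm (by positivity)
    have h3 : (B * CY / dn n ζ) ^ (1 / (q : ℝ)) = (B * CY) ^ (1 / (q : ℝ)) * dn n ζ ^ (-(1 / (q : ℝ))) := by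
      rw [Real.div_rpow (by positivity) hd0.le, Real.rpow_neg hd0.le, div_eq_mul_inv]
    rw [h1]
    refine h2.trans ?_
    rw [h3]
    exact mul_le_mul_of_nonneg_right (le_max_right _ _) (Real.rpow_nonneg hd0.le _)
  -- the point `z`
  have hyb : yN q n κ ζ ∈ ball (0 : ℂ) X.r1 := by
    rw [mem_ball_zero_iff]; exact hyr
  have hχη := X.χ_η l hlev.mem _ hyb
  have hz0 : X.η l (yN q n κ ζ) ≠ 0 := by
    intro h0
    rw [h0, X.χ_zero l hlev.mem] at hχη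
    exact hy0 hχη.symm
  have hz1 : ‖X.η l (yN q n κ ζ)‖ < 2 * X.r1 :=
    lt_of_le_of_lt (X.η_norm l hlev.mem _ hyb) (by linarith)
  obtain ⟨-, hx', -, hstep⟩ := X.step l hlev.mem _ hz0 hz1
  rw [hχη, hyY] at hstep
  have hv : ‖R1N X n l κ ζ - X.ρ l / YY n ζ‖ ≤ X.C * ‖YY n ζ‖ ^ (-(1 + 1 / (q : ℝ))) := by
    refine le_trans (le_of_eq ?_) hstep
    unfold R1N
    congr 1
    ring
  obtain ⟨-, he2, he3, he4⟩ := hcore n hn2 ζ hζ2 (X.ρ l) (R1N X n l κ ζ) hb3 hv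
  have hdy : DifferentiableAt ℂ (yN q n κ) ζ := g7b_yN_diff hn0 hζ0
  have hdη : DifferentiableAt ℂ (fun t => X.η l (yN q n κ t)) ζ := by
    have h1 : DifferentiableAt ℂ (X.η l) (yN q n κ ζ) :=
      (X.η_diff l hlev.mem).differentiableAt (isOpen_ball.mem_nhds hyb)
    exact h1.comp ζ hdy
  have hdR1 : DifferentiableAt ℂ (R1N X n l κ) ζ := by
    have h1 : DifferentiableAt ℂ (fun t => X.χ l (f l (X.η l (yN q n κ t)))) ζ := by
      have h2 : DifferentiableAt ℂ (fun t => f l (X.η l (yN q n κ t))) ζ := by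
        unfold f
        exact (hdη.pow 2).add ((differentiableAt_const _).mul hdη)
      exact (X.χ_diff l hlev.mem _).comp ζ h2
    have h3 : DifferentiableAt ℂ (fun t => YX q (X.b l) (X.χ l (f l (X.η l (yN q n κ t))))) ζ := by
      unfold YX
      refine (differentiableAt_const _).div ((differentiableAt_const _).mul (h1.pow q)) ?_
      refine mul_ne_zero (mul_ne_zero (by exact_mod_cast hq.ne') (X.b_ne l hlev.mem)) (pow_ne_zero _ hx')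
    have h4 : DifferentiableAt ℂ (YY n) ζ := by
      unfold YY
      exact (differentiableAt_const _).mul ((differentiableAt_const _).sub
        ((ee_hasDerivAt hn0 ζ).differentiableAt.inv (ee_ne_zero n ζ)))
    unfold R1N
    exact (((differentiableAt_const _).mul h3).sub h4).sub (differentiableAt_const _)
  have hderr : DifferentiableAt ℂ (errN X n l κ) ζ := by
    unfold errN
    have h1 : DifferentiableAt ℂ (fun t => 1 - ee n t * R1N X n l κ t / cn n) ζ :=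
      (differentiableAt_const _).sub (((ee_hasDerivAt hn0 ζ).differentiableAt.mul hdR1).div_const _)
    refine (differentiableAt_const _).mul (h1.clog ?_)
    have h2 : 1 - ee n ζ * R1N X n l κ ζ / cn n = 1 + -(ee n ζ * R1N X n l κ ζ / cn n) := by ring
    rw [h2]
    refine Complex.mem_slitPlane_of_norm_lt_one ?_
    rw [norm_neg]
    linarith
  refine ⟨hyr, hyC, hdy, hdη, hderr, he2, ?_, ?_⟩
  · refine he3.trans ?_
    exact div_le_div_of_nonneg_right (le_max_left _ _) hd0.le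
  · refine he4.trans ?_
    exact mul_le_mul_of_nonneg_right (le_max_left _ _) (Real.rpow_nonneg hd0.le _)

end Pool.Agent.CR.G
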