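import Pool.Agent.H48.CR.G6a
import Pool.Agent.H48.CR.G7b

/-!
# CR G8a: the chart `WN` at level `n`: regularity, periodicity, injectivity, size

For `R ≥ R1` large (`R/2 ≥` the constant of `err_bound`) `J w ∈ V n (R/2)` (`IsJ.mem`). `WN w = η l (yN (J w))`, `χ l (WN w) = yN (J w)`. Periodicity: `J (w + q n) = J w + q n` (`IsJ.add`), `yN (ζ + q n) = yN ζ`.
Injectivity: `WN w = WN w'` gives `yN ζ = yN ζ'` (apply `χ l`; `ζ = J w`, `ζ' = J w'`), `YY ζ = YY ζ'` (`YX_yN`), so `ee ζ = ee ζ'` (`cn ≠ 0`), `ζ' = ζ + m n`, `m : ℤ` (`Complex.exp_eq_exp_iff_exists_int`), then `S ζ' = S ζ` and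
`yN ζ' = exp (2πi m/q) yN ζ`, so `exp (2πi m/q) = 1`, `q ∣ m`, `m = k q`; `J (w + k q n) = ζ + k q n = ζ' = J w'` and `IsJ.inj` (with `Wd_add`).
`small`: `‖WN w‖ ≤ 2 ‖yN (J w)‖ ≤ 2 C dn(J w)^(-1/q)`, `dn (J w) ≥ (15/16) dn w ≥ (15/16) r` (`dn w ≥ r` if `r ≤ ‖w - k n‖` for all `k`).
-/

set_option autoImplicit false

open Set Filter Topology Metric

namespace Pool.Agent.CR.G

private theorem rpow_half {r a : ℝ} (hr : 0 < r) (ha0 : 0 ≤ a) (ha : a ≤ 1) {x : ℝ} (hx : r / 2 ≤ x) :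
    x ^ (-a) ≤ 2 * r ^ (-a) := by
  have h1 : x ^ (-a) ≤ (r / 2) ^ (-a) :=
    Real.rpow_le_rpow_of_nonpos (by positivity) hx (by linarith)
  have h2 : (r / 2) ^ (-a) = r ^ (-a) * 2 ^ a := by
    rw [Real.div_rpow hr.le (by norm_num), Real.rpow_neg (by norm_num : (0:ℝ) ≤ 2)]
    field_simp
  have h3 : (2 : ℝ) ^ a ≤ 2 := by
    calc (2 : ℝ) ^ a ≤ 2 ^ (1 : ℝ) := Real.rpow_le_rpow_of_exponent_le (by norm_num) ha
      _ = 2 := by norm_num
  have h4 : 0 < r ^ (-a) := Real.rpow_pos_of_pos hr _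
  rw [h2] at h1
  nlinarith

private theorem S_add {n : ℝ} (hn : 0 < n) (ζ : ℂ) (k : ℤ) : S n (ζ + k * n) = S n ζ := by
  unfold S; rw [ee_add hn]

private theorem yN_add {q : ℕ} (hq : 0 < q) {n : ℝ} (hn : 0 < n) (κ ζ : ℂ) (m : ℤ) :
    yN q n κ (ζ + m * n) = yN q n κ ζ * Complex.exp (2 * Real.pi * Complex.I * m / q) := by
  have hnC : (n : ℂ) ≠ 0 := by exact_mod_cast hn.ne'
  have hqC : (q : ℂ) ≠ 0 := by exact_mod_cast hq.ne'
  unfold yN
  rw [S_add hn]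
  have : (2 * Real.pi * Complex.I * (ζ + m * n) / (q * n) : ℂ) =
      2 * Real.pi * Complex.I * ζ / (q * n) + 2 * Real.pi * Complex.I * m / q := by
    field_simp
  rw [this, Complex.exp_add]
  ring

theorem WN_basic {p q : ℕ} (hq : 0 < q) (X : NF p q) : ∃ R1 : ℝ, 4 ≤ R1 ∧ ∀ R ≥ R1, ∃ C : ℝ, 0 < C ∧ ∀ n ≥ R,
    ∀ (l κ : ℂ) (J : ℂ → ℂ), Lev X n l κ → IsJ n (X.ρ l) R J →
      DifferentiableOn ℂ (WN X n l κ J) (Wd n R) ∧
      (∀ w ∈ Wd n R, WN X n l κ J (w + q * n) = WN X n l κ J w) ∧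
      (∀ w ∈ Wd n R, ∀ w' ∈ Wd n R, WN X n l κ J w = WN X n l κ J w' → ∃ k : ℤ, w' = w + k * (q * n)) ∧
      (∀ w ∈ Wd n R, WN X n l κ J w ≠ 0) ∧
      (∀ w ∈ Wd n R, ∀ r : ℝ, R ≤ r → (∀ k : ℤ, r ≤ ‖w - k * n‖) →
        ‖WN X n l κ J w‖ ≤ C * r ^ (-(1 / (q : ℝ)))) := by
  obtain ⟨R1, C, hR1, hC, hE⟩ := err_bound hq X
  refine ⟨2 * R1, by linarith, fun R hR => ⟨4 * C, by positivity, fun n hn l κ J hL hJ => ?_⟩⟩
  have hR0 : 0 < R := by linarith
  have hn0 : 0 < n := by linarith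
  have hnC : (n : ℂ) ≠ 0 := by exact_mod_cast hn0.ne'
  have hqC : (q : ℂ) ≠ 0 := by exact_mod_cast hq.ne'
  have hmem : ∀ w ∈ Wd n R, J w ∈ V n R1 := fun w hw =>
    V_mono (by linarith) (hJ.mem hn0 hR0 hw).1
  have hmem0 : ∀ w ∈ Wd n R, J w ∈ V n 0 := fun w hw => V_mono (by linarith) (hmem w hw)
  have hEw : ∀ w ∈ Wd n R, _ := fun w hw => hE n (by linarith) l κ hL (J w) (hmem w hw)
  have hball : ∀ w ∈ Wd n R, yN q n κ (J w) ∈ ball (0 : ℂ) X.r1 := fun w hw => by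
    rw [mem_ball, dist_zero_right]; exact (hEw w hw).1
  have hχ : ∀ w ∈ Wd n R, X.χ l (WN X n l κ J w) = yN q n κ (J w) := fun w hw =>
    X.χ_η l hL.mem _ (hball w hw)
  refine ⟨?_, ?_, ?_, ?_, ?_⟩
  · intro w hw
    have h1 := (hEw w hw).2.2.2.1
    have h2 := hJ.diff w hw
    exact h1.comp_differentiableWithinAt w h2
  · intro w hw
    have h1 := hJ.add hn0 hw (q : ℤ)
    unfold WN
    have h2 := yN_add hq hn0 κ (J w) (q : ℤ)
    have h3 : Complex.exp (2 * Real.pi * Complex.I * ((q : ℤ) : ℂ) / q) = 1 := by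
      have : (2 * Real.pi * Complex.I * ((q : ℤ) : ℂ) / q : ℂ) = 2 * Real.pi * Complex.I := by
        push_cast; field_simp
      rw [this, Complex.exp_two_pi_mul_I]
    rw [h3, mul_one] at h2
    push_cast at h1 h2
    rw [h1, h2]
  · intro w hw w' hw' he
    have h1 : yN q n κ (J w) = yN q n κ (J w') := by rw [← hχ w hw, ← hχ w' hw', he]
    have h2 := (YX_yN hq X hn0 hL (hmem0 w hw)).2
    have h3 := (YX_yN hq X hn0 hL (hmem0 w' hw')).2
    rw [h1, h3] at h2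
    obtain ⟨Cc, -, hcn⟩ := cn_bound
    have hc0 : cn n ≠ 0 := (hcn n (by linarith)).1
    have h4 : (ee n (J w'))⁻¹ = (ee n (J w))⁻¹ := by
      unfold YY at h2
      have := mul_left_cancel₀ hc0 h2
      linear_combination -this
    have h5 : ee n (J w') = ee n (J w) := inv_injective h4
    unfold ee at h5
    obtain ⟨m, hm⟩ := Complex.exp_eq_exp_iff_exists_int.1 h5
    have h6 : J w' = J w + m * n := by
      have hpi : (2 * Real.pi * Complex.I : ℂ) ≠ 0 := Complex.two_pi_I_ne_zero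
      have h7 : (2 * Real.pi * Complex.I * J w' / n : ℂ) = 2 * Real.pi * Complex.I * (J w + m * n) / n := by
        rw [hm]; field_simp
      have h8 : (2 * Real.pi * Complex.I * J w' : ℂ) = 2 * Real.pi * Complex.I * (J w + m * n) := by
        field_simp at h7
        rw [h7]; ring
      exact mul_left_cancel₀ hpi h8
    have h7 := yN_add hq hn0 κ (J w) m
    rw [← h6, ← h1] at h7
    have hy0 := (YX_yN hq X hn0 hL (hmem0 w hw)).1
    have h8 : Complex.exp (2 * Real.pi * Complex.I * m / q) = 1 := by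
      have : yN q n κ (J w) * Complex.exp (2 * Real.pi * Complex.I * m / q) = yN q n κ (J w) * 1 := by
        rw [mul_one]; exact h7.symm
      exact mul_left_cancel₀ hy0 this
    obtain ⟨k, hk⟩ := Complex.exp_eq_one_iff.1 h8
    have h9 : (m : ℂ) = k * q := by
      have hpi : (2 * Real.pi * Complex.I : ℂ) ≠ 0 := Complex.two_pi_I_ne_zero
      have h10 : (2 * Real.pi * Complex.I : ℂ) * m = 2 * Real.pi * Complex.I * (k * q) := by
        have h11 : (2 * Real.pi * Complex.I * m / q : ℂ) * q = k * (2 * Real.pi * Complex.I) * q := by rw [hk]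
        rw [div_mul_cancel₀ _ hqC] at h11
        rw [h11]; ring
      exact mul_left_cancel₀ hpi h10
    have h10 : m = k * q := by exact_mod_cast h9
    refine ⟨k, ?_⟩
    have h11 := hJ.add hn0 hw m
    have h12 : J w' = J (w + m * n) := by rw [h6, h11]
    have h13 := hJ.inj hw' (Wd_add hw m) h12
    rw [h13, h9]; ring
  · intro w hw h0
    have h1 := hχ w hw
    rw [h0, X.χ_zero l hL.mem] at h1
    exact (YX_yN hq X hn0 hL (hmem0 w hw)).1 h1.symm
  · intro w hw r hr hk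
    have h1 := X.η_norm l hL.mem _ (hball w hw)
    have h2 := (hEw w hw).2.1
    have h3 : r ≤ dn n w := hk _
    have h4 := (hJ.mem hn0 hR0 hw).2.1
    have hq1 : (1 : ℝ) / q ≤ 1 := by
      rw [div_le_one (by exact_mod_cast hq)]
      exact_mod_cast hq
    have h5 := rpow_half (r := r) (a := 1 / (q : ℝ)) (by linarith) (by positivity) hq1 (x := dn n (J w)) (by linarith)
    have h6 : ‖WN X n l κ J w‖ ≤ 2 * ‖yN q n κ (J w)‖ := h1
    calc ‖WN X n l κ J w‖ ≤ 2 * ‖yN q n κ (J w)‖ := h6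
      _ ≤ 2 * (C * dn n (J w) ^ (-(1 / (q : ℝ)))) := by linarith
      _ ≤ 2 * (C * (2 * r ^ (-(1 / (q : ℝ))))) := by
        have := mul_le_mul_of_nonneg_left h5 hC.le
        linarith
      _ = 4 * C * r ^ (-(1 / (q : ℝ))) := by ring

end Pool.Agent.CR.G
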