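import Pool.Agent.H48.CR.G7b

/-!
# CR G7c: the map in the coordinate `ζ`: `f (Z ζ) = Z (ζ + p n + 1 + errN ζ)`

`z = η l (yN ζ)`, `x = χ l z = yN ζ`, `x' = χ l (f l z)`, `μ = exp (-2πi/n)`. `l^q = exp (2πi/n) = μ⁻¹` (`l_eq`; `mu (p/q)^q = exp (2πi p) = 1`). By definition of `R1N`: `YX x' = μ (YY n ζ + 1 + R1N)`. `cn = μ (cn + 1)`. By definition of `errN`,
`exp (-2πi errN/n) = 1 - ee R1N/cn` (`≠ 0`). Hence with `ζ' = ζ + 1 + errN ζ`: `YY n ζ' = cn - cn μ ee⁻¹ exp (-2πi errN/n) = cn - cn μ ee⁻¹ + μ R1N = μ (YY n ζ + 1 + R1N) = YX x'`. Also `YY n ζ' = YY n (ζ' + p n) = YX (yN (ζ' + p n))` (`YX_yN`, `ζ' ∈ V n R1`, `V_add`, `ee_add`).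
So `x'^q = yN (ζ' + p n)^q ≠ 0` and `x' = ω yN (ζ' + p n)`, `ω^q = 1`. Now `‖x'/(l x) - 1‖ ≤ C ‖x‖^q` (`X.step`) is small for `R1` large, and `yN (ζ' + p n)/(l yN ζ) = exp (2πi errN/(q n)) exp (-(log S(ζ') - log S(ζ))/q)`
(`exp (2πi (ζ + p n + 1 + err)/(q n)) = exp (2πi ζ/(q n)) exp (2πi p/q) exp (2πi/(q n)) exp (2πi err/(q n))`, `mu (p/q) = exp (2πi p/q)`), which is close to `1` (`err_bound`: `‖errN‖ ≤ C/R1 ≤ 1`; `logS_lip` on the segment, `‖ζ' - ζ‖ ≤ 2`). So `ω` is close to `1`: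
`ω = 1` if `R1` is large (distinct `q`-th roots of unity have distance `≥ c_q > 0`; finitely many).
Then `χ l (f l z) = yN (ζ' + p n) = χ l (η l (yN (ζ' + p n)))`, both points in `ball 0 (4 r1)` (`‖f l z‖ ≤ ‖z‖ (‖z‖ + ‖l‖) < 2 r1 * 2`, `‖l‖ ≤ 3/2`), so they are equal by `χ_near`.
-/

set_option autoImplicit false

open Set Filter Topology Metric

namespace Pool.Agent.CR.G

private theorem g7c_root {q : ℕ} (hq : 0 < q) :
    ∃ c : ℝ, 0 < c ∧ ∀ ω : ℂ, ω ^ q = 1 → ‖ω - 1‖ < c → ω = 1 := by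
  classical
  have hfin : {ω : ℂ | ω ^ q = 1 ∧ ω ≠ 1}.Finite := by
    refine Set.Finite.subset (Polynomial.nthRoots q (1 : ℂ)).toFinset.finite_toSet fun ω h => ?_
    rw [Finset.mem_coe, Multiset.mem_toFinset, Polynomial.mem_nthRoots hq]
    exact h.1
  have h1 : {ω : ℂ | ω ^ q = 1 ∧ ω ≠ 1}ᶜ ∈ 𝓝 (1 : ℂ) :=
    hfin.isClosed.isOpen_compl.mem_nhds (by simp)
  obtain ⟨c, hc, h2⟩ := Metric.mem_nhds_iff.1 h1
  refine ⟨c, hc, fun ω hω hlt => ?_⟩
  by_contra hne
  have h3 : ω ∈ ball (1 : ℂ) c := by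
    rw [mem_ball, dist_eq_norm]
    exact hlt
  exact h2 h3 ⟨hω, hne⟩

private theorem g7c_cont {c : ℝ} (hc : 0 < c) : ∃ δ : ℝ, 0 < δ ∧ ∀ u a b : ℂ, ‖u‖ < δ → ‖a‖ < δ →
    ‖b‖ < δ → ‖(1 + u) / (Complex.exp a * Complex.exp b) - 1‖ < c := by
  have h1 : Continuous (fun x : ℂ × ℂ × ℂ => (1 + x.1) / (Complex.exp x.2.1 * Complex.exp x.2.2)) := by
    refine Continuous.div (by fun_prop) (by fun_prop) fun x =>
      mul_ne_zero (Complex.exp_ne_zero _) (Complex.exp_ne_zero _)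
  obtain ⟨δ, hδ, h⟩ := Metric.continuousAt_iff.1 (h1.continuousAt (x := 0)) c hc
  refine ⟨δ, hδ, fun u a b hu ha hb => ?_⟩
  have h2 : dist ((u, a, b) : ℂ × ℂ × ℂ) 0 < δ := by
    rw [dist_zero_right, Prod.norm_def, Prod.norm_def]
    exact max_lt hu (max_lt ha hb)
  have h3 := h h2
  rw [dist_eq_norm] at h3
  simpa using h3

private theorem g7c_lq {p q : ℕ} (hq : 0 < q) {X : NF p q} {n : ℝ} (hn : 0 < n) {l κ : ℂ}
    (h : Lev X n l κ) : l ^ q = Complex.exp (2 * Real.pi * Complex.I / n) := by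
  have hq0 : (q : ℂ) ≠ 0 := by exact_mod_cast hq.ne'
  have hn0 : (n : ℂ) ≠ 0 := by exact_mod_cast hn.ne'
  rw [h.l_eq, mul_pow, ← Complex.exp_nat_mul]
  unfold mu
  rw [← Complex.exp_nat_mul]
  have h1 : (q : ℂ) * (2 * Real.pi * (((p : ℝ) / q : ℝ) : ℂ) * Complex.I) =
      (p : ℤ) * (2 * Real.pi * Complex.I) := by
    push_cast
    field_simp
  rw [h1, Complex.exp_int_mul_two_pi_mul_I, one_mul]
  congr 1
  field_simp

private theorem g7c_cn {n : ℝ} (hn : 4 ≤ n) :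
    cn n = Complex.exp (-(2 * Real.pi * Complex.I / n)) * (cn n + 1) := by
  obtain ⟨C, hC, h⟩ := cn_bound
  have h1 := (h n hn).1
  have h2 : 1 - Complex.exp (-(2 * Real.pi * Complex.I / n)) ≠ 0 := by
    intro h0
    apply h1
    unfold cn
    rw [h0, div_zero]
  unfold cn
  field_simp
  ring

/-- the identity for `YY` -/
private theorem g7c_YY {p q : ℕ} (hq : 0 < q) (X : NF p q) {n : ℝ} (hn : 4 ≤ n) {l κ : ℂ}
    (h : Lev X n l κ) {ζ : ℂ} (ht : ‖ee n ζ * R1N X n l κ ζ / cn n‖ ≤ 1 / 2) :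
    YY n (ζ + 1 + errN X n l κ ζ) =
      YX q (X.b l) (X.χ l (f l (X.η l (yN q n κ ζ)))) := by
  have hn0' : 0 < n := by linarith
  have hn0 : (n : ℂ) ≠ 0 := by exact_mod_cast hn0'.ne'
  have hpi : (Real.pi : ℂ) ≠ 0 := by exact_mod_cast Real.pi_ne_zero
  have hI := Complex.I_ne_zero
  obtain ⟨C, hC, hcn⟩ := cn_bound
  have hcn0 := (hcn n hn).1
  have he := ee_ne_zero n ζ
  have h1t : 1 - ee n ζ * R1N X n l κ ζ / cn n ≠ 0 := by
    intro h0
    have h1 : ee n ζ * R1N X n l κ ζ / cn n = 1 := by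
      linear_combination -h0
    rw [h1, norm_one] at ht
    norm_num at ht
  have hexp : Complex.exp (-(2 * Real.pi * Complex.I * errN X n l κ ζ / n)) =
      1 - ee n ζ * R1N X n l κ ζ / cn n := by
    rw [← Complex.exp_log h1t]
    congr 1
    unfold errN
    field_simp
  have hlq := g7c_lq hq hn0' h
  have hmu : Complex.exp (-(2 * Real.pi * Complex.I / n)) * l ^ q = 1 := by
    rw [hlq, ← Complex.exp_add]
    simp
  have hinv : (ee n (ζ + 1 + errN X n l κ ζ))⁻¹ =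
      (ee n ζ)⁻¹ * Complex.exp (-(2 * Real.pi * Complex.I / n)) *
        (1 - ee n ζ * R1N X n l κ ζ / cn n) := by
    rw [← hexp]
    unfold ee
    rw [← Complex.exp_neg, ← Complex.exp_neg, ← Complex.exp_add, ← Complex.exp_add]
    congr 1
    field_simp
    ring
  have hR1 : R1N X n l κ ζ = l ^ q * YX q (X.b l) (X.χ l (f l (X.η l (yN q n κ ζ)))) - YY n ζ - 1 :=
    rfl
  have hc := g7c_cn hn
  set μ := Complex.exp (-(2 * Real.pi * Complex.I / n)) with hμ
  set Y' := YX q (X.b l) (X.χ l (f l (X.η l (yN q n κ ζ)))) with hY'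
  have h2 : YY n (ζ + 1 + errN X n l κ ζ) =
      cn n - cn n * μ * (ee n ζ)⁻¹ + μ * R1N X n l κ ζ := by
    show cn n * (1 - (ee n (ζ + 1 + errN X n l κ ζ))⁻¹) = _
    rw [hinv]
    field_simp
    ring
  have h3 : YY n ζ = cn n - cn n * (ee n ζ)⁻¹ := by
    unfold YY
    ring
  rw [h2, hR1, h3]
  linear_combination hc + Y' * hmu

/-- the quotient of the values of `yN` -/
private theorem g7c_quot {p q : ℕ} (hq : 0 < q) (X : NF p q) {n : ℝ} (hn : 0 < n) {l κ : ℂ}
    (h : Lev X n l κ) {ζ e : ℂ} (hS : S n ζ ≠ 0) (hS' : S n (ζ + 1 + e) ≠ 0) :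
    yN q n κ (ζ + p * n + 1 + e) = l * yN q n κ ζ *
      (Complex.exp (2 * Real.pi * Complex.I * e / (q * n)) *
        Complex.exp (-((Complex.log (S n (ζ + 1 + e)) - Complex.log (S n ζ)) / q))) := by
  have hq0 : (q : ℂ) ≠ 0 := by exact_mod_cast hq.ne'
  have hn0 : (n : ℂ) ≠ 0 := by exact_mod_cast hn.ne'
  have h1 : S n (ζ + p * n + 1 + e) = S n (ζ + 1 + e) := by
    unfold S
    have h2 : ζ + p * n + 1 + e = (ζ + 1 + e) + ((p : ℤ) : ℂ) * n := by
      push_cast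
      ring
    rw [h2, ee_add hn]
  unfold yN
  rw [h1, Complex.cpow_def_of_ne_zero hS', Complex.cpow_def_of_ne_zero hS, h.l_eq]
  unfold mu
  have h3 : ∀ a b c d e' f' g' : ℂ, κ * Complex.exp a * Complex.exp b =
      Complex.exp c * Complex.exp d * (κ * Complex.exp e' * Complex.exp f') * g' ↔
      κ * Complex.exp (a + b) = κ * Complex.exp (c + d + e' + f') * g' := by
    intro a b c d e' f' g'
    rw [Complex.exp_add, Complex.exp_add, Complex.exp_add, Complex.exp_add]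
    constructor <;> intro h4 <;> linear_combination h4
  rw [h3, ← Complex.exp_add, mul_assoc κ, ← Complex.exp_add]
  congr 1
  congr 1
  push_cast
  field_simp
  ring

theorem err_map {p q : ℕ} (hq : 0 < q) (X : NF p q) : ∃ R1 : ℝ, 4 ≤ R1 ∧ ∀ n ≥ R1, ∀ l κ : ℂ,
    Lev X n l κ → ∀ ζ : ℂ, (∀ t : ℂ, ‖t - ζ‖ ≤ 2 → t ∈ V n R1) →
      f l (X.η l (yN q n κ ζ)) = X.η l (yN q n κ (ζ + p * n + 1 + errN X n l κ ζ)) := by
  classical
  have hq0 : (q : ℂ) ≠ 0 := by exact_mod_cast hq.ne'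
  have hq1 : (1 : ℝ) ≤ q := by exact_mod_cast hq
  have hqpos : (0 : ℝ) < q := by linarith
  obtain ⟨c, hc, hroot⟩ := g7c_root hq
  obtain ⟨δ, hδ, hcont⟩ := g7c_cont hc
  obtain ⟨R2, C2, hR2, hC2, hbound⟩ := err_bound hq X
  obtain ⟨C3, hC3, hlog⟩ := logS_lip
  -- the constant
  set R1 : ℝ := max R2 (max C2 (max (X.C * C2 ^ q / δ + 1) (max (2 * Real.pi / δ + 1)
    (C3 * 2 / δ + 1)))) with hR1def
  have hR12 : R2 ≤ R1 := le_max_left _ _
  have hR1C : C2 ≤ R1 := (le_max_left _ _).trans (le_max_right _ _)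
  have hR1a : X.C * C2 ^ q / δ + 1 ≤ R1 :=
    (le_max_left _ _).trans ((le_max_right _ _).trans (le_max_right _ _))
  have hR1b : 2 * Real.pi / δ + 1 ≤ R1 :=
    (le_max_left _ _).trans ((le_max_right _ _).trans ((le_max_right _ _).trans (le_max_right _ _)))
  have hR1c : C3 * 2 / δ + 1 ≤ R1 :=
    (le_max_right _ _).trans ((le_max_right _ _).trans ((le_max_right _ _).trans (le_max_right _ _)))
  have hR14 : 4 ≤ R1 := hR2.trans hR12
  refine ⟨R1, hR14, ?_⟩
  intro n hn l κ hlev ζ hV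
  have hn4 : 4 ≤ n := hR14.trans hn
  have hn0 : 0 < n := by linarith
  have hn2 : R2 ≤ n := hR12.trans hn
  have hζ : ζ ∈ V n R1 := hV ζ (by simp)
  have hζ2 : ζ ∈ V n R2 := V_mono hR12 hζ
  have hζ0 : ζ ∈ V n 0 := V_mono (by linarith) hζ
  obtain ⟨hy1, hy2, -, -, -, hb6, hb7, -⟩ := hbound n hn2 l κ hlev ζ hζ2
  have hd : R1 < dn n ζ := V_dn hζ
  have hd0 : 0 < dn n ζ := by linarith
  set e := errN X n l κ ζ with he
  have he1 : ‖e‖ ≤ 1 := by
    refine hb7.trans ?_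
    rw [div_le_one hd0]
    linarith
  have hζ'V : ζ + 1 + e ∈ V n R1 := by
    refine hV _ ?_
    have h1 : ζ + 1 + e - ζ = 1 + e := by ring
    rw [h1]
    refine (norm_add_le _ _).trans ?_
    rw [norm_one]
    linarith
  have hζ'0 : ζ + 1 + e ∈ V n 0 := V_mono (by linarith) hζ'V
  -- the points
  have hyb : yN q n κ ζ ∈ ball (0 : ℂ) X.r1 := by
    rw [mem_ball_zero_iff]; exact hy1
  have hχη := X.χ_η l hlev.mem _ hyb
  obtain ⟨hy0, -⟩ := YX_yN hq X hn0 hlev hζ0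
  have hz0 : X.η l (yN q n κ ζ) ≠ 0 := by
    intro h0
    rw [h0, X.χ_zero l hlev.mem] at hχη
    exact hy0 hχη.symm
  have hz1 : ‖X.η l (yN q n κ ζ)‖ < 2 * X.r1 :=
    lt_of_le_of_lt (X.η_norm l hlev.mem _ hyb) (by linarith)
  obtain ⟨-, hx', hstep, -⟩ := X.step l hlev.mem _ hz0 hz1
  rw [hχη] at hstep
  -- `l ≠ 0`
  have hl0 : l ≠ 0 := by
    rw [hlev.l_eq]
    unfold mu
    exact mul_ne_zero (Complex.exp_ne_zero _) (Complex.exp_ne_zero _)
  -- the point `y'`
  have hpt : ζ + p * n + 1 + e = (ζ + 1 + e) + ((p : ℤ) : ℂ) * n := by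
    push_cast
    ring
  have hVp : ζ + p * n + 1 + e ∈ V n R1 := by
    rw [hpt]
    exact V_add hζ'V _
  obtain ⟨hy'0, hy'Y⟩ := YX_yN hq X hn0 hlev (V_mono (by linarith : (0 : ℝ) ≤ R1) hVp)
  obtain ⟨hy'1, -, -, -, -, -, -, -⟩ := hbound n hn2 l κ hlev _ (V_mono hR12 hVp)
  have hYeq : YX q (X.b l) (X.χ l (f l (X.η l (yN q n κ ζ)))) =
      YX q (X.b l) (yN q n κ (ζ + p * n + 1 + e)) := by
    rw [hy'Y, ← g7c_YY hq X hn4 hlev hb6, hpt]
    unfold YY
    rw [ee_add hn0]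
  have hb := X.b_ne l hlev.mem
  have hpow : (X.χ l (f l (X.η l (yN q n κ ζ)))) ^ q = (yN q n κ (ζ + p * n + 1 + e)) ^ q := by
    unfold YX at hYeq
    have h1 := pow_ne_zero q hx'
    have h2 := pow_ne_zero q hy'0
    have h3 : ((q : ℂ) * X.b l) ≠ 0 := mul_ne_zero hq0 hb
    rw [div_eq_div_iff (mul_ne_zero h3 h1) (mul_ne_zero h3 h2)] at hYeq
    have h4 := mul_left_cancel₀ (neg_ne_zero.2 (one_ne_zero (α := ℂ))) hYeq
    exact (mul_left_cancel₀ h3 h4).symm
  -- the root of unity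
  have hS : S n ζ ≠ 0 := Complex.slitPlane_ne_zero (S_slit hn0 hζ0)
  have hS' : S n (ζ + 1 + e) ≠ 0 := Complex.slitPlane_ne_zero (S_slit hn0 hζ'0)
  have hquot := g7c_quot hq X hn0 hlev hS hS'
  set x := yN q n κ ζ with hx
  set x' := X.χ l (f l (X.η l x)) with hx'def
  set y' := yN q n κ (ζ + p * n + 1 + e) with hy'
  have hω : x' / y' = 1 := by
    apply hroot
    · rw [div_pow, hpow, div_self (pow_ne_zero _ hy'0)]
    · have h1 : x' / y' = (1 + (x' / (l * x) - 1)) /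
          (Complex.exp (2 * Real.pi * Complex.I * e / (q * n)) *
            Complex.exp (-((Complex.log (S n (ζ + 1 + e)) - Complex.log (S n ζ)) / q))) := by
        rw [hquot]
        have h2 := Complex.exp_ne_zero (2 * Real.pi * Complex.I * e / (q * n))
        have h3 := Complex.exp_ne_zero (-((Complex.log (S n (ζ + 1 + e)) - Complex.log (S n ζ)) / q))
        field_simp
        ring
      rw [h1]
      apply hcont
      · refine lt_of_le_of_lt hstep ?_
        have h2 : ‖x‖ ^ q ≤ C2 ^ q * (dn n ζ)⁻¹ := by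
          have h3 : ‖x‖ ^ q ≤ (C2 * dn n ζ ^ (-(1 / (q : ℝ)))) ^ q :=
            pow_le_pow_left₀ (norm_nonneg _) hy2 q
          rw [mul_pow, ← Real.rpow_mul_natCast hd0.le] at h3
          have h4 : -(1 / (q : ℝ)) * q = -1 := by field_simp
          rwa [h4, Real.rpow_neg_one] at h3
        have h5 : X.C * C2 ^ q / δ < dn n ζ := by linarith
        rw [div_lt_iff₀ hδ] at h5
        calc X.C * ‖x‖ ^ q ≤ X.C * (C2 ^ q * (dn n ζ)⁻¹) := mul_le_mul_of_nonneg_left h2 X.C_pos.le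
          _ = X.C * C2 ^ q / dn n ζ := by rw [div_eq_mul_inv]; ring
          _ < δ := by rw [div_lt_iff₀ hd0]; linarith
      · have h2 : ‖2 * Real.pi * Complex.I * e / (q * n)‖ = 2 * Real.pi * ‖e‖ / (q * n) := by
          rw [norm_div, norm_mul, norm_mul, norm_mul, norm_mul]
          simp only [Complex.norm_ofNat, Complex.norm_real, Complex.norm_I, Complex.norm_natCast,
            Real.norm_eq_abs, abs_of_pos Real.pi_pos, abs_of_pos hn0, mul_one]
        rw [h2, div_lt_iff₀ (by positivity)]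
        have h3 : 2 * Real.pi / δ < n := by linarith
        rw [div_lt_iff₀ hδ] at h3
        have h4 : 2 * Real.pi * ‖e‖ ≤ 2 * Real.pi := by
          have := Real.pi_pos
          nlinarith
        have h5 : n ≤ q * n := by nlinarith
        nlinarith
      · rw [norm_neg, norm_div, Complex.norm_natCast]
        have h2 : ‖Complex.log (S n (ζ + 1 + e)) - Complex.log (S n ζ)‖ ≤ C3 * (2 / R1) := by
          have h3 := hlog n hn4 ζ (ζ + 1 + e) R1 (by linarith) (by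
            intro t ht
            have h4 : t ∈ V n R1 := by
              refine hV t ?_
              have h5 : t ∈ closedBall ζ 2 := by
                refine (convex_closedBall ζ 2).segment_subset (mem_closedBall_self (by norm_num)) ?_ ht
                rw [mem_closedBall, dist_eq_norm]
                have h1 : ζ + 1 + e - ζ = 1 + e := by ring
                rw [h1]
                refine (norm_add_le _ _).trans ?_
                rw [norm_one]
                linarith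
              rwa [mem_closedBall, dist_eq_norm] at h5
            exact ⟨V_mono (by linarith) h4, (V_dn h4).le⟩)
          refine h3.trans ?_
          have h1 : ζ + 1 + e - ζ = 1 + e := by ring
          rw [h1]
          have h5 : ‖1 + e‖ ≤ 2 := by
            refine (norm_add_le _ _).trans ?_
            rw [norm_one]
            linarith
          have hR10 : 0 < R1 := by linarith
          exact mul_le_mul_of_nonneg_left (div_le_div_of_nonneg_right h5 hR10.le) hC3.le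
        have hR10 : 0 < R1 := by linarith
        rw [div_lt_iff₀ hqpos]
        have h6 : C3 * 2 / δ < R1 := by linarith
        rw [div_lt_iff₀ hδ] at h6
        have h7 : C3 * (2 / R1) < δ := by
          rw [← mul_div_assoc, div_lt_iff₀ hR10]
          linarith
        nlinarith
  have hxy : x' = y' := by
    rw [div_eq_one_iff_eq hy'0] at hω
    exact hω
  -- conclusion
  have hy'b : y' ∈ ball (0 : ℂ) X.r1 := by
    rw [mem_ball_zero_iff]; exact hy'1
  have hχ' := X.χ_η l hlev.mem _ hy'b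
  have hr := X.r1_pos
  have hr4 := X.r1_le
  have hlnorm : ‖l‖ ≤ 3 / 2 := by
    have h1 := hlev.mem
    rw [mem_closedBall, dist_eq_norm] at h1
    have h2 : ‖mu ((p : ℝ) / q)‖ = 1 := by
      unfold mu
      rw [Complex.norm_exp]
      simp
    have h3 := norm_sub_norm_le l (mu ((p : ℝ) / q))
    have h4 := X.r0_le
    linarith
  have hfz : f l (X.η l x) ∈ ball (0 : ℂ) (4 * X.r1) := by
    rw [mem_ball_zero_iff]
    unfold f
    refine lt_of_le_of_lt (norm_add_le _ _) ?_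
    rw [norm_pow, norm_mul]
    nlinarith [norm_nonneg (X.η l x), norm_nonneg l]
  have hηy' : X.η l y' ∈ ball (0 : ℂ) (4 * X.r1) := by
    rw [mem_ball_zero_iff]
    have h1 := X.η_norm l hlev.mem _ hy'b
    linarith
  have hnear := X.χ_near l hlev.mem _ hfz _ hηy'
  have h8 : X.χ l (f l (X.η l x)) - X.χ l (X.η l y') = 0 := by
    rw [hχ', ← hx'def, hxy, sub_self]
  rw [h8, zero_sub, norm_neg] at hnear
  have h9 : ‖f l (X.η l x) - X.η l y'‖ = 0 := by
    linarith [norm_nonneg (f l (X.η l x) - X.η l y')]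
  exact sub_eq_zero.1 (norm_eq_zero.1 h9)

end Pool.Agent.CR.G
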