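import Pool.Agent.H48.CR.G6a
import Pool.Agent.H48.CR.G7c

/-!
# CR G8b: the map in the chart `WN` and the summable error `dN`

Let `w ∈ Wd n R`, `w + 1 ∈ Wi n R`, `d = dn n w > R ≥ R1` large, `ζ = J w`, `‖ζ - w‖ ≤ d/16`, `err = errN ζ`, `‖err‖ ≤ C/d`, `ζ' = ζ + 1 + err`: `ζ, ζ'` and the ball of radius `2` about `ζ` are contained in `closedBall w (d/8) ⊆ V n (R/2)` (`Wd_V`), `dn ≥ 7/8 d` there (`dn_lip`).
`dN = (err - ρ cs'(ζ)) - ρ (cs ζ' - cs ζ - cs'(ζ) (ζ' - ζ)) - ρ cs'(ζ) err` (`ζ' - ζ = 1 + err`): the terms are bounded by `C d^(-(1+1/q))` (`err_bound`), `P C 4/d^2` (`cs_taylor`), `P C/d * C/d` (`cs_deriv`): `‖dN‖ ≤ C d^(-(1+1/q))`, `≤ 1/8` for `R1` large.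
If `r ≤ ‖w - k n‖` for all `k` then `r ≤ d`. Map: `w' = w + 1 + dN ∈ Wd n R` (`Wi_Wd`) and `ζ' = w' + ρ cs ζ'` (`J w = w + ρ cs (J w)` and the definition of `dN`), `‖ζ' - w'‖ = ‖ρ cs ζ'‖ ≤ P C (1 + log (2 d)) ≤ dn w'/8` (`cs_bound`, `dn w' ≥ d - 2`): `ζ' = J w'` by `IsJ.uniq`;
`J (w' + p n) = ζ' + p n` (`IsJ.add`), so `WN (w + p n + 1 + dN) = η l (yN (ζ' + p n)) = f l (WN w)` by `err_map`. Differentiability of `dN`: compositions (`IsJ.diff`, `err_bound`, `cs_hasDerivAt`); the set is open (`isOpen_Wd`, `isOpen_Wi`).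
`P`: bound of `‖X.ρ‖` on the compact ball.
-/

set_option autoImplicit false

open Set Filter Topology Metric

namespace Pool.Agent.CR.G

private theorem rpow_78 {r a : ℝ} (hr : 0 < r) (ha0 : 0 ≤ a) (ha : a ≤ 1) {x : ℝ} (hx : r / 2 ≤ x) :
    x ^ (-(1 + a)) ≤ 4 * r ^ (-(1 + a)) := by
  have h1 : x ^ (-(1 + a)) ≤ (r / 2) ^ (-(1 + a)) :=
    Real.rpow_le_rpow_of_nonpos (by positivity) hx (by linarith)
  have h2 : (r / 2) ^ (-(1 + a)) = r ^ (-(1 + a)) * 2 ^ (1 + a) := by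
    rw [Real.div_rpow hr.le (by norm_num), Real.rpow_neg (by norm_num : (0:ℝ) ≤ 2)]
    field_simp
  have h3 : (2 : ℝ) ^ (1 + a) ≤ 4 := by
    calc (2 : ℝ) ^ (1 + a) ≤ 2 ^ (2 : ℝ) := Real.rpow_le_rpow_of_exponent_le (by norm_num) (by linarith)
      _ = 4 := by norm_num
  have h4 : 0 < r ^ (-(1 + a)) := Real.rpow_pos_of_pos hr _
  rw [h2] at h1
  nlinarith

/-- `1 / d ^ 2 ≤ d ^ (-(1 + a))` for `1 ≤ d`, `a ≤ 1` -/
private theorem sq_le_rpow {d a : ℝ} (hd : 1 ≤ d) (ha : a ≤ 1) : 1 / d ^ 2 ≤ d ^ (-(1 + a)) := by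
  have h1 : (1 : ℝ) / d ^ 2 = d ^ (-(2 : ℝ)) := by
    rw [Real.rpow_neg (by linarith), one_div]; norm_num
  rw [h1]
  exact Real.rpow_le_rpow_of_exponent_le hd (by linarith)

private theorem ev_log (A : ℝ) : ∃ D : ℝ, 4 ≤ D ∧ ∀ d ≥ D, A * (1 + Real.log (2 * d)) ≤ (d - 2) / 8 := by
  have hA : 0 < |A| + 1 := by positivity
  have h1 := Real.isLittleO_log_id_atTop.bound (c := 1 / (64 * (|A| + 1))) (by positivity)
  obtain ⟨D, hD⟩ := eventually_atTop.1 h1
  refine ⟨max (max D 4) (32 * (|A| + 1)), le_trans (le_max_right _ _) (le_max_left _ _), fun d hd => ?_⟩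
  have h2 : D ≤ d := le_trans (le_trans (le_max_left _ _) (le_max_left _ _)) hd
  have h3 : 4 ≤ d := le_trans (le_trans (le_max_right _ _) (le_max_left _ _)) hd
  have h4 : 32 * (|A| + 1) ≤ d := le_trans (le_max_right _ _) hd
  have h5 := hD (2 * d) (by linarith)
  rw [Real.norm_eq_abs, id, Real.norm_eq_abs, abs_of_pos (by linarith : 0 < 2 * d)] at h5
  have h6 : 0 ≤ Real.log (2 * d) := Real.log_nonneg (by linarith)
  rw [abs_of_nonneg h6] at h5
  have h7 : (|A| + 1) * Real.log (2 * d) ≤ d / 32 := by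
    have := mul_le_mul_of_nonneg_left h5 hA.le
    refine this.trans (le_of_eq ?_)
    field_simp
    norm_num
  have h8 : A * (1 + Real.log (2 * d)) ≤ (|A| + 1) * (1 + Real.log (2 * d)) := by
    refine mul_le_mul_of_nonneg_right ?_ (by linarith)
    linarith [le_abs_self A]
  nlinarith

theorem dN_basic {p q : ℕ} (hq : 0 < q) (X : NF p q) : ∃ R1 : ℝ, 4 ≤ R1 ∧ ∀ R ≥ R1, ∃ C : ℝ, 0 < C ∧ ∀ n ≥ R,
    ∀ (l κ : ℂ) (J : ℂ → ℂ), Lev X n l κ → IsJ n (X.ρ l) R J →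
      DifferentiableOn ℂ (dN X n l κ J) {w | w ∈ Wd n R ∧ w + 1 ∈ Wi n R} ∧
      (∀ w ∈ Wd n R, w + 1 ∈ Wi n R → ‖dN X n l κ J w‖ ≤ 1 / 8 ∧
        (∀ r : ℝ, R ≤ r → (∀ k : ℤ, r ≤ ‖w - k * n‖) → ‖dN X n l κ J w‖ ≤ C * r ^ (-(1 + 1 / (q : ℝ)))) ∧
        f l (WN X n l κ J w) = WN X n l κ J (w + p * n + 1 + dN X n l κ J w)) := by
  obtain ⟨Re, Ce, hRe, hCe, hE⟩ := err_bound hq X
  obtain ⟨Rm, hRm, hM⟩ := err_map hq X
  obtain ⟨Cb, hCb, hB⟩ := cs_bound
  obtain ⟨Cd, hCd, hD⟩ := cs_deriv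
  obtain ⟨Ct, hCt, hT⟩ := cs_taylor
  obtain ⟨P0, hP0⟩ := (isCompact_closedBall (mu ((p : ℝ) / q)) X.r0).exists_bound_of_continuousOn X.ρ_cont
  set P : ℝ := max P0 0 with hPdef
  have hPnn : 0 ≤ P := le_max_right _ _
  have hP : ∀ l ∈ closedBall (mu ((p : ℝ) / q)) X.r0, ‖X.ρ l‖ ≤ P := fun l hl => (hP0 l hl).trans (le_max_left _ _)
  obtain ⟨Dl, hDl4, hDl⟩ := ev_log (P * Cb)
  set K : ℝ := 4 * Ce + 16 * P * Ct + 4 * P * Cd * Ce with hK
  have hK0 : 0 < K := by positivity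
  have ha0 : 0 ≤ 1 / (q : ℝ) := by positivity
  have ha1 : 1 / (q : ℝ) ≤ 1 := by
    rw [div_le_one (by exact_mod_cast hq)]; exact_mod_cast hq
  refine ⟨64 + 2 * Re + 2 * Rm + 8 * K + Dl + 2 * Ce, by linarith, fun R hR => ⟨K, hK0, fun n hn l κ J hL hJ => ?_⟩⟩
  have hR0 : 0 < R := by linarith
  have hn0 : 0 < n := by linarith
  -- points near `J w`
  have hball : ∀ w ∈ Wd n R, ∀ t : ℂ, ‖t - J w‖ ≤ 2 → t ∈ V n (R / 2) ∧ dn n w / 2 ≤ dn n t ∧
      ‖t - w‖ ≤ dn n w / 8 := by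
    intro w hw t ht
    have h1 := hJ.near w hw
    have h2 := Wd_dn hw
    have h3 : ‖t - w‖ ≤ dn n w / 8 := by
      have h4 : ‖t - w‖ ≤ ‖t - J w‖ + ‖J w - w‖ := norm_sub_le_norm_sub_add_norm_sub _ _ _
      linarith
    refine ⟨Wd_V hn0 hR0 hw h3, ?_, h3⟩
    have h4 := dn_lip hn0 w t
    rw [norm_sub_rev] at h4
    linarith
  have hself : ∀ w : ℂ, ‖J w - J w‖ ≤ 2 := fun w => by rw [sub_self, norm_zero]; norm_num
  have hVe : ∀ w ∈ Wd n R, J w ∈ V n Re := fun w hw => V_mono (by linarith) (hball w hw _ (hself w)).1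
  have hEw : ∀ w ∈ Wd n R, _ := fun w hw => hE n (by linarith) l κ hL (J w) (hVe w hw)
  -- size of the error
  have herr : ∀ w ∈ Wd n R, ‖errN X n l κ (J w)‖ ≤ 2 * Ce / dn n w ∧ ‖errN X n l κ (J w)‖ ≤ 1 := by
    intro w hw
    have h1 := (hEw w hw).2.2.2.2.2.2.1
    have h2 := (hball w hw _ (hself w)).2.1
    have h3 := Wd_dn hw
    have h4 : 0 < dn n w := by linarith
    have h5 : Ce / dn n (J w) ≤ Ce / (dn n w / 2) := div_le_div_of_nonneg_left hCe.le (by linarith) h2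
    have h6 : Ce / (dn n w / 2) = 2 * Ce / dn n w := by field_simp
    have h7 : 2 * Ce / dn n w ≤ 1 := by
      rw [div_le_one h4]; linarith
    exact ⟨by linarith, by linarith⟩
  have hz' : ∀ w ∈ Wd n R, ‖J w + 1 + errN X n l κ (J w) - J w‖ ≤ 2 := by
    intro w hw
    have h1 : J w + 1 + errN X n l κ (J w) - J w = 1 + errN X n l κ (J w) := by ring
    rw [h1]
    refine (norm_add_le _ _).trans ?_
    rw [norm_one]
    linarith [(herr w hw).2]
  have hV0 : ∀ w ∈ Wd n R, ∀ t : ℂ, ‖t - J w‖ ≤ 2 → t ∈ V n 0 := fun w hw t ht =>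
    V_mono (by linarith) (hball w hw t ht).1
  -- the main estimate
  have hmain : ∀ w ∈ Wd n R, ‖dN X n l κ J w‖ ≤ K * dn n w ^ (-(1 + 1 / (q : ℝ))) := by
    intro w hw
    set d := dn n w with hd
    set ζ := J w with hζ
    set er := errN X n l κ ζ with her
    have hdR : R < d := Wd_dn hw
    have hd0 : 0 < d := by linarith
    have hdz : d / 2 ≤ dn n ζ := (hball w hw _ (hself w)).2.1
    have hρ : ‖X.ρ l‖ ≤ P := hP l hL.mem
    have e1 : ‖er - X.ρ l * deriv (cs n) ζ‖ ≤ Ce * (4 * d ^ (-(1 + 1 / (q : ℝ)))) :=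
      ((hEw w hw).2.2.2.2.2.2.2).trans
        (mul_le_mul_of_nonneg_left (rpow_78 hd0 ha0 ha1 hdz) hCe.le)
    have e2 : ‖cs n (ζ + 1 + er) - cs n ζ - deriv (cs n) ζ * (ζ + 1 + er - ζ)‖ ≤
        Ct * (‖ζ + 1 + er - ζ‖ ^ 2 / (d / 2) ^ 2) := by
      refine hT n (by linarith) ζ (ζ + 1 + er) (d / 2) (by linarith) fun t ht => ?_
      have hs : segment ℝ ζ (ζ + 1 + er) ⊆ closedBall ζ 2 :=
        (convex_closedBall ζ 2).segment_subset (mem_closedBall_self (by norm_num))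
          (by rw [mem_closedBall, dist_eq_norm]; exact hz' w hw)
      have h1 := hs ht
      rw [mem_closedBall, dist_eq_norm] at h1
      exact ⟨V_mono (by linarith) (hball w hw t h1).1, (hball w hw t h1).2.1⟩
    have hsq := sq_le_rpow (d := d) (a := 1 / (q : ℝ)) (by linarith) ha1
    set D2 : ℝ := d ^ (-(1 + 1 / (q : ℝ))) with hD2
    have e3 : ‖cs n (ζ + 1 + er) - cs n ζ - deriv (cs n) ζ * (ζ + 1 + er - ζ)‖ ≤ Ct * (16 * D2) := by
      refine e2.trans (mul_le_mul_of_nonneg_left ?_ hCt.le)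
      have h1 : ‖ζ + 1 + er - ζ‖ ^ 2 ≤ 4 := by
        have := hz' w hw
        have h2 : ‖ζ + 1 + er - ζ‖ ≤ 2 := this
        nlinarith [norm_nonneg (ζ + 1 + er - ζ)]
      calc ‖ζ + 1 + er - ζ‖ ^ 2 / (d / 2) ^ 2 ≤ 4 / (d / 2) ^ 2 := by gcongr
        _ = 16 * (1 / d ^ 2) := by field_simp; norm_num
        _ ≤ 16 * D2 := by linarith
    have e4 : ‖deriv (cs n) ζ‖ ≤ 2 * Cd / d := by
      refine (hD n (by linarith) ζ (V_mono (by linarith) (hball w hw _ (hself w)).1)).2.trans ?_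
      calc Cd / dn n ζ ≤ Cd / (d / 2) := div_le_div_of_nonneg_left hCd.le (by linarith) hdz
        _ = 2 * Cd / d := by field_simp
    have e5 : ‖er‖ ≤ 2 * Ce / d := (herr w hw).1
    have e6 : ‖deriv (cs n) ζ * er‖ ≤ 4 * Cd * Ce * D2 := by
      rw [norm_mul]
      calc ‖deriv (cs n) ζ‖ * ‖er‖ ≤ (2 * Cd / d) * (2 * Ce / d) := by gcongr
        _ = 4 * Cd * Ce * (1 / d ^ 2) := by field_simp; ring
        _ ≤ 4 * Cd * Ce * D2 := by
          refine mul_le_mul_of_nonneg_left hsq (by positivity)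
    have e7 : dN X n l κ J w = (er - X.ρ l * deriv (cs n) ζ) -
        X.ρ l * (cs n (ζ + 1 + er) - cs n ζ - deriv (cs n) ζ * (ζ + 1 + er - ζ)) -
        X.ρ l * (deriv (cs n) ζ * er) := by
      unfold dN; ring
    rw [e7]
    have e8 : ‖X.ρ l * (cs n (ζ + 1 + er) - cs n ζ - deriv (cs n) ζ * (ζ + 1 + er - ζ))‖ ≤ P * (Ct * (16 * D2)) := by
      rw [norm_mul]
      exact mul_le_mul hρ e3 (norm_nonneg _) hPnn
    have e9 : ‖X.ρ l * (deriv (cs n) ζ * er)‖ ≤ P * (4 * Cd * Ce * D2) := by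
      rw [norm_mul]
      exact mul_le_mul hρ e6 (norm_nonneg _) hPnn
    have e10 := norm_sub_le ((er - X.ρ l * deriv (cs n) ζ) -
        X.ρ l * (cs n (ζ + 1 + er) - cs n ζ - deriv (cs n) ζ * (ζ + 1 + er - ζ))) (X.ρ l * (deriv (cs n) ζ * er))
    have e11 := norm_sub_le (er - X.ρ l * deriv (cs n) ζ)
        (X.ρ l * (cs n (ζ + 1 + er) - cs n ζ - deriv (cs n) ζ * (ζ + 1 + er - ζ)))
    have e12 : K * D2 = Ce * (4 * D2) + P * (Ct * (16 * D2)) + P * (4 * Cd * Ce * D2) := by rw [hK]; ring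
    linarith
  have h18 : ∀ w ∈ Wd n R, ‖dN X n l κ J w‖ ≤ 1 / 8 := by
    intro w hw
    have hdR : R < dn n w := Wd_dn hw
    have hd0 : 0 < dn n w := by linarith
    refine (hmain w hw).trans ?_
    have h1 : dn n w ^ (-(1 + 1 / (q : ℝ))) ≤ dn n w ^ (-(1 : ℝ)) :=
      Real.rpow_le_rpow_of_exponent_le (by linarith) (by linarith)
    rw [Real.rpow_neg_one] at h1
    calc K * dn n w ^ (-(1 + 1 / (q : ℝ))) ≤ K * (dn n w)⁻¹ := mul_le_mul_of_nonneg_left h1 hK0.le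
      _ ≤ 1 / 8 := by
        rw [← div_eq_mul_inv, div_le_iff₀ hd0]
        linarith
  refine ⟨?_, ?_⟩
  · rintro w ⟨hw, -⟩
    have hJd : DifferentiableAt ℂ J w := (hJ.diff w hw).differentiableAt ((isOpen_Wd hn0 R).mem_nhds hw)
    have hEd : DifferentiableAt ℂ (fun w => errN X n l κ (J w)) w :=
      DifferentiableAt.comp (g := errN X n l κ) (f := J) w (hEw w hw).2.2.2.2.1 hJd
    have hc1 : DifferentiableAt ℂ (fun w => cs n (J w)) w :=
      DifferentiableAt.comp (g := cs n) (f := J) w (cs_hasDerivAt hn0 (hV0 w hw _ (hself w))).differentiableAt hJd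
    have hc2 : DifferentiableAt ℂ (fun w => cs n (J w + 1 + errN X n l κ (J w))) w :=
      DifferentiableAt.comp (g := cs n) (f := fun w => J w + 1 + errN X n l κ (J w)) w
        (cs_hasDerivAt hn0 (hV0 w hw _ (hz' w hw))).differentiableAt ((hJd.add_const 1).add hEd)
    have : DifferentiableAt ℂ (dN X n l κ J) w := by
      unfold dN
      exact hEd.sub ((hc2.sub hc1).const_mul _)
    exact this.differentiableWithinAt
  · intro w hw hw1
    refine ⟨h18 w hw, ?_, ?_⟩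
    · intro r hr hk
      have h1 : r ≤ dn n w := hk _
      refine (hmain w hw).trans (mul_le_mul_of_nonneg_left ?_ hK0.le)
      exact Real.rpow_le_rpow_of_nonpos (by linarith) h1 (by linarith)
    · set δ := dN X n l κ J w with hδ
      set ζ := J w with hζ
      set er := errN X n l κ ζ with her
      set w' := w + 1 + δ with hw'def
      have hdR : R < dn n w := Wd_dn hw
      have hw' : w' ∈ Wd n R := Wi_Wd hn0 (by linarith) hw1 (by
        rw [hw'def, add_sub_cancel_left]; exact h18 w hw)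
      have hJw := hJ.eq w hw
      have heq : ζ + 1 + er = w' + X.ρ l * cs n (ζ + 1 + er) := by
        have h1 : δ = er - X.ρ l * (cs n (ζ + 1 + er) - cs n ζ) := rfl
        rw [hw'def, h1]
        have h2 : ζ = w + X.ρ l * cs n ζ := hJw
        linear_combination h2
      have hnear : ‖ζ + 1 + er - w'‖ ≤ dn n w' / 8 := by
        have h1 : ζ + 1 + er - w' = X.ρ l * cs n (ζ + 1 + er) := by linear_combination heq
        rw [h1, norm_mul]
        have hz := hz' w hw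
        have hb := hball w hw _ hz
        have h2 := hB n (by linarith) (ζ + 1 + er) (V_mono (by linarith) hb.1)
        have h3 : dn n (ζ + 1 + er) ≤ 2 * dn n w := by
          have := dn_lip hn0 (ζ + 1 + er) w
          have h4 : ‖ζ + 1 + er - w‖ ≤ dn n w / 8 := hb.2.2
          linarith
        have h5 : dn n w / 2 ≤ dn n (ζ + 1 + er) := hb.2.1
        have h4 : Real.log (dn n (ζ + 1 + er)) ≤ Real.log (2 * dn n w) :=
          Real.log_le_log (by linarith) h3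
        have h6 : ‖X.ρ l‖ * ‖cs n (ζ + 1 + er)‖ ≤ P * (Cb * (1 + Real.log (2 * dn n w))) := by
          refine mul_le_mul (hP l hL.mem) (h2.trans ?_) (norm_nonneg _) hPnn
          exact mul_le_mul_of_nonneg_left (by linarith) hCb.le
        have h7 := hDl (dn n w) (by linarith)
        have h8 := dn_lip hn0 w w'
        have h9 : ‖w - w'‖ ≤ 2 := by
          have : w - w' = -(1 + δ) := by rw [hw'def]; ring
          rw [this, norm_neg]
          refine (norm_add_le _ _).trans ?_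
          rw [norm_one]
          have := h18 w hw
          linarith
        have h10 : P * (Cb * (1 + Real.log (2 * dn n w))) = P * Cb * (1 + Real.log (2 * dn n w)) := by ring
        linarith
      have hJw' : ζ + 1 + er = J w' := hJ.uniq w' hw' _ hnear heq
      have hadd := hJ.add hn0 hw' (p : ℤ)
      rw [← hJw'] at hadd
      have hmap := hM n (by linarith) l κ hL ζ (fun t ht => V_mono (by linarith) (hball w hw t ht).1)
      have e1 : WN X n l κ J w = X.η l (yN q n κ ζ) := rfl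
      rw [e1, hmap]
      unfold WN
      have e2 : w + p * n + 1 + δ = w' + ((p : ℤ) : ℂ) * n := by rw [hw'def]; push_cast; ring
      rw [e2, hadd]
      congr 2
      push_cast
      ring

end Pool.Agent.CR.G
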