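import Pool.Agent.H48.CR.G6a
import Pool.Agent.H48.CR.G7b

/-!
# CR G8c: the top end of the chart `WN`

`ζ = J w`, `t = exp (2πi w/(q n))`, `τ = exp (2πi ζ/(q n))`, `ee n ζ = τ^q`. For `w.im` large: `w ∈ Wd n R`, `‖J w - w‖ ≤ dn w / 16`, `dn w ≤ n + |w.im|`, so `ζ.im ≥ w.im / 2 - n → ∞`, `τ → 0`. `S n ζ = (n/2π)(1 - τ^q)`, `cs n ζ = log ((n/2π) (1 - τ^q)) + τ^q - 1 =: A(τ)`, `A` analytic at `0`
(`n/2π > 0`). `ζ = w + ρ A(τ)` gives `τ = t exp (2πi ρ A(τ)/(q n))`, i.e. `t = T(τ)`, `T(τ) = τ exp (-2πi ρ A(τ)/(q n))` analytic at `0`, `T 0 = 0`, `T' 0 = exp (..) ≠ 0`. Let `T⁻¹` be the local inverse (`HasStrictDerivAt.localInverse`, analytic: `AnalyticAt` inverse function theorem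
or differentiability near `0`): `T⁻¹ (T τ) = τ` for `τ` near `0`; so `τ = T⁻¹ t` for `w.im` large. `WN w = η l (κ τ ((n/2π)(1 - τ^q))^(-1/q)) =: h(τ)`, `h` analytic at `0`, `h 0 = η l 0 = 0` (`χ_η`, `χ_zero`, `χ_near`), `h' 0 = η'(0) κ (n/2π)^(-1/q) ≠ 0` (`χ ∘ η = id` and the chain rule: `η'(0) = 1`; `κ ≠ 0` by `κ_eq`).
`g = h ∘ T⁻¹`.
-/

set_option autoImplicit false

open Set Filter Topology Metric

namespace Pool.Agent.CR.G

private theorem G8c_norm_exp {k : ℝ} (w : ℂ) :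
    ‖Complex.exp (2 * Real.pi * Complex.I * w / (k : ℂ))‖ = Real.exp (-(2 * Real.pi * w.im / k)) := by
  rw [Complex.norm_exp]
  congr 1
  have h1 : (2 * Real.pi * Complex.I * w / (k : ℂ) : ℂ) =
      ((2 * Real.pi / k : ℝ) : ℂ) * (Complex.I * w) := by
    push_cast
    ring
  rw [h1, Complex.re_ofReal_mul, Complex.I_mul_re]
  ring

private theorem G8c_exp_small {k : ℝ} (hk : 0 < k) {r : ℝ} (hr : 0 < r) :
    ∃ M : ℝ, ∀ w : ℂ, M < w.im → ‖Complex.exp (2 * Real.pi * Complex.I * w / (k : ℂ))‖ < r := by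
  refine ⟨-(Real.log r) * k / (2 * Real.pi), fun w hw => ?_⟩
  rw [G8c_norm_exp]
  rw [← Real.lt_log_iff_exp_lt hr]
  have hpi : 0 < 2 * Real.pi := by positivity
  rw [div_lt_iff₀ hpi] at hw
  have h2 : -(Real.log r) < 2 * Real.pi * w.im / k := by
    rw [lt_div_iff₀ hk]
    linarith
  linarith

private theorem G8c_dn_le {n : ℝ} (hn : 0 < n) (w : ℂ) : dn n w ≤ n / 2 + |w.im| := by
  unfold dn
  have h1 := Complex.norm_le_abs_re_add_abs_im (w - (round (w.re / n) : ℤ) * n)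
  have h2 : (w - (round (w.re / n) : ℤ) * n).re = w.re - (round (w.re / n) : ℤ) * n := by
    simp
  have h3 : (w - (round (w.re / n) : ℤ) * n).im = w.im := by
    simp
  rw [h2, h3] at h1
  have h4 := abs_sub_round (w.re / n)
  have h5 : w.re - (round (w.re / n) : ℤ) * n = (w.re / n - (round (w.re / n) : ℤ)) * n := by
    field_simp
  have h6 : |w.re - (round (w.re / n) : ℤ) * n| ≤ n / 2 := by
    rw [h5, abs_mul, abs_of_pos hn]
    nlinarith
  linarith

theorem WN_top {p q : ℕ} (hq : 0 < q) (X : NF p q) {n R : ℝ} (hR : 4 ≤ R) (hn : R ≤ n) {l κ : ℂ} {J : ℂ → ℂ}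
    (h : Lev X n l κ) (hJ : IsJ n (X.ρ l) R J) :
    ∃ g : ℂ → ℂ, AnalyticAt ℂ g 0 ∧ g 0 = 0 ∧ deriv g 0 ≠ 0 ∧ ∃ M : ℝ, ∀ w : ℂ, M < w.im →
      WN X n l κ J w = g (Complex.exp (2 * Real.pi * Complex.I * w / (q * n))) := by
  have hn0 : 0 < n := by linarith
  have hpi := Real.pi_pos
  have hqR : (0 : ℝ) < (q : ℝ) := by exact_mod_cast hq
  have hqn : (0 : ℝ) < (q : ℝ) * n := by positivity
  have hc0pos : 0 < n / (2 * Real.pi) := by positivity
  let A : ℂ → ℂ := fun τ => Complex.log (((n / (2 * Real.pi) : ℝ) : ℂ) * (1 - τ ^ q)) + τ ^ q - 1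
  have hSlit0 : ((n / (2 * Real.pi) : ℝ) : ℂ) * (1 - (0 : ℂ) ^ q) ∈ Complex.slitPlane := by
    rw [zero_pow hq.ne', sub_zero, mul_one]
    exact Complex.ofReal_mem_slitPlane.2 hc0pos
  have hpow : AnalyticAt ℂ (fun τ : ℂ => τ ^ q) 0 := analyticAt_id.pow q
  have hinner : AnalyticAt ℂ (fun τ : ℂ => ((n / (2 * Real.pi) : ℝ) : ℂ) * (1 - τ ^ q)) 0 :=
    analyticAt_const.mul (analyticAt_const.sub hpow)
  have hA : AnalyticAt ℂ A 0 := ((hinner.clog hSlit0).add hpow).sub analyticAt_const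
  let u : ℂ → ℂ := fun τ => Complex.exp (-(2 * Real.pi * Complex.I * (X.ρ l * A τ) / (q * n)))
  have hu : AnalyticAt ℂ u 0 := by
    have h1 : AnalyticAt ℂ (fun τ => -(2 * Real.pi * Complex.I * (X.ρ l * A τ) / (q * n))) 0 :=
      ((analyticAt_const.mul (analyticAt_const.mul hA)).div_const).neg
    exact h1.cexp
  let T : ℂ → ℂ := fun τ => τ * u τ
  have hT : AnalyticAt ℂ T 0 := analyticAt_id.mul hu
  have hT0 : T 0 = 0 := zero_mul _
  have hTd : deriv T 0 = u 0 := by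
    have h1 : HasDerivAt T (1 * u 0 + 0 * deriv u 0) 0 :=
      (hasDerivAt_id (0 : ℂ)).mul hu.differentiableAt.hasDerivAt
    rw [h1.deriv]
    ring
  have hTne : deriv T 0 ≠ 0 := by
    rw [hTd]
    exact Complex.exp_ne_zero _
  obtain ⟨T', hT'an, hT'd, hT'left⟩ : ∃ T' : ℂ → ℂ, AnalyticAt ℂ T' 0 ∧ deriv T' 0 ≠ 0 ∧
      ∀ᶠ τ in 𝓝 (0 : ℂ), T' (T τ) = τ := by
    refine ⟨hT.hasStrictDerivAt.localInverse _ _ _ hTne, ?_, ?_, ?_⟩
    · have h1 := hT.analyticAt_localInverse hTne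
      rwa [hT0] at h1
    · have h1 := (hT.hasStrictDerivAt.to_localInverse hTne).hasDerivAt
      rw [hT0] at h1
      rw [h1.deriv]
      exact inv_ne_zero hTne
    · exact hT.hasStrictDerivAt.eventually_left_inverse hTne
  have hT'0 : T' 0 = 0 := by
    have h1 := hT'left.self_of_nhds
    rwa [hT0] at h1
  let Y : ℂ → ℂ := fun τ => κ * τ * (((n / (2 * Real.pi) : ℝ) : ℂ) * (1 - τ ^ q)) ^ (-(1 / (q : ℂ)))
  have hYan : AnalyticAt ℂ Y 0 :=
    (analyticAt_const.mul analyticAt_id).mul (hinner.cpow analyticAt_const hSlit0)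
  have hY0 : Y 0 = 0 := by
    change κ * 0 * _ = 0
    rw [mul_zero, zero_mul]
  have hκ : κ ≠ 0 := by
    intro h0
    have h1 := h.κ_eq
    rw [h0, zero_pow hq.ne', zero_mul] at h1
    exact zero_ne_one h1
  have hYd : deriv Y 0 ≠ 0 := by
    have h1 : HasDerivAt (fun τ : ℂ => κ * τ) (κ * 1) 0 := (hasDerivAt_id (0 : ℂ)).const_mul κ
    have h2 := (hinner.cpow (g := fun _ : ℂ => (-(1 / (q : ℂ)))) analyticAt_const hSlit0).differentiableAt.hasDerivAt
    have h3 : HasDerivAt Y (κ * 1 * (((n / (2 * Real.pi) : ℝ) : ℂ) * (1 - (0 : ℂ) ^ q)) ^ (-(1 / (q : ℂ))) +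
        κ * 0 * deriv (fun z : ℂ => (((n / (2 * Real.pi) : ℝ) : ℂ) * (1 - z ^ q)) ^ (-(1 / (q : ℂ)))) 0) 0 :=
      h1.mul h2
    have h4 : deriv Y 0 = κ * 1 * (((n / (2 * Real.pi) : ℝ) : ℂ) * (1 - (0 : ℂ) ^ q)) ^ (-(1 / (q : ℂ))) := by
      rw [h3.deriv]
      ring
    rw [h4, mul_one]
    refine mul_ne_zero hκ ?_
    rw [Complex.cpow_def_of_ne_zero (Complex.slitPlane_ne_zero hSlit0)]
    exact Complex.exp_ne_zero _
  have hη : AnalyticAt ℂ (X.η l) 0 :=
    (X.η_diff l h.mem).analyticAt (Metric.ball_mem_nhds 0 X.r1_pos)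
  have hη0 : X.η l 0 = 0 := by
    have h1 := X.η_norm l h.mem 0 (Metric.mem_ball_self X.r1_pos)
    rw [norm_zero, mul_zero] at h1
    exact norm_le_zero_iff.1 h1
  have hηd : deriv (X.η l) 0 ≠ 0 := by
    have h1 : HasDerivAt (X.χ l) (deriv (X.χ l) (X.η l 0)) (X.η l 0) :=
      (X.χ_diff l h.mem _).hasDerivAt
    have h2 : HasDerivAt (fun y => X.χ l (X.η l y)) (deriv (X.χ l) (X.η l 0) * deriv (X.η l) 0) 0 :=
      h1.comp (0 : ℂ) hη.differentiableAt.hasDerivAt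
    have h3 : (fun y => X.χ l (X.η l y)) =ᶠ[𝓝 0] fun y => y := by
      filter_upwards [Metric.ball_mem_nhds (0 : ℂ) X.r1_pos] with y hy
      exact X.χ_η l h.mem y hy
    have h4 : HasDerivAt (fun y : ℂ => y) (deriv (X.χ l) (X.η l 0) * deriv (X.η l) 0) 0 :=
      h2.congr_of_eventuallyEq h3.symm
    have h5 := h4.unique (hasDerivAt_id' (0 : ℂ))
    intro h6
    rw [h6, mul_zero] at h5
    exact zero_ne_one h5
  -- the composite
  have hYT : AnalyticAt ℂ (fun t => Y (T' t)) 0 := by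
    have h1 : AnalyticAt ℂ Y (T' 0) := by rw [hT'0]; exact hYan
    exact h1.comp hT'an
  have hYT0 : Y (T' 0) = 0 := by rw [hT'0, hY0]
  have hg : AnalyticAt ℂ (fun t => X.η l (Y (T' t))) 0 := by
    have h1 : AnalyticAt ℂ (X.η l) ((fun t => Y (T' t)) 0) := by
      change AnalyticAt ℂ (X.η l) (Y (T' 0))
      rw [hYT0]
      exact hη
    exact AnalyticAt.comp (g := X.η l) (f := fun t => Y (T' t)) h1 hYT
  refine ⟨fun t => X.η l (Y (T' t)), hg, ?_, ?_, ?_⟩
  · change X.η l (Y (T' 0)) = 0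
    rw [hYT0, hη0]
  · have h1 : HasDerivAt T' (deriv T' 0) 0 := hT'an.differentiableAt.hasDerivAt
    have h2 : HasDerivAt Y (deriv Y 0) (T' 0) := by
      rw [hT'0]
      exact hYan.differentiableAt.hasDerivAt
    have h3 : HasDerivAt (fun t => Y (T' t)) (deriv Y 0 * deriv T' 0) 0 := h2.comp (0 : ℂ) h1
    have h4 : HasDerivAt (X.η l) (deriv (X.η l) 0) ((fun t => Y (T' t)) 0) := by
      change HasDerivAt (X.η l) (deriv (X.η l) 0) (Y (T' 0))
      rw [hYT0]
      exact hη.differentiableAt.hasDerivAt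
    have h5 : HasDerivAt (fun t => X.η l (Y (T' t))) (deriv (X.η l) 0 * (deriv Y 0 * deriv T' 0)) 0 :=
      h4.comp (0 : ℂ) h3
    rw [h5.deriv]
    exact mul_ne_zero hηd (mul_ne_zero hYd hT'd)
  · obtain ⟨δ, hδ, hball⟩ := Metric.eventually_nhds_iff.1 hT'left
    obtain ⟨M1, hM1⟩ := G8c_exp_small hqn hδ
    refine ⟨max (max n 0) (2 * (M1 + n)) , fun w hw => ?_⟩
    have hwn : n < w.im := lt_of_le_of_lt ((le_max_left n 0).trans (le_max_left _ _)) hw
    have hw0 : 0 < w.im := by linarith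
    have hwM : 2 * (M1 + n) < w.im := lt_of_le_of_lt (le_max_right _ _) hw
    have hwd : w ∈ Wd n R := by
      intro k
      constructor
      · have h1 : (w - k * n).im = w.im := by simp
        have h2 := Complex.abs_im_le_norm (w - k * n)
        rw [h1, abs_of_pos hw0] at h2
        linarith
      · have h1 := abs_nonneg (w.re - k * n)
        linarith
    have hnear := hJ.near w hwd
    have hdn := G8c_dn_le hn0 w
    rw [abs_of_pos hw0] at hdn
    have hζim : M1 < (J w).im := by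
      have h1 := (Complex.abs_im_le_norm (J w - w)).trans hnear
      rw [Complex.sub_im] at h1
      have h2 := (abs_le.1 h1).1
      linarith
    have hτ : ‖Complex.exp (2 * Real.pi * Complex.I * (J w) / (((q : ℝ) * n : ℝ) : ℂ))‖ < δ := hM1 _ hζim
    have hqnc : (((q : ℝ) * n : ℝ) : ℂ) = (q : ℂ) * (n : ℂ) := by push_cast; ring
    rw [hqnc] at hτ
    set τ : ℂ := Complex.exp (2 * Real.pi * Complex.I * (J w) / ((q : ℂ) * (n : ℂ))) with hτdef
    have hleft : T' (T τ) = τ := hball (by rw [dist_zero_right]; exact hτ)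
    have hq0 : (q : ℂ) ≠ 0 := by exact_mod_cast hq.ne'
    have hnc : (n : ℂ) ≠ 0 := by exact_mod_cast hn0.ne'
    have hee : ee n (J w) = τ ^ q := by
      rw [hτdef, ← Complex.exp_nat_mul]
      unfold ee
      congr 1
      field_simp
    have hcs : cs n (J w) = A τ := by
      change Complex.log (S n (J w)) + ee n (J w) - 1 = _
      unfold S
      rw [hee]
    have hTτ : T τ = Complex.exp (2 * Real.pi * Complex.I * w / (q * n)) := by
      change τ * Complex.exp (-(2 * Real.pi * Complex.I * (X.ρ l * A τ) / (q * n))) = _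
      rw [← hcs, hτdef, ← Complex.exp_add]
      congr 1
      have h1 := hJ.eq w hwd
      have h2 : w = J w - X.ρ l * cs n (J w) := by
        rw [eq_sub_iff_add_eq]
        exact h1.symm
      calc 2 * Real.pi * Complex.I * (J w) / ((q : ℂ) * (n : ℂ)) +
            -(2 * Real.pi * Complex.I * (X.ρ l * cs n (J w)) / (q * n))
          = 2 * Real.pi * Complex.I * (J w - X.ρ l * cs n (J w)) / (q * n) := by ring
        _ = 2 * Real.pi * Complex.I * w / (q * n) := by rw [← h2]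
    change X.η l (yN q n κ (J w)) = X.η l (Y (T' (Complex.exp (2 * Real.pi * Complex.I * w / (q * n)))))
    rw [← hTτ, hleft]
    congr 1
    change κ * Complex.exp (2 * Real.pi * Complex.I * (J w) / (q * n)) * (S n (J w)) ^ (-(1 / (q : ℂ))) = _
    unfold S
    rw [hee]

end Pool.Agent.CR.G
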