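import Pool.Agent.H48.CR.G9a

/-!
# CR G9b: the limit of the errors `dN` at the hole `j n`

With `ζ = J N w`: as in `WN_lim`, `X.η l (yN (ζ + j n)) → X.η l0 (y0 j (J0 w)) =: z`, `z ≠ 0`, `‖z‖ < 2 r1`; by joint continuity of `f`, `X.χ` and continuity of `YX` at `χ l0 (f l0 z) ≠ 0` (`X.step`), `b`, `l^q → mu (p/q)^q = 1`, `YY (ζ + j n) = YY ζ → J0 w` (`cc_YY`): `R1N (ζ + j n) → err0 j (J0 w)`.
`errN = -(n/2πi) log (1 - t)`, `t = ee R1N/cn → 0` (`cn → ∞`), `log (1 - t) = -t + O(t^2)`, `n t/(2πi) = ee R1N (n/(2πi cn)) → err0` (`cn_bound`), `n t^2 → 0`: `errN (ζ + j n) → err0 j (J0 w)`.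
`cs n (ζ + j n + 1 + errN) = cs n (ζ + 1 + errN) → log (-i (J0 w + 1 + err0))`: here `-i (J0 w + 1 + err0)` must be in the slit plane: `‖err0‖ ≤ 1` for `R ≥ R1` large (limit of `‖errN‖ ≤ C/dn`, `err_bound`; or from `X.step` at `l0`: `‖err0 - ρ/ζ‖ ≤ C ‖ζ‖^(-(1+1/q))`), so `‖J0 w + 1 + err0 - w‖ ≤ ‖w‖/8` and `Wd0_slit`.
-/

set_option autoImplicit false

open Set Filter Topology Metric

namespace Pool.Agent.CR.G

private theorem G9b_comp {F : ℕ → ℂ → ℂ} {G : ℂ → ℂ} {U : Set ℂ} (h : CC F G U)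
    {g : ℕ × ℂ → ℂ} {w z v : ℂ} (hz : z ∈ U) (hv : G z = v)
    (hpair : Tendsto (fun x : ℕ × ℂ => (x.1, g x)) (atTop ×ˢ 𝓝 w) (atTop ×ˢ 𝓝 z)) :
    Tendsto (fun x : ℕ × ℂ => F x.1 (g x)) (atTop ×ˢ 𝓝 w) (𝓝 v) := by
  have h1 := h z hz
  rw [hv] at h1
  have h2 := h1.comp hpair
  exact h2

private theorem G9b_log {α : Type*} {F : Filter α} {c t : α → ℂ} {e : ℂ} (ht : Tendsto t F (𝓝 0))
    (hct : Tendsto (fun x => c x * t x) F (𝓝 e)) :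
    Tendsto (fun x => -(c x) * Complex.log (1 - t x)) F (𝓝 e) := by
  have h1 : Tendsto (fun x => -(c x) * (Complex.log (1 - t x) + t x)) F (𝓝 0) := by
    have h2 : Tendsto (fun x => ‖c x * t x‖ * ‖t x‖) F (𝓝 0) := by
      have := hct.norm.mul ht.norm
      simpa using this
    refine squeeze_zero_norm' ?_ h2
    have h3 : ∀ᶠ x in F, ‖t x‖ < 1 / 2 := by
      have h4 := ht.norm
      rw [norm_zero] at h4
      exact h4.eventually_lt_const (by norm_num)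
    filter_upwards [h3] with x hx
    have h4 := Complex.norm_log_one_add_sub_self_le (z := -t x) (by rw [norm_neg]; linarith)
    rw [norm_neg, sub_neg_eq_add, ← sub_eq_add_neg] at h4
    have h5 : (1 - ‖t x‖)⁻¹ ≤ 2 := by
      rw [inv_le_comm₀ (by linarith) (by norm_num)]
      linarith
    have h6 : ‖Complex.log (1 - t x) + t x‖ ≤ ‖t x‖ * ‖t x‖ := by
      refine h4.trans ?_
      have h7 : 0 ≤ ‖t x‖ ^ 2 := by positivity
      nlinarith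
    rw [norm_mul, norm_neg, norm_mul]
    calc ‖c x‖ * ‖Complex.log (1 - t x) + t x‖ ≤ ‖c x‖ * (‖t x‖ * ‖t x‖) :=
          mul_le_mul_of_nonneg_left h6 (norm_nonneg _)
      _ = ‖c x‖ * ‖t x‖ * ‖t x‖ := by ring
  have h2 := h1.add hct
  rw [zero_add] at h2
  refine h2.congr fun x => ?_
  ring

private theorem G9b_mu {p q : ℕ} (hq : 0 < q) : mu ((p : ℝ) / q) ^ q = 1 := by
  unfold mu
  rw [← Complex.exp_nat_mul]
  have hq' : (q : ℂ) ≠ 0 := by exact_mod_cast hq.ne'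
  have : (q : ℂ) * (2 * Real.pi * (((p : ℝ) / q : ℝ) : ℂ) * Complex.I) =
      (p : ℂ) * (2 * Real.pi * Complex.I) := by
    push_cast
    field_simp
  rw [this, Complex.exp_nat_mul_two_pi_mul_I]

/-- the point `z0` and the size of the limit error -/
private theorem G9b_err0 {p q : ℕ} (hq : 0 < q) (X : NF p q) {κ0 : ℂ}
    (hκ : κ0 ^ q * (-Complex.I * q * X.b (mu ((p : ℝ) / q))) = 1) (j : ℤ) {ζ : ℂ} (hζ : 1 ≤ ‖ζ‖)
    (hy : ‖y0 q κ0 j ζ‖ < X.r1) :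
    X.χ (mu ((p : ℝ) / q)) (f (mu ((p : ℝ) / q)) (X.η (mu ((p : ℝ) / q)) (y0 q κ0 j ζ))) ≠ 0 ∧
      ‖err0 X κ0 j ζ‖ ≤ (‖X.ρ (mu ((p : ℝ) / q))‖ + X.C) / ‖ζ‖ := by
  have hmem : mu ((p : ℝ) / q) ∈ closedBall (mu ((p : ℝ) / q)) X.r0 :=
    mem_closedBall_self X.r0_pos.le
  have hζ0 : ζ ≠ 0 := by
    rintro rfl
    rw [norm_zero] at hζ
    linarith
  obtain ⟨h1, h2⟩ := YX_y0 hq X hκ j hζ0
  have hy' : y0 q κ0 j ζ ∈ ball (0 : ℂ) X.r1 := by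
    rwa [mem_ball_zero_iff]
  have h3 := X.χ_η _ hmem _ hy'
  have h4 := X.η_norm _ hmem _ hy'
  unfold err0
  set l0 := mu ((p : ℝ) / q) with hl0
  set z0 := X.η l0 (y0 q κ0 j ζ) with hz0
  have h5 : z0 ≠ 0 := by
    intro h0
    rw [h0, X.χ_zero _ hmem] at h3
    exact h1 h3.symm
  have h6 : ‖z0‖ < 2 * X.r1 := by linarith
  obtain ⟨-, s2, -, s4⟩ := X.step _ hmem z0 h5 h6
  refine ⟨s2, ?_⟩
  rw [h3, h2, hl0, G9b_mu hq, ← hl0, one_mul] at s4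
  have hpos : 0 < ‖ζ‖ := by linarith
  have h7 : ‖ζ‖ ^ (-(1 + 1 / (q : ℝ))) ≤ 1 / ‖ζ‖ := by
    have h8 : ‖ζ‖ ^ (-(1 + 1 / (q : ℝ))) ≤ ‖ζ‖ ^ (-1 : ℝ) :=
      Real.rpow_le_rpow_of_exponent_le hζ (by
        have : (0 : ℝ) ≤ 1 / (q : ℝ) := by positivity
        linarith)
    rwa [Real.rpow_neg_one, ← one_div] at h8
  have h9 := mul_le_mul_of_nonneg_left h7 X.C_pos.le
  have e1 : YX q (X.b l0) (X.χ l0 (f l0 z0)) - ζ - 1 =
      (YX q (X.b l0) (X.χ l0 (f l0 z0)) - (ζ + 1 + X.ρ l0 / ζ)) + X.ρ l0 / ζ := by ring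
  rw [e1]
  refine (norm_add_le _ _).trans ?_
  rw [norm_div, add_div]
  have h10 : X.C * (1 / ‖ζ‖) = X.C / ‖ζ‖ := by ring
  linarith

theorem dN_lim {p q : ℕ} (hq : 0 < q) (X : NF p q) : ∃ R1 : ℝ, 4 ≤ R1 ∧ ∀ R ≥ R1,
    ∀ (n : ℕ → ℝ) (l κ : ℕ → ℂ) (κ0 : ℂ) (J : ℕ → ℂ → ℂ) (J0 : ℂ → ℂ), SeqData X R n l κ κ0 J J0 → ∀ j : ℤ,
      CC (fun N w => dN X (n N) (l N) (κ N) (J N) (w + j * n N)) (d0f X κ0 J0 j) (Wd0 R) := by
  obtain ⟨Ra, ha4, ha⟩ := WN_lim hq X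
  obtain ⟨Rb, hb4, hb⟩ := y0_bound hq X
  set P := ‖X.ρ (mu ((p : ℝ) / q))‖ + X.C with hP
  refine ⟨max (max Ra Rb) (max 32 (2 * P)), ?_, ?_⟩
  · exact ha4.trans ((le_max_left _ _).trans (le_max_left _ _))
  intro R hR n l κ κ0 J J0 h j w hw
  have hRa : Ra ≤ R := ((le_max_left _ _).trans (le_max_left _ _)).trans hR
  have hRb : Rb ≤ R := ((le_max_right _ _).trans (le_max_left _ _)).trans hR
  have hR32 : 32 ≤ R := ((le_max_left _ _).trans (le_max_right _ _)).trans hR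
  have hRP : 2 * P ≤ R := ((le_max_right _ _).trans (le_max_right _ _)).trans hR
  have hWN := ha R hRa n l κ κ0 J J0 h j w hw
  have hκ := h.κ0_eq
  have hnear := h.isJ0.near w hw
  have hwR : R < ‖w‖ := hw.1
  have hJw : R / 2 < ‖J0 w‖ := by
    have h1 := norm_sub_norm_le w (J0 w)
    rw [norm_sub_rev] at h1
    linarith
  have hy := hb κ0 hκ j (J0 w) (by linarith)
  obtain ⟨hχ0, herr⟩ := G9b_err0 hq X hκ j (by linarith) hy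
  have herr1 : ‖err0 X κ0 j (J0 w)‖ ≤ 1 := by
    refine herr.trans ?_
    rw [div_le_one (by linarith)]
    linarith
  obtain ⟨hslit0, -, -⟩ := Wd0_slit (by linarith : (0 : ℝ) < R) hw
    (show ‖J0 w - w‖ ≤ ‖w‖ / 8 by linarith)
  obtain ⟨hslit1, -, -⟩ := Wd0_slit (by linarith : (0 : ℝ) < R) hw
    (show ‖J0 w + 1 + err0 X κ0 j (J0 w) - w‖ ≤ ‖w‖ / 8 by
      have e1 : J0 w + 1 + err0 X κ0 j (J0 w) - w = (J0 w - w) + 1 + err0 X κ0 j (J0 w) := by ring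
      rw [e1]
      refine norm_add₃_le.trans ?_
      rw [norm_one]
      linarith)
  have hmem : mu ((p : ℝ) / q) ∈ closedBall (mu ((p : ℝ) / q)) X.r0 :=
    mem_closedBall_self X.r0_pos.le
  -- the basic limits
  have hfst : Tendsto (fun x : ℕ × ℂ => x.1) (atTop ×ˢ 𝓝 w) atTop := tendsto_fst
  have hnl := h.n_lim
  have hllim := h.l_lim
  have hn : Tendsto (fun x : ℕ × ℂ => n x.1) (atTop ×ˢ 𝓝 w) atTop := hnl.comp hfst
  have hl : Tendsto (fun x : ℕ × ℂ => l x.1) (atTop ×ˢ 𝓝 w) (𝓝 (mu ((p : ℝ) / q))) :=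
    hllim.comp hfst
  have hlmem : ∀ᶠ N in atTop, l N ∈ closedBall (mu ((p : ℝ) / q)) X.r0 :=
    h.lev.mono fun N hN => hN.mem
  have hlmem' : ∀ᶠ x : ℕ × ℂ in atTop ×ˢ 𝓝 w, l x.1 ∈ closedBall (mu ((p : ℝ) / q)) X.r0 :=
    hfst.eventually hlmem
  have hρ : Tendsto (fun N => X.ρ (l N)) atTop (𝓝 (X.ρ (mu ((p : ℝ) / q)))) :=
    (X.ρ_cont _ hmem).tendsto.comp (tendsto_nhdsWithin_iff.2 ⟨hllim, hlmem⟩)
  have hρ' := hρ.comp hfst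
  have hbl : Tendsto (fun x : ℕ × ℂ => X.b (l x.1)) (atTop ×ˢ 𝓝 w) (𝓝 (X.b (mu ((p : ℝ) / q)))) :=
    (X.b_cont _ hmem).tendsto.comp (tendsto_nhdsWithin_iff.2 ⟨hl, hlmem'⟩)
  have hJlim : Tendsto (fun x : ℕ × ℂ => J x.1 x.2) (atTop ×ˢ 𝓝 w) (𝓝 (J0 w)) :=
    J_lim (by linarith) hnl hρ h.isJ h.isJ0 w hw
  have hpair : Tendsto (fun x : ℕ × ℂ => (x.1, J x.1 x.2)) (atTop ×ˢ 𝓝 w) (atTop ×ˢ 𝓝 (J0 w)) :=
    hfst.prodMk hJlim
  have hee : Tendsto (fun x : ℕ × ℂ => ee (n x.1) (J x.1 x.2)) (atTop ×ˢ 𝓝 w) (𝓝 1) :=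
    G9b_comp (cc_ee hnl) (mem_univ _) rfl hpair
  have hYY : Tendsto (fun x : ℕ × ℂ => YY (n x.1) (J x.1 x.2)) (atTop ×ˢ 𝓝 w) (𝓝 (J0 w)) :=
    G9b_comp (cc_YY hnl) (mem_univ _) rfl hpair
  have hcs0 : Tendsto (fun x : ℕ × ℂ => cs (n x.1) (J x.1 x.2)) (atTop ×ˢ 𝓝 w)
      (𝓝 (Complex.log (-Complex.I * J0 w))) :=
    G9b_comp (cc_cs hnl) hslit0 rfl hpair
  -- the limit of `R1N`
  have hf : Tendsto (fun x : ℕ × ℂ => f (l x.1)
      (WN X (n x.1) (l x.1) (κ x.1) (J x.1) (x.2 + j * n x.1))) (atTop ×ˢ 𝓝 w)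
      (𝓝 (f (mu ((p : ℝ) / q)) (W0f X κ0 J0 j w))) := by
    unfold f
    exact (hWN.pow 2).add (hl.mul hWN)
  have hχ : Tendsto (fun x : ℕ × ℂ => X.χ (l x.1) (f (l x.1)
      (WN X (n x.1) (l x.1) (κ x.1) (J x.1) (x.2 + j * n x.1)))) (atTop ×ˢ 𝓝 w)
      (𝓝 (X.χ (mu ((p : ℝ) / q)) (f (mu ((p : ℝ) / q)) (W0f X κ0 J0 j w)))) := by
    have h1 := (X.χ_cont (mu ((p : ℝ) / q), f (mu ((p : ℝ) / q)) (W0f X κ0 J0 j w))
      ⟨hmem, mem_univ _⟩).tendsto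
    refine h1.comp (tendsto_nhdsWithin_iff.2 ⟨hl.prodMk_nhds hf, ?_⟩)
    filter_upwards [hlmem'] with x hx
    exact ⟨hx, mem_univ _⟩
  have hq0 : (q : ℂ) ≠ 0 := by exact_mod_cast hq.ne'
  have hYX : Tendsto (fun x : ℕ × ℂ => YX q (X.b (l x.1)) (X.χ (l x.1) (f (l x.1)
      (WN X (n x.1) (l x.1) (κ x.1) (J x.1) (x.2 + j * n x.1))))) (atTop ×ˢ 𝓝 w)
      (𝓝 (YX q (X.b (mu ((p : ℝ) / q))) (X.χ (mu ((p : ℝ) / q)) (f (mu ((p : ℝ) / q))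
        (W0f X κ0 J0 j w))))) := by
    unfold YX
    refine tendsto_const_nhds.div ((tendsto_const_nhds.mul hbl).mul (hχ.pow q)) ?_
    exact mul_ne_zero (mul_ne_zero hq0 (X.b_ne _ hmem)) (pow_ne_zero q hχ0)
  have hR1 : Tendsto (fun x : ℕ × ℂ => (l x.1) ^ q * YX q (X.b (l x.1)) (X.χ (l x.1) (f (l x.1)
      (WN X (n x.1) (l x.1) (κ x.1) (J x.1) (x.2 + j * n x.1)))) - YY (n x.1) (J x.1 x.2) - 1)
      (atTop ×ˢ 𝓝 w) (𝓝 (err0 X κ0 j (J0 w))) := by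
    have h1 := (((hl.pow q).mul hYX).sub hYY).sub (tendsto_const_nhds (x := (1 : ℂ)))
    rw [G9b_mu hq, one_mul] at h1
    exact h1
  -- the eventual identities
  have hn0 : ∀ᶠ x : ℕ × ℂ in atTop ×ˢ 𝓝 w, 0 < n x.1 := hn.eventually_gt_atTop 0
  have hJadd : ∀ᶠ x : ℕ × ℂ in atTop ×ˢ 𝓝 w, J x.1 (x.2 + j * n x.1) = J x.1 x.2 + j * n x.1 := by
    filter_upwards [hn0, hfst.eventually h.isJ, Wd0_ev hnl hw] with x h1 h2 h3
    exact h2.add h1 h3 j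
  have hR1' : Tendsto (fun x : ℕ × ℂ => R1N X (n x.1) (l x.1) (κ x.1) (J x.1 x.2 + j * n x.1))
      (atTop ×ˢ 𝓝 w) (𝓝 (err0 X κ0 j (J0 w))) := by
    refine hR1.congr' ?_
    filter_upwards [hn0, hJadd] with x h1 h2
    unfold R1N WN
    rw [h2]
    have e1 : YY (n x.1) (J x.1 x.2 + j * n x.1) = YY (n x.1) (J x.1 x.2) := by
      unfold YY
      rw [ee_add h1]
    rw [e1]
  -- the limit of `errN`
  have hcn := (cn_lim hnl).comp hfst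
  have hcn' : Tendsto (fun x : ℕ × ℂ => (cn (n x.1) * (2 * Real.pi / n x.1))⁻¹) (atTop ×ˢ 𝓝 w)
      (𝓝 (-Complex.I)⁻¹) := hcn.inv₀ (neg_ne_zero.2 Complex.I_ne_zero)
  have hninv : Tendsto (fun x : ℕ × ℂ => (2 * Real.pi / n x.1 : ℂ)) (atTop ×ˢ 𝓝 w) (𝓝 0) := by
    have h1 : Tendsto (fun x : ℕ × ℂ => 2 * Real.pi / n x.1) (atTop ×ˢ 𝓝 w) (𝓝 0) :=
      hn.const_div_atTop _
    have h2 := (Complex.continuous_ofReal.tendsto 0).comp h1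
    rw [Complex.ofReal_zero] at h2
    refine h2.congr fun x => ?_
    simp
  have hcinv : Tendsto (fun x : ℕ × ℂ => (cn (n x.1))⁻¹) (atTop ×ˢ 𝓝 w) (𝓝 0) := by
    have h1 := hcn'.mul hninv
    rw [mul_zero] at h1
    refine h1.congr' ?_
    filter_upwards [hn0] with x hx
    have hx' : (n x.1 : ℂ) ≠ 0 := by exact_mod_cast hx.ne'
    have hpi : (Real.pi : ℂ) ≠ 0 := by exact_mod_cast Real.pi_ne_zero
    rw [mul_inv, mul_assoc, inv_mul_cancel₀, mul_one]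
    exact div_ne_zero (mul_ne_zero two_ne_zero hpi) hx'
  have herrN : Tendsto (fun x : ℕ × ℂ => errN X (n x.1) (l x.1) (κ x.1) (J x.1 x.2 + j * n x.1))
      (atTop ×ˢ 𝓝 w) (𝓝 (err0 X κ0 j (J0 w))) := by
    have ht : Tendsto (fun x : ℕ × ℂ => ee (n x.1) (J x.1 x.2 + j * n x.1) *
        R1N X (n x.1) (l x.1) (κ x.1) (J x.1 x.2 + j * n x.1) / cn (n x.1)) (atTop ×ˢ 𝓝 w)
        (𝓝 0) := by
      have h1 := (hee.mul hR1').mul hcinv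
      rw [mul_zero] at h1
      refine h1.congr' ?_
      filter_upwards [hn0] with x hx
      rw [ee_add hx, div_eq_mul_inv]
    have hct : Tendsto (fun x : ℕ × ℂ => (n x.1 / (2 * Real.pi * Complex.I) : ℂ) *
        (ee (n x.1) (J x.1 x.2 + j * n x.1) *
        R1N X (n x.1) (l x.1) (κ x.1) (J x.1 x.2 + j * n x.1) / cn (n x.1))) (atTop ×ˢ 𝓝 w)
        (𝓝 (err0 X κ0 j (J0 w))) := by
      have h1 := (hcn'.mul (tendsto_const_nhds (x := Complex.I⁻¹))).mul (hee.mul hR1')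
      have e1 : (-Complex.I)⁻¹ * Complex.I⁻¹ * (1 * err0 X κ0 j (J0 w)) =
          err0 X κ0 j (J0 w) := by
        rw [inv_neg, Complex.inv_I, neg_neg]
        linear_combination (-(err0 X κ0 j (J0 w))) * Complex.I_mul_I
      rw [e1] at h1
      refine h1.congr' ?_
      filter_upwards [hn0] with x hx
      rw [ee_add hx, mul_inv, inv_div]
      ring
    exact G9b_log ht hct
  -- the limit of the second value of `cs`
  have hsum : Tendsto (fun x : ℕ × ℂ => J x.1 x.2 + 1 +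
      errN X (n x.1) (l x.1) (κ x.1) (J x.1 x.2 + j * n x.1)) (atTop ×ˢ 𝓝 w)
      (𝓝 (J0 w + 1 + err0 X κ0 j (J0 w))) := (hJlim.add_const 1).add herrN
  have hcs1 : Tendsto (fun x : ℕ × ℂ => cs (n x.1) (J x.1 x.2 + 1 +
      errN X (n x.1) (l x.1) (κ x.1) (J x.1 x.2 + j * n x.1))) (atTop ×ˢ 𝓝 w)
      (𝓝 (Complex.log (-Complex.I * (J0 w + 1 + err0 X κ0 j (J0 w))))) :=
    G9b_comp (cc_cs hnl) hslit1 rfl (hfst.prodMk hsum)
  have hfin := herrN.sub (hρ'.mul (hcs1.sub hcs0))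
  refine hfin.congr' ?_
  filter_upwards [hn0, hJadd] with x h1 h2
  unfold dN
  rw [h2]
  simp only [Function.comp_apply]
  have e1 : J x.1 x.2 + j * n x.1 + 1 + errN X (n x.1) (l x.1) (κ x.1) (J x.1 x.2 + j * n x.1) =
      (J x.1 x.2 + 1 + errN X (n x.1) (l x.1) (κ x.1) (J x.1 x.2 + j * n x.1)) + j * n x.1 := by
    ring
  rw [e1, cs_add h1, cs_add h1]

end Pool.Agent.CR.G
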