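import Pool.Agent.H48.CR.G9a

/-!
# CR G9c: the limit chart: injectivity, asymptotics, location of points

Write `l0 = mu (p/q)`, `b0 = X.b l0`, `Y z = YX q b0 (X.χ l0 z)`. `‖J0 w‖ ≥ 15/16 ‖w‖ > R/2`, so `y0 j (J0 w) ∈ ball 0 r1` (`y0_bound`), `χ l0 (W0f j w) = y0 j (J0 w)`, and `Y (W0f j w) = J0 w` (`YX_y0`).
`inj`: `W0f j w = W0f j' w'` gives `J0 w = J0 w'` (apply `Y`), `w = w'` (`IsJ0.inj`), and `y0 j ζ = y0 j' ζ` gives `exp (2πi (j - j')/q) = 1`, `q ∣ j' - j`.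
`asymp`: `y0 j (J0 w)/κ0 = exp (2πi j/q) (-i J0 w)^(-1/q)`, `J0 w = w (1 + o(1))` (`IsJ0.asymp`) and `-i w` in the closed sector `|arg| ≤ 3π/4`: `(-i J0 w)^(-1/q) = (-i w)^(-1/q) (1 + o(1))` (`log (-i J0 w) - log (-i w) = log (J0 w / w)`, both arguments are within `(-π, π)` and the sum does not cross the cut).
`Ymap`: `X.step` at `l0`, `l0^q = 1`: `Y (f z) - Y z - 1 = ρ/Y z + O(‖Y z‖^(-(1+1/q)))`; `Ylarge`: `‖Y z‖ = 1/(q ‖b0‖ ‖χ z‖^q)`, `‖χ z‖ ≤ 2 ‖z‖`.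
`surj`: let `ζ = Y z`, large, `-ζ.im < |ζ.re|/2`. Put `w = ζ - ρ log (-i ζ)`: `‖w - ζ‖ ≤ ε ‖ζ‖`, so `w ∈ Wd0 R`, `‖w‖ > R'`, `‖ζ - w‖ ≤ ‖w‖/8` and `ζ = J0 w` by `IsJ0.uniq`. `(χ z)^q = -1/(q b0 ζ) = (y0 0 ζ)^q`, so `χ z = exp (2πi j/q) y0 0 ζ = y0 j ζ` for some integer `j`;
`z = η (χ z)` (`χ_near`: both `z` and `η (χ z)` in `ball 0 (4 r1)` have the same image under `χ`).
(If `-ζ.im < |ζ.re|/2` then `ζ.im ≥ -|ζ|/√5` and either `ζ.im ≥ |ζ|/4` or `|ζ.re| ≥ |ζ|/2`...: in both cases a small relative perturbation `w` satisfies `-w.im < |w.re|`.)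
-/

set_option autoImplicit false

open Set Filter Topology Metric

namespace Pool.Agent.CR.G

private theorem G9c_l0 {p q : ℕ} (X : NF p q) :
    mu ((p : ℝ) / q) ∈ closedBall (mu ((p : ℝ) / q)) X.r0 :=
  mem_closedBall_self X.r0_pos.le

private theorem G9c_chi {p q : ℕ} (X : NF p q) {z : ℂ} (hz : ‖z‖ < 4 * X.r1) :
    ‖z‖ / 2 ≤ ‖X.χ (mu ((p : ℝ) / q)) z‖ ∧ ‖X.χ (mu ((p : ℝ) / q)) z‖ ≤ 2 * ‖z‖ := by
  have h0 : (0 : ℂ) ∈ ball (0 : ℂ) (4 * X.r1) := mem_ball_self (by linarith [X.r1_pos])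
  have h1 := X.χ_near _ (G9c_l0 X) z (mem_ball_zero_iff.2 hz) 0 h0
  rw [X.χ_zero _ (G9c_l0 X), sub_zero, sub_zero] at h1
  have h2 : ‖X.χ (mu ((p : ℝ) / q)) z‖ ≤ ‖X.χ (mu ((p : ℝ) / q)) z - z‖ + ‖z‖ := by
    calc ‖X.χ (mu ((p : ℝ) / q)) z‖ = ‖(X.χ (mu ((p : ℝ) / q)) z - z) + z‖ := by rw [sub_add_cancel]
      _ ≤ _ := norm_add_le _ _
  have h3 : ‖z‖ ≤ ‖X.χ (mu ((p : ℝ) / q)) z‖ + ‖X.χ (mu ((p : ℝ) / q)) z - z‖ := by
    calc ‖z‖ = ‖X.χ (mu ((p : ℝ) / q)) z - (X.χ (mu ((p : ℝ) / q)) z - z)‖ := by rw [sub_sub_cancel]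
      _ ≤ _ := norm_sub_le _ _
  constructor <;> linarith [norm_nonneg z]

private theorem G9c_YX_norm (q : ℕ) (b x : ℂ) : ‖YX q b x‖ = 1 / (q * ‖b‖ * ‖x‖ ^ q) := by
  unfold YX
  rw [norm_div, norm_neg, norm_one, norm_mul, norm_mul, norm_pow, Complex.norm_natCast]

private theorem G9c_large {p q : ℕ} (hq : 0 < q) (X : NF p q) (A : ℝ) : ∃ r : ℝ, 0 < r ∧ r ≤ X.r1 ∧
    ∀ z : ℂ, z ≠ 0 → ‖z‖ < r →
      A ≤ ‖YX q (X.b (mu ((p : ℝ) / q))) (X.χ (mu ((p : ℝ) / q)) z)‖ := by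
  have hb : 0 < ‖X.b (mu ((p : ℝ) / q))‖ := norm_pos_iff.2 (X.b_ne _ (G9c_l0 X))
  have hq' : (0 : ℝ) < q := by exact_mod_cast hq
  have hA : 0 < max A 1 := lt_of_lt_of_le one_pos (le_max_right _ _)
  set B : ℝ := q * ‖X.b (mu ((p : ℝ) / q))‖ with hB
  have hBpos : 0 < B := mul_pos hq' hb
  refine ⟨min X.r1 (min (1 / 2) (1 / (2 * B * max A 1))),
    lt_min X.r1_pos (lt_min (by norm_num) (by positivity)), min_le_left _ _, ?_⟩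
  intro z hz hzr
  have h1 : ‖z‖ < X.r1 := lt_of_lt_of_le hzr (min_le_left _ _)
  have h2 : ‖z‖ < 1 / 2 := lt_of_lt_of_le hzr ((min_le_right _ _).trans (min_le_left _ _))
  have h3 : ‖z‖ < 1 / (2 * B * max A 1) :=
    lt_of_lt_of_le hzr ((min_le_right _ _).trans (min_le_right _ _))
  have hzpos : 0 < ‖z‖ := norm_pos_iff.2 hz
  obtain ⟨h4, h5⟩ := G9c_chi X (z := z) (by linarith [X.r1_pos])
  have h6 : 0 < ‖X.χ (mu ((p : ℝ) / q)) z‖ := by linarith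
  have h7 : ‖X.χ (mu ((p : ℝ) / q)) z‖ ^ q ≤ 2 * ‖z‖ := by
    calc ‖X.χ (mu ((p : ℝ) / q)) z‖ ^ q ≤ ‖X.χ (mu ((p : ℝ) / q)) z‖ ^ 1 :=
        pow_le_pow_of_le_one h6.le (by linarith) hq
      _ ≤ 2 * ‖z‖ := by rw [pow_one]; exact h5
  rw [G9c_YX_norm, ← hB]
  refine (le_max_left A 1).trans ?_
  rw [le_div_iff₀ (mul_pos hBpos (pow_pos h6 q))]
  rw [lt_div_iff₀ (by positivity)] at h3
  calc max A 1 * (B * ‖X.χ (mu ((p : ℝ) / q)) z‖ ^ q) ≤ max A 1 * (B * (2 * ‖z‖)) := by gcongr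
    _ = ‖z‖ * (2 * B * max A 1) := by ring
    _ ≤ 1 := h3.le

/-- the power function on the domain -/
private theorem G9c_cpow {R : ℝ} (hR : 0 < R) {a : ℝ} (ha : 0 ≤ a) (ha1 : a ≤ 1) {w ζ : ℂ}
    (hw : w ∈ Wd0 R) (hζ : ‖ζ - w‖ ≤ ‖w‖ / 8) :
    ‖(-Complex.I * ζ) ^ ((-a : ℝ) : ℂ) - (-Complex.I * w) ^ ((-a : ℝ) : ℂ)‖ ≤
      2 * ‖w‖ ^ (-a - 1) * ‖ζ - w‖ := by
  have hwpos : 0 < ‖w‖ := lt_trans hR hw.1
  have hder : ∀ x ∈ closedBall w (‖w‖ / 8),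
      HasDerivWithinAt (fun x : ℂ => (-Complex.I * x) ^ ((-a : ℝ) : ℂ))
        (((-a : ℝ) : ℂ) * (-Complex.I * x) ^ (((-a : ℝ) : ℂ) - 1) * (-Complex.I))
        (closedBall w (‖w‖ / 8)) x := by
    intro x hx
    have h1 : ‖x - w‖ ≤ ‖w‖ / 8 := by rwa [mem_closedBall, dist_eq_norm] at hx
    have h2 := (Wd0_slit hR hw h1).1
    have h3 : HasDerivAt (fun x : ℂ => -Complex.I * x) (-Complex.I) x := by
      have h4 := (hasDerivAt_id x).const_mul (-Complex.I)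
      rw [mul_one] at h4
      exact h4
    exact (h3.cpow_const h2).hasDerivWithinAt
  have hbd : ∀ x ∈ closedBall w (‖w‖ / 8),
      ‖((-a : ℝ) : ℂ) * (-Complex.I * x) ^ (((-a : ℝ) : ℂ) - 1) * (-Complex.I)‖ ≤
        2 * ‖w‖ ^ (-a - 1) := by
    intro x hx
    have h1 : ‖x - w‖ ≤ ‖w‖ / 8 := by rwa [mem_closedBall, dist_eq_norm] at hx
    have h2 : 7 / 8 * ‖w‖ ≤ ‖x‖ := by
      have h3 : ‖w‖ ≤ ‖x‖ + ‖x - w‖ := by
        calc ‖w‖ = ‖x - (x - w)‖ := by rw [sub_sub_cancel]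
          _ ≤ _ := norm_sub_le _ _
      linarith
    have e1 : ((-a : ℝ) : ℂ) - 1 = ((-a - 1 : ℝ) : ℂ) := by push_cast; ring
    rw [e1, norm_mul, norm_mul, Complex.norm_cpow_real, norm_mul, norm_neg, Complex.norm_I, one_mul,
      mul_one, Complex.norm_real, Real.norm_eq_abs, abs_neg, abs_of_nonneg ha]
    have h4 : ‖x‖ ^ (-a - 1) ≤ (7 / 8 * ‖w‖) ^ (-a - 1) :=
      Real.rpow_le_rpow_of_nonpos (by positivity) h2 (by linarith)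
    have h5 : (7 / 8 * ‖w‖) ^ (-a - 1) = (7 / 8) ^ (-a - 1) * ‖w‖ ^ (-a - 1) :=
      Real.mul_rpow (by norm_num) hwpos.le
    have h6 : (7 / 8 : ℝ) ^ (-a - 1) ≤ 2 := by
      calc (7 / 8 : ℝ) ^ (-a - 1) ≤ (7 / 8 : ℝ) ^ (-2 : ℝ) :=
          Real.rpow_le_rpow_of_exponent_ge (by norm_num) (by norm_num) (by linarith)
        _ ≤ 2 := by
          rw [Real.rpow_neg (by norm_num), Real.rpow_two]
          norm_num
    have h7 : 0 < ‖w‖ ^ (-a - 1) := Real.rpow_pos_of_pos hwpos _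
    calc a * ‖x‖ ^ (-a - 1) ≤ 1 * ‖x‖ ^ (-a - 1) :=
          mul_le_mul_of_nonneg_right ha1 (Real.rpow_nonneg (norm_nonneg _) _)
      _ ≤ (7 / 8) ^ (-a - 1) * ‖w‖ ^ (-a - 1) := by rw [one_mul, ← h5]; exact h4
      _ ≤ 2 * ‖w‖ ^ (-a - 1) := mul_le_mul_of_nonneg_right h6 h7.le
  exact (convex_closedBall w (‖w‖ / 8)).norm_image_sub_le_of_norm_hasDerivWithin_le hder hbd
    (mem_closedBall_self (by positivity)) (by rw [mem_closedBall, dist_eq_norm]; exact hζ)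

private theorem G9c_root {q : ℕ} (hq : 0 < q) {x y : ℂ} (hy : y ≠ 0) (h : x ^ q = y ^ q) :
    ∃ j : ℤ, x = Complex.exp (2 * Real.pi * Complex.I * j / q) * y := by
  have h1 : (x / y) ^ q = 1 := by
    rw [div_pow, h, div_self (pow_ne_zero q hy)]
  have : NeZero q := ⟨hq.ne'⟩
  obtain ⟨i, -, hi⟩ := (Complex.isPrimitiveRoot_exp q hq.ne').eq_pow_of_pow_eq_one h1
  refine ⟨(i : ℤ), ?_⟩
  rw [← Complex.exp_nat_mul] at hi
  have e1 : (2 * Real.pi * Complex.I * ((i : ℤ) : ℂ) / q : ℂ) = i * (2 * Real.pi * Complex.I / q) := by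
    push_cast
    ring
  rw [e1, hi, div_mul_cancel₀ _ hy]

/-- points of the sheets -/
private theorem G9c_sheet {ζ w : ℂ} (h : -ζ.im < |ζ.re| / 2) (hζ : ζ ≠ 0) (hw : ‖w - ζ‖ ≤ ‖ζ‖ / 16) :
    -w.im < |w.re| := by
  have hpos : 0 < ‖ζ‖ := norm_pos_iff.2 hζ
  have h1 : |(w - ζ).re| ≤ ‖w - ζ‖ := Complex.abs_re_le_norm _
  have h2 : |(w - ζ).im| ≤ ‖w - ζ‖ := Complex.abs_im_le_norm _
  rw [Complex.sub_re] at h1
  rw [Complex.sub_im] at h2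
  have h3 : ‖ζ‖ ≤ |ζ.re| + |ζ.im| := Complex.norm_le_abs_re_add_abs_im ζ
  have h4 : |ζ.re| - ‖ζ‖ / 16 ≤ |w.re| := by
    have h5 : |ζ.re| - |w.re| ≤ |ζ.re - w.re| := abs_sub_abs_le_abs_sub _ _
    rw [abs_sub_comm] at h5
    linarith
  have h6 : -w.im ≤ -ζ.im + ‖ζ‖ / 16 := by
    have := (abs_le.1 h2).1
    linarith
  by_cases h7 : ‖ζ‖ / 4 ≤ |ζ.re|
  · linarith
  · push Not at h7
    have h8 : 0 ≤ ζ.im := by
      by_contra hcon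
      push Not at hcon
      rw [abs_of_neg hcon] at h3
      linarith
    rw [abs_of_nonneg h8] at h3
    have h9 := abs_nonneg w.re
    linarith

theorem W0f_basic {p q : ℕ} (hq : 0 < q) (X : NF p q) : ∃ R1 : ℝ, 4 ≤ R1 ∧ ∀ R ≥ R1, ∀ (κ0 : ℂ) (J0 : ℂ → ℂ),
    κ0 ^ q * (-Complex.I * q * X.b (mu ((p : ℝ) / q))) = 1 → IsJ0 (X.ρ (mu ((p : ℝ) / q))) R J0 →
      (∀ (j : ℤ) (w : ℂ), W0f X κ0 J0 (j + q) w = W0f X κ0 J0 j w) ∧
      (∀ (j : ℤ), ∀ w ∈ Wd0 R, W0f X κ0 J0 j w ≠ 0 ∧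
        X.χ (mu ((p : ℝ) / q)) (W0f X κ0 J0 j w) = y0 q κ0 j (J0 w) ∧
        YX q (X.b (mu ((p : ℝ) / q))) (X.χ (mu ((p : ℝ) / q)) (W0f X κ0 J0 j w)) = J0 w) ∧
      (∀ (j j' : ℤ), ∀ w ∈ Wd0 R, ∀ w' ∈ Wd0 R, W0f X κ0 J0 j w = W0f X κ0 J0 j' w' →
        w = w' ∧ ∃ k : ℤ, j' = j + k * q) ∧
      (∀ ε : ℝ, 0 < ε → ∃ R' : ℝ, ∀ (j : ℤ), ∀ w ∈ Wd0 R, R' < ‖w‖ →
        ‖X.χ (mu ((p : ℝ) / q)) (W0f X κ0 J0 j w) / κ0 -
          Complex.exp (2 * Real.pi * Complex.I * j / q) * (-Complex.I * w) ^ (-(1 / (q : ℂ)))‖ ≤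
            ε * ‖w‖ ^ (-(1 / (q : ℝ)))) ∧
      (∀ R' : ℝ, ∃ r : ℝ, 0 < r ∧ ∀ z : ℂ, z ≠ 0 → ‖z‖ < r →
        -(YX q (X.b (mu ((p : ℝ) / q))) (X.χ (mu ((p : ℝ) / q)) z)).im <
          |(YX q (X.b (mu ((p : ℝ) / q))) (X.χ (mu ((p : ℝ) / q)) z)).re| / 2 →
        ∃ (j : ℤ) (w : ℂ), w ∈ Wd0 R ∧ R' < ‖w‖ ∧ W0f X κ0 J0 j w = z) := by
  have hq' : (0 : ℝ) < q := by exact_mod_cast hq
  have hqC : (q : ℂ) ≠ 0 := by exact_mod_cast hq.ne'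
  obtain ⟨R1, hR1, hy⟩ := y0_bound hq X
  refine ⟨R1, hR1, ?_⟩
  intro R hR κ0 J0 hκ hJ
  have hR0 : 0 < R := by linarith
  have hyb := hy κ0 hκ
  have hl0 := G9c_l0 X
  have hκ0 : κ0 ≠ 0 := by
    rintro rfl
    rw [zero_pow hq.ne', zero_mul] at hκ
    exact zero_ne_one hκ
  have hJn : ∀ w ∈ Wd0 R, R / 2 < ‖J0 w‖ ∧ J0 w ≠ 0 := by
    intro w hw
    have h1 := hJ.near w hw
    have h2 := (Wd0_slit hR0 hw (h1.trans (by linarith [norm_nonneg w]))).2.1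
    refine ⟨h2, ?_⟩
    rintro h3
    rw [h3, norm_zero] at h2
    linarith
  have hbasic : ∀ (j : ℤ), ∀ w ∈ Wd0 R, W0f X κ0 J0 j w ≠ 0 ∧
        X.χ (mu ((p : ℝ) / q)) (W0f X κ0 J0 j w) = y0 q κ0 j (J0 w) ∧
        YX q (X.b (mu ((p : ℝ) / q))) (X.χ (mu ((p : ℝ) / q)) (W0f X κ0 J0 j w)) = J0 w := by
    intro j w hw
    obtain ⟨h1, h2⟩ := hJn w hw
    have h3 := hyb j (J0 w) (by linarith)
    obtain ⟨h4, h5⟩ := YX_y0 hq X hκ j h2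
    have h6 : X.χ (mu ((p : ℝ) / q)) (W0f X κ0 J0 j w) = y0 q κ0 j (J0 w) :=
      X.χ_η _ hl0 _ (mem_ball_zero_iff.2 h3)
    refine ⟨?_, h6, by rw [h6]; exact h5⟩
    intro h7
    rw [h7, X.χ_zero _ hl0] at h6
    exact h4 h6.symm
  refine ⟨?_, hbasic, ?_, ?_, ?_⟩
  · intro j w
    have e1 : y0 q κ0 (j + q) (J0 w) = y0 q κ0 j (J0 w) := by
      unfold y0
      have e2 : (2 * Real.pi * Complex.I * ((j + q : ℤ) : ℂ) / q : ℂ) =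
          2 * Real.pi * Complex.I * j / q + 2 * Real.pi * Complex.I := by
        push_cast
        field_simp
      rw [e2, Complex.exp_add, Complex.exp_two_pi_mul_I, mul_one]
    unfold W0f
    rw [e1]
  · intro j j' w hw w' hw' h
    obtain ⟨-, a2, a3⟩ := hbasic j w hw
    obtain ⟨-, b2, b3⟩ := hbasic j' w' hw'
    have h1 : J0 w = J0 w' := by rw [← a3, ← b3, h]
    have h2 : w = w' := hJ.inj hw hw' h1
    refine ⟨h2, ?_⟩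
    have h3 : y0 q κ0 j (J0 w) = y0 q κ0 j' (J0 w) := by
      rw [← a2, h, b2, h1]
    unfold y0 at h3
    have h4 : (-Complex.I * J0 w) ^ (-(1 / (q : ℂ))) ≠ 0 := by
      rw [Complex.cpow_ne_zero_iff]
      left
      exact mul_ne_zero (neg_ne_zero.2 Complex.I_ne_zero) (hJn w hw).2
    have h5 := mul_left_cancel₀ hκ0 (mul_right_cancel₀ h4 h3)
    rw [Complex.exp_eq_exp_iff_exists_int] at h5
    obtain ⟨m, hm⟩ := h5
    refine ⟨-m, ?_⟩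
    have hpi : (2 * Real.pi * Complex.I : ℂ) ≠ 0 := Complex.two_pi_I_ne_zero
    have h6 : (2 * Real.pi * Complex.I : ℂ) * (j : ℂ) = 2 * Real.pi * Complex.I * (j' + m * q) := by
      have h7 : (2 * Real.pi * Complex.I * j / q : ℂ) * q =
          (2 * Real.pi * Complex.I * j' / q + m * (2 * Real.pi * Complex.I)) * q := by rw [hm]
      field_simp at h7
      linear_combination (2 * Real.pi * Complex.I) * h7
    have h8 := mul_left_cancel₀ hpi h6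
    have h9 : j = j' + m * q := by exact_mod_cast h8
    rw [h9]
    ring
  · intro ε hε
    obtain ⟨R', hR'⟩ := hJ.asymp hR0 (ε / 2) (by linarith)
    refine ⟨R', ?_⟩
    intro j w hw hwR
    have hwpos : 0 < ‖w‖ := lt_trans hR0 hw.1
    rw [(hbasic j w hw).2.1]
    unfold y0
    have e1 : κ0 * Complex.exp (2 * Real.pi * Complex.I * j / q) *
        (-Complex.I * J0 w) ^ (-(1 / (q : ℂ))) / κ0 =
        Complex.exp (2 * Real.pi * Complex.I * j / q) * (-Complex.I * J0 w) ^ (-(1 / (q : ℂ))) := by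
      field_simp
    have e2 : ‖Complex.exp (2 * Real.pi * Complex.I * j / q)‖ = 1 := by
      have e3 : (2 * Real.pi * Complex.I * j / q : ℂ) = ((2 * Real.pi * j / q : ℝ) : ℂ) * Complex.I := by
        push_cast
        ring
      rw [e3, Complex.norm_exp_ofReal_mul_I]
    have e4 : (-(1 / (q : ℂ))) = ((-(1 / (q : ℝ)) : ℝ) : ℂ) := by push_cast; ring
    rw [e1, ← mul_sub, norm_mul, e2, one_mul, e4]
    have ha1 : 1 / (q : ℝ) ≤ 1 := by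
      rw [div_le_one hq']
      exact_mod_cast hq
    have hnear : ‖J0 w - w‖ ≤ ‖w‖ / 8 := (hJ.near w hw).trans (by linarith)
    refine (G9c_cpow hR0 (by positivity) ha1 hw hnear).trans ?_
    have h1 := hR' w hw hwR
    have h2 : ‖w‖ ^ (-(1 / (q : ℝ)) - 1) * ‖w‖ = ‖w‖ ^ (-(1 / (q : ℝ))) := by
      rw [← Real.rpow_add_one hwpos.ne']
      congr 1
      ring
    have h3 : 0 < ‖w‖ ^ (-(1 / (q : ℝ)) - 1) := Real.rpow_pos_of_pos hwpos _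
    calc 2 * ‖w‖ ^ (-(1 / (q : ℝ)) - 1) * ‖J0 w - w‖
        ≤ 2 * ‖w‖ ^ (-(1 / (q : ℝ)) - 1) * (ε / 2 * ‖w‖) := by gcongr
      _ = ε * (‖w‖ ^ (-(1 / (q : ℝ)) - 1) * ‖w‖) := by ring
      _ = ε * ‖w‖ ^ (-(1 / (q : ℝ))) := by rw [h2]
  · intro R'
    set ρ : ℂ := X.ρ (mu ((p : ℝ) / q)) with hρ
    -- the logarithm is small compared with `‖ζ‖`
    have hlogs : ∃ A : ℝ, 1 ≤ A ∧ ∀ ζ : ℂ, A ≤ ‖ζ‖ → ‖ρ * Complex.log (-Complex.I * ζ)‖ ≤ ‖ζ‖ / 16 := by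
      have h1 : Tendsto (fun x : ℝ => Real.log x / x) atTop (𝓝 0) := by
        have h2 := Real.isLittleO_log_id_atTop.tendsto_div_nhds_zero
        exact h2
      have h3 : Tendsto (fun x : ℝ => Real.pi / x) atTop (𝓝 0) :=
        tendsto_const_nhds.div_atTop tendsto_id
      have h4 : Tendsto (fun x : ℝ => ‖ρ‖ * (Real.log x / x + Real.pi / x)) atTop (𝓝 (‖ρ‖ * (0 + 0))) :=
        (h1.add h3).const_mul _
      rw [add_zero, mul_zero] at h4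
      obtain ⟨A, hA⟩ := Filter.eventually_atTop.1 (h4.eventually (ge_mem_nhds (show (0 : ℝ) < 1 / 16 by norm_num)))
      refine ⟨max A 1, le_max_right _ _, ?_⟩
      intro ζ hζ
      have h5 : 1 ≤ ‖ζ‖ := (le_max_right _ _).trans hζ
      have h6 : 0 < ‖ζ‖ := by linarith
      have h7 := hA ‖ζ‖ ((le_max_left _ _).trans hζ)
      have h8 : ‖Complex.log (-Complex.I * ζ)‖ ≤ Real.log ‖ζ‖ + Real.pi := by
        have h9 := Complex.norm_le_abs_re_add_abs_im (Complex.log (-Complex.I * ζ))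
        rw [Complex.log_re, Complex.log_im, norm_mul, norm_neg, Complex.norm_I, one_mul,
          abs_of_nonneg (Real.log_nonneg h5)] at h9
        linarith [Complex.abs_arg_le_pi (-Complex.I * ζ)]
      rw [norm_mul]
      have h10 : ‖ρ‖ * (Real.log ‖ζ‖ / ‖ζ‖ + Real.pi / ‖ζ‖) * ‖ζ‖ = ‖ρ‖ * (Real.log ‖ζ‖ + Real.pi) := by
        field_simp
      calc ‖ρ‖ * ‖Complex.log (-Complex.I * ζ)‖ ≤ ‖ρ‖ * (Real.log ‖ζ‖ + Real.pi) := by gcongr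
        _ = ‖ρ‖ * (Real.log ‖ζ‖ / ‖ζ‖ + Real.pi / ‖ζ‖) * ‖ζ‖ := h10.symm
        _ ≤ 1 / 16 * ‖ζ‖ := mul_le_mul_of_nonneg_right h7 h6.le
        _ = ‖ζ‖ / 16 := by ring
    obtain ⟨A, hA1, hA⟩ := hlogs
    obtain ⟨r, hr, hr1, hlarge⟩ := G9c_large hq X (max A (2 * max R |R'| + 1))
    refine ⟨r, hr, ?_⟩
    intro z hz hzr hsheet
    have hYl := hlarge z hz hzr
    set ζ : ℂ := YX q (X.b (mu ((p : ℝ) / q))) (X.χ (mu ((p : ℝ) / q)) z) with hζdef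
    have hζA : A ≤ ‖ζ‖ := (le_max_left _ _).trans hYl
    have hζR : 2 * max R |R'| + 1 ≤ ‖ζ‖ := (le_max_right _ _).trans hYl
    have hζpos : 0 < ‖ζ‖ := by linarith
    have hζ0 : ζ ≠ 0 := norm_pos_iff.1 hζpos
    set w : ℂ := ζ - ρ * Complex.log (-Complex.I * ζ) with hwdef
    have hwζ : ‖w - ζ‖ ≤ ‖ζ‖ / 16 := by
      have e1 : w - ζ = -(ρ * Complex.log (-Complex.I * ζ)) := by
        rw [hwdef]
        ring
      rw [e1, norm_neg]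
      exact hA ζ hζA
    have hwn : 15 / 16 * ‖ζ‖ ≤ ‖w‖ := by
      have h1 : ‖ζ‖ ≤ ‖w‖ + ‖w - ζ‖ := by
        calc ‖ζ‖ = ‖w - (w - ζ)‖ := by rw [sub_sub_cancel]
          _ ≤ _ := norm_sub_le _ _
      linarith
    have hmax1 : R ≤ max R |R'| := le_max_left _ _
    have hmax2 : R' ≤ max R |R'| := (le_abs_self _).trans (le_max_right _ _)
    have hwR : max R |R'| < ‖w‖ := by linarith
    have hw : w ∈ Wd0 R := ⟨by linarith, G9c_sheet hsheet hζ0 hwζ⟩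
    have hJw : ζ = J0 w := by
      refine hJ.uniq w hw ζ ?_ ?_
      · rw [norm_sub_rev]
        linarith
      · rw [hwdef]
        ring
    -- the `q`-th root
    have hzr1 : ‖z‖ < X.r1 := lt_of_lt_of_le hzr hr1
    obtain ⟨hc1, hc2⟩ := G9c_chi X (z := z) (by linarith [X.r1_pos])
    have hχ0 : X.χ (mu ((p : ℝ) / q)) z ≠ 0 := by
      rw [← norm_pos_iff]
      linarith [norm_pos_iff.2 hz]
    have hb0 : X.b (mu ((p : ℝ) / q)) ≠ 0 := X.b_ne _ hl0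
    have hpow : ∀ x : ℂ, x ≠ 0 → YX q (X.b (mu ((p : ℝ) / q))) x = ζ →
        x ^ q = -1 / (q * X.b (mu ((p : ℝ) / q)) * ζ) := by
      intro x hx hY
      unfold YX at hY
      have hxq : x ^ q ≠ 0 := pow_ne_zero q hx
      rw [← hY]
      field_simp
    obtain ⟨hy1, hy2⟩ := YX_y0 hq X hκ 0 hζ0
    have h1 : X.χ (mu ((p : ℝ) / q)) z ^ q = y0 q κ0 0 ζ ^ q := by
      rw [hpow _ hχ0 hζdef.symm, hpow _ hy1 hy2]
    obtain ⟨j, hj⟩ := G9c_root hq hy1 h1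
    have h2 : X.χ (mu ((p : ℝ) / q)) z = y0 q κ0 j ζ := by
      rw [hj]
      unfold y0
      rw [Int.cast_zero, mul_zero, zero_div, Complex.exp_zero, mul_one]
      ring
    refine ⟨j, w, hw, by linarith, ?_⟩
    show X.η (mu ((p : ℝ) / q)) (y0 q κ0 j (J0 w)) = z
    rw [← hJw, ← h2]
    have h3 : ‖X.χ (mu ((p : ℝ) / q)) z‖ < X.r1 := by
      rw [h2]
      exact hyb j ζ (by linarith)
    have h3' : X.χ (mu ((p : ℝ) / q)) z ∈ ball (0 : ℂ) X.r1 := mem_ball_zero_iff.2 h3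
    have h4 := X.χ_η _ hl0 _ h3'
    have h5 := X.η_norm _ hl0 _ h3'
    have h6 := X.χ_near _ hl0 (X.η (mu ((p : ℝ) / q)) (X.χ (mu ((p : ℝ) / q)) z))
      (mem_ball_zero_iff.2 (by linarith [X.r1_pos])) z (mem_ball_zero_iff.2 (by linarith [X.r1_pos]))
    rw [h4, sub_self, zero_sub, norm_neg] at h6
    have h7 : ‖X.η (mu ((p : ℝ) / q)) (X.χ (mu ((p : ℝ) / q)) z) - z‖ = 0 := by
      linarith [norm_nonneg (X.η (mu ((p : ℝ) / q)) (X.χ (mu ((p : ℝ) / q)) z) - z)]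
    exact sub_eq_zero.1 (norm_eq_zero.1 h7)

theorem Y_facts {p q : ℕ} (hq : 0 < q) (X : NF p q) :
    (∀ ε : ℝ, 0 < ε → ∃ r : ℝ, 0 < r ∧ ∀ z : ℂ, z ≠ 0 → ‖z‖ < r →
      ‖YX q (X.b (mu ((p : ℝ) / q))) (X.χ (mu ((p : ℝ) / q)) (f (mu ((p : ℝ) / q)) z)) -
        YX q (X.b (mu ((p : ℝ) / q))) (X.χ (mu ((p : ℝ) / q)) z) - 1‖ ≤ ε) ∧
    (∀ A : ℝ, ∃ r : ℝ, 0 < r ∧ ∀ z : ℂ, z ≠ 0 → ‖z‖ < r →
      A ≤ ‖YX q (X.b (mu ((p : ℝ) / q))) (X.χ (mu ((p : ℝ) / q)) z)‖) := by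
  have hq' : (0 : ℝ) < q := by exact_mod_cast hq
  have hqC : (q : ℂ) ≠ 0 := by exact_mod_cast hq.ne'
  constructor
  · intro ε hε
    set ρ : ℂ := X.ρ (mu ((p : ℝ) / q)) with hρ
    obtain ⟨r, hr, hr1, hlarge⟩ := G9c_large hq X (max 1 ((‖ρ‖ + X.C) / ε))
    refine ⟨r, hr, ?_⟩
    intro z hz hzr
    have hY := hlarge z hz hzr
    obtain ⟨-, -, -, h1⟩ := X.step _ (G9c_l0 X) z hz (by linarith [X.r1_pos])
    have hl : mu ((p : ℝ) / q) ^ q = 1 := by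
      unfold mu
      rw [← Complex.exp_nat_mul]
      have e1 : (q : ℂ) * (2 * Real.pi * (((p : ℝ) / q : ℝ) : ℂ) * Complex.I) =
          (p : ℤ) * (2 * Real.pi * Complex.I) := by
        push_cast
        field_simp
      rw [e1, Complex.exp_int_mul_two_pi_mul_I]
    rw [hl, one_mul] at h1
    set Y : ℂ := YX q (X.b (mu ((p : ℝ) / q))) (X.χ (mu ((p : ℝ) / q)) z) with hYdef
    set Y' : ℂ := YX q (X.b (mu ((p : ℝ) / q)))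
      (X.χ (mu ((p : ℝ) / q)) (f (mu ((p : ℝ) / q)) z)) with hY'def
    have h2 : 1 ≤ ‖Y‖ := (le_max_left _ _).trans hY
    have h3 : (‖ρ‖ + X.C) / ε ≤ ‖Y‖ := (le_max_right _ _).trans hY
    have hYpos : 0 < ‖Y‖ := by linarith
    have h4 : ‖Y‖ ^ (-(1 + 1 / (q : ℝ))) ≤ ‖Y‖⁻¹ := by
      rw [← Real.rpow_neg_one]
      apply Real.rpow_le_rpow_of_exponent_le h2
      have : 0 ≤ 1 / (q : ℝ) := by positivity
      linarith
    have h5 : ‖Y' - Y - 1‖ ≤ ‖Y' - (Y + 1 + ρ / Y)‖ + ‖ρ / Y‖ := by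
      calc ‖Y' - Y - 1‖ = ‖(Y' - (Y + 1 + ρ / Y)) + ρ / Y‖ := by
            congr 1
            ring
        _ ≤ _ := norm_add_le _ _
    have h6 : X.C * ‖Y‖ ^ (-(1 + 1 / (q : ℝ))) ≤ X.C * ‖Y‖⁻¹ := mul_le_mul_of_nonneg_left h4 X.C_pos.le
    rw [norm_div] at h5
    rw [div_le_iff₀ hε] at h3
    have h7 : (‖ρ‖ + X.C) * ‖Y‖⁻¹ ≤ ε := by
      rw [← div_eq_mul_inv, div_le_iff₀ hYpos]
      linarith
    calc ‖Y' - Y - 1‖ ≤ X.C * ‖Y‖⁻¹ + ‖ρ‖ / ‖Y‖ := by linarith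
      _ = (‖ρ‖ + X.C) * ‖Y‖⁻¹ := by
        rw [div_eq_mul_inv]
        ring
      _ ≤ ε := h7
  · intro A
    obtain ⟨r, hr, -, hlarge⟩ := G9c_large hq X A
    exact ⟨r, hr, hlarge⟩

end Pool.Agent.CR.G
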