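import Pool.Agent.H48.CR.G4
import Pool.Agent.H48.CR.G8a
import Pool.Agent.H48.CR.G8b
import Pool.Agent.H48.CR.G8c
import Pool.Agent.H48.CR.G9b
import Pool.Agent.H48.CR.G9c

/-!
# CR G10: existence of the chart

`q s = p e + 1` implies `Nat.Coprime p q`; `X : NF p q` by `exists_NF`. `n N = qN q e N = q N + e → ∞`, `l N = lN p q s e N = mu (pN / qN)`, `pN/qN = p/q + 1/(q qN)` (as `q pN - p qN = q s - p e = 1`): `l N = mu (p/q) exp (2πi/(q n))`, `l N → mu (p/q)`.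
`kappa`: `β N = q b(l N) cn(n N) 2π/n N → β0 = -i q b0 ≠ 0` (`cn_lim`, `b_cont`); `κ0 = β0^(-1/q)` (principal power), `κ N = κ0 (β N/β0)^(-1/q)`; `β N/β0 → 1`, so `κ N → κ0`, and `κ N^q β N = 1`.
`R` = maximum of all constants `R1` (`exists_J`, `exists_J0` with `P` = bound of `ρ` on the compact ball, `WN_basic`, `dN_basic`, `WN_lim`, `dN_lim`, `W0f_basic`). `choose` `J N` for `N` large. `N0`: such that `100 R ≤ qN` and `Lev` for `N ≥ N0` (`l N ∈ closedBall`). (For `N < N0` the fields say nothing; put `J N = 0`.)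
Fields: `W N = WN ..`, `δ N = dN ..`, `W0 j = W0f .. j`, `δ0 j = d0f .. j`. `lim`, `δ_lim`: `CC.tlu` (`isOpen_Wd0`; mono to the open set `{w | w ∈ Wd0 R ∧ w + 1 ∈ Wi0 R}`). `diff0`, `δ0_diff`: `CC.differentiableOn`, `Wd0_ev`, `Wi0_ev`, `Wd_add`, `Wi_add`, `isOpen_Wd`, `isOpen_Wi`.
`small0`: limit of `small` (`dn_ev`: `r = ‖w‖ ≤ ‖w - k n‖` for all `k`, eventually; apply it at `w + j n` with `r = ‖w‖`). `δ0_small` the same. `map0`: limit `N → ∞` of `map` at `w + j n`: left side `f (l N) (W N (w + j n)) → f l0 (W0 j w)`; right side `W N ((w + 1 + δ N (w + j n)) + (j + p) n) → W0 (j + p) (w + 1 + δ0 j w)` (`CC` of `WN` at the point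
`w + 1 + δ0 j w ∈ Wd0 R`, `Wi0_Wd0`). Chart fields `X z = X.χ l0 z / κ0`, `Y0 z = YX q b0 (X.χ l0 z)`: `i / X^q = i κ0^q/χ^q = -1/(q b0 χ^q)` since `κ0^q = 1/(-i q b0) = i/(q b0)`. `Y0_W0`: `Y0 (W0 j w) = J0 w` and `IsJ0.asymp`.
-/

set_option autoImplicit false

open Set Filter Topology Metric

namespace Pool.Agent.CR

private theorem g10_n_lim {q e : ℕ} (hq : 0 < q) :
    Tendsto (fun N : ℕ => (qN q e N : ℝ)) atTop atTop := by
  apply tendsto_natCast_atTop_atTop.comp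
  refine tendsto_atTop_mono (fun N => ?_) tendsto_id
  unfold qN
  show N ≤ q * N + e
  nlinarith [Nat.zero_le N]

private theorem g10_ratio {p q s e : ℕ} (hq : 0 < q) (hs : q * s = p * e + 1) {N : ℕ}
    (hN : 0 < qN q e N) :
    (pN p s N : ℝ) / (qN q e N : ℝ) = (p : ℝ) / q + 1 / (q * (qN q e N : ℝ)) := by
  have h1 : (q : ℝ) * (pN p s N : ℝ) = p * (qN q e N : ℝ) + 1 := by
    have h2 : q * pN p s N = p * qN q e N + 1 := by
      unfold pN qN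
      calc q * (p * N + s) = p * (q * N) + q * s := by ring
        _ = p * (q * N + e) + 1 := by rw [hs]; ring
    exact_mod_cast h2
  have hq' : (0 : ℝ) < q := by exact_mod_cast hq
  have hn' : (0 : ℝ) < (qN q e N : ℝ) := by exact_mod_cast hN
  field_simp
  linarith

private theorem g10_l_eq {p q s e : ℕ} (hq : 0 < q) (hs : q * s = p * e + 1) {N : ℕ}
    (hN : 0 < qN q e N) :
    lN p q s e N = mu ((p : ℝ) / q) *
      Complex.exp (2 * Real.pi * Complex.I / (q * ((qN q e N : ℝ) : ℂ))) := by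
  unfold lN mu
  rw [g10_ratio hq hs hN, ← Complex.exp_add]
  congr 1
  push_cast
  ring

private theorem g10_l_lim {p q s e : ℕ} (hq : 0 < q) (hs : q * s = p * e + 1) :
    Tendsto (fun N => lN p q s e N) atTop (𝓝 (mu ((p : ℝ) / q))) := by
  have hn := g10_n_lim (e := e) hq
  have hpos : ∀ᶠ N in atTop, 0 < qN q e N := by
    filter_upwards [hn.eventually_gt_atTop 0] with N hN
    exact_mod_cast hN
  have h1 : Tendsto (fun N : ℕ => (p : ℝ) / q + 1 / (q * (qN q e N : ℝ))) atTop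
      (𝓝 ((p : ℝ) / q + 0)) := by
    refine tendsto_const_nhds.add ?_
    refine Tendsto.div_atTop tendsto_const_nhds ?_
    exact hn.const_mul_atTop (by exact_mod_cast hq)
  rw [add_zero] at h1
  have hc : Continuous mu := by unfold mu; fun_prop
  have h2 := (hc.tendsto ((p : ℝ) / q)).comp h1
  refine h2.congr' ?_
  filter_upwards [hpos] with N hN
  show mu ((p : ℝ) / q + 1 / (q * (qN q e N : ℝ))) = lN p q s e N
  unfold lN
  rw [g10_ratio hq hs hN]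

private theorem g10_ball {p q s e : ℕ} (hq : 0 < q) (hs : q * s = p * e + 1) (X : G.NF p q) :
    ∀ᶠ N in atTop, lN p q s e N ∈ closedBall (mu ((p : ℝ) / q)) X.r0 :=
  (g10_l_lim hq hs).eventually (closedBall_mem_nhds _ X.r0_pos)

private theorem g10_beta {p q s e : ℕ} (hq : 0 < q) (hs : q * s = p * e + 1) (X : G.NF p q) :
    Tendsto (fun N => (q : ℂ) * X.b (lN p q s e N) * G.cn (qN q e N : ℝ) *
      (2 * Real.pi / ((qN q e N : ℝ) : ℂ))) atTop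
      (𝓝 (q * X.b (mu ((p : ℝ) / q)) * -Complex.I)) := by
  have hn := g10_n_lim (e := e) hq
  have h1 := G.cn_lim hn
  have hmem : mu ((p : ℝ) / q) ∈ closedBall (mu ((p : ℝ) / q)) X.r0 :=
    mem_closedBall_self X.r0_pos.le
  have h2 : Tendsto (fun N => X.b (lN p q s e N)) atTop (𝓝 (X.b (mu ((p : ℝ) / q)))) := by
    have h3 := X.b_cont _ hmem
    exact h3.tendsto.comp (tendsto_nhdsWithin_iff.2 ⟨g10_l_lim hq hs, g10_ball hq hs X⟩)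
  have h4 := (h2.const_mul (q : ℂ)).mul h1
  refine h4.congr fun N => ?_
  push_cast
  ring

theorem G.kappa {p q s e : ℕ} (hp : 0 < p) (hpq : p < q) (hs : q * s = p * e + 1) (X : G.NF p q) :
    ∃ (κ : ℕ → ℂ) (κ0 : ℂ) (N0 : ℕ), Tendsto κ atTop (𝓝 κ0) ∧
      ∀ N ≥ N0, G.Lev X (qN q e N : ℝ) (lN p q s e N) (κ N) := by
  have hq : 0 < q := hp.trans hpq
  have hmem : mu ((p : ℝ) / q) ∈ closedBall (mu ((p : ℝ) / q)) X.r0 :=
    mem_closedBall_self X.r0_pos.le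
  have hb := g10_beta hq hs X
  set β : ℕ → ℂ := fun N => (q : ℂ) * X.b (lN p q s e N) * G.cn (qN q e N : ℝ) *
      (2 * Real.pi / ((qN q e N : ℝ) : ℂ)) with hβ
  set β0 : ℂ := q * X.b (mu ((p : ℝ) / q)) * -Complex.I with hβ0
  have hβ0ne : β0 ≠ 0 := by
    rw [hβ0]
    refine mul_ne_zero (mul_ne_zero ?_ (X.b_ne _ hmem)) (neg_ne_zero.2 Complex.I_ne_zero)
    exact_mod_cast hq.ne'
  have hβne : ∀ᶠ N in atTop, β N ≠ 0 := hb.eventually_ne hβ0ne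
  have hpos : ∀ᶠ N in atTop, 0 < qN q e N := by
    filter_upwards [(g10_n_lim (e := e) hq).eventually_gt_atTop 0] with N hN
    exact_mod_cast hN
  obtain ⟨N0, hN0⟩ := Filter.eventually_atTop.1 ((hβne.and hpos).and (g10_ball hq hs X))
  refine ⟨fun N => (β0⁻¹) ^ ((q : ℂ)⁻¹) * (β0 / β N) ^ ((q : ℂ)⁻¹), (β0⁻¹) ^ ((q : ℂ)⁻¹), N0,
    ?_, fun N hN => ?_⟩
  · have h1 : Tendsto (fun N => β0 / β N) atTop (𝓝 1) := by
      have := (tendsto_const_nhds (x := β0)).div hb hβ0ne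
      rwa [div_self hβ0ne] at this
    have h2 : Tendsto (fun N => (β0 / β N) ^ ((q : ℂ)⁻¹)) atTop (𝓝 ((1 : ℂ) ^ ((q : ℂ)⁻¹))) := by
      exact Tendsto.comp (g := fun z : ℂ => z ^ ((q : ℂ)⁻¹))
        (continuousAt_cpow_const (by simp [Complex.slitPlane])).tendsto h1
    rw [Complex.one_cpow] at h2
    have h3 := h2.const_mul ((β0⁻¹) ^ ((q : ℂ)⁻¹))
    rwa [mul_one] at h3
  · obtain ⟨⟨hne, hpN⟩, hball⟩ := hN0 N hN
    refine ⟨hball, g10_l_eq hq hs hpN, ?_⟩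
    show ((β0⁻¹) ^ ((q : ℂ)⁻¹) * (β0 / β N) ^ ((q : ℂ)⁻¹)) ^ q * β N = 1
    rw [mul_pow, Complex.cpow_nat_inv_pow _ hq.ne', Complex.cpow_nat_inv_pow _ hq.ne']
    field_simp

/-- All data of the construction. -/
private structure G10Data {p q : ℕ} (s e : ℕ) (X : G.NF p q) where
  R : ℝ
  C : ℝ
  N0 : ℕ
  κ : ℕ → ℂ
  κ0 : ℂ
  J : ℕ → ℂ → ℂ
  J0 : ℂ → ℂ
  R_ge : 4 ≤ R
  C_pos : 0 < C
  n_ge : ∀ N ≥ N0, 100 * R ≤ (qN q e N : ℝ)
  sd : G.SeqData X R (fun N => (qN q e N : ℝ)) (lN p q s e) κ κ0 J J0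
  lev : ∀ N ≥ N0, G.Lev X (qN q e N : ℝ) (lN p q s e N) (κ N)
  isJ : ∀ N ≥ N0, G.IsJ (qN q e N : ℝ) (X.ρ (lN p q s e N)) R (J N)
  w1 : ∀ N ≥ N0, DifferentiableOn ℂ (G.WN X (qN q e N : ℝ) (lN p q s e N) (κ N) (J N))
    (Wd (qN q e N) R)
  w2 : ∀ N ≥ N0, ∀ w ∈ Wd (qN q e N) R,
    G.WN X (qN q e N : ℝ) (lN p q s e N) (κ N) (J N) (w + q * ((qN q e N : ℝ) : ℂ)) =
      G.WN X (qN q e N : ℝ) (lN p q s e N) (κ N) (J N) w
  w3 : ∀ N ≥ N0, ∀ w ∈ Wd (qN q e N) R, ∀ w' ∈ Wd (qN q e N) R,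
    G.WN X (qN q e N : ℝ) (lN p q s e N) (κ N) (J N) w =
      G.WN X (qN q e N : ℝ) (lN p q s e N) (κ N) (J N) w' →
      ∃ k : ℤ, w' = w + k * (q * ((qN q e N : ℝ) : ℂ))
  w4 : ∀ N ≥ N0, ∀ w ∈ Wd (qN q e N) R,
    G.WN X (qN q e N : ℝ) (lN p q s e N) (κ N) (J N) w ≠ 0
  w5 : ∀ N ≥ N0, ∀ w ∈ Wd (qN q e N) R, ∀ r : ℝ, R ≤ r →
    (∀ k : ℤ, r ≤ ‖w - k * ((qN q e N : ℝ) : ℂ)‖) →
      ‖G.WN X (qN q e N : ℝ) (lN p q s e N) (κ N) (J N) w‖ ≤ C * r ^ (-(1 / (q : ℝ)))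
  d1 : ∀ N ≥ N0, DifferentiableOn ℂ (G.dN X (qN q e N : ℝ) (lN p q s e N) (κ N) (J N))
    {w | w ∈ Wd (qN q e N) R ∧ w + 1 ∈ Wi (qN q e N) R}
  d2 : ∀ N ≥ N0, ∀ w ∈ Wd (qN q e N) R, w + 1 ∈ Wi (qN q e N) R →
    ‖G.dN X (qN q e N : ℝ) (lN p q s e N) (κ N) (J N) w‖ ≤ 1 / 8
  d3 : ∀ N ≥ N0, ∀ w ∈ Wd (qN q e N) R, w + 1 ∈ Wi (qN q e N) R → ∀ r : ℝ, R ≤ r →
    (∀ k : ℤ, r ≤ ‖w - k * ((qN q e N : ℝ) : ℂ)‖) →
      ‖G.dN X (qN q e N : ℝ) (lN p q s e N) (κ N) (J N) w‖ ≤ C * r ^ (-(1 + 1 / (q : ℝ)))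
  d4 : ∀ N ≥ N0, ∀ w ∈ Wd (qN q e N) R, w + 1 ∈ Wi (qN q e N) R →
    f (lN p q s e N) (G.WN X (qN q e N : ℝ) (lN p q s e N) (κ N) (J N) w) =
      G.WN X (qN q e N : ℝ) (lN p q s e N) (κ N) (J N)
        (w + p * ((qN q e N : ℝ) : ℂ) + 1 +
          G.dN X (qN q e N : ℝ) (lN p q s e N) (κ N) (J N) w)
  l1 : ∀ j : ℤ, G.CC (fun N w => G.WN X (qN q e N : ℝ) (lN p q s e N) (κ N) (J N)
    (w + j * ((qN q e N : ℝ) : ℂ))) (G.W0f X κ0 J0 j) (Wd0 R)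
  l2 : ∀ j : ℤ, G.CC (fun N w => G.dN X (qN q e N : ℝ) (lN p q s e N) (κ N) (J N)
    (w + j * ((qN q e N : ℝ) : ℂ))) (G.d0f X κ0 J0 j) (Wd0 R)
  b1 : ∀ (j : ℤ) (w : ℂ), G.W0f X κ0 J0 (j + q) w = G.W0f X κ0 J0 j w
  b2 : ∀ (j : ℤ), ∀ w ∈ Wd0 R, G.W0f X κ0 J0 j w ≠ 0 ∧
    X.χ (mu ((p : ℝ) / q)) (G.W0f X κ0 J0 j w) = G.y0 q κ0 j (J0 w) ∧
    G.YX q (X.b (mu ((p : ℝ) / q))) (X.χ (mu ((p : ℝ) / q)) (G.W0f X κ0 J0 j w)) = J0 w
  b3 : ∀ (j j' : ℤ), ∀ w ∈ Wd0 R, ∀ w' ∈ Wd0 R, G.W0f X κ0 J0 j w = G.W0f X κ0 J0 j' w' →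
    w = w' ∧ ∃ k : ℤ, j' = j + k * q
  b4 : ∀ ε : ℝ, 0 < ε → ∃ R' : ℝ, ∀ (j : ℤ), ∀ w ∈ Wd0 R, R' < ‖w‖ →
    ‖X.χ (mu ((p : ℝ) / q)) (G.W0f X κ0 J0 j w) / κ0 -
      Complex.exp (2 * Real.pi * Complex.I * j / q) * (-Complex.I * w) ^ (-(1 / (q : ℂ)))‖ ≤
        ε * ‖w‖ ^ (-(1 / (q : ℝ)))
  b5 : ∀ R' : ℝ, ∃ r : ℝ, 0 < r ∧ ∀ z : ℂ, z ≠ 0 → ‖z‖ < r →
    -(G.YX q (X.b (mu ((p : ℝ) / q))) (X.χ (mu ((p : ℝ) / q)) z)).im <
      |(G.YX q (X.b (mu ((p : ℝ) / q))) (X.χ (mu ((p : ℝ) / q)) z)).re| / 2 →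
    ∃ (j : ℤ) (w : ℂ), w ∈ Wd0 R ∧ R' < ‖w‖ ∧ G.W0f X κ0 J0 j w = z

private theorem g10_data {p q s e : ℕ} (hp : 0 < p) (hpq : p < q) (hs : q * s = p * e + 1)
    (X : G.NF p q) : Nonempty (G10Data s e X) := by
  classical
  have hq : 0 < q := hp.trans hpq
  have hmem : mu ((p : ℝ) / q) ∈ closedBall (mu ((p : ℝ) / q)) X.r0 :=
    mem_closedBall_self X.r0_pos.le
  obtain ⟨κ, κ0, N1, hκ, hlev⟩ := G.kappa hp hpq hs X
  obtain ⟨P, hP⟩ := (isCompact_closedBall (mu ((p : ℝ) / q)) X.r0).exists_bound_of_continuousOn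
    X.ρ_cont
  obtain ⟨Ra, hRa4, hRa⟩ := G.exists_J P
  obtain ⟨Rb, hRb4, hRb⟩ := G.exists_J0 P
  obtain ⟨Rc, hRc4, hRc⟩ := G.WN_basic hq X
  obtain ⟨Rd, hRd4, hRd⟩ := G.dN_basic hq X
  obtain ⟨Re, hRe4, hRe⟩ := G.WN_lim hq X
  obtain ⟨Rf, hRf4, hRf⟩ := G.dN_lim hq X
  obtain ⟨Rg, hRg4, hRg⟩ := G.W0f_basic hq X
  set R : ℝ := max Ra (max Rb (max Rc (max Rd (max Re (max Rf Rg))))) with hR
  have ha : Ra ≤ R := le_max_left _ _
  have hb : Rb ≤ R := (le_max_left _ _).trans (le_max_right _ _)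
  have hc : Rc ≤ R := (le_max_left _ _).trans ((le_max_right _ _).trans (le_max_right _ _))
  have hd : Rd ≤ R := (le_max_left _ _).trans
    ((le_max_right _ _).trans ((le_max_right _ _).trans (le_max_right _ _)))
  have he : Re ≤ R := (le_max_left _ _).trans
    ((le_max_right _ _).trans ((le_max_right _ _).trans ((le_max_right _ _).trans
      (le_max_right _ _))))
  have hf : Rf ≤ R := (le_max_left _ _).trans
    ((le_max_right _ _).trans ((le_max_right _ _).trans ((le_max_right _ _).trans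
      ((le_max_right _ _).trans (le_max_right _ _)))))
  have hg : Rg ≤ R := (le_max_right _ _).trans
    ((le_max_right _ _).trans ((le_max_right _ _).trans ((le_max_right _ _).trans
      ((le_max_right _ _).trans (le_max_right _ _)))))
  clear_value R
  have hR4 : 4 ≤ R := hRa4.trans ha
  obtain ⟨C1, hC1, hW⟩ := hRc R hc
  obtain ⟨C2, hC2, hD⟩ := hRd R hd
  have hn := g10_n_lim (e := e) hq
  obtain ⟨N2, hN2⟩ := Filter.eventually_atTop.1 (hn.eventually_ge_atTop (100 * R))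
  set N0 := max N1 N2 with hN0
  have hnR : ∀ N ≥ N0, 100 * R ≤ (qN q e N : ℝ) := fun N hN =>
    hN2 N ((le_max_right _ _).trans hN)
  have hlev' : ∀ N ≥ N0, G.Lev X (qN q e N : ℝ) (lN p q s e N) (κ N) := fun N hN =>
    hlev N ((le_max_left _ _).trans hN)
  have hRn : ∀ N ≥ N0, R ≤ (qN q e N : ℝ) := fun N hN => by
    have := hnR N hN
    linarith
  have hJex : ∀ N ≥ N0, ∃ J : ℂ → ℂ, G.IsJ (qN q e N : ℝ) (X.ρ (lN p q s e N)) R J := fun N hN =>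
    hRa R ha _ (hRn N hN) _ (hP _ (hlev' N hN).mem)
  let J : ℕ → ℂ → ℂ := fun N => if h : N ≥ N0 then (hJex N h).choose else 0
  have hJ : ∀ N ≥ N0, G.IsJ (qN q e N : ℝ) (X.ρ (lN p q s e N)) R (J N) := by
    intro N hN
    have : J N = (hJex N hN).choose := dif_pos hN
    rw [this]
    exact (hJex N hN).choose_spec
  obtain ⟨J0, hJ0⟩ := hRb R hb (X.ρ (mu ((p : ℝ) / q))) (hP _ hmem)
  have sd : G.SeqData X R (fun N => (qN q e N : ℝ)) (lN p q s e) κ κ0 J J0 :=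
    { n_lim := hn
      l_lim := g10_l_lim hq hs
      κ_lim := hκ
      lev := Filter.eventually_atTop.2 ⟨N0, hlev'⟩
      isJ := Filter.eventually_atTop.2 ⟨N0, hJ⟩
      isJ0 := hJ0 }
  obtain ⟨hb1, hb2, hb3, hb4, hb5⟩ := hRg R hg κ0 J0 sd.κ0_eq hJ0
  have hpow : ∀ (C' : ℝ) (r a : ℝ), C' ≤ max C1 C2 → R ≤ r → C' * r ^ a ≤ max C1 C2 * r ^ a := by
    intro C' r a hC' hr
    exact mul_le_mul_of_nonneg_right hC' (Real.rpow_nonneg (by linarith) _)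
  exact ⟨{
    R := R
    C := max C1 C2
    N0 := N0
    κ := κ
    κ0 := κ0
    J := J
    J0 := J0
    R_ge := hR4
    C_pos := lt_max_of_lt_left hC1
    n_ge := hnR
    sd := sd
    lev := hlev'
    isJ := hJ
    w1 := fun N hN => (hW _ (hRn N hN) _ _ _ (hlev' N hN) (hJ N hN)).1
    w2 := fun N hN => (hW _ (hRn N hN) _ _ _ (hlev' N hN) (hJ N hN)).2.1
    w3 := fun N hN => (hW _ (hRn N hN) _ _ _ (hlev' N hN) (hJ N hN)).2.2.1
    w4 := fun N hN => (hW _ (hRn N hN) _ _ _ (hlev' N hN) (hJ N hN)).2.2.2.1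
    w5 := fun N hN w hw r hr hk =>
      ((hW _ (hRn N hN) _ _ _ (hlev' N hN) (hJ N hN)).2.2.2.2 w hw r hr hk).trans
        (hpow _ _ _ (le_max_left _ _) hr)
    d1 := fun N hN => (hD _ (hRn N hN) _ _ _ (hlev' N hN) (hJ N hN)).1
    d2 := fun N hN w hw hw1 => ((hD _ (hRn N hN) _ _ _ (hlev' N hN) (hJ N hN)).2 w hw hw1).1
    d3 := fun N hN w hw hw1 r hr hk =>
      (((hD _ (hRn N hN) _ _ _ (hlev' N hN) (hJ N hN)).2 w hw hw1).2.1 r hr hk).trans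
        (hpow _ _ _ (le_max_right _ _) hr)
    d4 := fun N hN w hw hw1 => ((hD _ (hRn N hN) _ _ _ (hlev' N hN) (hJ N hN)).2 w hw hw1).2.2
    l1 := hRe R he _ _ _ _ _ _ sd
    l2 := hRf R hf _ _ _ _ _ _ sd
    b1 := hb1
    b2 := hb2
    b3 := hb3
    b4 := hb4
    b5 := hb5 }⟩

private theorem g10_isOpen_dom (R : ℝ) : IsOpen {w : ℂ | w ∈ Wd0 R ∧ w + 1 ∈ Wi0 R} := by
  have h1 : Continuous fun w : ℂ => w + 1 := by fun_prop
  exact (G.isOpen_Wd0 R).inter ((G.isOpen_Wi0 R).preimage h1)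

private theorem g10_isOpen_domN {n : ℝ} (hn : 0 < n) (R : ℝ) :
    IsOpen {w : ℂ | w ∈ Wd n R ∧ w + 1 ∈ Wi n R} := by
  have h1 : Continuous fun w : ℂ => w + 1 := by fun_prop
  exact (G.isOpen_Wd hn R).inter ((G.isOpen_Wi hn R).preimage h1)

private theorem g10_comp {F : ℂ → ℂ} {c w : ℂ} (h : DifferentiableAt ℂ F (w + c)) :
    DifferentiableAt ℂ (fun w => F (w + c)) w :=
  DifferentiableAt.comp (g := F) (f := fun w => w + c) w h (by fun_prop)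

/-- The points `w + j n` for `w` near a point of the limit domain. -/
private theorem g10_ev {q e : ℕ} (hq : 0 < q) (j : ℤ) (w : ℂ) :
    ∀ᶠ x : ℕ × ℂ in atTop ×ˢ 𝓝 w, ∀ k : ℤ,
      ‖x.2‖ ≤ ‖x.2 + j * ((qN q e x.1 : ℝ) : ℂ) - k * ((qN q e x.1 : ℝ) : ℂ)‖ := by
  have hn := g10_n_lim (e := e) hq
  have h0 : ∀ᶠ x : ℕ × ℂ in atTop ×ˢ 𝓝 w, (0 : ℝ) < (qN q e x.1 : ℝ) :=
    (hn.eventually_gt_atTop 0).prod_inl _
  filter_upwards [G.dn_ev hn w, h0] with x hx hx0 k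
  have h1 := G.dn_le hx0 x.2 (k - j)
  rw [hx] at h1
  refine h1.trans (le_of_eq ?_)
  congr 1
  push_cast
  ring

private theorem g10_tendsto {F : ℕ → ℂ → ℂ} {G' : ℂ → ℂ} {U : Set ℂ} (h : G.CC F G' U) {w : ℂ}
    (hw : w ∈ U) : Tendsto (fun N => F N w) atTop (𝓝 (G' w)) :=
  (h w hw).comp (tendsto_id.prodMk tendsto_const_nhds)

private theorem g10_ev_fix {w : ℂ} {Pr : ℕ × ℂ → Prop}
    (h : ∀ᶠ x : ℕ × ℂ in atTop ×ˢ 𝓝 w, Pr x) : ∀ᶠ N : ℕ in atTop, Pr (N, w) := by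
  have h1 : Tendsto (fun N : ℕ => (N, w)) atTop (atTop ×ˢ 𝓝 w) :=
    tendsto_id.prodMk tendsto_const_nhds
  exact h1.eventually h

section

variable {p q s e : ℕ} {X : G.NF p q}

private theorem G10Data.pos (D : G10Data s e X) {N : ℕ} (hN : N ≥ D.N0) :
    (0 : ℝ) < (qN q e N : ℝ) := by
  have := D.n_ge N hN
  have := D.R_ge
  linarith

private theorem G10Data.ge_ev (D : G10Data s e X) (w : ℂ) :
    ∀ᶠ x : ℕ × ℂ in atTop ×ˢ 𝓝 w, x.1 ≥ D.N0 :=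
  (Filter.eventually_ge_atTop D.N0).prod_inl _

private theorem G10Data.diff0 (D : G10Data s e X) (j : ℤ) :
    DifferentiableOn ℂ (G.W0f X D.κ0 D.J0 j) (Wd0 D.R) := by
  refine (D.l1 j).differentiableOn (G.isOpen_Wd0 _) fun w hw => ?_
  filter_upwards [G.Wd0_ev D.sd.n_lim hw, D.ge_ev w] with x hx hN
  have h1 := G.Wd_add hx j
  have h2 := (D.w1 x.1 hN).differentiableAt ((G.isOpen_Wd (D.pos hN) D.R).mem_nhds h1)
  exact g10_comp h2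

private theorem G10Data.δ0_diff (D : G10Data s e X) (j : ℤ) :
    DifferentiableOn ℂ (G.d0f X D.κ0 D.J0 j) {w | w ∈ Wd0 D.R ∧ w + 1 ∈ Wi0 D.R} := by
  refine ((D.l2 j).mono fun w hw => hw.1).differentiableOn (g10_isOpen_dom _) fun w hw => ?_
  have ht : Tendsto (fun x : ℕ × ℂ => (x.1, x.2 + 1)) (atTop ×ˢ 𝓝 w) (atTop ×ˢ 𝓝 (w + 1)) := by
    refine Tendsto.prodMk tendsto_fst ?_
    exact ((continuous_id.add continuous_const).tendsto w).comp tendsto_snd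
  filter_upwards [G.Wd0_ev D.sd.n_lim hw.1, ht.eventually (G.Wi0_ev D.sd.n_lim hw.2),
    D.ge_ev w] with x hx hx1 hN
  have h1 := G.Wd_add hx j
  have h2 := G.Wi_add hx1 j
  have h3 : x.2 + j * ((qN q e x.1 : ℝ) : ℂ) + 1 ∈ Wi (qN q e x.1) D.R := by
    have e1 : x.2 + j * ((qN q e x.1 : ℝ) : ℂ) + 1 = x.2 + 1 + j * ((qN q e x.1 : ℝ) : ℂ) := by ring
    rw [e1]
    exact h2
  have h4 := (D.d1 x.1 hN).differentiableAt ((g10_isOpen_domN (D.pos hN) D.R).mem_nhds ⟨h1, h3⟩)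
  exact g10_comp h4

private theorem G10Data.small0 (D : G10Data s e X) (hq : 0 < q) (j : ℤ) {w : ℂ} (hw : w ∈ Wd0 D.R) :
    ‖G.W0f X D.κ0 D.J0 j w‖ ≤ D.C * ‖w‖ ^ (-(1 / (q : ℝ))) := by
  refine le_of_tendsto (g10_tendsto (D.l1 j) hw).norm ?_
  filter_upwards [g10_ev_fix (G.Wd0_ev D.sd.n_lim hw), g10_ev_fix (g10_ev (e := e) hq j w),
    Filter.eventually_ge_atTop D.N0] with N h1 h2 hN
  exact D.w5 N hN _ (G.Wd_add h1 j) _ hw.1.le h2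

private theorem G10Data.inner (D : G10Data s e X) (j : ℤ) {w : ℂ} (hw : w ∈ Wd0 D.R)
    (hw1 : w + 1 ∈ Wi0 D.R) : ∀ᶠ N : ℕ in atTop,
      w + j * ((qN q e N : ℝ) : ℂ) ∈ Wd (qN q e N) D.R ∧
      w + j * ((qN q e N : ℝ) : ℂ) + 1 ∈ Wi (qN q e N) D.R := by
  filter_upwards [g10_ev_fix (G.Wd0_ev D.sd.n_lim hw), g10_ev_fix (G.Wi0_ev D.sd.n_lim hw1)]
    with N h1 h2
  refine ⟨G.Wd_add h1 j, ?_⟩
  have e1 : w + j * ((qN q e N : ℝ) : ℂ) + 1 = w + 1 + j * ((qN q e N : ℝ) : ℂ) := by ring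
  rw [e1]
  exact G.Wi_add h2 j

private theorem G10Data.δ0_small (D : G10Data s e X) (hq : 0 < q) (j : ℤ) {w : ℂ}
    (hw : w ∈ Wd0 D.R) (hw1 : w + 1 ∈ Wi0 D.R) :
    ‖G.d0f X D.κ0 D.J0 j w‖ ≤ 1 / 8 ∧
      ‖G.d0f X D.κ0 D.J0 j w‖ ≤ D.C * ‖w‖ ^ (-(1 + 1 / (q : ℝ))) := by
  constructor
  · refine le_of_tendsto (g10_tendsto (D.l2 j) hw).norm ?_
    filter_upwards [D.inner j hw hw1, Filter.eventually_ge_atTop D.N0] with N h1 hN
    exact D.d2 N hN _ h1.1 h1.2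
  · refine le_of_tendsto (g10_tendsto (D.l2 j) hw).norm ?_
    filter_upwards [D.inner j hw hw1, g10_ev_fix (g10_ev (e := e) hq j w),
      Filter.eventually_ge_atTop D.N0] with N h1 h2 hN
    exact D.d3 N hN _ h1.1 h1.2 _ hw.1.le h2

private theorem G10Data.map0 (D : G10Data s e X) (hq : 0 < q) (j : ℤ) {w : ℂ}
    (hw : w ∈ Wd0 D.R) (hw1 : w + 1 ∈ Wi0 D.R) :
    f (mu ((p : ℝ) / q)) (G.W0f X D.κ0 D.J0 j w) =
      G.W0f X D.κ0 D.J0 (j + p) (w + 1 + G.d0f X D.κ0 D.J0 j w) := by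
  have hδ := (D.δ0_small hq j hw hw1).1
  have hw2 : w + 1 + G.d0f X D.κ0 D.J0 j w ∈ Wd0 D.R := by
    refine G.Wi0_Wd0 D.R_ge hw1 ?_
    have e1 : w + 1 + G.d0f X D.κ0 D.J0 j w - (w + 1) = G.d0f X D.κ0 D.J0 j w := by ring
    rw [e1]
    exact hδ
  have hl : Tendsto (fun N => f (lN p q s e N) (G.WN X (qN q e N : ℝ) (lN p q s e N) (D.κ N) (D.J N)
      (w + j * ((qN q e N : ℝ) : ℂ)))) atTop
      (𝓝 (f (mu ((p : ℝ) / q)) (G.W0f X D.κ0 D.J0 j w))) := by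
    have h1 := g10_tendsto (D.l1 j) hw
    have h2 := D.sd.l_lim
    exact (h1.pow 2).add (h2.mul h1)
  have ht : Tendsto (fun N => (N, w + 1 + G.dN X (qN q e N : ℝ) (lN p q s e N) (D.κ N) (D.J N)
      (w + j * ((qN q e N : ℝ) : ℂ)))) atTop (atTop ×ˢ 𝓝 (w + 1 + G.d0f X D.κ0 D.J0 j w)) := by
    refine Tendsto.prodMk tendsto_id ?_
    exact tendsto_const_nhds.add (g10_tendsto (D.l2 j) hw)
  have hr := (D.l1 (j + p) _ hw2).comp ht
  refine tendsto_nhds_unique hl (hr.congr' ?_)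
  filter_upwards [D.inner j hw hw1, Filter.eventually_ge_atTop D.N0] with N h1 hN
  rw [D.d4 N hN _ h1.1 h1.2]
  show G.WN X (qN q e N : ℝ) (lN p q s e N) (D.κ N) (D.J N) (w + 1 + _ + ((j + p : ℤ) : ℂ) * _) = _
  congr 1
  push_cast
  ring

end

theorem exists_chart {p q s e : ℕ} (hp : 0 < p) (hpq : p < q) (hs : q * s = p * e + 1) :
    Nonempty (Chart p q s e) := by
  have hq : 0 < q := hp.trans hpq
  have hc : Nat.Coprime p q := by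
    refine Nat.Coprime.symm (Nat.isCoprime_iff_coprime.1 ⟨s, -e, ?_⟩)
    have : (q : ℤ) * s = p * e + 1 := by exact_mod_cast hs
    linarith
  obtain ⟨X⟩ := G.exists_NF hp hpq hc
  obtain ⟨D⟩ := g10_data hp hpq hs X
  have hmem : mu ((p : ℝ) / q) ∈ closedBall (mu ((p : ℝ) / q)) X.r0 :=
    mem_closedBall_self X.r0_pos.le
  have hκ := D.sd.κ0_eq
  have hκne : D.κ0 ≠ 0 := by
    intro h
    rw [h, zero_pow hq.ne', zero_mul] at hκ
    exact zero_ne_one hκ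
  have hbne : X.b (mu ((p : ℝ) / q)) ≠ 0 := X.b_ne _ hmem
  have hqne : (q : ℂ) ≠ 0 := by exact_mod_cast hq.ne'
  obtain ⟨hY1, hY2⟩ := G.Y_facts hq X
  have hcast : ∀ N, ((qN q e N : ℝ) : ℂ) = (qN q e N : ℂ) := fun N => Complex.ofReal_natCast _
  refine ⟨{
    R := D.R
    C := D.C
    N0 := D.N0
    W := fun N => G.WN X (qN q e N : ℝ) (lN p q s e N) (D.κ N) (D.J N)
    δ := fun N => G.dN X (qN q e N : ℝ) (lN p q s e N) (D.κ N) (D.J N)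
    W0 := G.W0f X D.κ0 D.J0
    δ0 := G.d0f X D.κ0 D.J0
    R_ge := D.R_ge
    C_pos := D.C_pos
    n_ge := D.n_ge
    diff := D.w1
    per := ?_
    inj := ?_
    ne_zero := D.w4
    small := ?_
    δ_diff := D.d1
    δ_small := ?_
    map := ?_
    topc := ?_
    lim := ?_
    δ_lim := ?_
    diff0 := D.diff0
    per0 := D.b1
    inj0 := D.b3
    ne_zero0 := fun j w hw => (D.b2 j w hw).1
    small0 := fun j w hw => D.small0 hq j hw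
    δ0_diff := D.δ0_diff
    δ0_small := fun j w hw hw1 => D.δ0_small hq j hw hw1
    map0 := fun j w hw hw1 => D.map0 hq j hw hw1
    X := fun z => X.χ (mu ((p : ℝ) / q)) z / D.κ0
    X_an := ?_
    X_zero := ?_
    X_deriv := ?_
    X_W0 := D.b4
    Y0 := fun z => G.YX q (X.b (mu ((p : ℝ) / q))) (X.χ (mu ((p : ℝ) / q)) z)
    Y0_eq := ?_
    Y0_map := hY1
    Y0_large := hY2
    Y0_surj := D.b5
    Y0_W0 := ?_ }⟩
  · intro N hN w hw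
    rw [← hcast]
    exact D.w2 N hN w hw
  · intro N hN w hw w' hw' h
    rw [← hcast]
    exact D.w3 N hN w hw w' hw' h
  · intro N hN w hw r hr hk
    rw [← hcast] at hk
    exact D.w5 N hN w hw r hr hk
  · intro N hN w hw hw1
    refine ⟨D.d2 N hN w hw hw1, fun r hr hk => ?_⟩
    rw [← hcast] at hk
    exact D.d3 N hN w hw hw1 r hr hk
  · intro N hN w hw hw1
    rw [← hcast]
    exact D.d4 N hN w hw hw1
  · intro N hN
    rw [← hcast]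
    have := D.n_ge N hN
    have := D.R_ge
    exact G.WN_top hq X D.R_ge (by linarith) (D.lev N hN) (D.isJ N hN)
  · intro j
    have h1 := (D.l1 j).tlu (G.isOpen_Wd0 D.R)
    simp only [hcast] at h1 ⊢
    exact h1
  · intro j
    have h1 := ((D.l2 j).mono fun w (hw : w ∈ {w : ℂ | w ∈ Wd0 D.R ∧ w + 1 ∈ Wi0 D.R}) => hw.1).tlu
      (g10_isOpen_dom D.R)
    simp only [hcast] at h1 ⊢
    exact h1
  · exact ((X.χ_diff _ hmem).analyticAt 0).div analyticAt_const hκne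
  · show X.χ (mu ((p : ℝ) / q)) 0 / D.κ0 = 0
    rw [X.χ_zero _ hmem, zero_div]
  · rw [deriv_div_const, X.χ_deriv _ hmem]
    exact div_ne_zero one_ne_zero hκne
  · refine ⟨2 * X.r1, by have := X.r1_pos; linarith, fun z hz hzr => ?_⟩
    have h1 := (X.step _ hmem z hz hzr).1
    refine ⟨div_ne_zero h1 hκne, ?_⟩
    show G.YX q (X.b (mu ((p : ℝ) / q))) (X.χ (mu ((p : ℝ) / q)) z) =
      Complex.I / (X.χ (mu ((p : ℝ) / q)) z / D.κ0) ^ q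
    unfold G.YX
    have h2 : D.κ0 ^ q = Complex.I / (q * X.b (mu ((p : ℝ) / q))) := by
      rw [eq_div_iff (mul_ne_zero hqne hbne)]
      have h3 : Complex.I * (D.κ0 ^ q * (-Complex.I * q * X.b (mu ((p : ℝ) / q)))) =
          D.κ0 ^ q * (q * X.b (mu ((p : ℝ) / q))) * -(Complex.I * Complex.I) := by ring
      rw [hκ, mul_one, Complex.I_mul_I, neg_neg, mul_one] at h3
      exact h3.symm
    have hχ : X.χ (mu ((p : ℝ) / q)) z ^ q ≠ 0 := pow_ne_zero _ h1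
    rw [div_pow, h2]
    field_simp
    rw [Complex.I_sq]
  · intro ε hε
    obtain ⟨R', hR'⟩ := D.sd.isJ0.asymp (by have := D.R_ge; linarith) ε hε
    refine ⟨R', fun j w hw hwR => ?_⟩
    show ‖G.YX q (X.b (mu ((p : ℝ) / q))) (X.χ (mu ((p : ℝ) / q)) (G.W0f X D.κ0 D.J0 j w)) - w‖ ≤ _
    rw [(D.b2 j w hw).2.2]
    exact hR' w hw hwR

end Pool.Agent.CR
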