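import Pool.Agent.H48.CR.GDefs
import Pool.Agent.H48.CR.G1

/-!
# CR G2: uniform normal form

Apply `normal_form` to the ring `R = C(K, ℂ)` of continuous functions on the compact space `K = closedBall l0 r` (as a type), `Λ = ` the inclusion `K → ℂ`. Choose `r ≤ 1/2` so small that `l ≠ 0` and
`l^k ≠ 1` (`1 ≤ k ≤ 2 q - 1`, `k ≠ q`) for `‖l - l0‖ ≤ r`: these continuous functions without zeros are units of `C(K, ℂ)`. Evaluation at `l ∈ K` is a ring homomorphism `C(K, ℂ) → ℂ`;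
`χ l z` = the evaluation of `χ.map (eval l)` at `z` for `l ∈ K` (and anything outside, e.g. `z`). The coefficients of `χ`, of `(χ - X) / X^2` and of the quotient by `X^(2q+2)` are continuous on the compact `K`, hence bounded.
-/

set_option autoImplicit false

open Set Filter Topology Metric

namespace Pool.Agent.CR.G

/-- evaluation of continuous functions -/
private noncomputable def G2_ev {K : Set ℂ} (l : K) : C(K, ℂ) →+* ℂ where
  toFun g := g l
  map_one' := rfl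
  map_mul' _ _ := rfl
  map_zero' := rfl
  map_add' _ _ := rfl

private theorem G2_bound {K : Set ℂ} [CompactSpace K] (P : Polynomial C(K, ℂ)) :
    ∃ B : ℝ, 0 ≤ B ∧ ∀ (l : K) (z : ℂ), ‖z‖ ≤ 1 → ‖(P.map (G2_ev l)).eval z‖ ≤ B := by
  refine ⟨∑ i ∈ Finset.range (P.natDegree + 1), ‖P.coeff i‖,
    Finset.sum_nonneg fun i _ => norm_nonneg _, ?_⟩
  intro l z hz
  rw [Polynomial.eval_map, Polynomial.eval₂_eq_sum_range]
  refine (norm_sum_le _ _).trans (Finset.sum_le_sum fun i _ => ?_)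
  rw [norm_mul, norm_pow]
  calc ‖(G2_ev l) (P.coeff i)‖ * ‖z‖ ^ i ≤ ‖P.coeff i‖ * 1 :=
        mul_le_mul (ContinuousMap.norm_coe_le_norm (P.coeff i) l) (pow_le_one₀ (norm_nonneg _) hz)
          (by positivity) (norm_nonneg _)
    _ = ‖P.coeff i‖ := mul_one _

private theorem G2_nhds {l0 : ℂ} {q : ℕ} (hl : l0 ≠ 0)
    (hk : ∀ k, 1 ≤ k → k ≤ 2 * q - 1 → k ≠ q → l0 ^ k ≠ 1) :
    ∃ r : ℝ, 0 < r ∧ r ≤ 1 / 2 ∧ ∀ l ∈ closedBall l0 r, l ≠ 0 ∧
      ∀ k, 1 ≤ k → k ≤ 2 * q - 1 → k ≠ q → l ^ k ≠ 1 := by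
  have h1 : ∀ᶠ l in 𝓝 l0, l ≠ 0 := continuousAt_id.eventually_ne hl
  have h2 : ∀ᶠ l in 𝓝 l0, ∀ k ∈ Finset.range (2 * q), (1 ≤ k → k ≤ 2 * q - 1 → k ≠ q → l ^ k ≠ 1) := by
    rw [Filter.eventually_all_finset]
    intro k _
    by_cases h3 : 1 ≤ k ∧ k ≤ 2 * q - 1 ∧ k ≠ q
    · have h4 : ∀ᶠ l in 𝓝 l0, l ^ k ≠ 1 :=
        (continuous_pow k).continuousAt.eventually_ne (hk k h3.1 h3.2.1 h3.2.2)
      filter_upwards [h4] with l hl _ _ _
      exact hl
    · filter_upwards with l ha hb hc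
      exact absurd ⟨ha, hb, hc⟩ h3
  obtain ⟨r, hr, hsub⟩ := Metric.nhds_basis_closedBall.mem_iff.1 (h1.and h2)
  refine ⟨min r (1 / 2), lt_min hr (by norm_num), min_le_right _ _, ?_⟩
  intro l hlm
  have h3 := hsub (closedBall_subset_closedBall (min_le_left _ _) hlm)
  refine ⟨h3.1, fun k ha hb hc => h3.2 k ?_ ha hb hc⟩
  rw [Finset.mem_range]
  omega

open Polynomial in
theorem exists_chi {l0 : ℂ} {q : ℕ} (hq : 1 ≤ q) (hl : l0 ≠ 0)
    (hk : ∀ k, 1 ≤ k → k ≤ 2 * q - 1 → k ≠ q → l0 ^ k ≠ 1) :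
    ∃ (r C : ℝ) (χ : ℂ → ℂ → ℂ) (b c : ℂ → ℂ), 0 < r ∧ r ≤ 1 / 2 ∧ 0 < C ∧
      ContinuousOn b (closedBall l0 r) ∧ ContinuousOn c (closedBall l0 r) ∧
      ContinuousOn (fun x : ℂ × ℂ => χ x.1 x.2) (closedBall l0 r ×ˢ univ) ∧
      ∀ l ∈ closedBall l0 r, Differentiable ℂ (χ l) ∧ χ l 0 = 0 ∧ deriv (χ l) 0 = 1 ∧
        (∀ z : ℂ, ‖z‖ ≤ 1 → ‖deriv (χ l) z - 1‖ ≤ C * ‖z‖) ∧
        (∀ z : ℂ, ‖z‖ ≤ 1 →
          ‖χ l (f l z) - l * χ l z * (1 + b l * χ l z ^ q + c l * χ l z ^ (2 * q))‖ ≤ C * ‖z‖ ^ (2 * q + 2)) := by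
  obtain ⟨r, hr0, hr1, hr⟩ := G2_nhds hl hk
  set K : Set ℂ := closedBall l0 r with hK
  haveI : CompactSpace K := isCompact_iff_compactSpace.mp (isCompact_closedBall l0 r)
  set Λ : C(K, ℂ) := ⟨Subtype.val, continuous_subtype_val⟩ with hΛdef
  have hΛ : IsUnit Λ := by
    rw [ContinuousMap.isUnit_iff_forall_ne_zero]
    intro l
    exact (hr l l.2).1
  have hΛk : ∀ k, 1 ≤ k → k ≤ 2 * q - 1 → k ≠ q → IsUnit (Λ ^ k - 1) := by
    intro k ha hb hc
    rw [ContinuousMap.isUnit_iff_forall_ne_zero]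
    intro l
    have h1 : (Λ ^ k - 1) l = (l : ℂ) ^ k - 1 := rfl
    rw [h1, sub_ne_zero]
    exact (hr l l.2).2 k ha hb hc
  obtain ⟨χ, b, c, ⟨ψ, hψ⟩, ⟨E, hE⟩⟩ := normal_form hΛ hq hΛk
  obtain ⟨B1, hB1, hB1b⟩ := G2_bound ψ
  obtain ⟨B2, hB2, hB2b⟩ := G2_bound (derivative ψ)
  obtain ⟨B3, hB3, hB3b⟩ := G2_bound E
  classical
  set chi : ℂ → ℂ → ℂ := fun l z => if h : l ∈ K then (χ.map (G2_ev ⟨l, h⟩)).eval z else z with hchi
  have hchiK : ∀ (l : K) (z : ℂ), chi l z = (χ.map (G2_ev l)).eval z := by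
    intro l z
    simp only [hchi]
    rw [dif_pos l.2]
  have hpoly : ∀ l : K, χ.map (G2_ev l) = X + X ^ 2 * ψ.map (G2_ev l) := by
    intro l
    have h1 : χ = X + X ^ 2 * ψ := by rw [← hψ]; ring
    conv_lhs => rw [h1]
    simp
  refine ⟨r, 2 * B1 + B2 + B3 + 1, chi, fun l => if h : l ∈ K then b ⟨l, h⟩ else 0,
    fun l => if h : l ∈ K then c ⟨l, h⟩ else 0, hr0, hr1, by positivity, ?_, ?_, ?_, ?_⟩
  · rw [continuousOn_iff_continuous_domRestrict]
    have h1 : K.domRestrict (fun l => if h : l ∈ K then b ⟨l, h⟩ else 0) = fun l : K => b l := by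
      funext l
      rw [Set.domRestrict_apply, dif_pos l.2]
    exact h1 ▸ b.continuous
  · rw [continuousOn_iff_continuous_domRestrict]
    have h1 : K.domRestrict (fun l => if h : l ∈ K then c ⟨l, h⟩ else 0) = fun l : K => c l := by
      funext l
      rw [Set.domRestrict_apply, dif_pos l.2]
    exact h1 ▸ c.continuous
  · rw [continuousOn_iff_continuous_domRestrict]
    have h1 : (K ×ˢ (univ : Set ℂ)).domRestrict (fun x : ℂ × ℂ => chi x.1 x.2)
        = fun x : (K ×ˢ (univ : Set ℂ) : Set (ℂ × ℂ)) =>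
          ∑ i ∈ Finset.range (χ.natDegree + 1), (χ.coeff i) ⟨x.1.1, (mem_prod.1 x.2).1⟩ * x.1.2 ^ i := by
      funext x
      have h2 := hchiK ⟨x.1.1, (mem_prod.1 x.2).1⟩ x.1.2
      rw [Set.domRestrict_apply]
      rw [h2, eval_map, eval₂_eq_sum_range]
      rfl
    have h2 : Continuous (fun x : (K ×ˢ (univ : Set ℂ) : Set (ℂ × ℂ)) =>
          ∑ i ∈ Finset.range (χ.natDegree + 1), (χ.coeff i) ⟨x.1.1, (mem_prod.1 x.2).1⟩ * x.1.2 ^ i) := by
      apply continuous_finset_sum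
      intro i _
      apply Continuous.mul
      · exact (χ.coeff i).continuous.comp
          (Continuous.subtype_mk (continuous_fst.comp continuous_subtype_val) _)
      · exact (continuous_snd.comp continuous_subtype_val).pow i
    exact h1 ▸ h2
  · intro l hlK
    have hfun : chi l = fun z => (χ.map (G2_ev ⟨l, hlK⟩)).eval z := by
      funext z
      exact hchiK ⟨l, hlK⟩ z
    set p : ℂ[X] := χ.map (G2_ev ⟨l, hlK⟩) with hp
    have hp2 : p = X + X ^ 2 * ψ.map (G2_ev ⟨l, hlK⟩) := hpoly ⟨l, hlK⟩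
    have hder : ∀ z : ℂ, deriv (chi l) z = 1 + z * (2 * (ψ.map (G2_ev ⟨l, hlK⟩)).eval z +
        z * ((derivative ψ).map (G2_ev ⟨l, hlK⟩)).eval z) := by
      intro z
      rw [hfun, Polynomial.deriv, hp2]
      simp only [derivative_add, derivative_X, derivative_mul, derivative_X_pow, eval_add, eval_one,
        eval_mul, eval_pow, eval_X, derivative_map, eval_C]
      push_cast
      ring
    refine ⟨?_, ?_, ?_, ?_, ?_⟩
    · rw [hfun]
      exact p.differentiable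
    · rw [hfun, hp2]
      simp
    · rw [hder]
      simp
    · intro z hz
      rw [hder z, add_sub_cancel_left, norm_mul, mul_comm]
      apply mul_le_mul_of_nonneg_right _ (norm_nonneg _)
      have h1 := hB1b ⟨l, hlK⟩ z hz
      have h2 := hB2b ⟨l, hlK⟩ z hz
      refine (norm_add_le _ _).trans ?_
      rw [norm_mul, norm_mul, RCLike.norm_ofNat]
      have h3 : ‖z‖ * ‖((derivative ψ).map (G2_ev ⟨l, hlK⟩)).eval z‖ ≤ 1 * B2 :=
        mul_le_mul hz h2 (norm_nonneg _) zero_le_one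
      linarith
    · intro z hz
      have e1 : (fun l => if h : l ∈ K then b ⟨l, h⟩ else 0) l = b ⟨l, hlK⟩ := dif_pos hlK
      have e2 : (fun l => if h : l ∈ K then c ⟨l, h⟩ else 0) l = c ⟨l, hlK⟩ := dif_pos hlK
      rw [e1, e2]
      have hmap := congrArg (fun P : Polynomial C(K, ℂ) => (P.map (G2_ev ⟨l, hlK⟩)).eval z) hE
      simp only [Polynomial.map_sub, Polynomial.map_mul, Polynomial.map_add, Polynomial.map_one,
        Polynomial.map_pow, map_comp, map_X, map_C, eval_sub, eval_mul, eval_add, eval_one, eval_pow,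
        eval_comp, eval_X, eval_C] at hmap
      have hΛl : (G2_ev (⟨l, hlK⟩ : K)) Λ = l := rfl
      have hbl : (G2_ev (⟨l, hlK⟩ : K)) b = b ⟨l, hlK⟩ := rfl
      have hcl : (G2_ev (⟨l, hlK⟩ : K)) c = c ⟨l, hlK⟩ := rfl
      rw [hΛl, hbl, hcl, ← hp] at hmap
      have hfz : f l z = z ^ 2 + l * z := rfl
      rw [hfun]
      simp only
      rw [hfz, hmap, norm_mul, norm_pow, mul_comm]
      apply mul_le_mul_of_nonneg_right _ (by positivity)
      have h1 := hB3b ⟨l, hlK⟩ z hz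
      linarith

end Pool.Agent.CR.G
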