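import Pool.Agent.H48.CR.GDefs

/-!
# CR G2b: the coefficient `b` of the normal form does not vanish at `l0`

Suppose `b = 0`. Then `‖χ (f z) - l0 χ z‖ ≤ C' ‖z‖^(q+2)` for `‖z‖ ≤ 1` small (as `2 q + 1 ≥ q + 2`; `‖χ z‖ ≤ 2 ‖z‖` for small `z`). By induction on `m ≤ q`, `χ (f^[m] z) = l0^m χ z + O(‖z‖^(q+2))` for `z → 0`
(`‖f l0 z‖ ≤ (‖l0‖ + ‖z‖) ‖z‖`, so `f^[m] z = O(z)`), so `χ (F z) - χ z = O(‖z‖^(q+2))`, `F = (f l0)^[q]`. `χ` has a nonzero strict derivative at `0` (`HasStrictDerivAt`), so `‖x - y‖ ≤ 2 ‖χ x - χ y‖` for `x`, `y` near `0`.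
Hence `F z - z = z^(q+1) G z = O(‖z‖^(q+2))` and `G z → 0`: contradiction to `G 0 = A ≠ 0`.
-/

set_option autoImplicit false

open Set Filter Topology Metric

namespace Pool.Agent.CR.G

private theorem G2b_pow {n k : ℕ} (h : k ≤ n) :
    (fun z : ℂ => z ^ n) =O[𝓝 0] fun z : ℂ => z ^ k := by
  refine Asymptotics.IsBigO.of_bound 1 ?_
  filter_upwards [Metric.ball_mem_nhds (0 : ℂ) one_pos] with z hz
  rw [norm_pow, norm_pow, one_mul]
  exact pow_le_pow_of_le_one (norm_nonneg z) ((mem_ball_zero_iff.1 hz).le) h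

theorem b_ne_zero {l0 b c : ℂ} {q : ℕ} (hq : 1 ≤ q) (hl : l0 ^ q = 1) {χ : ℂ → ℂ} {C : ℝ}
    (hχ : Differentiable ℂ χ) (h0 : χ 0 = 0) (h1 : deriv χ 0 = 1)
    (hC : ∀ z : ℂ, ‖z‖ ≤ 1 →
      ‖χ (f l0 z) - l0 * χ z * (1 + b * χ z ^ q + c * χ z ^ (2 * q))‖ ≤ C * ‖z‖ ^ (2 * q + 2))
    {A : ℂ} (hA : A ≠ 0) {G : ℂ → ℂ} (hG : ContinuousAt G 0) (hG0 : G 0 = A)
    (hF : ∀ z : ℂ, (f l0)^[q] z = z + z ^ (q + 1) * G z) : b ≠ 0 := by
  intro hb
  subst hb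
  have hO : χ =O[𝓝 0] (fun z : ℂ => z) := by
    have := (hχ 0).isBigO_sub
    simpa [h0] using this
  have hE : (fun z => χ (f l0 z) - l0 * χ z) =O[𝓝 0] fun z : ℂ => z ^ (q + 2) := by
    have e1 : (fun z => χ (f l0 z) - l0 * χ z * (1 + 0 * χ z ^ q + c * χ z ^ (2 * q))) =O[𝓝 0]
        fun z : ℂ => z ^ (2 * q + 2) := by
      refine Asymptotics.IsBigO.of_bound C ?_
      filter_upwards [Metric.ball_mem_nhds (0 : ℂ) one_pos] with z hz
      rw [norm_pow]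
      exact hC z ((mem_ball_zero_iff.1 hz).le)
    have e2 : (fun z => l0 * c * χ z ^ (2 * q + 1)) =O[𝓝 0] fun z : ℂ => z ^ (2 * q + 1) :=
      (hO.pow _).const_mul_left _
    have e3 := (e1.trans (G2b_pow (show q + 2 ≤ 2 * q + 2 by omega))).add
      (e2.trans (G2b_pow (show q + 2 ≤ 2 * q + 1 by omega)))
    refine e3.congr_left fun z => ?_
    ring
  have hf0 : Tendsto (f l0) (𝓝 0) (𝓝 0) := by
    have hc : Continuous (f l0) := by unfold f; fun_prop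
    have := hc.tendsto 0
    simpa [f] using this
  have hfO : f l0 =O[𝓝 0] (fun z : ℂ => z) := by
    have e1 : (fun z : ℂ => z ^ 2) =O[𝓝 0] fun z : ℂ => z := by
      have := G2b_pow (show 1 ≤ 2 by omega)
      simpa using this
    exact e1.add ((Asymptotics.isBigO_refl _ _).const_mul_left _)
  have hit : ∀ m : ℕ, Tendsto ((f l0)^[m]) (𝓝 0) (𝓝 0) ∧
      ((f l0)^[m]) =O[𝓝 0] (fun z : ℂ => z) ∧
      (fun z => χ ((f l0)^[m] z) - l0 ^ m * χ z) =O[𝓝 0] fun z : ℂ => z ^ (q + 2) := by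
    intro m
    induction m with
    | zero =>
      refine ⟨tendsto_id, Asymptotics.isBigO_refl _ _, ?_⟩
      simp only [Function.iterate_zero, id_eq, pow_zero, one_mul, sub_self]
      exact Asymptotics.isBigO_zero _ _
    | succ m ih =>
      obtain ⟨i1, i2, i3⟩ := ih
      have heq : (f l0)^[m + 1] = fun z => f l0 ((f l0)^[m] z) := by
        funext z
        rw [Function.iterate_succ_apply']
      rw [heq]
      refine ⟨hf0.comp i1, (hfO.comp_tendsto i1).trans i2, ?_⟩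
      have e1 : (fun z => χ (f l0 ((f l0)^[m] z)) - l0 * χ ((f l0)^[m] z)) =O[𝓝 0]
          fun z : ℂ => z ^ (q + 2) := (hE.comp_tendsto i1).trans (i2.pow (q + 2))
      have e2 := e1.add (i3.const_mul_left l0)
      refine e2.congr_left fun z => ?_
      ring
  obtain ⟨j1, -, j3⟩ := hit q
  rw [hl] at j3
  have hs : HasStrictDerivAt χ 1 0 := by
    have h2 := (hχ.analyticAt 0).hasStrictDerivAt
    rwa [h1] at h2
  have hlo := hs.isLittleO
  have ht : Tendsto (fun z : ℂ => ((f l0)^[q] z, z)) (𝓝 0) (𝓝 ((0 : ℂ), (0 : ℂ))) :=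
    j1.prodMk_nhds tendsto_id
  have k1 := hlo.comp_tendsto ht
  have k2 : (fun z => (χ ((f l0)^[q] z) - χ z) - ((f l0)^[q] z - z)) =o[𝓝 0]
      fun z => (f l0)^[q] z - z := by
    refine k1.congr (fun z => ?_) (fun z => ?_)
    · simp [Function.comp]
    · simp [Function.comp]
  have k3 : Asymptotics.IsEquivalent (𝓝 0) (fun z => χ ((f l0)^[q] z) - χ z)
      (fun z => (f l0)^[q] z - z) := k2
  have k4 : (fun z => (f l0)^[q] z - z) =O[𝓝 0] fun z : ℂ => z ^ (q + 2) :=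
    k3.isBigO_symm.trans (j3.congr_left fun z => by rw [one_mul])
  have k5 : (fun z : ℂ => z ^ (q + 1) * G z) =O[𝓝 0] fun z : ℂ => z ^ (q + 1) * z := by
    refine k4.congr (fun z => ?_) (fun z => ?_)
    · rw [hF z]; ring
    · ring
  obtain ⟨M, hM⟩ := k5.bound
  have k6 : ∀ᶠ z in 𝓝[≠] (0 : ℂ), ‖G z‖ ≤ M * ‖z‖ := by
    filter_upwards [nhdsWithin_le_nhds hM, self_mem_nhdsWithin] with z hz hz0
    rw [norm_mul, norm_mul] at hz
    have hp : 0 < ‖z ^ (q + 1)‖ := norm_pos_iff.2 (pow_ne_zero _ hz0)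
    have : ‖z ^ (q + 1)‖ * ‖G z‖ ≤ ‖z ^ (q + 1)‖ * (M * ‖z‖) := by linarith
    exact le_of_mul_le_mul_left this hp
  have k7 : Tendsto (fun z => ‖G z‖) (𝓝[≠] (0 : ℂ)) (𝓝 ‖A‖) := by
    have := (hG.norm).tendsto.mono_left (nhdsWithin_le_nhds (s := {(0 : ℂ)}ᶜ))
    rwa [hG0] at this
  have k8 : Tendsto (fun z : ℂ => M * ‖z‖) (𝓝[≠] (0 : ℂ)) (𝓝 0) := by
    have h2 : Continuous fun z : ℂ => M * ‖z‖ := by fun_prop
    have := (h2.tendsto 0).mono_left (nhdsWithin_le_nhds (s := {(0 : ℂ)}ᶜ))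
    simpa using this
  have k9 := le_of_tendsto_of_tendsto k7 k8 k6
  exact hA (norm_le_zero_iff.1 k9)

end Pool.Agent.CR.G
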