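import Mathlib

/-!
# CR G3: an inverse function lemma with quantitative domain

`J w` = the solution `ζ ∈ closedBall w (2 ρ w)` of `ζ = w + c ζ`.

Proof. Fix `w ∈ U`. On the closed ball `B = closedBall w (2 ρ w)` (convex) `c` has Lipschitz constant `1/2` and `‖c‖ ≤ ρ w`. For every `w'` with `‖w' - w‖ ≤ ρ w` the map `ζ ↦ w' + c ζ` maps `B` into itself and is a contraction:
a unique fixed point `T w' ∈ B` (Banach; `ContractingWith` on a complete subset), and `‖T w' - w'‖ = ‖c (T w')‖ ≤ ρ w`. For `w' = w`: this defines `J w` (`choose`), and uniqueness in `B`.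
Differentiability at `w`: for `w' ∈ U` close to `w`, `ρ w ≤ 2 ρ w'` by continuity, so `T w' ∈ closedBall w' (2 ρ w')` and `T w' = J w'`. And `‖T w' - T w''‖ ≤ ‖w' - w''‖ + ‖T w' - T w''‖ / 2`, so `T` is Lipschitz (constant 2), hence `J` is continuous at `w`.
`g ζ = ζ - c ζ` has derivative `1 - c'(J w) ≠ 0` at `J w`, and `g (J w') = w'` near `w`: `HasDerivAt.of_local_left_inverse`.
-/

set_option autoImplicit false

open Set Filter Topology Metric

namespace Pool.Agent.CR.G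

private theorem G3_lip {w : ℂ} {r : ℝ} {c : ℂ → ℂ}
    (hc : ∀ ζ ∈ closedBall w r, DifferentiableAt ℂ c ζ ∧ ‖deriv c ζ‖ ≤ 1 / 2) {x y : ℂ}
    (hx : x ∈ closedBall w r) (hy : y ∈ closedBall w r) : ‖c x - c y‖ ≤ 1 / 2 * ‖x - y‖ :=
  (convex_closedBall w r).norm_image_sub_le_of_norm_deriv_le (fun ζ hζ => (hc ζ hζ).1)
    (fun ζ hζ => (hc ζ hζ).2) hy hx

private theorem G3_close {w : ℂ} {r : ℝ} {c : ℂ → ℂ}
    (hc : ∀ ζ ∈ closedBall w r, DifferentiableAt ℂ c ζ ∧ ‖deriv c ζ‖ ≤ 1 / 2) {x y u v : ℂ}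
    (hx : x ∈ closedBall w r) (hy : y ∈ closedBall w r) (h1 : x = u + c x) (h2 : y = v + c y) :
    ‖x - y‖ ≤ 2 * ‖u - v‖ := by
  have h3 := G3_lip hc hx hy
  have h4 : x - y = (u - v) + (c x - c y) := by
    calc x - y = (u + c x) - (v + c y) := by rw [← h1, ← h2]
      _ = (u - v) + (c x - c y) := by ring
  have h5 : ‖x - y‖ ≤ ‖u - v‖ + ‖c x - c y‖ := by
    conv_lhs => rw [h4]
    exact norm_add_le _ _
  linarith

private theorem G3_exists {w w' : ℂ} {r : ℝ} (hr : 0 < r) {c : ℂ → ℂ}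
    (hc : ∀ ζ ∈ closedBall w (2 * r), DifferentiableAt ℂ c ζ ∧ ‖deriv c ζ‖ ≤ 1 / 2 ∧ ‖c ζ‖ ≤ r)
    (hw' : ‖w' - w‖ ≤ r) : ∃ y ∈ closedBall w (2 * r), y = w' + c y := by
  have hmaps : MapsTo (fun ζ => w' + c ζ) (closedBall w (2 * r)) (closedBall w (2 * r)) := by
    intro ζ hζ
    rw [mem_closedBall, dist_eq_norm]
    calc ‖w' + c ζ - w‖ = ‖(w' - w) + c ζ‖ := by ring_nf
      _ ≤ ‖w' - w‖ + ‖c ζ‖ := norm_add_le _ _
      _ ≤ 2 * r := by linarith [(hc ζ hζ).2.2]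
  have hcon : ContractingWith (1 / 2 : NNReal) (hmaps.restrict _ _ _) := by
    refine ⟨by
      rw [← NNReal.coe_lt_coe]
      norm_num, ?_⟩
    apply LipschitzWith.of_dist_le_mul
    rintro ⟨x, hx⟩ ⟨y, hy⟩
    have h := G3_lip (fun ζ hζ => ⟨(hc ζ hζ).1, (hc ζ hζ).2.1⟩) hx hy
    rw [Subtype.dist_eq, Subtype.dist_eq]
    simp only [MapsTo.val_restrict_apply, dist_eq_norm]
    have h2 : w' + c x - (w' + c y) = c x - c y := by ring
    rw [h2]
    refine h.trans (le_of_eq ?_)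
    norm_num
  obtain ⟨y, hy, hfix, -⟩ := hcon.exists_fixedPoint' isClosed_closedBall.isComplete hmaps
    (mem_closedBall_self (by positivity)) (edist_ne_top _ _)
  exact ⟨y, hy, hfix.symm⟩

theorem inv_lemma {U : Set ℂ} {ρ : ℂ → ℝ} {c : ℂ → ℂ} (hU : IsOpen U) (hρ : ContinuousOn ρ U)
    (hρ0 : ∀ w ∈ U, 0 < ρ w)
    (hc : ∀ w ∈ U, ∀ ζ ∈ closedBall w (2 * ρ w), DifferentiableAt ℂ c ζ ∧ ‖deriv c ζ‖ ≤ 1 / 2 ∧ ‖c ζ‖ ≤ ρ w) :
    ∃ J : ℂ → ℂ, DifferentiableOn ℂ J U ∧ (∀ w ∈ U, J w ∈ closedBall w (ρ w) ∧ J w = w + c (J w)) ∧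
      ∀ w ∈ U, ∀ ζ ∈ closedBall w (2 * ρ w), ζ = w + c ζ → ζ = J w := by
  classical
  have hex : ∀ w : ℂ, ∃ y : ℂ, w ∈ U → y ∈ closedBall w (2 * ρ w) ∧ y = w + c y := by
    intro w
    by_cases hw : w ∈ U
    · obtain ⟨y, hy, hy'⟩ := G3_exists (w' := w) (hρ0 w hw) (hc w hw)
        (by rw [sub_self, norm_zero]; exact (hρ0 w hw).le)
      exact ⟨y, fun _ => ⟨hy, hy'⟩⟩
    · exact ⟨0, fun h => absurd h hw⟩
  choose J hJ using hex
  have huniq : ∀ w ∈ U, ∀ ζ ∈ closedBall w (2 * ρ w), ζ = w + c ζ → ζ = J w := by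
    intro w hw ζ hζ he
    have h := G3_close (fun ζ hζ => ⟨(hc w hw ζ hζ).1, (hc w hw ζ hζ).2.1⟩) hζ (hJ w hw).1 he (hJ w hw).2
    rw [sub_self, norm_zero, mul_zero] at h
    exact sub_eq_zero.1 (norm_le_zero_iff.1 h)
  refine ⟨J, ?_, ?_, huniq⟩
  · intro w hw
    apply DifferentiableAt.differentiableWithinAt
    have hρc : ContinuousAt ρ w := hρ.continuousAt (hU.mem_nhds hw)
    have hpos := hρ0 w hw
    -- the good neighbourhood
    have hev : ∀ᶠ w' in 𝓝 w, w' ∈ U ∧ ‖w' - w‖ ≤ ρ w ∧ ρ w ≤ 2 * ρ w' := by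
      have e1 : ∀ᶠ w' in 𝓝 w, w' ∈ U := hU.mem_nhds hw
      have e2 : ∀ᶠ w' in 𝓝 w, w' ∈ closedBall w (ρ w) := closedBall_mem_nhds w hpos
      have e3 : ∀ᶠ w' in 𝓝 w, ρ w / 2 < ρ w' := hρc.eventually (lt_mem_nhds (half_lt_self hpos))
      filter_upwards [e1, e2, e3] with w' h1 h2 h3
      refine ⟨h1, ?_, by linarith⟩
      rwa [mem_closedBall, dist_eq_norm] at h2
    have hcw : ∀ ζ ∈ closedBall w (2 * ρ w), DifferentiableAt ℂ c ζ ∧ ‖deriv c ζ‖ ≤ 1 / 2 :=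
      fun ζ hζ => ⟨(hc w hw ζ hζ).1, (hc w hw ζ hζ).2.1⟩
    have hnear : ∀ᶠ w' in 𝓝 w, ‖J w' - J w‖ ≤ 2 * ‖w' - w‖ := by
      filter_upwards [hev] with w' h
      obtain ⟨h1, h2, h3⟩ := h
      obtain ⟨T, hT, hT'⟩ := G3_exists (w' := w') hpos (hc w hw) h2
      have hTb : T ∈ closedBall w' (2 * ρ w') := by
        rw [mem_closedBall, dist_eq_norm]
        have : T - w' = c T := by
          calc T - w' = (w' + c T) - w' := by rw [← hT']
            _ = c T := by ring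
        rw [this]
        exact (hc w hw T hT).2.2.trans h3
      have hTJ : T = J w' := huniq w' h1 T hTb hT'
      rw [← hTJ]
      exact G3_close hcw hT (hJ w hw).1 hT' (hJ w hw).2
    have hcont : ContinuousAt J w := by
      rw [ContinuousAt, tendsto_iff_norm_sub_tendsto_zero]
      refine squeeze_zero' (Eventually.of_forall fun _ => norm_nonneg _) hnear ?_
      have : Tendsto (fun w' : ℂ => 2 * ‖w' - w‖) (𝓝 w) (𝓝 (2 * ‖w - w‖)) := by
        apply Continuous.tendsto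
        fun_prop
      simpa using this
    obtain ⟨hd, hd', -⟩ := hc w hw (J w) (hJ w hw).1
    have hg : HasDerivAt (fun ζ => ζ - c ζ) (1 - deriv c (J w)) (J w) :=
      (hasDerivAt_id (J w)).sub hd.hasDerivAt
    have hne : (1 : ℂ) - deriv c (J w) ≠ 0 := by
      intro h0
      have h1 : deriv c (J w) = 1 := (sub_eq_zero.1 h0).symm
      rw [h1] at hd'
      norm_num at hd'
    refine (HasDerivAt.of_local_left_inverse hcont hg hne ?_).differentiableAt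
    filter_upwards [hU.mem_nhds hw] with w' hw'
    have := (hJ w' hw').2
    calc J w' - c (J w') = (w' + c (J w')) - c (J w') := by rw [← this]
      _ = w' := by ring
  · intro w hw
    obtain ⟨h1, h2⟩ := hJ w hw
    refine ⟨?_, h2⟩
    rw [mem_closedBall, dist_eq_norm]
    have : J w - w = c (J w) := by
      calc J w - w = (w + c (J w)) - w := by rw [← h2]
        _ = c (J w) := by ring
    rw [this]
    exact (hc w hw _ h1).2.2

end Pool.Agent.CR.G
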