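import Pool.Agent.H48.CR.GDefs

/-!
# CR G4a: the step in the coordinate `Y = YX q b x = -1 / (q b x^q)`

Write `X = x^q`, `x' = l x (1 + u)`, `u = b X + c X^2 + ε`, `‖ε‖ ≤ C0 ‖x‖^(2q+1) / ‖l‖ ≤ 2 C0 ‖x‖^(2q+1)`. For `‖x‖ ≤ r` small, `‖u‖ ≤ 1/2` and `‖u‖ ≤ C ‖x‖^q`. `l^q YX x' = YX x * (1 + u)^(-q)` and
`‖(1+u)^(-q) - (1 - q u + q (q+1)/2 u^2)‖ ≤ C_q ‖u‖^3` for `‖u‖ ≤ 1/2`. (To prove this: with `v = (1+u)⁻¹ - 1 = -u + u^2 - u^3/(1+u)`, `(1+v)^q = 1 + q v + q(q-1)/2 v^2 + v^3 * (polynomial in v)`.)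
Insert: `YX x * X = -1/(q b)`, `YX x * X^2 = 1 / (q^2 b^2 YX x)`; the terms: `YX - q b X YX = YX + 1`; `(-q c + q(q+1)/2 b^2) X^2 YX = ρ / YX`, `ρ = ((q+1)/2 - c/b^2)/q`. All other terms are
`YX * O(‖x‖^(2q+1)) = O(‖x‖^(q+1))`, and `‖x‖^(q+1) = (‖x‖^q)^(1+1/q) = (q ‖b‖ ‖YX‖)^(-(1+1/q))`, with `‖b‖ ≥ 1/B`.
-/

set_option autoImplicit false

open Set Filter Topology Metric

namespace Pool.Agent.CR.G

private lemma G4a_inv {u : ℂ} (hu : ‖u‖ ≤ 1 / 2) : (1 + u) ≠ 0 ∧ ‖(1 + u)⁻¹‖ ≤ 2 := by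
  have h1 : 1 / 2 ≤ ‖1 + u‖ := by
    have h2 : ‖(1 : ℂ)‖ ≤ ‖1 + u‖ + ‖u‖ := by
      have := norm_sub_le (1 + u) u
      rwa [add_sub_cancel_right] at this
    rw [norm_one] at h2
    linarith
  have h0 : (0 : ℝ) < ‖1 + u‖ := by linarith
  refine ⟨norm_pos_iff.1 h0, ?_⟩
  rw [norm_inv, inv_le_comm₀ h0 (by norm_num)]
  linarith

private lemma G4a_exp (q : ℕ) : ∃ C : ℝ, 0 ≤ C ∧ ∀ u : ℂ, ‖u‖ ≤ 1 / 2 →
    ‖((1 + u) ^ q)⁻¹ - (1 - q * u + q * (q + 1) / 2 * u ^ 2)‖ ≤ C * ‖u‖ ^ 3 := by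
  induction q with
  | zero =>
    refine ⟨0, le_rfl, fun u hu => ?_⟩
    simp
  | succ q ih =>
    obtain ⟨C, hC, h⟩ := ih
    refine ⟨(q + q * (q + 1) / 2) + q * (q + 1) / 2 + 2 * (1 + q + q * (q + 1) / 2) + 2 * C,
      by positivity, fun u hu => ?_⟩
    obtain ⟨h0, h1⟩ := G4a_inv hu
    have hE := h u hu
    set P : ℂ := 1 - q * u + q * (q + 1) / 2 * u ^ 2 with hP
    set E : ℂ := ((1 + u) ^ q)⁻¹ - P with hE'
    have hu1 : ‖u‖ ≤ 1 := by linarith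
    have hu0 : 0 ≤ ‖u‖ := norm_nonneg u
    have e1 : (1 + u)⁻¹ = 1 - u + u ^ 2 - u ^ 3 * (1 + u)⁻¹ := by
      field_simp
      ring
    have e2 : ((1 + u) ^ (q + 1))⁻¹ = (P + E) * (1 + u)⁻¹ := by
      rw [hE', add_sub_cancel, pow_succ, mul_inv]
    have e3 : ((1 + u) ^ (q + 1))⁻¹ - (1 - (q + 1 : ℕ) * u +
        (q + 1 : ℕ) * ((q + 1 : ℕ) + 1) / 2 * u ^ 2) =
        -((q + q * (q + 1) / 2) * u ^ 3) + q * (q + 1) / 2 * u ^ 4 -
          P * (u ^ 3 * (1 + u)⁻¹) + E * (1 + u)⁻¹ := by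
      rw [e2, add_mul, hP]
      push_cast
      have e4 : (1 - (q : ℂ) * u + q * (q + 1) / 2 * u ^ 2) * (1 + u)⁻¹ =
        (1 - (q : ℂ) * u + q * (q + 1) / 2 * u ^ 2) * (1 - u + u ^ 2 - u ^ 3 * (1 + u)⁻¹) := by
        rw [← e1]
      rw [e4]
      ring
    have hP1 : ‖P‖ ≤ 1 + q + q * (q + 1) / 2 := by
      rw [hP]
      refine (norm_add_le _ _).trans ?_
      refine add_le_add ((norm_sub_le _ _).trans ?_) ?_
      · rw [norm_one, norm_mul, Complex.norm_natCast]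
        have : (q : ℝ) * ‖u‖ ≤ q * 1 := mul_le_mul_of_nonneg_left hu1 (Nat.cast_nonneg q)
        linarith
      · have e5 : ‖(q : ℂ) * (q + 1) / 2‖ = (q : ℝ) * (q + 1) / 2 := by
          have : (q : ℂ) * (q + 1) / 2 = (((q : ℝ) * (q + 1) / 2 : ℝ) : ℂ) := by push_cast; ring
          rw [this, Complex.norm_of_nonneg (by positivity)]
        rw [norm_mul, e5, norm_pow]
        have : ‖u‖ ^ 2 ≤ 1 := pow_le_one₀ hu0 hu1
        exact mul_le_of_le_one_right (by positivity) this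
    rw [e3]
    have hq1 : ‖((q : ℂ) + q * (q + 1) / 2)‖ = (q : ℝ) + q * (q + 1) / 2 := by
      have : (q : ℂ) + q * (q + 1) / 2 = (((q : ℝ) + q * (q + 1) / 2 : ℝ) : ℂ) := by
        push_cast; ring
      rw [this, Complex.norm_of_nonneg (by positivity)]
    have hq2 : ‖(q : ℂ) * (q + 1) / 2‖ = (q : ℝ) * (q + 1) / 2 := by
      have : (q : ℂ) * (q + 1) / 2 = (((q : ℝ) * (q + 1) / 2 : ℝ) : ℂ) := by push_cast; ring
      rw [this, Complex.norm_of_nonneg (by positivity)]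
    have t1 : ‖-((q + q * (q + 1) / 2) * u ^ 3)‖ = ((q : ℝ) + q * (q + 1) / 2) * ‖u‖ ^ 3 := by
      rw [norm_neg, norm_mul, hq1, norm_pow]
    have t2 : ‖(q : ℂ) * (q + 1) / 2 * u ^ 4‖ ≤ (q : ℝ) * (q + 1) / 2 * ‖u‖ ^ 3 := by
      rw [norm_mul, hq2, norm_pow]
      exact mul_le_mul_of_nonneg_left (pow_le_pow_of_le_one hu0 hu1 (by norm_num)) (by positivity)
    have t3 : ‖P * (u ^ 3 * (1 + u)⁻¹)‖ ≤ (1 + q + q * (q + 1) / 2) * (‖u‖ ^ 3 * 2) := by
      rw [norm_mul, norm_mul, norm_pow]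
      exact mul_le_mul hP1 (mul_le_mul_of_nonneg_left h1 (by positivity)) (by positivity)
        (by positivity)
    have t4 : ‖E * (1 + u)⁻¹‖ ≤ C * ‖u‖ ^ 3 * 2 := by
      rw [norm_mul]
      exact mul_le_mul hE h1 (norm_nonneg _) (by positivity)
    refine (norm_add_le _ _).trans ?_
    refine (add_le_add ((norm_sub_le _ _).trans (add_le_add (norm_add_le _ _) le_rfl))
      le_rfl).trans ?_
    rw [t1]
    linarith

theorem YX_step {q : ℕ} (hq : 1 ≤ q) {B C0 : ℝ} (hB : 0 < B) :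
    ∃ r C : ℝ, 0 < r ∧ 0 < C ∧ ∀ l b c x x' : ℂ, ‖b‖ ≤ B → B⁻¹ ≤ ‖b‖ → ‖c‖ ≤ B → 1 / 2 ≤ ‖l‖ → ‖l‖ ≤ 2 →
      x ≠ 0 → ‖x‖ ≤ r → ‖x' - l * x * (1 + b * x ^ q + c * x ^ (2 * q))‖ ≤ C0 * ‖x‖ ^ (2 * q + 2) →
      x' ≠ 0 ∧ ‖x' / (l * x) - 1‖ ≤ C * ‖x‖ ^ q ∧
        ‖l ^ q * YX q b x' - (YX q b x + 1 + (((q : ℂ) + 1) / 2 - c / b ^ 2) / q / YX q b x)‖ ≤
          C * ‖YX q b x‖ ^ (-(1 + 1 / (q : ℝ))) := by
  obtain ⟨Cq, hCq, hexp⟩ := G4a_exp q
  set D : ℝ := 2 * B + 2 * |C0| with hD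
  have hC0 : 0 ≤ |C0| := abs_nonneg C0
  have hDpos : 0 < D := by linarith
  set s : ℝ := 1 + 1 / (q : ℝ) with hs
  have hq0 : (0 : ℝ) < q := by exact_mod_cast (lt_of_lt_of_le Nat.zero_lt_one hq)
  have hq1 : (1 : ℝ) ≤ q := by exact_mod_cast hq
  have hs0 : 0 < s := by positivity
  set K : ℝ := B * (q * (2 * |C0|) + q * (q + 1) / 2 * (D * (D + B)) + Cq * D ^ 3) with hK
  have hK0 : 0 ≤ K := by positivity
  have hBs : 0 < B ^ s := Real.rpow_pos_of_pos hB s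
  refine ⟨min 1 (1 / (2 * D)), D + K * B ^ s, by positivity, by positivity, ?_⟩
  intro l b c x x' hb1 hb2 hc hl1 hl2 hx hxr hx'
  set t : ℝ := ‖x‖ with ht
  have ht0 : 0 < t := norm_pos_iff.2 hx
  have ht1 : t ≤ 1 := hxr.trans (min_le_left _ _)
  have htD : D * t ≤ 1 / 2 := by
    have h1 := hxr.trans (min_le_right _ _)
    have h2 : D * t ≤ D * (1 / (2 * D)) := mul_le_mul_of_nonneg_left h1 hDpos.le
    have h3 : D * (1 / (2 * D)) = 1 / 2 := by field_simp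
    linarith
  have hl0 : l ≠ 0 := by
    rintro rfl
    rw [norm_zero] at hl1
    norm_num at hl1
  have hb0 : b ≠ 0 := by
    rintro rfl
    rw [norm_zero] at hb2
    exact absurd hb2 (not_le.2 (inv_pos.2 hB))
  have hlx : l * x ≠ 0 := mul_ne_zero hl0 hx
  have hqC : (q : ℂ) ≠ 0 := by exact_mod_cast hq0.ne'
  have hX0 : x ^ q ≠ 0 := pow_ne_zero _ hx
  set u : ℂ := x' / (l * x) - 1 with hu
  set δ : ℂ := (x' - l * x * (1 + b * x ^ q + c * x ^ (2 * q))) / (l * x) with hδ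
  have hu' : u = b * x ^ q + c * (x ^ q) ^ 2 + δ := by
    rw [hu, hδ, ← pow_mul, mul_comm q 2]
    field_simp
    ring
  have hδ1 : ‖δ‖ ≤ 2 * |C0| * t ^ (2 * q + 1) := by
    rw [hδ, norm_div, norm_mul, div_le_iff₀ (mul_pos (norm_pos_iff.2 hl0) ht0)]
    refine hx'.trans ?_
    have h1 : C0 * t ^ (2 * q + 2) ≤ |C0| * t ^ (2 * q + 2) :=
      mul_le_mul_of_nonneg_right (le_abs_self C0) (by positivity)
    have h2 : |C0| * t ^ (2 * q + 2) = 2 * |C0| * t ^ (2 * q + 1) * (1 / 2 * t) := by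
      rw [pow_succ t (2 * q + 1)]
      ring
    rw [h2] at h1
    refine h1.trans (mul_le_mul_of_nonneg_left (mul_le_mul_of_nonneg_right hl1 ht0.le)
      (by positivity))
  have htq1 : t ^ (2 * q) ≤ t ^ q := pow_le_pow_of_le_one ht0.le ht1 (by omega)
  have htq2 : t ^ (2 * q + 1) ≤ t ^ q := pow_le_pow_of_le_one ht0.le ht1 (by omega)
  have htq3 : t ^ (2 * q + 1) ≤ t ^ (2 * q) := pow_le_pow_of_le_one ht0.le ht1 (by omega)
  have htq4 : t ^ (3 * q) ≤ t ^ (2 * q + 1) := pow_le_pow_of_le_one ht0.le ht1 (by omega)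
  have htq5 : t ^ q ≤ t := by
    calc t ^ q ≤ t ^ 1 := pow_le_pow_of_le_one ht0.le ht1 hq
      _ = t := pow_one t
  have hbX : ‖b * x ^ q‖ ≤ B * t ^ q := by
    rw [norm_mul, norm_pow]
    exact mul_le_mul_of_nonneg_right hb1 (by positivity)
  have hcX : ‖c * (x ^ q) ^ 2‖ ≤ B * t ^ (2 * q) := by
    rw [norm_mul, norm_pow, norm_pow, ← pow_mul, mul_comm q 2]
    exact mul_le_mul_of_nonneg_right hc (by positivity)
  have hdiff : ‖u - b * x ^ q‖ ≤ D * t ^ (2 * q) := by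
    have h1 : u - b * x ^ q = c * (x ^ q) ^ 2 + δ := by rw [hu']; ring
    rw [h1]
    refine (norm_add_le _ _).trans ?_
    have h2 : 2 * |C0| * t ^ (2 * q + 1) ≤ 2 * |C0| * t ^ (2 * q) :=
      mul_le_mul_of_nonneg_left htq3 (by positivity)
    have h3 : 0 ≤ B * t ^ (2 * q) := by positivity
    have h4 : D * t ^ (2 * q) = B * t ^ (2 * q) + B * t ^ (2 * q) + 2 * |C0| * t ^ (2 * q) := by
      rw [hD]; ring
    rw [h4]
    linarith
  have hun : ‖u‖ ≤ D * t ^ q := by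
    rw [hu']
    refine (norm_add_le _ _).trans ?_
    refine (add_le_add (norm_add_le _ _) le_rfl).trans ?_
    have h2 : 2 * |C0| * t ^ (2 * q + 1) ≤ 2 * |C0| * t ^ q :=
      mul_le_mul_of_nonneg_left htq2 (by positivity)
    have h3 : B * t ^ (2 * q) ≤ B * t ^ q := mul_le_mul_of_nonneg_left htq1 hB.le
    have h4 : D * t ^ q = B * t ^ q + B * t ^ q + 2 * |C0| * t ^ q := by
      rw [hD]; ring
    rw [h4]
    linarith
  have hu2 : ‖u‖ ≤ 1 / 2 :=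
    hun.trans ((mul_le_mul_of_nonneg_left htq5 hDpos.le).trans htD)
  obtain ⟨h1u, -⟩ := G4a_inv hu2
  have hx'eq : x' = l * x * (1 + u) := by
    rw [hu]
    field_simp
    ring
  refine ⟨?_, ?_, ?_⟩
  · rw [hx'eq]
    exact mul_ne_zero hlx h1u
  · refine hun.trans ?_
    exact mul_le_mul_of_nonneg_right (by linarith [mul_nonneg hK0 hBs.le]) (by positivity)
  · set Y : ℂ := YX q b x with hY
    have hYv : Y = -1 / (q * b * x ^ q) := rfl
    have hYX : Y * x ^ q = -1 / (q * b) := by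
      rw [hYv]
      field_simp
    have hY0 : Y ≠ 0 := by
      rw [hYv]
      exact div_ne_zero (by norm_num) (mul_ne_zero (mul_ne_zero hqC hb0) hX0)
    have e1 : l ^ q * YX q b x' = Y * ((1 + u) ^ q)⁻¹ := by
      rw [hYv, hx'eq]
      unfold YX
      have hlq : l ^ q ≠ 0 := pow_ne_zero _ hl0
      have h1q : (1 + u) ^ q ≠ 0 := pow_ne_zero _ h1u
      rw [mul_pow, mul_pow]
      field_simp
    set E : ℂ := ((1 + u) ^ q)⁻¹ - (1 - q * u + q * (q + 1) / 2 * u ^ 2) with hE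
    have hEn : ‖E‖ ≤ Cq * ‖u‖ ^ 3 := hexp u hu2
    have e2 : l ^ q * YX q b x' - (Y + 1 + (((q : ℂ) + 1) / 2 - c / b ^ 2) / q / Y) =
        Y * (-(q * δ) + q * (q + 1) / 2 * ((u - b * x ^ q) * (u + b * x ^ q)) + E) := by
      have h1 : ((1 + u) ^ q)⁻¹ = E + (1 - q * u + q * (q + 1) / 2 * u ^ 2) := by
        rw [hE]; ring
      rw [e1, h1]
      have h2 : 1 / Y = -(q * b * x ^ q) := by
        rw [hYv]
        field_simp
      have h3 : (((q : ℂ) + 1) / 2 - c / b ^ 2) / q / Y =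
          (((q : ℂ) + 1) / 2 - c / b ^ 2) / q * (-(q * b * x ^ q)) := by
        rw [← h2]; ring
      have h4 : (((q : ℂ) + 1) / 2 - c / b ^ 2) / q * (-(q * b * x ^ q)) =
          -(((q : ℂ) + 1) / 2 * b * x ^ q) + c * x ^ q / b := by
        field_simp
        ring
      have h5 : Y * (q * b * x ^ q) = -1 := by
        rw [hYv]
        field_simp
      have h6 : (Y * x ^ q) * (q * b) = -1 := by
        rw [hYX]
        field_simp
      have h7 : c * x ^ q / b = -(q * c * (Y * x ^ q) * x ^ q) := by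
        rw [hYX]
        field_simp
      have h8 : ((q : ℂ) + 1) / 2 * b * x ^ q =
          -((q : ℂ) * (q + 1) / 2 * b ^ 2 * (Y * x ^ q) * x ^ q) := by
        rw [hYX]
        field_simp
      rw [h3, h4, h7, h8]
      have h9 : δ = u - b * x ^ q - c * (x ^ q) ^ 2 := by rw [hu']; ring
      rw [h9]
      linear_combination -h5
    rw [e2, norm_mul]
    have hYn : ‖Y‖ = 1 / (q * ‖b‖ * t ^ q) := by
      rw [hYv, norm_div, norm_neg, norm_one, norm_mul, norm_mul, norm_pow, Complex.norm_natCast]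
    have hbp : 0 < ‖b‖ := norm_pos_iff.2 hb0
    have htq : 0 < t ^ q := pow_pos ht0 q
    have hYle : ‖Y‖ * t ^ q ≤ B := by
      rw [hYn]
      have h1 : 1 / (q * ‖b‖ * t ^ q) * t ^ q = 1 / (q * ‖b‖) := by field_simp
      rw [h1, div_le_iff₀ (by positivity)]
      have h2 : 1 ≤ B * ‖b‖ := by
        have := mul_le_mul_of_nonneg_left hb2 hB.le
        rwa [mul_inv_cancel₀ hB.ne'] at this
      have h3 : B * ‖b‖ ≤ q * (B * ‖b‖) := le_mul_of_one_le_left (by positivity) hq1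
      calc 1 ≤ B * ‖b‖ := h2
        _ ≤ q * (B * ‖b‖) := h3
        _ = B * (q * ‖b‖) := by ring
    have hqq : ‖(q : ℂ) * (q + 1) / 2‖ = (q : ℝ) * (q + 1) / 2 := by
      have : (q : ℂ) * (q + 1) / 2 = (((q : ℝ) * (q + 1) / 2 : ℝ) : ℂ) := by push_cast; ring
      rw [this, Complex.norm_of_nonneg (by positivity)]
    have s1 : ‖-(q * δ)‖ ≤ q * (2 * |C0|) * t ^ (2 * q + 1) := by
      rw [norm_neg, norm_mul, Complex.norm_natCast, mul_assoc]
      exact mul_le_mul_of_nonneg_left hδ1 hq0.le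
    have s2 : ‖(q : ℂ) * (q + 1) / 2 * ((u - b * x ^ q) * (u + b * x ^ q))‖ ≤
        q * (q + 1) / 2 * (D * (D + B)) * t ^ (2 * q + 1) := by
      rw [norm_mul, norm_mul, hqq]
      have h1 : ‖u + b * x ^ q‖ ≤ (D + B) * t ^ q := by
        refine (norm_add_le _ _).trans ?_
        rw [add_mul]
        exact add_le_add hun hbX
      have h2 : ‖u - b * x ^ q‖ * ‖u + b * x ^ q‖ ≤ D * t ^ (2 * q) * ((D + B) * t ^ q) :=
        mul_le_mul hdiff h1 (norm_nonneg _) (by positivity)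
      have h3 : D * t ^ (2 * q) * ((D + B) * t ^ q) = D * (D + B) * t ^ (3 * q) := by
        rw [show 3 * q = 2 * q + q by ring, pow_add]
        ring
      have h4 : D * (D + B) * t ^ (3 * q) ≤ D * (D + B) * t ^ (2 * q + 1) :=
        mul_le_mul_of_nonneg_left htq4 (by positivity)
      rw [mul_assoc ((q : ℝ) * (q + 1) / 2)]
      exact mul_le_mul_of_nonneg_left (by linarith) (by positivity)
    have s3 : ‖E‖ ≤ Cq * D ^ 3 * t ^ (2 * q + 1) := by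
      refine hEn.trans ?_
      have h1 : ‖u‖ ^ 3 ≤ (D * t ^ q) ^ 3 := pow_le_pow_left₀ (norm_nonneg u) hun 3
      have h2 : (D * t ^ q) ^ 3 = D ^ 3 * t ^ (3 * q) := by
        rw [mul_pow, ← pow_mul, mul_comm q 3]
      have h3 : D ^ 3 * t ^ (3 * q) ≤ D ^ 3 * t ^ (2 * q + 1) :=
        mul_le_mul_of_nonneg_left htq4 (by positivity)
      rw [mul_assoc]
      exact mul_le_mul_of_nonneg_left (by linarith) hCq
    have hbrack : ‖-(q * δ) + (q : ℂ) * (q + 1) / 2 * ((u - b * x ^ q) * (u + b * x ^ q)) + E‖ ≤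
        (q * (2 * |C0|) + q * (q + 1) / 2 * (D * (D + B)) + Cq * D ^ 3) * t ^ (2 * q + 1) := by
      refine (norm_add_le _ _).trans ?_
      refine (add_le_add (norm_add_le _ _) le_rfl).trans ?_
      rw [add_mul, add_mul]
      exact add_le_add (add_le_add s1 s2) s3
    have hmain : ‖Y‖ * ‖-(q * δ) + (q : ℂ) * (q + 1) / 2 *
        ((u - b * x ^ q) * (u + b * x ^ q)) + E‖ ≤ K * t ^ (q + 1) := by
      refine (mul_le_mul_of_nonneg_left hbrack (norm_nonneg Y)).trans ?_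
      have h1 : t ^ (2 * q + 1) = t ^ q * t ^ (q + 1) := by
        rw [← pow_add]
        congr 1
        ring
      rw [h1, hK]
      have h2 : ‖Y‖ * ((q * (2 * |C0|) + q * (q + 1) / 2 * (D * (D + B)) + Cq * D ^ 3) *
          (t ^ q * t ^ (q + 1))) = (‖Y‖ * t ^ q) *
          ((q * (2 * |C0|) + q * (q + 1) / 2 * (D * (D + B)) + Cq * D ^ 3) * t ^ (q + 1)) := by
        ring
      rw [h2, mul_assoc B]
      exact mul_le_mul_of_nonneg_right hYle (by positivity)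
    refine hmain.trans ?_
    -- comparison of the powers
    have hpow : t ^ (q + 1) ≤ B ^ s * ‖Y‖ ^ (-s) := by
      have h1 : ‖Y‖ ^ (-s) = (q * ‖b‖ * t ^ q) ^ s := by
        rw [hYn, one_div, Real.inv_rpow (by positivity), Real.rpow_neg (by positivity), inv_inv]
      rw [h1, ← Real.mul_rpow hB.le (by positivity)]
      have h2 : (t ^ q) ^ s = t ^ (q + 1) := by
        rw [← Real.rpow_natCast t q, ← Real.rpow_mul ht0.le]
        have h3 : (q : ℝ) * s = ((q + 1 : ℕ) : ℝ) := by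
          rw [hs]
          push_cast
          field_simp
        rw [h3, Real.rpow_natCast]
      rw [← h2]
      refine Real.rpow_le_rpow (by positivity) ?_ hs0.le
      have h4 : 1 ≤ B * (q * ‖b‖) := by
        have h5 : 1 ≤ B * ‖b‖ := by
          have := mul_le_mul_of_nonneg_left hb2 hB.le
          rwa [mul_inv_cancel₀ hB.ne'] at this
        calc 1 ≤ B * ‖b‖ := h5
          _ ≤ q * (B * ‖b‖) := le_mul_of_one_le_left (by positivity) hq1
          _ = B * (q * ‖b‖) := by ring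
      calc t ^ q = 1 * t ^ q := (one_mul _).symm
        _ ≤ B * (q * ‖b‖) * t ^ q := mul_le_mul_of_nonneg_right h4 htq.le
        _ = B * (q * ‖b‖ * t ^ q) := by ring
    have hYs : 0 ≤ ‖Y‖ ^ (-s) := Real.rpow_nonneg (norm_nonneg Y) _
    calc K * t ^ (q + 1) ≤ K * (B ^ s * ‖Y‖ ^ (-s)) := mul_le_mul_of_nonneg_left hpow hK0
      _ = K * B ^ s * ‖Y‖ ^ (-s) := by ring
      _ ≤ (D + K * B ^ s) * ‖Y‖ ^ (-s) := mul_le_mul_of_nonneg_right (by linarith) hYs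

end Pool.Agent.CR.G
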