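import Pool.Agent.H68.CR.R16
import Pool.Agent.H48.CR.G2
import Pool.Agent.H48.CR.G2b
import Pool.Agent.H48.CR.G3
import Pool.Agent.H48.CR.G4a

/-!
# CR G4: existence of the normal form structure

`l0 = mu (p/q)`: `l0^k = 1` iff `q ∣ k` (`mu_pow_eq_one` of H68.CR.R5), so `exists_chi` applies. `R_main` (H68.CR.R16) gives `Par ((f l0)^[q]) A q`, so `b l0 ≠ 0` by `b_ne_zero`; by continuity `b ≠ 0`, `‖b‖ ≥ 1/B` on a smaller closed ball
`closedBall l0 r0`, `r0 ≤ 1/2` (compact). `ρ l = ((q+1)/2 - c l / (b l)^2) / q`. `r1` small: `C * 4 r1 ≤ 1/2` gives `χ_near` (mean value inequality on the convex ball `ball 0 (4 r1)`, `r1 ≤ 1/4`).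
`η l`: `inv_lemma` with `U = ball 0 r1`, `ρ = const r1`, `c ζ = ζ - χ l ζ` (`‖c‖ ≤ ‖ζ‖ / 2` from `χ_near` with `z' = 0`; on `closedBall w (2 r1)`, `‖ζ‖ ≤ 3 r1`, `‖c ζ‖ ≤ C (3 r1)^2 ≤ r1` if `r1` is small; the derivative is `≤ C * 3 r1 ≤ 1/2`).
`η_norm`: `‖χ z - z‖ ≤ ‖z‖/2`, so `‖z‖ ≤ 2 ‖χ z‖`. `η_cont`: `‖η l y - η l' y'‖ ≤ 2 ‖χ l (η l y) - χ l (η l' y')‖ ≤ 2 (‖y - y'‖ + ‖χ l' x' - χ l x'‖)`, `x' = η l' y'`, and `χ` is jointly continuous.
`step`: `‖z‖ < 2 r1`: `x = χ l z`, `‖z‖ ≤ 2 ‖x‖`, `x ≠ 0`, apply `YX_step` with `x' = χ l (f l z)`, `C0 = C 2^(2q+2)`, `r1` small so that `‖x‖ ≤ 3 r1` is small enough; `1/2 ≤ ‖l‖ ≤ 3/2`.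
-/

set_option autoImplicit false

open Set Filter Topology Metric

namespace Pool.Agent.CR.G

/-- closeness to the identity from a bound of the derivative -/
private theorem G4_near {g : ℂ → ℂ} (hg : Differentiable ℂ g) {C r : ℝ} (hC : 0 ≤ C) (hr : r ≤ 1)
    (hCr : C * r ≤ 1 / 4)
    (hd : ∀ z : ℂ, ‖z‖ ≤ 1 → ‖deriv g z - 1‖ ≤ C * ‖z‖) {z z' : ℂ} (hz : z ∈ ball (0 : ℂ) r)
    (hz' : z' ∈ ball (0 : ℂ) r) : ‖g z - g z' - (z - z')‖ ≤ 1 / 4 * ‖z - z'‖ := by
  have h1 : ∀ x ∈ ball (0 : ℂ) r, DifferentiableAt ℂ (fun y => g y - y) x := fun x _ =>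
    (hg x).sub differentiableAt_id
  have h2 : ∀ x ∈ ball (0 : ℂ) r, ‖deriv (fun y => g y - y) x‖ ≤ 1 / 4 := by
    intro x hx
    rw [mem_ball_zero_iff] at hx
    have e : deriv (fun y => g y - y) x = deriv g x - 1 :=
      ((hg x).hasDerivAt.fun_sub (hasDerivAt_id' x)).deriv
    rw [e]
    refine (hd x (hx.le.trans hr)).trans ?_
    exact (mul_le_mul_of_nonneg_left hx.le hC).trans hCr
  have h3 := (convex_ball (0 : ℂ) r).norm_image_sub_le_of_norm_deriv_le h1 h2 hz' hz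
  have e : g z - g z' - (z - z') = (g z - z) - (g z' - z') := by ring
  rw [e]
  exact h3

theorem exists_NF {p q : ℕ} (hp : 0 < p) (hpq : p < q) (hc : Nat.Coprime p q) : Nonempty (NF p q) := by
  have hq0 : 0 < q := by omega
  have hq : 1 ≤ q := hq0
  have hk : ∀ k, 1 ≤ k → k ≤ 2 * q - 1 → k ≠ q → mu ((p : ℝ) / q) ^ k ≠ 1 := by
    intro k hk1 hk2 hk3 h
    obtain ⟨m, hm⟩ := mu_pow_eq_one hq0 hc h
    rcases Nat.lt_or_ge m 2 with h2 | h2
    · interval_cases m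
      · omega
      · omega
    · have : q * 2 ≤ q * m := Nat.mul_le_mul_left q h2
      omega
  have hn : ‖mu ((p : ℝ) / q)‖ = 1 := norm_mu _
  obtain ⟨A, φ0, hPar, -, -⟩ := R_main hp hpq hc
  obtain ⟨l0, hl0⟩ : ∃ l0 : ℂ, l0 = mu ((p : ℝ) / q) := ⟨_, rfl⟩
  rw [← hl0] at hk hn hPar
  have hl0ne : l0 ≠ 0 := by
    intro h
    rw [h, norm_zero] at hn
    exact zero_ne_one hn
  have hl0q : l0 ^ q = 1 := by
    rw [hl0]
    unfold mu
    rw [← Complex.exp_nat_mul, Complex.exp_eq_one_iff]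
    refine ⟨p, ?_⟩
    have hqc : (q : ℂ) ≠ 0 := by exact_mod_cast hq0.ne'
    push_cast
    field_simp
  obtain ⟨r, C0, χ, b, c, hr, hr2, hC0, hb, hcc, hχc, H⟩ := exists_chi hq hl0ne hk
  have hmem : l0 ∈ closedBall l0 r := mem_closedBall_self hr.le
  have hb0 : b l0 ≠ 0 := by
    obtain ⟨G, hG, hG0, hGF⟩ := hPar.ex
    obtain ⟨g1, g2, g3, g4, g5⟩ := H l0 hmem
    exact b_ne_zero hq hl0q g1 g2 g3 g5 hPar.ne_zero hG.continuous.continuousAt hG0 hGF
  -- the radius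
  have hbat : ContinuousAt b l0 := hb.continuousAt (closedBall_mem_nhds l0 hr)
  have hb0n : 0 < ‖b l0‖ := norm_pos_iff.2 hb0
  have hev : ∀ᶠ l in 𝓝 l0, ‖b l0‖ / 2 < ‖b l‖ :=
    hbat.norm.eventually (lt_mem_nhds (by linarith))
  obtain ⟨ε, hε, hεb⟩ := Metric.nhds_basis_closedBall.eventually_iff.1 hev
  obtain ⟨r0, hr0⟩ : ∃ r0 : ℝ, r0 = min r ε := ⟨_, rfl⟩
  have hr0pos : 0 < r0 := by rw [hr0]; exact lt_min hr hε
  have hr0r : r0 ≤ r := by rw [hr0]; exact min_le_left _ _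
  have hsub : closedBall l0 r0 ⊆ closedBall l0 r := closedBall_subset_closedBall hr0r
  have hbl : ∀ l ∈ closedBall l0 r0, ‖b l0‖ / 2 < ‖b l‖ := by
    intro l hl
    refine hεb (closedBall_subset_closedBall ?_ hl)
    rw [hr0]
    exact min_le_right _ _
  have hcomp : IsCompact (closedBall l0 r0) := isCompact_closedBall l0 r0
  obtain ⟨B1, hB1⟩ := hcomp.exists_bound_of_continuousOn (hb.mono hsub)
  obtain ⟨B2, hB2⟩ := hcomp.exists_bound_of_continuousOn (hcc.mono hsub)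
  obtain ⟨B, hB⟩ : ∃ B : ℝ, B = max (max B1 B2) (2 / ‖b l0‖) := ⟨_, rfl⟩
  have hBpos : 0 < B := by
    rw [hB]
    exact lt_of_lt_of_le (by positivity) (le_max_right _ _)
  have hBb : ∀ l ∈ closedBall l0 r0, ‖b l‖ ≤ B := fun l hl => by
    rw [hB]
    exact (hB1 l hl).trans ((le_max_left _ _).trans (le_max_left _ _))
  have hBc : ∀ l ∈ closedBall l0 r0, ‖c l‖ ≤ B := fun l hl => by
    rw [hB]
    exact (hB2 l hl).trans ((le_max_right _ _).trans (le_max_left _ _))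
  have hBi : ∀ l ∈ closedBall l0 r0, B⁻¹ ≤ ‖b l‖ := fun l hl => by
    have h1 : 2 / ‖b l0‖ ≤ B := by rw [hB]; exact le_max_right _ _
    have h2 : B⁻¹ ≤ (2 / ‖b l0‖)⁻¹ := inv_anti₀ (by positivity) h1
    rw [inv_div] at h2
    exact h2.trans (hbl l hl).le
  have hbne : ∀ l ∈ closedBall l0 r0, b l ≠ 0 := fun l hl => by
    rw [← norm_pos_iff]
    have := hbl l hl
    linarith
  obtain ⟨rY, CY, hrY, hCY, hY⟩ := YX_step hq (C0 := C0 * 2 ^ (2 * q + 2)) hBpos
  -- the radius `r1`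
  obtain ⟨r1, hr1⟩ : ∃ r1 : ℝ, r1 = min (1 / 4) (min (1 / (16 * C0)) (rY / 4)) := ⟨_, rfl⟩
  have hr1pos : 0 < r1 := by rw [hr1]; positivity
  have hr1a : r1 ≤ 1 / 4 := by rw [hr1]; exact min_le_left _ _
  have hr1b : C0 * (4 * r1) ≤ 1 / 4 := by
    have h1 : r1 ≤ 1 / (16 * C0) := by
      rw [hr1]
      exact (min_le_right _ _).trans (min_le_left _ _)
    rw [le_div_iff₀ (by positivity)] at h1
    linarith
  have hr1c : r1 ≤ rY / 4 := by
    rw [hr1]
    exact (min_le_right _ _).trans (min_le_right _ _)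
  have hnear : ∀ l ∈ closedBall l0 r0, ∀ z ∈ ball (0 : ℂ) (4 * r1), ∀ z' ∈ ball (0 : ℂ) (4 * r1),
      ‖χ l z - χ l z' - (z - z')‖ ≤ 1 / 4 * ‖z - z'‖ := by
    intro l hl z hz z' hz'
    obtain ⟨g1, g2, g3, g4, g5⟩ := H l (hsub hl)
    exact G4_near g1 hC0.le (by linarith) hr1b g4 hz hz'
  have hnear0 : ∀ l ∈ closedBall l0 r0, ∀ z ∈ ball (0 : ℂ) (4 * r1),
      ‖χ l z - z‖ ≤ 1 / 4 * ‖z‖ := by
    intro l hl z hz
    have h1 := hnear l hl z hz 0 (mem_ball_self (by linarith))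
    rw [(H l (hsub hl)).2.1, sub_zero, sub_zero] at h1
    exact h1
  -- the inverse
  have hinv : ∀ l, ∃ J : ℂ → ℂ, l ∈ closedBall l0 r0 → DifferentiableOn ℂ J (ball 0 r1) ∧
      ∀ w ∈ ball (0 : ℂ) r1, J w ∈ closedBall w r1 ∧ χ l (J w) = w := by
    intro l
    by_cases hl : l ∈ closedBall l0 r0
    · obtain ⟨g1, g2, g3, g4, g5⟩ := H l (hsub hl)
      obtain ⟨J, hJ1, hJ2, -⟩ := inv_lemma (U := ball (0 : ℂ) r1) (ρ := fun _ => r1)
        (c := fun ζ => ζ - χ l ζ) isOpen_ball continuousOn_const (fun _ _ => hr1pos) (by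
          intro w hw ζ hζ
          have hζn : ‖ζ‖ < 4 * r1 := by
            rw [mem_closedBall, dist_eq_norm] at hζ
            rw [mem_ball_zero_iff] at hw
            have h1 := norm_add_le (ζ - w) w
            rw [sub_add_cancel] at h1
            linarith
          refine ⟨differentiableAt_id.sub (g1 ζ), ?_, ?_⟩
          · have e : deriv (fun ζ => ζ - χ l ζ) ζ = -(deriv (χ l) ζ - 1) := by
              rw [((hasDerivAt_id' ζ).fun_sub (g1 ζ).hasDerivAt).deriv]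
              ring
            rw [e, norm_neg]
            refine (g4 ζ (by linarith)).trans ?_
            have := mul_le_mul_of_nonneg_left hζn.le hC0.le
            linarith
          · have h1 := hnear0 l hl ζ (by rwa [mem_ball_zero_iff])
            rw [norm_sub_rev] at h1
            refine h1.trans ?_
            linarith)
      refine ⟨J, fun _ => ⟨hJ1, fun w hw => ⟨(hJ2 w hw).1, ?_⟩⟩⟩
      have h1 := (hJ2 w hw).2
      linear_combination h1
    · exact ⟨fun _ => 0, fun h => absurd h hl⟩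
  choose η hη using hinv
  have hηball : ∀ l ∈ closedBall l0 r0, ∀ y ∈ ball (0 : ℂ) r1, η l y ∈ ball (0 : ℂ) (4 * r1) := by
    intro l hl y hy
    have h1 := ((hη l hl).2 y hy).1
    rw [mem_closedBall, dist_eq_norm] at h1
    rw [mem_ball_zero_iff] at hy ⊢
    have h2 := norm_add_le (η l y - y) y
    rw [sub_add_cancel] at h2
    linarith
  have hρc : ContinuousOn (fun l => (((q : ℂ) + 1) / 2 - c l / b l ^ 2) / q) (closedBall l0 r0) := by
    refine ContinuousOn.div_const (continuousOn_const.sub ?_) _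
    exact (hcc.mono hsub).div ((hb.mono hsub).pow 2) fun l hl => pow_ne_zero 2 (hbne l hl)
  have hηcont : ContinuousOn (fun x : ℂ × ℂ => η x.1 x.2) (closedBall l0 r0 ×ˢ ball 0 r1) := by
    rintro ⟨l', y'⟩ hx
    obtain ⟨hl', hy'⟩ := hx
    simp only at hl' hy'
    have hx' := hηball l' hl' y' hy'
    rw [ContinuousWithinAt, tendsto_iff_dist_tendsto_zero]
    have hlim : Tendsto (fun x : ℂ × ℂ => 2 * ‖x.2 - χ x.1 (η l' y')‖)
        (𝓝[closedBall l0 r0 ×ˢ ball 0 r1] (l', y')) (𝓝 0) := by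
      have h1 : ContinuousWithinAt (fun x : ℂ × ℂ => χ x.1 (η l' y'))
          (closedBall l0 r0 ×ˢ ball 0 r1) (l', y') := by
        have h2 := hχc (l', η l' y') ⟨hsub hl', mem_univ _⟩
        refine ContinuousWithinAt.comp (g := fun x : ℂ × ℂ => χ x.1 x.2)
          (f := fun x : ℂ × ℂ => (x.1, η l' y')) h2 (by fun_prop) ?_
        rintro ⟨l, y⟩ ⟨hl, -⟩
        exact ⟨hsub hl, mem_univ _⟩
      have h3 : ContinuousWithinAt (fun x : ℂ × ℂ => 2 * ‖x.2 - χ x.1 (η l' y')‖)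
          (closedBall l0 r0 ×ˢ ball 0 r1) (l', y') :=
        (continuous_snd.continuousWithinAt.sub h1).norm.const_mul 2
      have h4 := h3.tendsto
      simp only at h4
      rw [((hη l' hl').2 y' hy').2, sub_self, norm_zero, mul_zero] at h4
      exact h4
    refine squeeze_zero' (Eventually.of_forall fun _ => dist_nonneg) ?_ hlim
    filter_upwards [self_mem_nhdsWithin] with x hx
    obtain ⟨hl, hy⟩ := hx
    have h1 := hηball x.1 hl x.2 hy
    have h2 := hnear x.1 hl _ h1 _ hx'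
    rw [((hη x.1 hl).2 x.2 hy).2] at h2
    rw [dist_eq_norm]
    have h3 : ‖η x.1 x.2 - η l' y'‖ ≤ ‖x.2 - χ x.1 (η l' y')‖ +
        ‖x.2 - χ x.1 (η l' y') - (η x.1 x.2 - η l' y')‖ := by
      have := norm_sub_le (x.2 - χ x.1 (η l' y'))
        (x.2 - χ x.1 (η l' y') - (η x.1 x.2 - η l' y'))
      rwa [sub_sub_cancel] at this
    have h4 := norm_nonneg (η x.1 x.2 - η l' y')
    linarith
  refine ⟨{
    r0 := r0
    r1 := r1
    C := CY
    χ := χ
    η := η
    b := b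
    ρ := fun l => (((q : ℂ) + 1) / 2 - c l / b l ^ 2) / q
    r0_pos := hr0pos
    r0_le := hr0r.trans hr2
    r1_pos := hr1pos
    r1_le := hr1a
    C_pos := hCY
    b_cont := ?_
    b_ne := ?_
    ρ_cont := ?_
    χ_cont := ?_
    χ_diff := ?_
    χ_zero := ?_
    χ_deriv := ?_
    χ_near := ?_
    η_diff := ?_
    η_norm := ?_
    χ_η := ?_
    η_cont := ?_
    step := ?_ }⟩
  all_goals rw [← hl0]
  · exact hb.mono hsub
  · exact hbne
  · exact hρc
  · exact hχc.mono (prod_mono hsub Subset.rfl)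
  · exact fun l hl => (H l (hsub hl)).1
  · exact fun l hl => (H l (hsub hl)).2.1
  · exact fun l hl => (H l (hsub hl)).2.2.1
  · intro l hl z hz z' hz'
    have h1 := hnear l hl z hz z' hz'
    have h2 := norm_nonneg (z - z')
    linarith
  · exact fun l hl => (hη l hl).1
  · intro l hl y hy
    have h1 := hnear0 l hl _ (hηball l hl y hy)
    rw [((hη l hl).2 y hy).2, norm_sub_rev] at h1
    have h2 := norm_add_le (η l y - y) y
    rw [sub_add_cancel] at h2
    have h3 := norm_nonneg y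
    have h4 := norm_nonneg (η l y)
    linarith
  · exact fun l hl y hy => ((hη l hl).2 y hy).2
  · exact hηcont
  · intro l hl z hz0 hz
    obtain ⟨g1, g2, g3, g4, g5⟩ := H l (hsub hl)
    have hz1 : z ∈ ball (0 : ℂ) (4 * r1) := by
      rw [mem_ball_zero_iff]
      linarith
    have h1 := hnear0 l hl z hz1
    have hzp : 0 < ‖z‖ := norm_pos_iff.2 hz0
    have h2 : ‖z‖ ≤ 2 * ‖χ l z‖ := by
      have h3 := norm_sub_le (χ l z) (χ l z - z)
      rw [sub_sub_cancel] at h3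
      linarith
    have h3 : ‖χ l z‖ ≤ rY := by
      have h4 := norm_add_le (χ l z - z) z
      rw [sub_add_cancel] at h4
      linarith
    have hx0 : χ l z ≠ 0 := by
      intro h
      rw [h, norm_zero] at h2
      linarith
    have hln : ‖l - l0‖ ≤ 1 / 2 := by
      have := hsub hl
      rw [mem_closedBall, dist_eq_norm] at this
      linarith
    have hl1 : 1 / 2 ≤ ‖l‖ := by
      have h4 := norm_sub_le l (l - l0)
      rw [sub_sub_cancel, hn] at h4
      linarith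
    have hl2 : ‖l‖ ≤ 2 := by
      have h4 := norm_add_le (l - l0) l0
      rw [sub_add_cancel, hn] at h4
      linarith
    have h5 : ‖χ l (f l z) - l * χ l z * (1 + b l * χ l z ^ q + c l * χ l z ^ (2 * q))‖ ≤
        C0 * 2 ^ (2 * q + 2) * ‖χ l z‖ ^ (2 * q + 2) := by
      refine (g5 z (by linarith)).trans ?_
      rw [mul_assoc, ← mul_pow]
      exact mul_le_mul_of_nonneg_left (pow_le_pow_left₀ (norm_nonneg _) h2 _) hC0.le
    obtain ⟨k1, k2, k3⟩ := hY l (b l) (c l) (χ l z) (χ l (f l z)) (hBb l hl) (hBi l hl) (hBc l hl)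
      hl1 hl2 hx0 h3 h5
    exact ⟨hx0, k1, k2, k3⟩

end Pool.Agent.CR.G
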