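import Pool.Agent.H48.CR.G5a

/-!
# CR G5b: elementary estimates for `ee`, `cn`, `YY`, `S`

With `x = ζ / n`: `1 - (ee n ζ)⁻¹ = 1 - exp (-2 π i x)`, `‖1 - exp (-2 π i x)‖ = 2 exp (π x.im) * ‖sin (π x)‖`, `‖sin (π x)‖^2 = sin(π x.re)^2 + sinh(π x.im)^2 ≥ 4 dist(x, ℤ)^2`
(`|sin (π a)| ≥ 2 dist(a, ℤ)`, `|sinh t| ≥ |t|`, `π ≥ 2`), and `x.im ≥ -1` so `exp (π x.im) ≥ exp (-π)`: `one_sub_inv_ee`. `dn n ζ = n * dist (x, ℤ)`.
`cn n = 1 / (exp (2 π i / n) - 1)`; `exp w - 1 = w (1 + O(w))`, `w = 2 π i / n`: `cn_bound` (for `4 ≤ n`: `‖exp (2 π i / n) - 1‖ = 2 sin (π / n)`, between `4/n` and `2 π/n`; `n / (2 π i cn n) - 1 = (exp w - 1)/w - 1`, `‖·‖ ≤ ‖w‖` if `‖w‖ ≤ 1`, bounded otherwise).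
`ee_dn`: if `ζ.im ≥ 0`, `dn ≤ n/2 + ζ.im` and `exp (-2 π ζ.im / n) ≤ 1`, `ζ.im exp (-2π ζ.im/n) ≤ n`; if `-n ≤ ζ.im < 0`: `dn ≤ 2 n`, `‖ee‖ ≤ exp (2 π)`.
`S_slit`: `1 - ee` is a nonpositive real only if `ee ∈ [1, ∞)`, i.e. `ζ / n ∈ ℤ - i [0, ∞)`: excluded in `V n 0` (`-ζ.im < 2 |ζ.re - k n|` with `ζ.re = k n` gives `ζ.im > 0`).
`S_upper`: `‖1 - ee‖ ≤ C min (1, dn / n)`: `ee` is bounded by `exp (2π)` and has derivative `(2 π i / n) ee`; with the nearest hole `k n` (segment in the half plane `im ≥ -n`): `‖1 - ee n ζ‖ = ‖ee (k n) - ee ζ‖ ≤ (2π/n) exp (2π) dn`.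
`S_lower`: `‖1 - ee‖ = ‖ee‖ ‖1 - ee⁻¹‖`; if `ζ.im ≤ n`, `‖ee‖ ≥ exp (-2 π)` and use `one_sub_inv_ee` (and `dn ≥ 1`); if `ζ.im > n`, `‖1 - ee‖ ≥ 1/2` and `n ≥ 1`.
-/

set_option autoImplicit false

open Set Filter Topology Metric

namespace Pool.Agent.CR.G

theorem ee_ne_zero (n : ℝ) (ζ : ℂ) : ee n ζ ≠ 0 := by
  exact Complex.exp_ne_zero _

theorem ee_add {n : ℝ} (hn : 0 < n) (ζ : ℂ) (k : ℤ) : ee n (ζ + k * n) = ee n ζ := by
  unfold ee
  have hn' : (n : ℂ) ≠ 0 := by exact_mod_cast hn.ne'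
  have h : 2 * Real.pi * Complex.I * (ζ + k * n) / n =
      2 * Real.pi * Complex.I * ζ / n + k * (2 * Real.pi * Complex.I) := by
    field_simp
  rw [h, Complex.exp_add, Complex.exp_int_mul_two_pi_mul_I, mul_one]

theorem ee_norm {n : ℝ} (hn : 0 < n) (ζ : ℂ) : ‖ee n ζ‖ = Real.exp (-(2 * Real.pi * ζ.im / n)) := by
  unfold ee
  rw [Complex.norm_exp]
  congr 1
  have h : 2 * Real.pi * Complex.I * ζ / n = ((2 * Real.pi / n : ℝ) : ℂ) * (Complex.I * ζ) := by
    push_cast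
    ring
  rw [h, Complex.re_ofReal_mul, Complex.I_mul_re]
  ring

theorem ee_bound {n : ℝ} (hn : 0 < n) {ζ : ℂ} (h : -n ≤ ζ.im) : ‖ee n ζ‖ ≤ Real.exp (2 * Real.pi) := by
  rw [ee_norm hn]
  apply Real.exp_le_exp.2
  have hp := Real.pi_pos
  have h1 : -(2 * Real.pi * ζ.im / n) = 2 * Real.pi * (-ζ.im / n) := by ring
  rw [h1]
  have h2 : -ζ.im / n ≤ 1 := by
    rw [div_le_one hn]
    linarith
  nlinarith

theorem ee_hasDerivAt {n : ℝ} (hn : 0 < n) (ζ : ℂ) :
    HasDerivAt (ee n) (2 * Real.pi * Complex.I / n * ee n ζ) ζ := by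
  have h1 : HasDerivAt (fun z : ℂ => 2 * Real.pi * Complex.I * z / n)
      (2 * Real.pi * Complex.I / n) ζ := by
    have h2 := ((hasDerivAt_id ζ).const_mul (2 * (Real.pi : ℂ) * Complex.I)).div_const (n : ℂ)
    simpa using h2
  have h3 := h1.cexp
  have h4 : 2 * (Real.pi : ℂ) * Complex.I / n * ee n ζ =
      Complex.exp (2 * Real.pi * Complex.I * ζ / n) * (2 * Real.pi * Complex.I / n) := by
    unfold ee
    ring
  rw [h4]
  exact h3

/-- reduction to the nearest hole -/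
private theorem G5b_red {n : ℝ} (hn : 0 < n) (ζ : ℂ) : ∃ u : ℂ, ee n ζ = Complex.exp u ∧
    ‖u‖ = 2 * Real.pi * dn n ζ / n ∧ |u.im| ≤ Real.pi ∧ u.re = -(2 * Real.pi * ζ.im / n) := by
  have hp := Real.pi_pos
  obtain ⟨k, hk⟩ : ∃ k : ℤ, k = round (ζ.re / n) := ⟨_, rfl⟩
  refine ⟨((2 * Real.pi / n : ℝ) : ℂ) * (Complex.I * (ζ - k * n)), ?_, ?_, ?_, ?_⟩
  · have h1 := ee_add hn ζ (-k)
    rw [← h1]
    unfold ee
    congr 1
    push_cast
    ring
  · rw [norm_mul, norm_mul, Complex.norm_I, one_mul, Complex.norm_real, Real.norm_of_nonneg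
      (by positivity)]
    unfold dn
    rw [← hk]
    ring
  · rw [Complex.im_ofReal_mul, Complex.I_mul_im]
    have h1 : (ζ - k * n).re = ζ.re - k * n := by simp
    rw [h1, hk]
    have h2 := abs_sub_round (ζ.re / n)
    have h3 : 2 * Real.pi / n * (ζ.re - (round (ζ.re / n) : ℤ) * n) =
        2 * Real.pi * (ζ.re / n - (round (ζ.re / n) : ℤ)) := by
      field_simp
    rw [h3, abs_mul, abs_of_pos (by positivity)]
    nlinarith
  · rw [Complex.re_ofReal_mul, Complex.I_mul_re]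
    have h1 : (ζ - k * n).im = ζ.im := by simp
    rw [h1]
    ring

/-- a lower bound for `1 - exp u` -/
private theorem G5b_low {u : ℂ} (hi : |u.im| ≤ Real.pi) (hr : -(2 * Real.pi) ≤ u.re) :
    Real.exp (-(2 * Real.pi)) * (2 / Real.pi) * ‖u‖ ≤ ‖1 - Complex.exp u‖ := by
  have hp := Real.pi_pos
  have hp3 := Real.pi_gt_three
  obtain ⟨t, ht⟩ : ∃ t : ℝ, t = u.re := ⟨_, rfl⟩
  obtain ⟨θ, hθ⟩ : ∃ θ : ℝ, θ = u.im := ⟨_, rfl⟩
  rw [← hθ] at hi
  rw [← ht] at hr
  obtain ⟨e, he⟩ : ∃ e : ℝ, e = Real.exp (-(2 * Real.pi)) := ⟨_, rfl⟩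
  have he0 : 0 < e := by
    rw [he]
    exact Real.exp_pos _
  have he1 : e ≤ 1 := by
    rw [he]
    exact Real.exp_le_one_iff.2 (by linarith)
  have het : e ≤ Real.exp t := by
    rw [he]
    exact Real.exp_le_exp.2 hr
  have hE0 := Real.exp_pos t
  -- the square of the norm
  have h1 : ‖1 - Complex.exp u‖ ^ 2 = (Real.exp t - 1) ^ 2 + 4 * Real.exp t * Real.sin (θ / 2) ^ 2 := by
    rw [Complex.sq_norm, Complex.normSq_apply, Complex.sub_re, Complex.sub_im, Complex.one_re,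
      Complex.one_im, Complex.exp_re, Complex.exp_im, ← ht, ← hθ]
    have h2 : Real.cos θ = 1 - 2 * Real.sin (θ / 2) ^ 2 := by
      have h3 := Real.cos_sq' (θ / 2)
      have h4 := Real.cos_two_mul (θ / 2)
      have h5 : 2 * (θ / 2) = θ := by ring
      rw [h5] at h4
      rw [h4, h3]
      ring
    have h6 := Real.sin_sq_add_cos_sq θ
    have h7 : (1 - Real.exp t * Real.cos θ) * (1 - Real.exp t * Real.cos θ) +
        (0 - Real.exp t * Real.sin θ) * (0 - Real.exp t * Real.sin θ) =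
        1 - 2 * Real.exp t * Real.cos θ + Real.exp t ^ 2 * (Real.sin θ ^ 2 + Real.cos θ ^ 2) := by
      ring
    rw [h7, h6, h2]
    ring
  have h2 : e ^ 2 * t ^ 2 ≤ (Real.exp t - 1) ^ 2 := by
    have h3 : e * |t| ≤ |Real.exp t - 1| := by
      rcases le_total 0 t with h0 | h0
      · rw [abs_of_nonneg h0]
        have h4 := Real.add_one_le_exp t
        rw [abs_of_nonneg (by linarith)]
        nlinarith
      · rw [abs_of_nonpos h0]
        have h4 := Real.add_one_le_exp (-t)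
        have h5 : Real.exp t * Real.exp (-t) = 1 := by
          rw [← Real.exp_add, add_neg_cancel, Real.exp_zero]
        have h6 : Real.exp t ≤ 1 := Real.exp_le_one_iff.2 h0
        rw [abs_of_nonpos (by linarith)]
        have h7 : Real.exp t * (-t) ≤ Real.exp t * (Real.exp (-t) - 1) :=
          mul_le_mul_of_nonneg_left (by linarith) hE0.le
        have h8 : e * (-t) ≤ Real.exp t * (-t) := mul_le_mul_of_nonneg_right het (by linarith)
        nlinarith
    have h4 := mul_self_le_mul_self (by positivity) h3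
    have h5 : e ^ 2 * t ^ 2 = e * |t| * (e * |t|) := by
      rw [← sq_abs t]
      ring
    have h6 : (Real.exp t - 1) ^ 2 = |Real.exp t - 1| * |Real.exp t - 1| := by
      rw [← sq_abs (Real.exp t - 1)]
      ring
    rw [h5, h6]
    exact h4
  have h3 : e * (4 / Real.pi ^ 2 * θ ^ 2) ≤ 4 * Real.exp t * Real.sin (θ / 2) ^ 2 := by
    have h4 : 2 / Real.pi * |θ / 2| ≤ |Real.sin (θ / 2)| := by
      apply Real.mul_abs_le_abs_sin
      rw [abs_div, abs_two]
      linarith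
    have h5 := mul_self_le_mul_self (by positivity) h4
    have h6 : (2 / Real.pi * |θ / 2|) * (2 / Real.pi * |θ / 2|) = 1 / Real.pi ^ 2 * θ ^ 2 := by
      have : |θ / 2| * |θ / 2| = θ ^ 2 / 4 := by
        rw [abs_mul_abs_self]
        ring
      calc (2 / Real.pi * |θ / 2|) * (2 / Real.pi * |θ / 2|) =
          4 / Real.pi ^ 2 * (|θ / 2| * |θ / 2|) := by ring
        _ = _ := by
          rw [this]
          ring
    have h7 : |Real.sin (θ / 2)| * |Real.sin (θ / 2)| = Real.sin (θ / 2) ^ 2 := by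
      rw [abs_mul_abs_self]
      ring
    rw [h6, h7] at h5
    calc e * (4 / Real.pi ^ 2 * θ ^ 2) = 4 * e * (1 / Real.pi ^ 2 * θ ^ 2) := by ring
      _ ≤ 4 * Real.exp t * (1 / Real.pi ^ 2 * θ ^ 2) :=
        mul_le_mul_of_nonneg_right (by linarith) (by positivity)
      _ ≤ _ := mul_le_mul_of_nonneg_left h5 (by positivity)
  have h4 : (e * (2 / Real.pi) * ‖u‖) ^ 2 ≤ ‖1 - Complex.exp u‖ ^ 2 := by
    have h5 : ‖u‖ ^ 2 = t ^ 2 + θ ^ 2 := by
      rw [Complex.sq_norm, Complex.normSq_apply, ← ht, ← hθ]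
      ring
    rw [h1, mul_pow, h5]
    have h6 : (e * (2 / Real.pi)) ^ 2 * (t ^ 2 + θ ^ 2) =
        e ^ 2 * (4 / Real.pi ^ 2) * t ^ 2 + e ^ 2 * (4 / Real.pi ^ 2) * θ ^ 2 := by ring
    rw [h6]
    have h7 : 4 / Real.pi ^ 2 ≤ 1 := by
      rw [div_le_one (by positivity)]
      nlinarith
    have h8 : e ^ 2 * (4 / Real.pi ^ 2) * t ^ 2 ≤ e ^ 2 * t ^ 2 := by
      apply mul_le_mul_of_nonneg_right _ (sq_nonneg t)
      exact mul_le_of_le_one_right (sq_nonneg e) h7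
    have h9 : e ^ 2 * (4 / Real.pi ^ 2) * θ ^ 2 ≤ e * (4 / Real.pi ^ 2 * θ ^ 2) := by
      rw [mul_assoc]
      apply mul_le_mul_of_nonneg_right _ (by positivity)
      nlinarith
    linarith
  rw [← he]
  exact le_of_sq_le_sq h4 (norm_nonneg _)

/-- an upper bound for `1 - exp u` -/
private theorem G5b_up {u : ℂ} (hr : u.re ≤ 2 * Real.pi) :
    ‖1 - Complex.exp u‖ ≤ Real.exp (2 * Real.pi) * ‖u‖ := by
  have hp := Real.pi_pos
  have hconv : Convex ℝ {z : ℂ | z.re ≤ 2 * Real.pi} := convex_halfSpace_re_le _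
  have h := hconv.norm_image_sub_le_of_norm_hasDerivWithin_le (f := Complex.exp)
    (f' := Complex.exp) (C := Real.exp (2 * Real.pi)) (x := 0) (y := u)
    (fun z _ => (Complex.hasDerivAt_exp z).hasDerivWithinAt)
    (fun z hz => by
      rw [Complex.norm_exp]
      exact Real.exp_le_exp.2 hz)
    (by
      show (0 : ℂ).re ≤ 2 * Real.pi
      rw [Complex.zero_re]
      positivity) hr
  rw [Complex.exp_zero, sub_zero] at h
  rwa [norm_sub_rev]

theorem one_sub_inv_ee : ∃ C : ℝ, 0 < C ∧ ∀ n : ℝ, 0 < n → ∀ ζ : ℂ, -n ≤ ζ.im →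
    dn n ζ / n ≤ C * ‖1 - (ee n ζ)⁻¹‖ := by
  have hp := Real.pi_pos
  refine ⟨Real.exp (2 * Real.pi) / 4, by positivity, fun n hn ζ hζ => ?_⟩
  obtain ⟨u, h1, h2, h3, h4⟩ := G5b_red hn ζ
  have h5 : (ee n ζ)⁻¹ = Complex.exp (-u) := by rw [h1, Complex.exp_neg]
  have h6 : -(2 * Real.pi) ≤ (-u).re := by
    rw [Complex.neg_re, h4, neg_neg]
    have h7 : -1 ≤ ζ.im / n := by
      rw [le_div_iff₀ hn]
      linarith
    have h8 : 2 * Real.pi * ζ.im / n = 2 * Real.pi * (ζ.im / n) := by ring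
    rw [h8]
    nlinarith
  have h7 := G5b_low (u := -u) (by rw [Complex.neg_im, abs_neg]; exact h3) h6
  rw [norm_neg, h2, ← h5] at h7
  have h8 : Real.exp (-(2 * Real.pi)) * (2 / Real.pi) * (2 * Real.pi * dn n ζ / n) =
      Real.exp (-(2 * Real.pi)) * 4 * (dn n ζ / n) := by
    field_simp
    ring
  rw [h8] at h7
  have h9 : Real.exp (2 * Real.pi) * Real.exp (-(2 * Real.pi)) = 1 := by
    rw [← Real.exp_add, add_neg_cancel, Real.exp_zero]
  have h10 := mul_le_mul_of_nonneg_left h7 (Real.exp_pos (2 * Real.pi)).le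
  have h11 : Real.exp (2 * Real.pi) * (Real.exp (-(2 * Real.pi)) * 4 * (dn n ζ / n)) =
      4 * (dn n ζ / n) := by
    calc _ = (Real.exp (2 * Real.pi) * Real.exp (-(2 * Real.pi))) * (4 * (dn n ζ / n)) := by ring
      _ = _ := by rw [h9, one_mul]
  rw [h11] at h10
  linarith

theorem cn_bound : ∃ C : ℝ, 0 < C ∧ ∀ n : ℝ, 4 ≤ n → cn n ≠ 0 ∧ ‖cn n‖ ≤ C * n ∧ n ≤ C * ‖cn n‖ ∧
    ‖(n : ℂ) / (2 * Real.pi * Complex.I * cn n) - 1‖ ≤ C / n := by
  have hp := Real.pi_pos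
  have hp3 := Real.pi_gt_three
  refine ⟨2 * Real.pi * Real.exp (2 * Real.pi), by positivity, fun n hn => ?_⟩
  have hn0 : 0 < n := by linarith
  have hnc : (n : ℂ) ≠ 0 := by exact_mod_cast hn0.ne'
  have hpc : (Real.pi : ℂ) ≠ 0 := by exact_mod_cast hp.ne'
  obtain ⟨w, hw⟩ : ∃ w : ℂ, w = 2 * Real.pi * Complex.I / n := ⟨_, rfl⟩
  have hw1 : w = ((2 * Real.pi / n : ℝ) : ℂ) * Complex.I := by
    rw [hw]
    push_cast
    ring
  have hwre : w.re = 0 := by
    rw [hw1, Complex.re_ofReal_mul, Complex.I_re, mul_zero]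
  have hwim : w.im = 2 * Real.pi / n := by
    rw [hw1, Complex.im_ofReal_mul, Complex.I_im, mul_one]
  have hwn : ‖w‖ = 2 * Real.pi / n := by
    rw [hw1, norm_mul, Complex.norm_I, mul_one, Complex.norm_real, Real.norm_of_nonneg
      (by positivity)]
  have hw0 : w ≠ 0 := by
    rw [← norm_pos_iff, hwn]
    positivity
  have hwpi : 2 * Real.pi / n ≤ Real.pi := by
    rw [div_le_iff₀ hn0]
    nlinarith
  have hlow := G5b_low (u := w) (by rw [hwim, abs_of_pos (by positivity)]; exact hwpi)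
    (by rw [hwre]; linarith)
  have hlow2 : 0 < Real.exp (-(2 * Real.pi)) * (2 / Real.pi) * ‖w‖ := by
    rw [hwn]
    positivity
  have hne : 1 - Complex.exp w ≠ 0 := by
    rw [← norm_pos_iff]
    linarith
  have hne' : Complex.exp w - 1 ≠ 0 := by
    intro h
    apply hne
    rw [← neg_sub, h, neg_zero]
  have hcn : cn n = (Complex.exp w - 1)⁻¹ := by
    unfold cn
    rw [← hw, Complex.exp_neg]
    have hE : Complex.exp w ≠ 0 := Complex.exp_ne_zero w
    have h1 : 1 - (Complex.exp w)⁻¹ = (Complex.exp w - 1) / Complex.exp w := by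
      field_simp
    rw [h1]
    field_simp
  have hnorm : ‖Complex.exp w - 1‖ = ‖1 - Complex.exp w‖ := norm_sub_rev _ _
  have hexp1 : Real.exp (-(2 * Real.pi)) * Real.exp (2 * Real.pi) = 1 := by
    rw [← Real.exp_add, neg_add_cancel, Real.exp_zero]
  have hE1 : 1 ≤ Real.exp (2 * Real.pi) := Real.one_le_exp (by positivity)
  refine ⟨?_, ?_, ?_, ?_⟩
  · rw [hcn]
    exact inv_ne_zero hne'
  · rw [hcn, norm_inv, hnorm]
    have h1 : 0 < ‖1 - Complex.exp w‖ := norm_pos_iff.2 hne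
    rw [inv_le_comm₀ h1 (by positivity)]
    refine le_trans ?_ hlow
    rw [hwn, inv_eq_one_div, div_le_iff₀ (by positivity)]
    have h2 : Real.exp (-(2 * Real.pi)) * (2 / Real.pi) * (2 * Real.pi / n) *
        (2 * Real.pi * Real.exp (2 * Real.pi) * n) =
        8 * Real.pi * (Real.exp (-(2 * Real.pi)) * Real.exp (2 * Real.pi)) := by
      field_simp
      ring
    rw [h2, hexp1]
    linarith
  · rw [hcn, norm_inv, hnorm]
    have h1 : 0 < ‖1 - Complex.exp w‖ := norm_pos_iff.2 hne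
    have h2 := G5b_up (u := w) (by rw [hwre]; positivity)
    rw [hwn] at h2
    rw [← div_eq_mul_inv, le_div_iff₀ h1]
    have h3 := mul_le_mul_of_nonneg_left h2 hn0.le
    refine h3.trans (le_of_eq ?_)
    field_simp
  · have h1 : (n : ℂ) / (2 * Real.pi * Complex.I * cn n) - 1 = (Complex.exp w - 1 - w) / w := by
      have h2 : (n : ℂ) / (2 * Real.pi * Complex.I * cn n) = (Complex.exp w - 1) / w := by
        rw [hcn, hw]
        have hI := Complex.I_ne_zero
        rw [← hw]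
        field_simp
        rw [hw]
        field_simp
      rw [h2]
      field_simp
    rw [h1, norm_div]
    have h2 := Complex.norm_exp_sub_sum_le_norm_mul_exp w 2
    have h3 : ∑ m ∈ Finset.range 2, w ^ m / (Nat.factorial m : ℂ) = 1 + w := by
      simp [Finset.sum_range_succ]
    rw [h3] at h2
    have h4 : Complex.exp w - 1 - w = Complex.exp w - (1 + w) := by ring
    rw [h4, div_le_iff₀ (norm_pos_iff.2 hw0)]
    refine h2.trans ?_
    have h5 : Real.exp ‖w‖ ≤ Real.exp (2 * Real.pi) := by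
      apply Real.exp_le_exp.2
      rw [hwn]
      linarith
    calc ‖w‖ ^ 2 * Real.exp ‖w‖ ≤ ‖w‖ ^ 2 * Real.exp (2 * Real.pi) :=
          mul_le_mul_of_nonneg_left h5 (sq_nonneg _)
      _ = 2 * Real.pi * Real.exp (2 * Real.pi) / n * ‖w‖ := by
          rw [hwn]
          ring

theorem YY_lower : ∃ C : ℝ, 0 < C ∧ ∀ n : ℝ, 4 ≤ n → ∀ ζ : ℂ, -n ≤ ζ.im → dn n ζ ≤ C * ‖YY n ζ‖ := by
  obtain ⟨C₁, hC₁, h1⟩ := one_sub_inv_ee
  obtain ⟨C₂, hC₂, h2⟩ := cn_bound
  refine ⟨C₁ * C₂, by positivity, fun n hn ζ hζ => ?_⟩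
  have hn0 : 0 < n := by linarith
  have h3 := h1 n hn0 ζ hζ
  obtain ⟨-, -, h4, -⟩ := h2 n hn
  rw [div_le_iff₀ hn0] at h3
  unfold YY
  rw [norm_mul]
  calc dn n ζ ≤ C₁ * ‖1 - (ee n ζ)⁻¹‖ * n := h3
    _ ≤ C₁ * ‖1 - (ee n ζ)⁻¹‖ * (C₂ * ‖cn n‖) := mul_le_mul_of_nonneg_left h4 (by positivity)
    _ = C₁ * C₂ * (‖cn n‖ * ‖1 - (ee n ζ)⁻¹‖) := by ring

theorem ee_dn : ∃ C : ℝ, 0 < C ∧ ∀ n : ℝ, 0 < n → ∀ ζ : ℂ, -n ≤ ζ.im → ‖ee n ζ‖ * dn n ζ ≤ C * n := by
  have hp := Real.pi_pos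
  have hp3 := Real.pi_gt_three
  refine ⟨2 * Real.exp (2 * Real.pi), by positivity, fun n hn ζ hζ => ?_⟩
  have hE1 : 1 ≤ Real.exp (2 * Real.pi) := Real.one_le_exp (by positivity)
  have hdn : dn n ζ ≤ n * (1 / 2 + |ζ.im / n|) := by
    obtain ⟨u, -, h2, h3, h4⟩ := G5b_red hn ζ
    have h5 := Complex.norm_le_abs_re_add_abs_im u
    rw [h2, h4] at h5
    have h6 : |-(2 * Real.pi * ζ.im / n)| = 2 * Real.pi * |ζ.im / n| := by
      have : -(2 * Real.pi * ζ.im / n) = -(2 * Real.pi * (ζ.im / n)) := by ring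
      rw [this, abs_neg, abs_mul, abs_of_pos (by positivity)]
    rw [h6] at h5
    have h7 : 2 * Real.pi * dn n ζ / n ≤ 2 * Real.pi * (1 / 2 + |ζ.im / n|) := by linarith
    have h8 : 2 * Real.pi * dn n ζ / n = 2 * Real.pi * (dn n ζ / n) := by ring
    rw [h8] at h7
    have h9 := le_of_mul_le_mul_left h7 (by positivity)
    rw [div_le_iff₀ hn] at h9
    linarith
  obtain ⟨b, hb⟩ : ∃ b : ℝ, b = ζ.im / n := ⟨_, rfl⟩
  have hb1 : -1 ≤ b := by
    rw [hb, le_div_iff₀ hn]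
    linarith
  have hee : ‖ee n ζ‖ = Real.exp (-(2 * Real.pi * b)) := by
    rw [ee_norm hn, hb]
    congr 1
    ring
  rw [← hb] at hdn
  rw [hee]
  have key : Real.exp (-(2 * Real.pi * b)) * (1 / 2 + |b|) ≤ 2 * Real.exp (2 * Real.pi) := by
    rcases le_total 0 b with h0 | h0
    · rw [abs_of_nonneg h0]
      have h1 := Real.add_one_le_exp (2 * Real.pi * b)
      have h2 : Real.exp (-(2 * Real.pi * b)) * Real.exp (2 * Real.pi * b) = 1 := by
        rw [← Real.exp_add, neg_add_cancel, Real.exp_zero]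
      have h3 : 1 / 2 + b ≤ Real.exp (2 * Real.pi * b) := by nlinarith
      have h4 := mul_le_mul_of_nonneg_left h3 (Real.exp_pos (-(2 * Real.pi * b))).le
      linarith
    · rw [abs_of_nonpos h0]
      have h1 : Real.exp (-(2 * Real.pi * b)) ≤ Real.exp (2 * Real.pi) := by
        apply Real.exp_le_exp.2
        nlinarith
      calc Real.exp (-(2 * Real.pi * b)) * (1 / 2 + -b) ≤ Real.exp (2 * Real.pi) * 2 :=
            mul_le_mul h1 (by linarith) (by linarith) (by positivity)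
        _ = _ := by ring
  calc Real.exp (-(2 * Real.pi * b)) * dn n ζ ≤
        Real.exp (-(2 * Real.pi * b)) * (n * (1 / 2 + |b|)) :=
          mul_le_mul_of_nonneg_left hdn (by positivity)
    _ = Real.exp (-(2 * Real.pi * b)) * (1 / 2 + |b|) * n := by ring
    _ ≤ 2 * Real.exp (2 * Real.pi) * n := mul_le_mul_of_nonneg_right key hn.le

theorem S_slit {n : ℝ} (hn : 0 < n) {ζ : ℂ} (h : ζ ∈ V n 0) : S n ζ ∈ Complex.slitPlane := by
  have hp := Real.pi_pos
  rw [Complex.mem_slitPlane_iff]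
  by_contra hcon
  rw [not_or, not_lt, not_not] at hcon
  obtain ⟨h1, h2⟩ := hcon
  unfold S at h1 h2
  rw [Complex.re_ofReal_mul, Complex.sub_re, Complex.one_re] at h1
  rw [Complex.im_ofReal_mul, Complex.sub_im, Complex.one_im] at h2
  have hc : 0 < n / (2 * Real.pi) := by positivity
  have h3 : 1 ≤ (ee n ζ).re := by
    by_contra h
    push Not at h
    have := mul_pos hc (show 0 < 1 - (ee n ζ).re by linarith)
    linarith
  have h4 : (ee n ζ).im = 0 := by
    rcases mul_eq_zero.1 h2 with h | h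
    · exact absurd h hc.ne'
    · linarith
  have harg : 2 * Real.pi * Complex.I * ζ / n = ((2 * Real.pi / n : ℝ) : ℂ) * (Complex.I * ζ) := by
    push_cast
    ring
  have hre : (2 * Real.pi * Complex.I * ζ / n).re = -(2 * Real.pi / n * ζ.im) := by
    rw [harg, Complex.re_ofReal_mul, Complex.I_mul_re]
    ring
  have him : (2 * Real.pi * Complex.I * ζ / n).im = 2 * Real.pi / n * ζ.re := by
    rw [harg, Complex.im_ofReal_mul, Complex.I_mul_im]
  unfold ee at h3 h4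
  rw [Complex.exp_re, hre, him] at h3
  rw [Complex.exp_im, hre, him] at h4
  have hE := Real.exp_pos (-(2 * Real.pi / n * ζ.im))
  have h5 : Real.sin (2 * Real.pi / n * ζ.re) = 0 := by
    rcases mul_eq_zero.1 h4 with h | h
    · exact absurd h hE.ne'
    · exact h
  have h6 : Real.cos (2 * Real.pi / n * ζ.re) = 1 := by
    have h7 := Real.sin_sq_add_cos_sq (2 * Real.pi / n * ζ.re)
    rw [h5] at h7
    have h8 : (Real.cos (2 * Real.pi / n * ζ.re) - 1) * (Real.cos (2 * Real.pi / n * ζ.re) + 1) = 0 := by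
      linarith
    rcases mul_eq_zero.1 h8 with h | h
    · linarith
    · have h9 : Real.cos (2 * Real.pi / n * ζ.re) = -1 := by linarith
      rw [h9] at h3
      linarith
  rw [h6, mul_one] at h3
  obtain ⟨k, hk⟩ := (Real.cos_eq_one_iff _).1 h6
  have hk2 : ζ.re = k * n := by
    have h7 : (k : ℝ) * (2 * Real.pi) = 2 * Real.pi * (ζ.re / n) := by
      rw [hk]
      ring
    have h8 : (k : ℝ) = ζ.re / n := by
      have h9 : 2 * Real.pi * (k : ℝ) = 2 * Real.pi * (ζ.re / n) := by linarith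
      exact mul_left_cancel₀ (by positivity) h9
    rw [h8]
    field_simp
  have h7 := (h k).2
  rw [hk2, sub_self, abs_zero, mul_zero] at h7
  have h8 : 0 ≤ -(2 * Real.pi / n * ζ.im) := by
    by_contra hneg
    push Not at hneg
    have h9 := Real.exp_lt_exp.2 hneg
    rw [Real.exp_zero] at h9
    linarith
  have h9 : 0 < 2 * Real.pi / n * ζ.im := mul_pos (by positivity) (by linarith)
  linarith

theorem S_upper : ∃ C : ℝ, 0 < C ∧ ∀ n : ℝ, 0 < n → ∀ ζ : ℂ, -n ≤ ζ.im → ‖S n ζ‖ ≤ C * dn n ζ := by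
  have hp := Real.pi_pos
  refine ⟨Real.exp (2 * Real.pi), by positivity, fun n hn ζ hζ => ?_⟩
  obtain ⟨u, h1, h2, h3, h4⟩ := G5b_red hn ζ
  have h5 : u.re ≤ 2 * Real.pi := by
    rw [h4]
    have h7 : -1 ≤ ζ.im / n := by
      rw [le_div_iff₀ hn]
      linarith
    have h8 : 2 * Real.pi * ζ.im / n = 2 * Real.pi * (ζ.im / n) := by ring
    rw [h8]
    nlinarith
  have h6 := G5b_up h5
  unfold S
  rw [norm_mul, Complex.norm_real, Real.norm_of_nonneg (by positivity), h1]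
  rw [h2] at h6
  calc n / (2 * Real.pi) * ‖1 - Complex.exp u‖ ≤
      n / (2 * Real.pi) * (Real.exp (2 * Real.pi) * (2 * Real.pi * dn n ζ / n)) :=
        mul_le_mul_of_nonneg_left h6 (by positivity)
    _ = Real.exp (2 * Real.pi) * dn n ζ := by
      field_simp

theorem S_lower : ∃ c : ℝ, 0 < c ∧ ∀ n : ℝ, 4 ≤ n → ∀ ζ : ℂ, -n ≤ ζ.im → 1 ≤ dn n ζ → c ≤ ‖S n ζ‖ := by
  have hp := Real.pi_pos
  have hp3 := Real.pi_gt_three
  refine ⟨2 * Real.exp (-(2 * Real.pi)) / Real.pi, by positivity, fun n hn ζ hζ hd => ?_⟩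
  have hn0 : 0 < n := by linarith
  obtain ⟨u, h1, h2, h3, h4⟩ := G5b_red hn0 ζ
  have hexp1 : Real.exp (-(2 * Real.pi)) * Real.exp (2 * Real.pi) = 1 := by
    rw [← Real.exp_add, neg_add_cancel, Real.exp_zero]
  have hexp2 := Real.add_one_le_exp (2 * Real.pi)
  have he0 := Real.exp_pos (-(2 * Real.pi))
  have he2 : Real.exp (-(2 * Real.pi)) ≤ 1 / 2 := by nlinarith
  unfold S
  rw [norm_mul, Complex.norm_real, Real.norm_of_nonneg (by positivity), h1]
  rcases le_total ζ.im n with h0 | h0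
  · have h5 : -(2 * Real.pi) ≤ u.re := by
      rw [h4]
      have h7 : ζ.im / n ≤ 1 := by
        rw [div_le_one hn0]
        exact h0
      have h8 : 2 * Real.pi * ζ.im / n = 2 * Real.pi * (ζ.im / n) := by ring
      rw [h8]
      nlinarith
    have h6 := G5b_low h3 h5
    rw [h2] at h6
    have h7 := mul_le_mul_of_nonneg_left h6 (by positivity : 0 ≤ n / (2 * Real.pi))
    refine le_trans ?_ h7
    have h8 : n / (2 * Real.pi) * (Real.exp (-(2 * Real.pi)) * (2 / Real.pi) *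
        (2 * Real.pi * dn n ζ / n)) = 2 * Real.exp (-(2 * Real.pi)) / Real.pi * dn n ζ := by
      field_simp
    rw [h8]
    exact le_mul_of_one_le_right (by positivity) hd
  · have h5 : ‖Complex.exp u‖ ≤ 1 / 2 := by
      rw [Complex.norm_exp]
      refine le_trans ?_ he2
      apply Real.exp_le_exp.2
      rw [h4]
      have h7 : 1 ≤ ζ.im / n := by
        rw [one_le_div hn0]
        exact h0
      have h8 : 2 * Real.pi * ζ.im / n = 2 * Real.pi * (ζ.im / n) := by ring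
      rw [h8]
      nlinarith
    have h6 : 1 / 2 ≤ ‖1 - Complex.exp u‖ := by
      have h7 := norm_sub_norm_le (1 : ℂ) (Complex.exp u)
      rw [norm_one] at h7
      linarith
    have h7 : 1 / Real.pi ≤ n / (2 * Real.pi) * (1 / 2) := by
      have h8 : n / (2 * Real.pi) * (1 / 2) = n / 4 * (1 / Real.pi) := by ring
      rw [h8]
      exact le_mul_of_one_le_left (by positivity) (by linarith)
    have h8 : 2 * Real.exp (-(2 * Real.pi)) / Real.pi ≤ 1 / Real.pi :=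
      div_le_div_of_nonneg_right (by linarith) hp.le
    exact h8.trans (h7.trans (mul_le_mul_of_nonneg_left h6 (by positivity)))

end Pool.Agent.CR.G
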