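import Pool.Agent.H48.CR.G5b

/-!
# CR G5c: estimates for `cs` and `log S`

On `V n 1`: `S` is in the slit plane, `cs = log S + ee - 1`, `cs' = S'/S + ee' = -(2πi/n) ee/(1-ee) + (2πi/n) ee = -(2πi/n) ee^2/(1-ee)`, and `(log S)' = -(2πi/n) ee/(1-ee)`. `‖ee/(1-ee)‖ = 1/‖1 - ee⁻¹‖ ≤ C n/dn` (`one_sub_inv_ee`):
`‖cs'‖ ≤ C ‖ee‖/dn`, `‖(log S)'‖ ≤ C/dn`. `cs'' = -(2πi/n)^2 ee^2 (2 - ee)/(1-ee)^2`, `‖cs''‖ ≤ C/dn^2`.
`cs_bound`: `|log ‖S‖| ≤ C + log (dn)` by `S_upper`, `S_lower`, `dn ≥ 1`; `|arg| ≤ π`; `‖ee‖ ≤ exp (2π)`.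
`cs_taylor`, `logS_lip`: mean value inequality on the convex set `segment`, on which the points are in `V n 1` with `dn ≥ d`: apply it to `cs - cs'(ζ) · id`, whose derivative at `t` is `cs'(t) - cs'(ζ)`, `‖·‖ ≤ (C/d^2) ‖t - ζ‖` (again the mean value inequality).
-/

set_option autoImplicit false

open Set Filter Topology Metric

namespace Pool.Agent.CR.G

private theorem G5c_S_hasDerivAt {n : ℝ} (hn : 0 < n) (ζ : ℂ) :
    HasDerivAt (S n) (-(Complex.I * ee n ζ)) ζ := by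
  have h1 := ((ee_hasDerivAt hn ζ).const_sub 1).const_mul ((n / (2 * Real.pi) : ℝ) : ℂ)
  have h2 : ((n / (2 * Real.pi) : ℝ) : ℂ) * -(2 * Real.pi * Complex.I / n * ee n ζ) =
      -(Complex.I * ee n ζ) := by
    have hn' : (n : ℂ) ≠ 0 := by exact_mod_cast hn.ne'
    have hp : (Real.pi : ℂ) ≠ 0 := by exact_mod_cast Real.pi_ne_zero
    push_cast
    field_simp
  rw [h2] at h1
  exact h1

private theorem G5c_one_sub {n : ℝ} {ζ : ℂ} (h : S n ζ ≠ 0) : 1 - ee n ζ ≠ 0 := by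
  intro h0
  apply h
  unfold S
  rw [h0, mul_zero]

private theorem G5c_logS_hasDerivAt {n : ℝ} (hn : 0 < n) {ζ : ℂ} (h : ζ ∈ V n 0) :
    HasDerivAt (fun t => Complex.log (S n t))
      (-(2 * Real.pi * Complex.I / n) * (ee n ζ / (1 - ee n ζ))) ζ := by
  have hs := S_slit hn h
  have h0 := G5c_one_sub (Complex.slitPlane_ne_zero hs)
  have h1 := (G5c_S_hasDerivAt hn ζ).clog hs
  have h2 : -(Complex.I * ee n ζ) / S n ζ =
      -(2 * Real.pi * Complex.I / n) * (ee n ζ / (1 - ee n ζ)) := by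
    have hn' : (n : ℂ) ≠ 0 := by exact_mod_cast hn.ne'
    have hp : (Real.pi : ℂ) ≠ 0 := by exact_mod_cast Real.pi_ne_zero
    unfold S
    push_cast
    field_simp
  rw [h2] at h1
  exact h1

theorem cs_hasDerivAt {n : ℝ} (hn : 0 < n) {ζ : ℂ} (h : ζ ∈ V n 0) :
    HasDerivAt (cs n) (-(2 * Real.pi * Complex.I / n) * (ee n ζ ^ 2 / (1 - ee n ζ))) ζ := by
  have h0 := G5c_one_sub (Complex.slitPlane_ne_zero (S_slit hn h))
  have h1 := ((G5c_logS_hasDerivAt hn h).add (ee_hasDerivAt hn ζ)).sub_const 1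
  have h2 : -(2 * Real.pi * Complex.I / n) * (ee n ζ / (1 - ee n ζ)) +
      2 * Real.pi * Complex.I / n * ee n ζ =
      -(2 * Real.pi * Complex.I / n) * (ee n ζ ^ 2 / (1 - ee n ζ)) := by
    have hn' : (n : ℂ) ≠ 0 := by exact_mod_cast hn.ne'
    field_simp
    ring
  rw [h2] at h1
  exact h1

private theorem G5c_norm_log_le (z : ℂ) : ‖Complex.log z‖ ≤ |Real.log ‖z‖| + Real.pi := by
  refine (Complex.norm_le_abs_re_add_abs_im _).trans ?_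
  rw [Complex.log_re, Complex.log_im]
  have := Complex.abs_arg_le_pi z
  linarith

theorem cs_bound : ∃ C : ℝ, 0 < C ∧ ∀ n : ℝ, 4 ≤ n → ∀ ζ ∈ V n 1, ‖cs n ζ‖ ≤ C * (1 + Real.log (dn n ζ)) := by
  obtain ⟨C1, hC1, hu⟩ := S_upper
  obtain ⟨c, hc, hl⟩ := S_lower
  refine ⟨|Real.log C1| + |Real.log c| + Real.pi + Real.exp (2 * Real.pi) + 2, by positivity, ?_⟩
  intro n hn ζ hζ
  have hn0 : 0 < n := by linarith
  have him : -n ≤ ζ.im := (V_im hn0 hζ).le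
  have hd : 1 < dn n ζ := V_dn hζ
  have h1 := hu n hn0 ζ him
  have h2 := hl n hn ζ him hd.le
  have h3 := ee_bound hn0 him
  have hS : 0 < ‖S n ζ‖ := hc.trans_le h2
  have hlog : 0 ≤ Real.log (dn n ζ) := Real.log_nonneg hd.le
  have h4 : Real.log ‖S n ζ‖ ≤ Real.log C1 + Real.log (dn n ζ) := by
    rw [← Real.log_mul hC1.ne' (by linarith)]
    exact Real.log_le_log hS h1
  have h5 : Real.log c ≤ Real.log ‖S n ζ‖ := Real.log_le_log hc h2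
  have h6 : |Real.log ‖S n ζ‖| ≤ |Real.log C1| + |Real.log c| + Real.log (dn n ζ) := by
    rw [abs_le]
    have a1 := le_abs_self (Real.log C1)
    have a2 := neg_abs_le (Real.log c)
    have a3 := abs_nonneg (Real.log C1)
    have a4 := abs_nonneg (Real.log c)
    constructor <;> linarith
  have h7 := G5c_norm_log_le (S n ζ)
  have h8 : ‖cs n ζ‖ ≤ ‖Complex.log (S n ζ)‖ + ‖ee n ζ‖ + 1 := by
    unfold cs
    refine (norm_sub_le _ _).trans ?_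
    have := norm_add_le (Complex.log (S n ζ)) (ee n ζ)
    rw [norm_one]
    linarith
  have a3 := abs_nonneg (Real.log C1)
  have a4 := abs_nonneg (Real.log c)
  have a5 := Real.pi_pos
  have a6 := Real.exp_pos (2 * Real.pi)
  have h9 : 0 ≤ (|Real.log C1| + |Real.log c| + Real.pi + Real.exp (2 * Real.pi)) *
      Real.log (dn n ζ) := by positivity
  nlinarith [h9, h8, h7, h6, h3, hlog]

/-- `‖ee/(1-ee)‖ ≤ C n / dn` -/
private theorem G5c_ratio : ∃ C : ℝ, 0 < C ∧ ∀ n : ℝ, 4 ≤ n → ∀ ζ ∈ V n 1,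
    ‖ee n ζ / (1 - ee n ζ)‖ ≤ C * (n / dn n ζ) := by
  obtain ⟨C, hC, h⟩ := one_sub_inv_ee
  refine ⟨C, hC, ?_⟩
  intro n hn ζ hζ
  have hn0 : 0 < n := by linarith
  have him : -n ≤ ζ.im := (V_im hn0 hζ).le
  have hd : 0 < dn n ζ := by
    have : 1 < dn n ζ := V_dn hζ
    linarith
  have h1 := h n hn0 ζ him
  have he := ee_ne_zero n ζ
  have hpos : 0 < ‖1 - (ee n ζ)⁻¹‖ := by
    have : 0 < C * ‖1 - (ee n ζ)⁻¹‖ := lt_of_lt_of_le (by positivity) h1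
    exact (mul_pos_iff_of_pos_left hC).mp this
  have hne : 1 - (ee n ζ)⁻¹ ≠ 0 := norm_pos_iff.mp hpos
  have hne2 : 1 - ee n ζ ≠ 0 := by
    intro h0
    apply hne
    have : ee n ζ = 1 := by
      linear_combination -h0
    rw [this]
    norm_num
  have h2 : ee n ζ / (1 - ee n ζ) = -(1 - (ee n ζ)⁻¹)⁻¹ := by
    have h3 : 1 - (ee n ζ)⁻¹ = -((1 - ee n ζ) / ee n ζ) := by
      field_simp
      ring
    rw [h3, inv_neg, neg_neg, inv_div]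
  rw [h2, norm_neg, norm_inv]
  rw [inv_le_iff_one_le_mul₀ hpos]
  have h3 : C * (n / dn n ζ) * ‖1 - (ee n ζ)⁻¹‖ = (C * ‖1 - (ee n ζ)⁻¹‖) * (n / dn n ζ) := by ring
  rw [h3]
  calc (1 : ℝ) = dn n ζ / n * (n / dn n ζ) := by field_simp
    _ ≤ _ := by gcongr

private theorem G5c_const {n : ℝ} (hn : 0 < n) :
    ‖-(2 * Real.pi * Complex.I / n : ℂ)‖ = 2 * Real.pi / n := by
  rw [norm_neg, norm_div, norm_mul, norm_mul, Complex.norm_I, Complex.norm_real, Complex.norm_real,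
    Real.norm_of_nonneg Real.pi_pos.le, Real.norm_of_nonneg hn.le]
  norm_num

private theorem G5c_V0 {n : ℝ} {ζ : ℂ} (h : ζ ∈ V n 1) : ζ ∈ V n 0 :=
  V_mono (by norm_num : (0 : ℝ) ≤ 1) h

theorem cs_deriv : ∃ C : ℝ, 0 < C ∧ ∀ n : ℝ, 4 ≤ n → ∀ ζ ∈ V n 1,
    ‖deriv (cs n) ζ‖ ≤ C * (‖ee n ζ‖ / dn n ζ) ∧ ‖deriv (cs n) ζ‖ ≤ C / dn n ζ := by
  obtain ⟨C, hC, h⟩ := G5c_ratio
  have hpi := Real.pi_pos
  have hexp : 1 ≤ Real.exp (2 * Real.pi) := Real.one_le_exp (by positivity)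
  refine ⟨2 * Real.pi * C * Real.exp (2 * Real.pi), by positivity, ?_⟩
  intro n hn ζ hζ
  have hn0 : 0 < n := by linarith
  have him : -n ≤ ζ.im := (V_im hn0 hζ).le
  have hd : 0 < dn n ζ := by
    have : 1 < dn n ζ := V_dn hζ
    linarith
  have h1 := h n hn ζ hζ
  have h2 := ee_bound hn0 him
  have h3 : ‖deriv (cs n) ζ‖ ≤ 2 * Real.pi * C * (‖ee n ζ‖ / dn n ζ) := by
    rw [(cs_hasDerivAt hn0 (G5c_V0 hζ)).deriv, norm_mul, G5c_const hn0]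
    have h4 : ee n ζ ^ 2 / (1 - ee n ζ) = ee n ζ * (ee n ζ / (1 - ee n ζ)) := by ring
    rw [h4, norm_mul]
    calc 2 * Real.pi / n * (‖ee n ζ‖ * ‖ee n ζ / (1 - ee n ζ)‖)
        ≤ 2 * Real.pi / n * (‖ee n ζ‖ * (C * (n / dn n ζ))) := by gcongr
      _ = 2 * Real.pi * C * (‖ee n ζ‖ / dn n ζ) := by field_simp
  constructor
  · refine h3.trans ?_
    have h5 : 0 ≤ ‖ee n ζ‖ / dn n ζ := by positivity
    have h6 : 2 * Real.pi * C ≤ 2 * Real.pi * C * Real.exp (2 * Real.pi) :=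
      le_mul_of_one_le_right (by positivity) hexp
    exact mul_le_mul_of_nonneg_right h6 h5
  · refine h3.trans ?_
    calc 2 * Real.pi * C * (‖ee n ζ‖ / dn n ζ)
        ≤ 2 * Real.pi * C * (Real.exp (2 * Real.pi) / dn n ζ) := by gcongr
      _ = 2 * Real.pi * C * Real.exp (2 * Real.pi) / dn n ζ := by ring

/-- the derivative of `cs` as a function -/
private noncomputable def G5c_csd (n : ℝ) (ζ : ℂ) : ℂ :=
  -(2 * Real.pi * Complex.I / n) * (ee n ζ ^ 2 / (1 - ee n ζ))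

private theorem G5c_csd_hasDerivAt {n : ℝ} (hn : 0 < n) {ζ : ℂ} (h : ζ ∈ V n 0) :
    HasDerivAt (G5c_csd n) (-(2 * Real.pi * Complex.I / n) * ((2 * Real.pi * Complex.I / n) *
      ((2 - ee n ζ) * (ee n ζ / (1 - ee n ζ)) ^ 2))) ζ := by
  have h0 := G5c_one_sub (Complex.slitPlane_ne_zero (S_slit hn h))
  have he := ee_hasDerivAt hn ζ
  have h1 := ((he.pow 2).div (he.const_sub 1) h0).const_mul (-(2 * Real.pi * Complex.I / n : ℂ))
  have hn' : (n : ℂ) ≠ 0 := by exact_mod_cast hn.ne'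
  refine h1.congr_deriv ?_
  simp only [Nat.cast_ofNat, Nat.add_one_sub_one, pow_one, Pi.pow_apply]
  field_simp
  ring

private theorem G5c_csd_lip : ∃ K : ℝ, 0 < K ∧ ∀ n : ℝ, 4 ≤ n → ∀ ζ ∈ V n 1,
    ‖-(2 * Real.pi * Complex.I / n : ℂ) * ((2 * Real.pi * Complex.I / n) *
      ((2 - ee n ζ) * (ee n ζ / (1 - ee n ζ)) ^ 2))‖ ≤ K / dn n ζ ^ 2 := by
  obtain ⟨C, hC, h⟩ := G5c_ratio
  have hpi := Real.pi_pos
  refine ⟨(2 * Real.pi) ^ 2 * ((2 + Real.exp (2 * Real.pi)) * C ^ 2), by positivity, ?_⟩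
  intro n hn ζ hζ
  have hn0 : 0 < n := by linarith
  have him : -n ≤ ζ.im := (V_im hn0 hζ).le
  have hd : 0 < dn n ζ := by
    have : 1 < dn n ζ := V_dn hζ
    linarith
  have h1 := h n hn ζ hζ
  have h2 := ee_bound hn0 him
  have h3 : ‖(2 : ℂ) - ee n ζ‖ ≤ 2 + Real.exp (2 * Real.pi) := by
    refine (norm_sub_le _ _).trans ?_
    have : ‖(2 : ℂ)‖ = 2 := by norm_num
    rw [this]
    linarith
  have h4 : ‖(2 * Real.pi * Complex.I / n : ℂ)‖ = 2 * Real.pi / n := by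
    rw [← norm_neg]
    exact G5c_const hn0
  rw [norm_mul, G5c_const hn0, norm_mul, h4, norm_mul, norm_pow]
  calc 2 * Real.pi / n * (2 * Real.pi / n * (‖(2 : ℂ) - ee n ζ‖ * ‖ee n ζ / (1 - ee n ζ)‖ ^ 2))
      ≤ 2 * Real.pi / n * (2 * Real.pi / n * ((2 + Real.exp (2 * Real.pi)) *
        (C * (n / dn n ζ)) ^ 2)) := by gcongr
    _ = (2 * Real.pi) ^ 2 * ((2 + Real.exp (2 * Real.pi)) * C ^ 2) / dn n ζ ^ 2 := by
      field_simp

theorem cs_taylor : ∃ C : ℝ, 0 < C ∧ ∀ n : ℝ, 4 ≤ n → ∀ (ζ ζ' : ℂ) (d : ℝ), 0 < d →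
    (∀ t ∈ segment ℝ ζ ζ', t ∈ V n 1 ∧ d ≤ dn n t) →
    ‖cs n ζ' - cs n ζ - deriv (cs n) ζ * (ζ' - ζ)‖ ≤ C * (‖ζ' - ζ‖ ^ 2 / d ^ 2) := by
  obtain ⟨K, hK, h⟩ := G5c_csd_lip
  refine ⟨K, hK, ?_⟩
  intro n hn ζ ζ' d hd hseg
  have hn0 : 0 < n := by linarith
  have hζ : ζ ∈ segment ℝ ζ ζ' := left_mem_segment ℝ ζ ζ'
  have hζ' : ζ' ∈ segment ℝ ζ ζ' := right_mem_segment ℝ ζ ζ'
  have hlip : ∀ t ∈ segment ℝ ζ ζ', ‖G5c_csd n t - G5c_csd n ζ‖ ≤ K / d ^ 2 * ‖ζ' - ζ‖ := by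
    intro t ht
    have h1 : ‖G5c_csd n t - G5c_csd n ζ‖ ≤ K / d ^ 2 * ‖t - ζ‖ := by
      refine Convex.norm_image_sub_le_of_norm_hasDerivWithin_le (s := segment ℝ ζ ζ')
        (f' := fun ζ => -(2 * Real.pi * Complex.I / n) * ((2 * Real.pi * Complex.I / n) *
          ((2 - ee n ζ) * (ee n ζ / (1 - ee n ζ)) ^ 2))) ?_ ?_ (convex_segment ζ ζ') hζ ht
      · intro u hu
        exact (G5c_csd_hasDerivAt hn0 (G5c_V0 (hseg u hu).1)).hasDerivWithinAt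
      · intro u hu
        obtain ⟨hu1, hu2⟩ := hseg u hu
        refine (h n hn u hu1).trans ?_
        gcongr
    refine h1.trans ?_
    have := norm_sub_le_of_mem_segment ht
    gcongr
  have hder : deriv (cs n) ζ = G5c_csd n ζ := (cs_hasDerivAt hn0 (G5c_V0 (hseg ζ hζ).1)).deriv
  rw [hder]
  have h2 : ‖(cs n ζ' - G5c_csd n ζ * ζ') - (cs n ζ - G5c_csd n ζ * ζ)‖ ≤
      K / d ^ 2 * ‖ζ' - ζ‖ * ‖ζ' - ζ‖ := by
    refine Convex.norm_image_sub_le_of_norm_hasDerivWithin_le (s := segment ℝ ζ ζ')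
      (f := fun t => cs n t - G5c_csd n ζ * t)
      (f' := fun t => G5c_csd n t - G5c_csd n ζ) ?_ ?_ (convex_segment ζ ζ') hζ hζ'
    · intro u hu
      have h3 : HasDerivAt (cs n) (G5c_csd n u) u := cs_hasDerivAt hn0 (G5c_V0 (hseg u hu).1)
      have h4 := (h3.sub ((hasDerivAt_id u).const_mul (G5c_csd n ζ)))
      rw [mul_one] at h4
      exact h4.hasDerivWithinAt
    · exact hlip
  calc ‖cs n ζ' - cs n ζ - G5c_csd n ζ * (ζ' - ζ)‖
      = ‖(cs n ζ' - G5c_csd n ζ * ζ') - (cs n ζ - G5c_csd n ζ * ζ)‖ := by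
        congr 1
        ring
    _ ≤ K / d ^ 2 * ‖ζ' - ζ‖ * ‖ζ' - ζ‖ := h2
    _ = K * (‖ζ' - ζ‖ ^ 2 / d ^ 2) := by ring

theorem logS_lip : ∃ C : ℝ, 0 < C ∧ ∀ n : ℝ, 4 ≤ n → ∀ (ζ ζ' : ℂ) (d : ℝ), 0 < d →
    (∀ t ∈ segment ℝ ζ ζ', t ∈ V n 1 ∧ d ≤ dn n t) →
    ‖Complex.log (S n ζ') - Complex.log (S n ζ)‖ ≤ C * (‖ζ' - ζ‖ / d) := by
  obtain ⟨C, hC, h⟩ := G5c_ratio
  have hpi := Real.pi_pos
  refine ⟨2 * Real.pi * C, by positivity, ?_⟩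
  intro n hn ζ ζ' d hd hseg
  have hn0 : 0 < n := by linarith
  have hζ : ζ ∈ segment ℝ ζ ζ' := left_mem_segment ℝ ζ ζ'
  have hζ' : ζ' ∈ segment ℝ ζ ζ' := right_mem_segment ℝ ζ ζ'
  have h2 : ‖Complex.log (S n ζ') - Complex.log (S n ζ)‖ ≤ 2 * Real.pi * C / d * ‖ζ' - ζ‖ := by
    refine Convex.norm_image_sub_le_of_norm_hasDerivWithin_le (s := segment ℝ ζ ζ')
      (f := fun t => Complex.log (S n t))
      (f' := fun t => -(2 * Real.pi * Complex.I / n) * (ee n t / (1 - ee n t)))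
      ?_ ?_ (convex_segment ζ ζ') hζ hζ'
    · intro u hu
      exact (G5c_logS_hasDerivAt hn0 (G5c_V0 (hseg u hu).1)).hasDerivWithinAt
    · intro u hu
      obtain ⟨hu1, hu2⟩ := hseg u hu
      have h3 := h n hn u hu1
      rw [norm_mul, G5c_const hn0]
      calc 2 * Real.pi / n * ‖ee n u / (1 - ee n u)‖ ≤ 2 * Real.pi / n * (C * (n / dn n u)) := by
            gcongr
        _ = 2 * Real.pi * C / dn n u := by field_simp
        _ ≤ 2 * Real.pi * C / d := by gcongr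
  calc _ ≤ 2 * Real.pi * C / d * ‖ζ' - ζ‖ := h2
    _ = 2 * Real.pi * C * (‖ζ' - ζ‖ / d) := by ring

end Pool.Agent.CR.G
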