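import Pool.Agent.H48.CR.GDefs

/-!
# CR GC: continuous convergence

`CC F G U`: `F N w' → G w` for `N → ∞`, `w' → w`, all `w ∈ U`. On an open set this is locally uniform convergence to a continuous function
(`tendstoLocallyUniformlyOn_iff_forall_tendsto`, or by hand). `CC.continuousOn`: given `ε`, there are `N0`, `δ` with `‖F N w' - G w‖ ≤ ε` for `N ≥ N0`, `‖w' - w‖ < δ`;
fix `w'`, let `N → ∞` (`F N w' → G w'`): `‖G w' - G w‖ ≤ ε`. `CC.differentiableOn`: near `w`, `F N` is differentiable on a fixed ball for `N ≥ N0`, and converges uniformly on a smaller ball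
(`TendstoLocallyUniformlyOn.differentiableOn`). `CC.comp`: composition of limits.
-/

set_option autoImplicit false

open Set Filter Topology Metric

namespace Pool.Agent.CR.G

theorem CC.continuousOn {F : ℕ → ℂ → ℂ} {G : ℂ → ℂ} {U : Set ℂ} (hU : IsOpen U) (h : CC F G U) :
    ContinuousOn G U := by
  intro w hw
  apply ContinuousAt.continuousWithinAt
  rw [Metric.continuousAt_iff']
  intro ε hε
  obtain ⟨pa, hpa, pb, hpb, hp⟩ := Filter.eventually_prod_iff.1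
    ((Metric.tendsto_nhds.1 (h w hw)) (ε / 2) (by linarith))
  filter_upwards [hpb, hU.mem_nhds hw] with w' h1 h2
  have h3 : Tendsto (fun N => F N w') atTop (𝓝 (G w')) :=
    (h w' h2).comp (tendsto_id.prodMk tendsto_const_nhds)
  have h4 : dist (G w') (G w) ≤ ε / 2 := by
    refine le_of_tendsto (h3.dist tendsto_const_nhds) ?_
    filter_upwards [hpa] with N hN
    exact (hp hN h1).le
  linarith

theorem CC.tlu {F : ℕ → ℂ → ℂ} {G : ℂ → ℂ} {U : Set ℂ} (hU : IsOpen U) (h : CC F G U) :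
    TendstoLocallyUniformlyOn F G atTop U := by
  rw [hU.tendstoLocallyUniformlyOn_iff_forall_tendsto]
  intro x hx
  have hc : Tendsto G (𝓝 x) (𝓝 (G x)) := (h.continuousOn hU).continuousAt (hU.mem_nhds hx)
  exact ((hc.comp tendsto_snd).prodMk_nhds (h x hx)).mono_right (nhds_le_uniformity _)

theorem cc_of_tlu {F : ℕ → ℂ → ℂ} {G : ℂ → ℂ} {U : Set ℂ} (hU : IsOpen U) (hG : ContinuousOn G U)
    (h : TendstoLocallyUniformlyOn F G atTop U) : CC F G U := by
  intro x hx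
  have hc : Tendsto G (𝓝 x) (𝓝 (G x)) := hG.continuousAt (hU.mem_nhds hx)
  exact (hc.comp tendsto_snd).congr_uniformity
    ((hU.tendstoLocallyUniformlyOn_iff_forall_tendsto).1 h x hx)

theorem CC.differentiableOn {F : ℕ → ℂ → ℂ} {G : ℂ → ℂ} {U : Set ℂ} (hU : IsOpen U) (h : CC F G U)
    (hd : ∀ w ∈ U, ∀ᶠ x : ℕ × ℂ in atTop ×ˢ 𝓝 w, DifferentiableAt ℂ (F x.1) x.2) :
    DifferentiableOn ℂ G U := by
  intro w hw
  obtain ⟨pa, hpa, pb, hpb, hp⟩ := Filter.eventually_prod_iff.1 (hd w hw)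
  obtain ⟨δ, hδ, hball⟩ := Metric.mem_nhds_iff.1 (Filter.inter_mem hpb (hU.mem_nhds hw))
  have h1 : TendstoLocallyUniformlyOn F G atTop (ball w δ) :=
    (h.tlu hU).mono fun x hx => (hball hx).2
  have h2 : DifferentiableOn ℂ G (ball w δ) := by
    refine h1.differentiableOn ?_ isOpen_ball
    filter_upwards [hpa] with N hN x hx
    exact (hp hN (hball hx).1).differentiableWithinAt
  exact (h2.differentiableAt (isOpen_ball.mem_nhds (mem_ball_self hδ))).differentiableWithinAt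

theorem CC.comp {F F' : ℕ → ℂ → ℂ} {G G' : ℂ → ℂ} {U V : Set ℂ} (h : CC F G U) (h' : CC F' G' V)
    (hm : MapsTo G' V U) : CC (fun N w => F N (F' N w)) (fun w => G (G' w)) V := by
  intro w hw
  exact (h (G' w) (hm hw)).comp (tendsto_fst.prodMk (h' w hw))

theorem CC.mono {F : ℕ → ℂ → ℂ} {G : ℂ → ℂ} {U V : Set ℂ} (h : CC F G U) (hVU : V ⊆ U) : CC F G V := by
  intro w hw
  exact h w (hVU hw)

theorem CC.congr {F F' : ℕ → ℂ → ℂ} {G : ℂ → ℂ} {U : Set ℂ} (h : CC F G U)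
    (he : ∀ w ∈ U, ∀ᶠ x : ℕ × ℂ in atTop ×ˢ 𝓝 w, F x.1 x.2 = F' x.1 x.2) : CC F' G U := by
  intro w hw
  exact (h w hw).congr' (he w hw)

/-- a function of a parameter and a variable, the parameter converging -/
theorem cc_param {g : ℂ → ℂ → ℂ} {l : ℕ → ℂ} {l0 : ℂ} {L V : Set ℂ} (hV : IsOpen V)
    (hg : ContinuousOn (fun x : ℂ × ℂ => g x.1 x.2) (L ×ˢ V)) (hl : Tendsto l atTop (𝓝 l0))
    (hL : ∀ᶠ N in atTop, l N ∈ L) (hl0 : l0 ∈ L) : CC (fun N w => g (l N) w) (g l0) V := by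
  intro w hw
  have h1 : Tendsto (fun x : ℂ × ℂ => g x.1 x.2) (𝓝[L ×ˢ V] (l0, w)) (𝓝 (g l0 w)) :=
    hg (l0, w) ⟨hl0, hw⟩
  have h2 : Tendsto (fun x : ℕ × ℂ => (l x.1, x.2)) (atTop ×ˢ 𝓝 w) (𝓝[L ×ˢ V] (l0, w)) := by
    rw [tendsto_nhdsWithin_iff]
    refine ⟨(hl.comp tendsto_fst).prodMk_nhds tendsto_snd, ?_⟩
    have h3 : ∀ᶠ y in 𝓝 w, y ∈ V := hV.mem_nhds hw
    filter_upwards [hL.prod_inl (𝓝 w), h3.prod_inr atTop] with x hx1 hx2
    exact ⟨hx1, hx2⟩
  exact h1.comp h2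

theorem cc_const {a : ℕ → ℂ} {a0 : ℂ} (h : Tendsto a atTop (𝓝 a0)) (U : Set ℂ) :
    CC (fun N _ => a N) (fun _ => a0) U := by
  intro w _
  exact h.comp tendsto_fst

theorem cc_fix {G : ℂ → ℂ} {U : Set ℂ} (hU : IsOpen U) (h : ContinuousOn G U) : CC (fun _ w => G w) G U := by
  intro w hw
  exact (h.continuousAt (hU.mem_nhds hw)).tendsto.comp tendsto_snd

theorem CC.add {F F' : ℕ → ℂ → ℂ} {G G' : ℂ → ℂ} {U : Set ℂ} (h : CC F G U) (h' : CC F' G' U) :
    CC (fun N w => F N w + F' N w) (fun w => G w + G' w) U := by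
  intro w hw
  exact (h w hw).add (h' w hw)

theorem CC.sub {F F' : ℕ → ℂ → ℂ} {G G' : ℂ → ℂ} {U : Set ℂ} (h : CC F G U) (h' : CC F' G' U) :
    CC (fun N w => F N w - F' N w) (fun w => G w - G' w) U := by
  intro w hw
  exact (h w hw).sub (h' w hw)

theorem CC.mul {F F' : ℕ → ℂ → ℂ} {G G' : ℂ → ℂ} {U : Set ℂ} (h : CC F G U) (h' : CC F' G' U) :
    CC (fun N w => F N w * F' N w) (fun w => G w * G' w) U := by
  intro w hw
  exact (h w hw).mul (h' w hw)

theorem CC.div {F F' : ℕ → ℂ → ℂ} {G G' : ℂ → ℂ} {U : Set ℂ} (h : CC F G U) (h' : CC F' G' U)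
    (h0 : ∀ w ∈ U, G' w ≠ 0) : CC (fun N w => F N w / F' N w) (fun w => G w / G' w) U := by
  intro w hw
  exact (h w hw).div (h' w hw) (h0 w hw)

end Pool.Agent.CR.G
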