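import Pool.Agent.H48.CR.G5b
import Pool.Agent.H48.CR.GC

/-!
# CR G5d: limits for `n → ∞`

For `ζ` in a compact set: `2πiζ/n → 0` uniformly; `ee → 1`, `S n ζ = -i ζ * (exp w - 1)/w`, `w = 2πiζ/n` (`(n/2π)(1 - exp w) = (n/2π)(-w) (exp w - 1)/w`, `(n/2π) w = i ζ`); `(exp w - 1)/w → 1` (`w → 0`, also at `w = 0` in the sense
`‖exp w - 1 - w‖ ≤ ‖w‖^2` for `‖w‖ ≤ 1`). `cn n / n → 1/(2 π i)`; `YY n ζ = cn n * (1 - exp (-w))`, `1 - exp(-w) = w + O(w^2)`, `cn n * w = (cn n/n) 2πiζ → ζ`. `cs → log (-i ζ)` where `-i ζ` is in the slit plane (continuity of `log`).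
-/

set_option autoImplicit false

open Set Filter Topology Metric

namespace Pool.Agent.CR.G

private noncomputable def G5d_ds (v : ℂ) : ℂ := dslope Complex.exp 0 v

private lemma G5d_exp (v : ℂ) : Complex.exp v - 1 = v * G5d_ds v := by
  have h := sub_smul_dslope Complex.exp 0 v
  rw [sub_zero, Complex.exp_zero, smul_eq_mul] at h
  exact h.symm

private lemma G5d_ds_lim : Tendsto G5d_ds (𝓝 0) (𝓝 1) := by
  have h : ContinuousAt (dslope Complex.exp 0) 0 :=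
    continuousAt_dslope_same.2 Complex.differentiable_exp.differentiableAt
  have h1 := h.tendsto
  rw [dslope_same, Complex.deriv_exp, Complex.exp_zero] at h1
  exact h1

private lemma G5d_inv {n : ℕ → ℝ} (hn : Tendsto n atTop atTop) :
    Tendsto (fun N => ((n N : ℝ) : ℂ)⁻¹) atTop (𝓝 0) := by
  have h1 : Tendsto (fun N => (n N)⁻¹) atTop (𝓝 0) := tendsto_inv_atTop_zero.comp hn
  have h2 : Tendsto (fun N => (((n N)⁻¹ : ℝ) : ℂ)) atTop (𝓝 ((0 : ℝ) : ℂ)) :=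
    (Complex.continuous_ofReal.tendsto 0).comp h1
  rw [Complex.ofReal_zero] at h2
  refine h2.congr fun N => ?_
  rw [Complex.ofReal_inv]

private lemma G5d_v {n : ℕ → ℝ} (hn : Tendsto n atTop atTop) (w : ℂ) :
    Tendsto (fun x : ℕ × ℂ => 2 * Real.pi * Complex.I * x.2 / (n x.1 : ℂ)) (atTop ×ˢ 𝓝 w)
      (𝓝 0) := by
  have h1 : Tendsto (fun x : ℕ × ℂ => ((n x.1 : ℝ) : ℂ)⁻¹) (atTop ×ˢ 𝓝 w) (𝓝 0) :=
    (G5d_inv hn).comp tendsto_fst
  have h2 : Tendsto (fun x : ℕ × ℂ => x.2) ((atTop : Filter ℕ) ×ˢ 𝓝 w) (𝓝 w) := tendsto_snd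
  have h3 := (h2.const_mul (2 * Real.pi * Complex.I)).mul h1
  rw [mul_zero] at h3
  refine h3.congr fun x => ?_
  rw [div_eq_mul_inv]

private lemma G5d_u {n : ℕ → ℝ} (hn : Tendsto n atTop atTop) :
    Tendsto (fun N => -(2 * Real.pi * Complex.I / (n N : ℂ))) atTop (𝓝 0) := by
  have h3 := ((G5d_inv hn).const_mul (2 * Real.pi * Complex.I)).neg
  rw [mul_zero, neg_zero] at h3
  refine h3.congr fun x => ?_
  rw [div_eq_mul_inv]

private lemma G5d_pos {n : ℕ → ℝ} (hn : Tendsto n atTop atTop) (w : ℂ) :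
    ∀ᶠ x : ℕ × ℂ in atTop ×ˢ 𝓝 w, 0 < n x.1 :=
  tendsto_fst.eventually (hn.eventually_gt_atTop 0)

theorem cc_ee {n : ℕ → ℝ} (hn : Tendsto n atTop atTop) : CC (fun N ζ => ee (n N) ζ) (fun _ => 1) univ := by
  intro w _
  have h := (Complex.continuous_exp.tendsto 0).comp (G5d_v hn w)
  rw [Complex.exp_zero] at h
  exact h

theorem cc_S {n : ℕ → ℝ} (hn : Tendsto n atTop atTop) :
    CC (fun N ζ => S (n N) ζ) (fun ζ => -Complex.I * ζ) univ := by
  intro w _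
  have h1 := G5d_ds_lim.comp (G5d_v hn w)
  have h2 : Tendsto (fun x : ℕ × ℂ => x.2) ((atTop : Filter ℕ) ×ˢ 𝓝 w) (𝓝 w) := tendsto_snd
  have h3 := (h2.const_mul (-Complex.I)).mul h1
  rw [mul_one] at h3
  refine h3.congr' ?_
  filter_upwards [G5d_pos hn w] with x hx
  have hn0 : (n x.1 : ℂ) ≠ 0 := by exact_mod_cast hx.ne'
  have hpi : (Real.pi : ℂ) ≠ 0 := by exact_mod_cast Real.pi_ne_zero
  have h4 := G5d_exp (2 * Real.pi * Complex.I * x.2 / (n x.1 : ℂ))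
  show -Complex.I * x.2 * G5d_ds (2 * Real.pi * Complex.I * x.2 / (n x.1 : ℂ)) = S (n x.1) x.2
  unfold S ee
  have h5 : (1 : ℂ) - Complex.exp (2 * Real.pi * Complex.I * x.2 / (n x.1 : ℂ)) =
      -((2 * Real.pi * Complex.I * x.2 / (n x.1 : ℂ)) *
        G5d_ds (2 * Real.pi * Complex.I * x.2 / (n x.1 : ℂ))) := by
    rw [← h4]
    ring
  rw [h5]
  push_cast
  field_simp

theorem cc_cs {n : ℕ → ℝ} (hn : Tendsto n atTop atTop) :
    CC (fun N ζ => cs (n N) ζ) (fun ζ => Complex.log (-Complex.I * ζ)) {ζ | -Complex.I * ζ ∈ Complex.slitPlane} := by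
  intro w hw
  have h1 : Tendsto (fun x : ℕ × ℂ => S (n x.1) x.2) (atTop ×ˢ 𝓝 w) (𝓝 (-Complex.I * w)) :=
    cc_S hn w (mem_univ w)
  have h2 : Tendsto (fun x : ℕ × ℂ => ee (n x.1) x.2) (atTop ×ˢ 𝓝 w) (𝓝 1) :=
    cc_ee hn w (mem_univ w)
  have h3 : Tendsto Complex.log (𝓝 (-Complex.I * w)) (𝓝 (Complex.log (-Complex.I * w))) :=
    (continuousAt_clog hw).tendsto
  have h4 := ((h3.comp h1).add h2).sub_const 1
  have h5 : Complex.log (-Complex.I * w) + 1 - 1 = Complex.log (-Complex.I * w) := by ring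
  rw [h5] at h4
  exact h4

theorem cn_lim {n : ℕ → ℝ} (hn : Tendsto n atTop atTop) :
    Tendsto (fun N => cn (n N) * (2 * Real.pi / n N)) atTop (𝓝 (-Complex.I)) := by
  have h1 := G5d_ds_lim.comp (G5d_u hn)
  have h2 := (Complex.continuous_exp.tendsto 0).comp (G5d_u hn)
  rw [Complex.exp_zero] at h2
  have h3 := (h2.div h1 one_ne_zero).const_mul (-Complex.I)
  rw [div_one, mul_one] at h3
  refine h3.congr' ?_
  filter_upwards [hn.eventually_gt_atTop 0, h1.eventually_ne one_ne_zero] with N hN hds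
  have hn0 : (n N : ℂ) ≠ 0 := by exact_mod_cast hN.ne'
  have hpi : (Real.pi : ℂ) ≠ 0 := by exact_mod_cast Real.pi_ne_zero
  have h4 := G5d_exp (-(2 * Real.pi * Complex.I / (n N : ℂ)))
  simp only [Pi.div_apply, Function.comp_apply] at hds ⊢
  unfold cn
  have h5 : (1 : ℂ) - Complex.exp (-(2 * Real.pi * Complex.I / (n N : ℂ))) =
      (2 * Real.pi * Complex.I / (n N : ℂ)) *
        G5d_ds (-(2 * Real.pi * Complex.I / (n N : ℂ))) := by
    have : (1 : ℂ) - Complex.exp (-(2 * Real.pi * Complex.I / (n N : ℂ))) =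
        -(Complex.exp (-(2 * Real.pi * Complex.I / (n N : ℂ))) - 1) := by ring
    rw [this, h4]
    ring
  rw [h5]
  generalize G5d_ds (-(2 * Real.pi * Complex.I / (n N : ℂ))) = D at hds
  generalize Complex.exp (-(2 * Real.pi * Complex.I / (n N : ℂ))) = E
  field_simp
  rw [Complex.I_sq]
  ring

theorem cc_YY {n : ℕ → ℝ} (hn : Tendsto n atTop atTop) : CC (fun N ζ => YY (n N) ζ) (fun ζ => ζ) univ := by
  intro w _
  have h0 : Tendsto (fun x : ℕ × ℂ => -(2 * Real.pi * Complex.I * x.2 / (n x.1 : ℂ)))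
      (atTop ×ˢ 𝓝 w) (𝓝 0) := by
    have h := (G5d_v hn w).neg
    rw [neg_zero] at h
    exact h
  have h1 := G5d_ds_lim.comp h0
  have h2 : Tendsto (fun x : ℕ × ℂ => x.2) ((atTop : Filter ℕ) ×ˢ 𝓝 w) (𝓝 w) := tendsto_snd
  have h3 : Tendsto (fun x : ℕ × ℂ => cn (n x.1) * (2 * Real.pi / n x.1)) (atTop ×ˢ 𝓝 w)
      (𝓝 (-Complex.I)) := (cn_lim hn).comp tendsto_fst
  have h4 := (h3.mul (h2.const_mul Complex.I)).mul h1
  have h5 : -Complex.I * (Complex.I * w) * 1 = w := by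
    rw [mul_one, ← mul_assoc, neg_mul, Complex.I_mul_I]
    ring
  rw [h5] at h4
  refine h4.congr' ?_
  filter_upwards [G5d_pos hn w] with x hx
  have hn0 : (n x.1 : ℂ) ≠ 0 := by exact_mod_cast hx.ne'
  have h6 := G5d_exp (-(2 * Real.pi * Complex.I * x.2 / (n x.1 : ℂ)))
  show cn (n x.1) * (2 * Real.pi / n x.1) * (Complex.I * x.2) *
    G5d_ds (-(2 * Real.pi * Complex.I * x.2 / (n x.1 : ℂ))) = YY (n x.1) x.2
  unfold YY ee
  rw [← Complex.exp_neg]
  have h7 : (1 : ℂ) - Complex.exp (-(2 * Real.pi * Complex.I * x.2 / (n x.1 : ℂ))) =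
      (2 * Real.pi * Complex.I * x.2 / (n x.1 : ℂ)) *
        G5d_ds (-(2 * Real.pi * Complex.I * x.2 / (n x.1 : ℂ))) := by
    have : (1 : ℂ) - Complex.exp (-(2 * Real.pi * Complex.I * x.2 / (n x.1 : ℂ))) =
        -(Complex.exp (-(2 * Real.pi * Complex.I * x.2 / (n x.1 : ℂ))) - 1) := by ring
    rw [this, h6]
    ring
  rw [h7]
  ring

end Pool.Agent.CR.G
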