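import Pool.Agent.H48.CR.GDefs2
import Pool.Agent.H48.CR.G3
import Pool.Agent.H48.CR.G5c

/-!
# CR G6a: the coordinate change `J` at level `n`

`inv_lemma` with `U = Wd n R` (open), `ρ w = dn n w / 16` (continuous, positive), `c = ρ * cs n`. For `ζ ∈ closedBall w (dn n w / 8)`: `ζ ∈ V n (R/2) ⊆ V n 1` (`Wd_V`), `7/8 dn w ≤ dn ζ ≤ 9/8 dn w` (`dn_lip`);
`‖deriv‖ ≤ P C / dn ≤ 1/2` and `‖c ζ‖ ≤ P C (1 + log (9/8 dn w)) ≤ dn w / 16` for `dn w ≥ R ≥ R1` large.
`J_add`: `J w + k n` solves the equation for `w + k n` (`ee_add`: `cs n (ζ + k n) = cs n ζ`) and `dn_add`; uniqueness.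
`J_dn`: `dn_lip`.
-/

set_option autoImplicit false

open Set Filter Topology Metric

namespace Pool.Agent.CR.G

private theorem G6a_log {c : ℝ} (hc : 0 < c) : ∃ x0 : ℝ, ∀ x ≥ x0, Real.log x ≤ c * x := by
  have h1 := Real.isLittleO_log_id_atTop.bound hc
  obtain ⟨x0, hx0⟩ := eventually_atTop.1 (h1.and (eventually_ge_atTop 0))
  refine ⟨x0, fun x hx => ?_⟩
  obtain ⟨h2, h3⟩ := hx0 x hx
  rw [id, Real.norm_of_nonneg h3] at h2
  exact (le_abs_self _).trans h2

theorem exists_J (P : ℝ) : ∃ R1 : ℝ, 4 ≤ R1 ∧ ∀ R ≥ R1, ∀ n ≥ R, ∀ ρ : ℂ, ‖ρ‖ ≤ P → ∃ J : ℂ → ℂ, IsJ n ρ R J := by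
  obtain ⟨C1, hC1, hb⟩ := cs_bound
  obtain ⟨C2, hC2, hd⟩ := cs_deriv
  set Q : ℝ := |P| + 1 with hQ
  have hQ0 : 0 < Q := by positivity
  set K : ℝ := Q * C1 with hK
  have hK0 : 0 < K := by positivity
  obtain ⟨x0, hx0⟩ := G6a_log (c := 1 / (36 * K)) (by positivity)
  refine ⟨max 4 (max x0 (max (32 * K) (3 * (Q * C2)))), le_max_left _ _, ?_⟩
  intro R hR n hn ρ hρ
  have hR4 : 4 ≤ R := (le_max_left _ _).trans hR
  have hRx : x0 ≤ R := ((le_max_left _ _).trans (le_max_right _ _)).trans hR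
  have hRK : 32 * K ≤ R :=
    ((le_max_left _ _).trans ((le_max_right _ _).trans (le_max_right _ _))).trans hR
  have hRC : 3 * (Q * C2) ≤ R :=
    ((le_max_right _ _).trans ((le_max_right _ _).trans (le_max_right _ _))).trans hR
  have hn4 : 4 ≤ n := hR4.trans hn
  have hn0 : 0 < n := by linarith
  have hR0 : 0 < R := by linarith
  have hρQ : ‖ρ‖ ≤ Q := by
    have := le_abs_self P
    linarith
  obtain ⟨J, h1, h2, h3⟩ := inv_lemma (U := Wd n R) (ρ := fun w => dn n w / 16)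
    (c := fun ζ => ρ * cs n ζ) (isOpen_Wd hn0 R)
    ((dn_continuous hn0).div_const 16).continuousOn
    (fun w hw => by
      have := Wd_dn hw
      have h4 : 0 < dn n w := by linarith
      positivity)
    (by
      intro w hw ζ hζ
      have hdw := Wd_dn hw
      rw [mem_closedBall, dist_eq_norm] at hζ
      have hζ' : ‖ζ - w‖ ≤ dn n w / 8 := by
        have : 2 * (dn n w / 16) = dn n w / 8 := by ring
        rwa [this] at hζ
      have hV : ζ ∈ V n (R / 2) := Wd_V hn0 hR0 hw hζ'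
      have hV1 : ζ ∈ V n 1 := V_mono (by linarith) hV
      have hV0 : ζ ∈ V n 0 := V_mono (by norm_num) hV1
      have hlo : 7 / 8 * dn n w ≤ dn n ζ := by
        have h4 := dn_lip hn0 w ζ
        rw [norm_sub_rev] at h4
        linarith
      have hup : dn n ζ ≤ 9 / 8 * dn n w := by
        have h4 := dn_lip hn0 ζ w
        linarith
      have hdζ : 0 < dn n ζ := by linarith
      have hda : DifferentiableAt ℂ (cs n) ζ := (cs_hasDerivAt hn0 hV0).differentiableAt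
      refine ⟨hda.const_mul ρ, ?_, ?_⟩
      · have h4 : deriv (fun ζ => ρ * cs n ζ) ζ = ρ * deriv (cs n) ζ := deriv_const_mul _ hda
        rw [h4, norm_mul]
        have h5 := (hd n hn4 ζ hV1).2
        calc ‖ρ‖ * ‖deriv (cs n) ζ‖ ≤ Q * (C2 / dn n ζ) :=
              mul_le_mul hρQ h5 (norm_nonneg _) hQ0.le
          _ = Q * C2 / dn n ζ := by ring
          _ ≤ 1 / 2 := by
              rw [div_le_iff₀ hdζ]
              linarith
      · show ‖ρ * cs n ζ‖ ≤ dn n w / 16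
        rw [norm_mul]
        have h5 := hb n hn4 ζ hV1
        have h6 : Real.log (dn n ζ) ≤ Real.log (9 / 8 * dn n w) := Real.log_le_log hdζ hup
        have h7 := hx0 (9 / 8 * dn n w) (by linarith)
        have h8 : 0 ≤ 1 + Real.log (dn n ζ) := by
          have : 0 ≤ Real.log (dn n ζ) := Real.log_nonneg (by linarith)
          linarith
        calc ‖ρ‖ * ‖cs n ζ‖ ≤ Q * (C1 * (1 + Real.log (dn n ζ))) :=
              mul_le_mul hρQ h5 (norm_nonneg _) hQ0.le
          _ = K * (1 + Real.log (dn n ζ)) := by rw [hK]; ring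
          _ ≤ K * (1 + 1 / (36 * K) * (9 / 8 * dn n w)) :=
              mul_le_mul_of_nonneg_left (by linarith) hK0.le
          _ = K + dn n w / 32 := by
              field_simp
              ring
          _ ≤ dn n w / 16 := by linarith)
  refine ⟨J, h1, fun w hw => ?_, fun w hw => (h2 w hw).2, fun w hw ζ hζ he => ?_⟩
  · have := (h2 w hw).1
    rwa [mem_closedBall, dist_eq_norm] at this
  · apply h3 w hw ζ _ he
    rw [mem_closedBall, dist_eq_norm]
    have : 2 * (dn n w / 16) = dn n w / 8 := by ring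
    show ‖ζ - w‖ ≤ 2 * (dn n w / 16)
    rw [this]
    exact hζ

theorem cs_add {n : ℝ} (hn : 0 < n) (ζ : ℂ) (k : ℤ) : cs n (ζ + k * n) = cs n ζ := by
  unfold cs S
  rw [ee_add hn]

theorem IsJ.add {n : ℝ} {ρ : ℂ} {R : ℝ} {J : ℂ → ℂ} (h : IsJ n ρ R J) (hn : 0 < n) {w : ℂ} (hw : w ∈ Wd n R)
    (k : ℤ) : J (w + k * n) = J w + k * n := by
  symm
  apply h.uniq (w + k * n) (Wd_add hw k)
  · have e : J w + k * n - (w + k * n) = J w - w := by ring
    rw [e, dn_add hn]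
    have h1 := h.near w hw
    have h2 := dn_nonneg n w
    linarith
  · rw [cs_add hn]
    have h1 := h.eq w hw
    linear_combination h1

theorem IsJ.mem {n : ℝ} {ρ : ℂ} {R : ℝ} {J : ℂ → ℂ} (h : IsJ n ρ R J) (hn : 0 < n) (hR : 0 < R) {w : ℂ}
    (hw : w ∈ Wd n R) : J w ∈ V n (R / 2) ∧ dn n w * (15 / 16) ≤ dn n (J w) ∧ dn n (J w) ≤ dn n w * (17 / 16) := by
  have h1 := h.near w hw
  have h2 := dn_nonneg n w
  refine ⟨Wd_V hn hR hw (by linarith), ?_, ?_⟩
  · have h3 := dn_lip hn w (J w)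
    rw [norm_sub_rev] at h3
    linarith
  · have h3 := dn_lip hn (J w) w
    linarith

theorem IsJ.inj {n : ℝ} {ρ : ℂ} {R : ℝ} {J : ℂ → ℂ} (h : IsJ n ρ R J) {w w' : ℂ} (hw : w ∈ Wd n R)
    (hw' : w' ∈ Wd n R) (he : J w = J w') : w = w' := by
  have h1 := h.eq w hw
  have h2 := h.eq w' hw'
  rw [← he] at h2
  linear_combination h2 - h1

end Pool.Agent.CR.G
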