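import Pool.Agent.H48.CR.GDefs2
import Pool.Agent.H48.CR.G3
import Pool.Agent.H48.CR.G5a
import Pool.Agent.H48.CR.G5d

/-!
# CR G6b: the coordinate change `J0` of the limit, and `J → J0`

`exists_J0`: `inv_lemma` with `U = Wd0 R`, `ρ w = ‖w‖/16`, `c ζ = ρ log (-i ζ)`. For `w ∈ Wd0 R`, `‖ζ - w‖ ≤ ‖w‖/8`: `-i ζ` is in the slit plane (the computation of `Wd_V`: `-ζ.im < 2 |ζ.re|`, so not (`ζ.re = 0`, `ζ.im ≤ 0`)), `‖ζ‖ ≥ 7/8 ‖w‖`, derivative `ρ/ζ`,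
`|log (-i ζ)| ≤ |log ‖ζ‖| + π`, small compared with `‖w‖` for `‖w‖ ≥ R ≥ R1`.
`J_lim`: let `w ∈ Wd0 R`. For `x = (N, w')` close to `(∞, w)`: `w' ∈ Wd (n N) R`, `dn (n N) w' = ‖w'‖` (`dn_ev`), so `‖J N w' - w'‖ ≤ ‖w'‖/16`: bounded. If `ζ*` is a cluster point of `J N w'` along the filter, then `‖ζ* - w‖ ≤ ‖w‖/16` and passing to the limit
in `J N w' = w' + ρ N cs (n N) (J N w')` (continuous convergence `cc_cs` at `ζ*`; `-i ζ*` is in the slit plane): `ζ* = w + ρ0 log (-i ζ*)`, so `ζ* = J0 w` by uniqueness. A bounded (relatively compact) family with exactly one cluster point converges.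
(Or by estimates: `‖J N w' - J0 w‖ ≤ ‖w' - w‖ + ‖ρ N cs - ρ0 log‖(J N w') + ‖J N w' - J0 w‖ / 2`.)
-/

set_option autoImplicit false

open Set Filter Topology Metric

namespace Pool.Agent.CR.G

/-- the points near `w ∈ Wd0 R` -/
theorem Wd0_slit {R : ℝ} (hR : 0 < R) {w ζ : ℂ} (hw : w ∈ Wd0 R) (hζ : ‖ζ - w‖ ≤ ‖w‖ / 8) :
    -Complex.I * ζ ∈ Complex.slitPlane ∧ R / 2 < ‖ζ‖ ∧ -ζ.im < 2 * |ζ.re| := by
  obtain ⟨h1, h2⟩ := hw
  have hre : |ζ.re - w.re| ≤ ‖w‖ / 8 := by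
    have := Complex.abs_re_le_norm (ζ - w)
    rw [Complex.sub_re] at this
    exact this.trans hζ
  have him : |ζ.im - w.im| ≤ ‖w‖ / 8 := by
    have := Complex.abs_im_le_norm (ζ - w)
    rw [Complex.sub_im] at this
    exact this.trans hζ
  have hn : ‖w‖ ^ 2 = w.re ^ 2 + w.im ^ 2 := by
    rw [← Complex.normSq_eq_norm_sq, Complex.normSq_apply]; ring
  have hw0 : 0 < ‖w‖ := hR.trans h1
  have key : -ζ.im < 2 * |ζ.re| := by
    by_contra hcon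
    push Not at hcon
    have h3 := abs_le.1 hre
    have h4 := abs_le.1 him
    have h5 : |w.re| ≤ |ζ.re| + ‖w‖ / 8 := by
      have := abs_sub_abs_le_abs_sub w.re ζ.re
      rw [abs_sub_comm] at this
      linarith
    have h6 : 0 ≤ |ζ.re| := abs_nonneg _
    have h7 : |w.re| < 3 * ‖w‖ / 8 := by linarith [h4.1, h4.2]
    have h8 : |w.im| < 3 * ‖w‖ / 8 := by
      rw [abs_lt]
      constructor <;> linarith [h4.1, h4.2]
    have h9 : w.re ^ 2 < (3 * ‖w‖ / 8) ^ 2 := by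
      rw [← sq_abs]
      exact pow_lt_pow_left₀ h7 (abs_nonneg _) two_ne_zero
    have h10 : w.im ^ 2 < (3 * ‖w‖ / 8) ^ 2 := by
      rw [← sq_abs]
      exact pow_lt_pow_left₀ h8 (abs_nonneg _) two_ne_zero
    nlinarith
  refine ⟨?_, ?_, key⟩
  · rw [Complex.mem_slitPlane_iff]
    have h3 : (-Complex.I * ζ).re = ζ.im := by simp
    have h4 : (-Complex.I * ζ).im = -ζ.re := by simp
    rw [h3, h4]
    by_cases h5 : ζ.re = 0
    · left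
      rw [h5] at key
      simp at key
      exact key
    · right
      simpa using h5
  · have h3 : ‖w‖ ≤ ‖ζ‖ + ‖ζ - w‖ := by
      have := norm_sub_norm_le w ζ
      rw [norm_sub_rev] at this
      linarith
    linarith

private theorem g6b_log (z : ℂ) : ‖Complex.log z‖ ≤ |Real.log ‖z‖| + Real.pi := by
  have h1 : Complex.log z = (Real.log ‖z‖ : ℂ) + Complex.arg z * Complex.I := rfl
  rw [h1]
  refine (norm_add_le _ _).trans ?_
  rw [Complex.norm_real, norm_mul, Complex.norm_I, mul_one, Complex.norm_real, Real.norm_eq_abs,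
    Real.norm_eq_abs]
  have := Complex.abs_arg_le_pi z
  linarith

private theorem g6b_small {P ε x : ℝ} (hP : 0 ≤ P) (hε : 0 < ε) (hx : 2 + 32 * P ^ 2 / ε ^ 2 + 8 * P / ε ≤ x) :
    P * (Real.log (2 * x) + Real.pi) ≤ ε * x := by
  have hx0 : 0 < x := by
    have h1 : 0 ≤ 32 * P ^ 2 / ε ^ 2 := by positivity
    have h2 : 0 ≤ 8 * P / ε := by positivity
    linarith
  have h1 : Real.log (2 * x) ≤ 2 * Real.sqrt (2 * x) := by
    have h2 : 0 < Real.sqrt (2 * x) := Real.sqrt_pos.2 (by linarith)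
    have h3 := Real.log_le_sub_one_of_pos h2
    have h4 : Real.log (2 * x) = 2 * Real.log (Real.sqrt (2 * x)) := by
      rw [Real.log_sqrt (by linarith)]
      ring
    linarith
  set y := Real.sqrt (2 * x) with hy
  have hy2 : y ^ 2 = 2 * x := Real.sq_sqrt (by linarith)
  have hy0 : 0 < y := Real.sqrt_pos.2 (by linarith)
  have h5 : 8 * P / ε ≤ y := by
    have h6 : 32 * P ^ 2 / ε ^ 2 ≤ x := by
      have h2 : 0 ≤ 8 * P / ε := by positivity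
      linarith
    have h7 : (8 * P / ε) ^ 2 ≤ y ^ 2 := by
      rw [hy2, div_pow]
      have : (8 * P) ^ 2 / ε ^ 2 = 2 * (32 * P ^ 2 / ε ^ 2) := by ring
      rw [this]
      linarith
    exact (sq_le_sq₀ (by positivity) hy0.le).1 h7
  have h6 : 8 * P ≤ ε * y := by
    rw [div_le_iff₀ hε] at h5
    linarith
  have h7 : 8 * P / ε ≤ x := by
    have : 0 ≤ 32 * P ^ 2 / ε ^ 2 := by positivity
    linarith
  have h8 : 8 * P ≤ ε * x := by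
    rw [div_le_iff₀ hε] at h7
    linarith
  have h9 : P * (2 * y) ≤ ε * x / 2 := by
    have : 8 * P * y ≤ ε * y * y := mul_le_mul_of_nonneg_right h6 hy0.le
    nlinarith
  have h10 : P * Real.pi ≤ ε * x / 2 := by
    have := Real.pi_le_four
    nlinarith
  nlinarith [mul_le_mul_of_nonneg_left h1 hP]

private theorem g6b_log_bound {w ζ : ℂ} (hw : 2 < ‖w‖) (h : ‖ζ - w‖ ≤ ‖w‖ / 8) :
    ‖Complex.log (-Complex.I * ζ)‖ ≤ Real.log (2 * ‖w‖) + Real.pi := by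
  refine (g6b_log _).trans ?_
  have h1 : ‖-Complex.I * ζ‖ = ‖ζ‖ := by simp
  rw [h1]
  have h2 : ‖w‖ ≤ ‖ζ‖ + ‖ζ - w‖ := by
    have := norm_sub_norm_le w ζ
    rw [norm_sub_rev] at this
    linarith
  have h3 : ‖ζ‖ ≤ ‖w‖ + ‖ζ - w‖ := by
    have := norm_sub_norm_le ζ w
    linarith
  have h4 : 1 ≤ ‖ζ‖ := by linarith
  rw [abs_of_nonneg (Real.log_nonneg h4)]
  have h5 : Real.log ‖ζ‖ ≤ Real.log (2 * ‖w‖) := Real.log_le_log (by linarith) (by linarith)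
  linarith

theorem exists_J0 (P : ℝ) : ∃ R1 : ℝ, 4 ≤ R1 ∧ ∀ R ≥ R1, ∀ ρ : ℂ, ‖ρ‖ ≤ P → ∃ J : ℂ → ℂ, IsJ0 ρ R J := by
  by_cases hP : 0 ≤ P
  swap
  · refine ⟨4, le_rfl, fun R _ ρ hρ => absurd ((norm_nonneg ρ).trans hρ) hP⟩
  refine ⟨max 4 (max (4 * P) (2 + 32 * P ^ 2 / (1 / 16) ^ 2 + 8 * P / (1 / 16))), le_max_left _ _, ?_⟩
  intro R hR ρ hρ
  have hR4 : 4 ≤ R := (le_max_left _ _).trans hR
  have hRP : 4 * P ≤ R := (le_max_left _ _).trans ((le_max_right _ _).trans hR)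
  have hRs : 2 + 32 * P ^ 2 / (1 / 16) ^ 2 + 8 * P / (1 / 16) ≤ R :=
    (le_max_right _ _).trans ((le_max_right _ _).trans hR)
  have hR0 : 0 < R := by linarith
  obtain ⟨J, hJ1, hJ2, hJ3⟩ := inv_lemma (U := Wd0 R) (ρ := fun w => ‖w‖ / 16)
    (c := fun ζ => ρ * Complex.log (-Complex.I * ζ)) (isOpen_Wd0 R)
    (continuous_norm.div_const _).continuousOn (fun w hw => by
      have := hw.1
      have : 0 < ‖w‖ := by linarith
      positivity) (by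
      intro w hw ζ hζ
      have hζ' : ‖ζ - w‖ ≤ ‖w‖ / 8 := by
        rw [mem_closedBall, dist_eq_norm] at hζ
        linarith
      obtain ⟨h1, h2, -⟩ := Wd0_slit hR0 hw hζ'
      have hd : HasDerivAt (fun ζ : ℂ => ρ * Complex.log (-Complex.I * ζ))
          (ρ * (-Complex.I / (-Complex.I * ζ))) ζ := by
        have h3 : HasDerivAt (fun ζ : ℂ => -Complex.I * ζ) (-Complex.I) ζ := by
          simpa using (hasDerivAt_id ζ).const_mul (-Complex.I)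
        exact (h3.clog h1).const_mul ρ
      have hζ0 : ζ ≠ 0 := by
        intro h0
        rw [h0, norm_zero] at h2
        linarith
      refine ⟨hd.differentiableAt, ?_, ?_⟩
      · rw [hd.deriv]
        have h4 : ρ * (-Complex.I / (-Complex.I * ζ)) = ρ / ζ := by
          have := Complex.I_ne_zero
          field_simp
        rw [h4, norm_div, div_le_iff₀ (norm_pos_iff.2 hζ0)]
        linarith
      · show ‖ρ * Complex.log (-Complex.I * ζ)‖ ≤ ‖w‖ / 16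
        rw [norm_mul]
        have hw2 : 2 < ‖w‖ := by linarith [hw.1]
        have h5 := g6b_log_bound hw2 hζ'
        have h6 : P * (Real.log (2 * ‖w‖) + Real.pi) ≤ 1 / 16 * ‖w‖ :=
          g6b_small hP (by norm_num) (by linarith [hw.1])
        calc ‖ρ‖ * ‖Complex.log (-Complex.I * ζ)‖ ≤ P * (Real.log (2 * ‖w‖) + Real.pi) :=
              mul_le_mul hρ h5 (norm_nonneg _) hP
          _ ≤ 1 / 16 * ‖w‖ := h6
          _ = ‖w‖ / 16 := by ring)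
  refine ⟨J, hJ1, fun w hw => ?_, fun w hw => (hJ2 w hw).2, fun w hw ζ h1 h2 => ?_⟩
  · have := (hJ2 w hw).1
    rwa [mem_closedBall, dist_eq_norm] at this
  · refine hJ3 w hw ζ ?_ h2
    rw [mem_closedBall, dist_eq_norm]
    linarith

theorem IsJ0.inj {ρ : ℂ} {R : ℝ} {J : ℂ → ℂ} (h : IsJ0 ρ R J) {w w' : ℂ} (hw : w ∈ Wd0 R)
    (hw' : w' ∈ Wd0 R) (he : J w = J w') : w = w' := by
  have h1 := h.eq w hw
  have h2 := h.eq w' hw'
  rw [← he] at h2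
  have h3 := h1.symm.trans h2
  exact add_right_cancel h3

/-- `J0 w = w + o(‖w‖)` -/
theorem IsJ0.asymp {ρ : ℂ} {R : ℝ} {J : ℂ → ℂ} (h : IsJ0 ρ R J) (hR : 0 < R) (ε : ℝ) (hε : 0 < ε) :
    ∃ R' : ℝ, ∀ w ∈ Wd0 R, R' < ‖w‖ → ‖J w - w‖ ≤ ε * ‖w‖ := by
  refine ⟨max 2 (2 + 32 * ‖ρ‖ ^ 2 / ε ^ 2 + 8 * ‖ρ‖ / ε), ?_⟩
  intro w hw hw'
  have hw2 : 2 < ‖w‖ := lt_of_le_of_lt (le_max_left _ _) hw'
  have hws : 2 + 32 * ‖ρ‖ ^ 2 / ε ^ 2 + 8 * ‖ρ‖ / ε < ‖w‖ := lt_of_le_of_lt (le_max_right _ _) hw'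
  have h1 := h.near w hw
  have h2 := h.eq w hw
  have h3 : J w - w = ρ * Complex.log (-Complex.I * J w) := by
    linear_combination h2
  rw [h3, norm_mul]
  have h4 := g6b_log_bound (w := w) (ζ := J w) hw2 (by linarith [norm_nonneg w])
  calc ‖ρ‖ * ‖Complex.log (-Complex.I * J w)‖ ≤ ‖ρ‖ * (Real.log (2 * ‖w‖) + Real.pi) :=
        mul_le_mul_of_nonneg_left h4 (norm_nonneg _)
    _ ≤ ε * ‖w‖ := g6b_small (norm_nonneg _) hε hws.le

theorem J_lim {R : ℝ} (hR : 4 ≤ R) {n : ℕ → ℝ} (hn : Tendsto n atTop atTop) {ρ : ℕ → ℂ} {ρ0 : ℂ}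
    (hρ : Tendsto ρ atTop (𝓝 ρ0)) {J : ℕ → ℂ → ℂ} {J0 : ℂ → ℂ}
    (hJ : ∀ᶠ N in atTop, IsJ (n N) (ρ N) R (J N)) (hJ0 : IsJ0 ρ0 R J0) : CC J J0 (Wd0 R) := by
  intro w hw
  have hw0 : 0 < ‖w‖ := by linarith [hw.1]
  rw [tendsto_iff_ultrafilter]
  intro g hg
  have hfst : Tendsto (fun x : ℕ × ℂ => x.1) (g : Filter (ℕ × ℂ)) atTop :=
    tendsto_fst.mono_left hg
  have hsnd : Tendsto (fun x : ℕ × ℂ => x.2) (g : Filter (ℕ × ℂ)) (𝓝 w) :=
    tendsto_snd.mono_left hg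
  have hev1 : ∀ᶠ x : ℕ × ℂ in (g : Filter (ℕ × ℂ)), x.2 ∈ Wd (n x.1) R := hg (Wd0_ev hn hw)
  have hev2 : ∀ᶠ x : ℕ × ℂ in (g : Filter (ℕ × ℂ)), dn (n x.1) x.2 = ‖x.2‖ := hg (dn_ev hn w)
  have hev3 : ∀ᶠ x : ℕ × ℂ in (g : Filter (ℕ × ℂ)), IsJ (n x.1) (ρ x.1) R (J x.1) :=
    hfst.eventually hJ
  have hev4 : ∀ᶠ x : ℕ × ℂ in (g : Filter (ℕ × ℂ)), ‖J x.1 x.2 - x.2‖ ≤ ‖x.2‖ / 16 := by
    filter_upwards [hev1, hev2, hev3] with x h1 h2 h3
    rw [← h2]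
    exact h3.near _ h1
  have hev5 : ∀ᶠ x : ℕ × ℂ in (g : Filter (ℕ × ℂ)), J x.1 x.2 ∈ closedBall (0 : ℂ) (2 * (‖w‖ + 1)) := by
    have h1 : ∀ᶠ x : ℕ × ℂ in (g : Filter (ℕ × ℂ)), x.2 ∈ ball w 1 :=
      hsnd.eventually (ball_mem_nhds w one_pos)
    filter_upwards [hev4, h1] with x h2 h3
    rw [mem_ball, dist_eq_norm] at h3
    rw [mem_closedBall_zero_iff]
    have h4 : ‖x.2‖ ≤ ‖w‖ + 1 := by
      have := norm_sub_norm_le x.2 w
      linarith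
    have h5 : ‖J x.1 x.2‖ ≤ ‖x.2‖ + ‖J x.1 x.2 - x.2‖ := by
      have := norm_sub_norm_le (J x.1 x.2) x.2
      linarith
    linarith [norm_nonneg x.2]
  have hmem : closedBall (0 : ℂ) (2 * (‖w‖ + 1)) ∈ (g.map fun x : ℕ × ℂ => J x.1 x.2) := by
    rw [Ultrafilter.mem_map]
    exact hev5
  obtain ⟨ζ, -, hζ⟩ := (isCompact_closedBall (0 : ℂ) (2 * (‖w‖ + 1))).ultrafilter_le_nhds
    (g.map fun x : ℕ × ℂ => J x.1 x.2) (le_principal_iff.2 hmem)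
  have hlim : Tendsto (fun x : ℕ × ℂ => J x.1 x.2) (g : Filter (ℕ × ℂ)) (𝓝 ζ) := hζ
  have hn1 : Tendsto (fun x : ℕ × ℂ => ‖J x.1 x.2 - x.2‖) (g : Filter (ℕ × ℂ)) (𝓝 ‖ζ - w‖) :=
    (hlim.sub hsnd).norm
  have hn2 : Tendsto (fun x : ℕ × ℂ => ‖x.2‖ / 16) (g : Filter (ℕ × ℂ)) (𝓝 (‖w‖ / 16)) :=
    hsnd.norm.div_const 16
  have hnear : ‖ζ - w‖ ≤ ‖w‖ / 16 := le_of_tendsto_of_tendsto hn1 hn2 hev4
  have hslit := (Wd0_slit (by linarith : (0 : ℝ) < R) hw (by linarith : ‖ζ - w‖ ≤ ‖w‖ / 8)).1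
  have hcs0 : Tendsto (fun x : ℕ × ℂ => cs (n x.1) x.2) (atTop ×ˢ 𝓝 ζ)
      (𝓝 (Complex.log (-Complex.I * ζ))) := cc_cs hn ζ hslit
  have hpm : Tendsto (fun x : ℕ × ℂ => (x.1, J x.1 x.2)) (g : Filter (ℕ × ℂ)) (atTop ×ˢ 𝓝 ζ) :=
    hfst.prodMk hlim
  have hcs := hcs0.comp hpm
  rw [Function.comp_def] at hcs
  have hρ' : Tendsto (fun x : ℕ × ℂ => ρ x.1) (g : Filter (ℕ × ℂ)) (𝓝 ρ0) := hρ.comp hfst
  have heq : ζ = w + ρ0 * Complex.log (-Complex.I * ζ) := by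
    refine tendsto_nhds_unique hlim ?_
    refine (hsnd.add (hρ'.mul hcs)).congr' ?_
    filter_upwards [hev1, hev3] with x h1 h2
    exact (h2.eq _ h1).symm
  have h6 := hJ0.uniq w hw ζ (by linarith) heq
  rw [← h6]
  exact hlim

end Pool.Agent.CR.G
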