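import Pool.Agent.H48.CR.G6a
import Pool.Agent.H48.CR.G6b
import Pool.Agent.H48.CR.G7b

/-!
# CR G9a: the limit of the charts at the hole `j n`

`SeqData`: a sequence of levels. `κ0_eq`: limit of `κ_eq` (`cn_lim`, continuity of `b` at `mu (p/q)` within the ball).
`YX_y0`: `(y0)^q = κ0^q (-i ζ)⁻¹` (`exp (2πi j) = 1`), `-1/(q b κ0^q) (-i ζ) = ζ` since `κ0^q = 1/(-i q b)`. `y0_bound`: `‖y0‖^q = 1/(q ‖b‖ ‖ζ‖)`.
`WN_lim`: `J N (w + j n) = J N w + j n` (`IsJ.add`; `w' ∈ Wd (n N) R` eventually, `Wd0_ev`). `yN (ζ + j n) = κ exp (2πi ζ/(q n)) exp (2πi j/q) (S ζ)^(-1/q)` (`ee_add`); `CC` of `J` (`J_lim`), `cc_S`, continuity of `cpow` in the slit plane (`Wd0_slit` for `J0 w`), `exp (2πi ζ/(q n)) → 1`: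
`yN (J N w + j n) → y0 j (J0 w)`, which lies in `ball 0 r1` for `R ≥ R1` (`y0_bound`, `‖J0 w‖ ≥ R/2`); then `X.η_cont` (joint continuity; `l N ∈ closedBall`, within the set `closedBall ×ˢ ball 0 r1`).
-/

set_option autoImplicit false

open Set Filter Topology Metric

namespace Pool.Agent.CR.G

structure SeqData {p q : ℕ} (X : NF p q) (R : ℝ) (n : ℕ → ℝ) (l κ : ℕ → ℂ) (κ0 : ℂ) (J : ℕ → ℂ → ℂ)
    (J0 : ℂ → ℂ) : Prop where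
  n_lim : Tendsto n atTop atTop
  l_lim : Tendsto l atTop (𝓝 (mu ((p : ℝ) / q)))
  κ_lim : Tendsto κ atTop (𝓝 κ0)
  lev : ∀ᶠ N in atTop, Lev X (n N) (l N) (κ N)
  isJ : ∀ᶠ N in atTop, IsJ (n N) (X.ρ (l N)) R (J N)
  isJ0 : IsJ0 (X.ρ (mu ((p : ℝ) / q))) R J0

private theorem g9a_comp {F : ℕ → ℂ → ℂ} {G : ℂ → ℂ} {U : Set ℂ} (h : CC F G U) {α : Type}
    {g : Filter α} {u : α → ℕ} {v : α → ℂ} {a : ℂ} (ha : a ∈ U) (hu : Tendsto u g atTop)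
    (hv : Tendsto v g (𝓝 a)) : Tendsto (fun x => F (u x) (v x)) g (𝓝 (G a)) := by
  have h1 := (h a ha).comp (hu.prodMk hv)
  rw [Function.comp_def] at h1
  exact h1

private theorem g9a_b {p q : ℕ} {X : NF p q} {R : ℝ} {n : ℕ → ℝ} {l κ : ℕ → ℂ} {κ0 : ℂ}
    {J : ℕ → ℂ → ℂ} {J0 : ℂ → ℂ} (h : SeqData X R n l κ κ0 J J0) :
    Tendsto (fun N => X.b (l N)) atTop (𝓝 (X.b (mu ((p : ℝ) / q)))) := by
  have h1 : ContinuousWithinAt X.b (closedBall (mu ((p : ℝ) / q)) X.r0) (mu ((p : ℝ) / q)) :=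
    X.b_cont _ (mem_closedBall_self X.r0_pos.le)
  refine h1.tendsto.comp (tendsto_nhdsWithin_iff.2 ⟨h.l_lim, ?_⟩)
  filter_upwards [h.lev] with N hN
  exact hN.mem

theorem SeqData.κ0_eq {p q : ℕ} {X : NF p q} {R : ℝ} {n : ℕ → ℝ} {l κ : ℕ → ℂ} {κ0 : ℂ} {J : ℕ → ℂ → ℂ}
    {J0 : ℂ → ℂ} (h : SeqData X R n l κ κ0 J J0) :
    κ0 ^ q * (-Complex.I * q * X.b (mu ((p : ℝ) / q))) = 1 := by
  have h1 := g9a_b h
  have h2 := cn_lim h.n_lim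
  have h3 : Tendsto (fun N => κ N ^ q * (q * X.b (l N) * (cn (n N) * (2 * Real.pi / n N)))) atTop
      (𝓝 (κ0 ^ q * (q * X.b (mu ((p : ℝ) / q)) * -Complex.I))) :=
    (h.κ_lim.pow q).mul ((h1.const_mul _).mul h2)
  have h4 : κ0 ^ q * (q * X.b (mu ((p : ℝ) / q)) * -Complex.I) = 1 := by
    refine tendsto_nhds_unique h3 ?_
    refine tendsto_const_nhds.congr' ?_
    filter_upwards [h.lev] with N hN
    rw [← hN.κ_eq]
    ring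
  rw [← h4]
  ring

private theorem g9a_pow {q : ℕ} (hq : 0 < q) {κ0 ζ : ℂ} {j : ℤ} :
    (y0 q κ0 j ζ) ^ q = κ0 ^ q * (-Complex.I * ζ)⁻¹ := by
  have hq0 : (q : ℂ) ≠ 0 := by exact_mod_cast hq.ne'
  unfold y0
  rw [mul_pow, mul_pow, ← Complex.exp_nat_mul, ← Complex.cpow_mul_nat]
  have h1 : (q : ℂ) * (2 * Real.pi * Complex.I * j / q) = j * (2 * Real.pi * Complex.I) := by
    field_simp
  rw [h1, Complex.exp_int_mul_two_pi_mul_I, mul_one]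
  rw [show (-(1 / (q : ℂ)) * q) = -1 by field_simp, Complex.cpow_neg_one]

theorem YX_y0 {p q : ℕ} (hq : 0 < q) (X : NF p q) {κ0 : ℂ}
    (hκ : κ0 ^ q * (-Complex.I * q * X.b (mu ((p : ℝ) / q))) = 1) (j : ℤ) {ζ : ℂ} (hζ : ζ ≠ 0) :
    y0 q κ0 j ζ ≠ 0 ∧ YX q (X.b (mu ((p : ℝ) / q))) (y0 q κ0 j ζ) = ζ := by
  have hq0 : (q : ℂ) ≠ 0 := by exact_mod_cast hq.ne'
  have hκ0 : κ0 ≠ 0 := by
    intro h0
    rw [h0, zero_pow hq.ne', zero_mul] at hκ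
    exact zero_ne_one hκ
  have hI := Complex.I_ne_zero
  have hz : -Complex.I * ζ ≠ 0 := mul_ne_zero (neg_ne_zero.2 hI) hζ
  have hb := X.b_ne _ (mem_closedBall_self (x := mu ((p : ℝ) / q)) X.r0_pos.le)
  refine ⟨?_, ?_⟩
  · unfold y0
    refine mul_ne_zero (mul_ne_zero hκ0 (Complex.exp_ne_zero _)) ?_
    intro h0
    rw [Complex.cpow_eq_zero_iff] at h0
    exact hz h0.1
  · unfold YX
    rw [g9a_pow hq]
    have h1 : κ0 ^ q ≠ 0 := pow_ne_zero _ hκ0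
    have h2 : -1 / (q * X.b (mu ((p : ℝ) / q)) * (κ0 ^ q * (-Complex.I * ζ)⁻¹)) =
        Complex.I * ζ / (q * X.b (mu ((p : ℝ) / q)) * κ0 ^ q) := by
      field_simp
    rw [h2, div_eq_iff (mul_ne_zero (mul_ne_zero hq0 hb) h1)]
    linear_combination -(Complex.I * ζ) * hκ -
      (ζ * κ0 ^ q * q * X.b (mu ((p : ℝ) / q))) * Complex.I_sq

theorem y0_bound {p q : ℕ} (hq : 0 < q) (X : NF p q) : ∃ R1 : ℝ, 4 ≤ R1 ∧ ∀ κ0 : ℂ,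
    κ0 ^ q * (-Complex.I * q * X.b (mu ((p : ℝ) / q))) = 1 → ∀ (j : ℤ) (ζ : ℂ), R1 / 2 < ‖ζ‖ →
      ‖y0 q κ0 j ζ‖ < X.r1 := by
  set b0 := X.b (mu ((p : ℝ) / q)) with hb0
  have hb : b0 ≠ 0 := X.b_ne _ (mem_closedBall_self (x := mu ((p : ℝ) / q)) X.r0_pos.le)
  have hbn : 0 < ‖b0‖ := norm_pos_iff.2 hb
  have hqr : (0 : ℝ) < q := by exact_mod_cast hq
  have hr : 0 < X.r1 ^ q := pow_pos X.r1_pos _
  refine ⟨max 4 (2 / (q * ‖b0‖ * X.r1 ^ q)), le_max_left _ _, fun κ0 hκ j ζ hζ => ?_⟩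
  have h4 : (4 : ℝ) / 2 < ‖ζ‖ :=
    lt_of_le_of_lt (div_le_div_of_nonneg_right (le_max_left _ _) (by norm_num)) hζ
  have h5 : 2 / (q * ‖b0‖ * X.r1 ^ q) / 2 < ‖ζ‖ :=
    lt_of_le_of_lt (div_le_div_of_nonneg_right (le_max_right _ _) (by norm_num)) hζ
  have hζ0 : 0 < ‖ζ‖ := by linarith
  have hκn : ‖κ0‖ ^ q * (q * ‖b0‖) = 1 := by
    have h6 := congrArg norm hκ
    rw [norm_mul, norm_pow, norm_mul, norm_mul, norm_neg, Complex.norm_I, one_mul, norm_one,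
      Complex.norm_natCast] at h6
    exact h6
  refine lt_of_pow_lt_pow_left₀ q X.r1_pos.le ?_
  rw [← norm_pow, g9a_pow hq, norm_mul, norm_pow, norm_inv, norm_mul, norm_neg, Complex.norm_I, one_mul]
  have h7 : ‖κ0‖ ^ q = 1 / (q * ‖b0‖) := by
    rw [eq_div_iff (by positivity)]
    exact hκn
  rw [h7, ← div_eq_mul_inv, div_div, div_lt_iff₀ (by positivity)]
  have h8 : 2 / (q * ‖b0‖ * X.r1 ^ q) / 2 = 1 / (q * ‖b0‖ * X.r1 ^ q) := by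
    ring
  rw [h8, div_lt_iff₀ (by positivity)] at h5
  linarith

private theorem g9a_yN_add {q : ℕ} (hq : 0 < q) {n : ℝ} (hn : 0 < n) (κ ζ : ℂ) (j : ℤ) :
    yN q n κ (ζ + j * n) = κ * (Complex.exp (2 * Real.pi * Complex.I * ζ / (q * n)) *
      Complex.exp (2 * Real.pi * Complex.I * j / q)) * (S n ζ) ^ (-(1 / (q : ℂ))) := by
  have hq0 : (q : ℂ) ≠ 0 := by exact_mod_cast hq.ne'
  have hn0 : (n : ℂ) ≠ 0 := by exact_mod_cast hn.ne'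
  unfold yN S
  rw [ee_add hn, ← Complex.exp_add]
  congr 2
  congr 1
  field_simp

private theorem g9a_inv {n : ℕ → ℝ} (hn : Tendsto n atTop atTop) :
    Tendsto (fun N => ((n N : ℂ))⁻¹) atTop (𝓝 0) := by
  have h1 : Tendsto (fun N => (n N)⁻¹) atTop (𝓝 0) := tendsto_inv_atTop_zero.comp hn
  have h2 : Tendsto (fun N => (((n N)⁻¹ : ℝ) : ℂ)) atTop (𝓝 ((0 : ℝ) : ℂ)) :=
    (Complex.continuous_ofReal.tendsto 0).comp h1
  simpa using h2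

private theorem g9a_yN_lim {p q : ℕ} (hq : 0 < q) {X : NF p q} {R : ℝ} (hR : 4 ≤ R) {n : ℕ → ℝ}
    {l κ : ℕ → ℂ} {κ0 : ℂ} {J : ℕ → ℂ → ℂ} {J0 : ℂ → ℂ} (h : SeqData X R n l κ κ0 J J0) (j : ℤ)
    {w : ℂ} (hw : w ∈ Wd0 R) :
    Tendsto (fun x : ℕ × ℂ => yN q (n x.1) (κ x.1) (J x.1 x.2 + j * n x.1)) (atTop ×ˢ 𝓝 w)
      (𝓝 (y0 q κ0 j (J0 w))) := by
  have hfst : Tendsto (fun x : ℕ × ℂ => x.1) (atTop ×ˢ 𝓝 w) atTop := tendsto_fst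
  have hJ : Tendsto (fun x : ℕ × ℂ => J x.1 x.2) (atTop ×ˢ 𝓝 w) (𝓝 (J0 w)) :=
    J_lim hR h.n_lim (by
      have h1 : ContinuousWithinAt X.ρ (closedBall (mu ((p : ℝ) / q)) X.r0) (mu ((p : ℝ) / q)) :=
        X.ρ_cont _ (mem_closedBall_self X.r0_pos.le)
      refine h1.tendsto.comp (tendsto_nhdsWithin_iff.2 ⟨h.l_lim, ?_⟩)
      filter_upwards [h.lev] with N hN
      exact hN.mem) h.isJ h.isJ0 w hw
  have hw0 : 0 < ‖w‖ := by linarith [hw.1]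
  have hnear := h.isJ0.near w hw
  have hslit := (Wd0_slit (by linarith : (0 : ℝ) < R) hw (by linarith : ‖J0 w - w‖ ≤ ‖w‖ / 8)).1
  have hS : Tendsto (fun x : ℕ × ℂ => S (n x.1) (J x.1 x.2)) (atTop ×ˢ 𝓝 w)
      (𝓝 (-Complex.I * J0 w)) := g9a_comp (cc_S h.n_lim) (mem_univ _) hfst hJ
  have hpow : Tendsto (fun x : ℕ × ℂ => S (n x.1) (J x.1 x.2) ^ (-(1 / (q : ℂ)))) (atTop ×ˢ 𝓝 w)
      (𝓝 ((-Complex.I * J0 w) ^ (-(1 / (q : ℂ))))) := by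
    have h1 : ContinuousAt (fun z : ℂ => z ^ (-(1 / (q : ℂ)))) (-Complex.I * J0 w) :=
      continuousAt_cpow_const hslit
    have h2 := h1.tendsto.comp hS
    rw [Function.comp_def] at h2
    exact h2
  have hinv : Tendsto (fun x : ℕ × ℂ => ((n x.1 : ℂ))⁻¹) (atTop ×ˢ 𝓝 w) (𝓝 0) := by
    have h2 := (g9a_inv h.n_lim).comp hfst
    rw [Function.comp_def] at h2
    exact h2
  have hexp : Tendsto (fun x : ℕ × ℂ =>
      Complex.exp (2 * Real.pi * Complex.I * J x.1 x.2 / (q * n x.1))) (atTop ×ˢ 𝓝 w) (𝓝 1) := by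
    have h1 : Tendsto (fun x : ℕ × ℂ => 2 * Real.pi * Complex.I / q * (J x.1 x.2 * ((n x.1 : ℂ))⁻¹))
        (atTop ×ˢ 𝓝 w) (𝓝 (2 * Real.pi * Complex.I / q * (J0 w * 0))) :=
      (hJ.mul hinv).const_mul _
    have h2 := (Complex.continuous_exp.tendsto _).comp h1
    rw [Function.comp_def, mul_zero, mul_zero, Complex.exp_zero] at h2
    refine h2.congr fun x => ?_
    congr 1
    rw [div_mul_eq_mul_div, ← mul_assoc, mul_assoc _ (J x.1 x.2), ← div_eq_mul_inv, ← mul_div_assoc,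
      div_div, mul_comm (n x.1 : ℂ)]
  have hκ : Tendsto (fun x : ℕ × ℂ => κ x.1) (atTop ×ˢ 𝓝 w) (𝓝 κ0) := by
    have h2 := h.κ_lim.comp hfst
    rw [Function.comp_def] at h2
    exact h2
  have hall : Tendsto (fun x : ℕ × ℂ => κ x.1 *
      (Complex.exp (2 * Real.pi * Complex.I * J x.1 x.2 / (q * n x.1)) *
      Complex.exp (2 * Real.pi * Complex.I * j / q)) * S (n x.1) (J x.1 x.2) ^ (-(1 / (q : ℂ))))
      (atTop ×ˢ 𝓝 w) (𝓝 (κ0 * (1 * Complex.exp (2 * Real.pi * Complex.I * j / q)) *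
        (-Complex.I * J0 w) ^ (-(1 / (q : ℂ))))) :=
    (hκ.mul (hexp.mul_const _)).mul hpow
  rw [one_mul] at hall
  refine hall.congr' ?_
  have hpos : ∀ᶠ x : ℕ × ℂ in atTop ×ˢ 𝓝 w, 0 < n x.1 :=
    hfst.eventually (h.n_lim.eventually_gt_atTop 0)
  filter_upwards [hpos] with x hx
  rw [g9a_yN_add hq hx]

theorem WN_lim {p q : ℕ} (hq : 0 < q) (X : NF p q) : ∃ R1 : ℝ, 4 ≤ R1 ∧ ∀ R ≥ R1,
    ∀ (n : ℕ → ℝ) (l κ : ℕ → ℂ) (κ0 : ℂ) (J : ℕ → ℂ → ℂ) (J0 : ℂ → ℂ), SeqData X R n l κ κ0 J J0 → ∀ j : ℤ,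
      CC (fun N w => WN X (n N) (l N) (κ N) (J N) (w + j * n N)) (W0f X κ0 J0 j) (Wd0 R) := by
  obtain ⟨R1, hR14, hbd⟩ := y0_bound hq X
  refine ⟨R1, hR14, fun R hR n l κ κ0 J J0 h j => ?_⟩
  intro w hw
  have hR4 : 4 ≤ R := hR14.trans hR
  have hfst : Tendsto (fun x : ℕ × ℂ => x.1) (atTop ×ˢ 𝓝 w) atTop := tendsto_fst
  have hy := g9a_yN_lim hq hR4 h j hw
  have hnear := h.isJ0.near w hw
  have hJ0n : R1 / 2 < ‖J0 w‖ := by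
    have h1 : ‖w‖ ≤ ‖J0 w‖ + ‖J0 w - w‖ := by
      have := norm_sub_norm_le w (J0 w)
      rw [norm_sub_rev] at this
      linarith
    linarith [hw.1]
  have hyb : y0 q κ0 j (J0 w) ∈ ball (0 : ℂ) X.r1 := by
    rw [mem_ball_zero_iff]
    exact hbd κ0 h.κ0_eq j _ hJ0n
  have hc : ContinuousWithinAt (fun x : ℂ × ℂ => X.η x.1 x.2)
      (closedBall (mu ((p : ℝ) / q)) X.r0 ×ˢ ball 0 X.r1) (mu ((p : ℝ) / q), y0 q κ0 j (J0 w)) :=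
    X.η_cont _ ⟨mem_closedBall_self X.r0_pos.le, hyb⟩
  have hl : Tendsto (fun x : ℕ × ℂ => l x.1) (atTop ×ˢ 𝓝 w) (𝓝 (mu ((p : ℝ) / q))) := by
    have h2 := h.l_lim.comp hfst
    rw [Function.comp_def] at h2
    exact h2
  have hpair : Tendsto (fun x : ℕ × ℂ => (l x.1, yN q (n x.1) (κ x.1) (J x.1 x.2 + j * n x.1)))
      (atTop ×ˢ 𝓝 w) (𝓝[closedBall (mu ((p : ℝ) / q)) X.r0 ×ˢ ball 0 X.r1]
        (mu ((p : ℝ) / q), y0 q κ0 j (J0 w))) := by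
    refine tendsto_nhdsWithin_iff.2 ⟨hl.prodMk_nhds hy, ?_⟩
    have h1 : ∀ᶠ x : ℕ × ℂ in atTop ×ˢ 𝓝 w, Lev X (n x.1) (l x.1) (κ x.1) := hfst.eventually h.lev
    filter_upwards [h1, hy.eventually (isOpen_ball.mem_nhds hyb)] with x h2 h3
    exact ⟨h2.mem, h3⟩
  have hη := hc.tendsto.comp hpair
  rw [Function.comp_def] at hη
  refine hη.congr' ?_
  have hpos : ∀ᶠ x : ℕ × ℂ in atTop ×ˢ 𝓝 w, 0 < n x.1 :=
    hfst.eventually (h.n_lim.eventually_gt_atTop 0)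
  have hJev : ∀ᶠ x : ℕ × ℂ in atTop ×ˢ 𝓝 w, IsJ (n x.1) (X.ρ (l x.1)) R (J x.1) :=
    hfst.eventually h.isJ
  filter_upwards [hpos, hJev, Wd0_ev h.n_lim hw] with x h1 h2 h3
  show X.η (l x.1) (yN q (n x.1) (κ x.1) (J x.1 x.2 + j * n x.1)) =
    X.η (l x.1) (yN q (n x.1) (κ x.1) (J x.1 (x.2 + j * n x.1)))
  rw [h2.add h1 h3]

end Pool.Agent.CR.G
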