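import Pool.Agent.H48.CR.Chart

/-!
# CR G: definitions for the construction of the chart (helper48)

`n > 0` real (`n = q_N`). `ee n ζ = exp (2 π i ζ / n)`, `S n ζ = (n / 2π) (1 - ee n ζ)` (`→ -i ζ` for `n → ∞`),
`cs n ζ = log (S n ζ) + ee n ζ - 1` (`→ log (-i ζ)`), `cn n = μ / (1 - μ)`, `μ = exp (-2 π i / n)`, `YY n ζ = cn n * (1 - 1 / ee n ζ)` (`→ ζ`).
`V n r`: the domain `|ζ - k n| > r`, `-Im ζ < 2 |Re ζ - k n|`, all `k`. `dn n ζ`: distance of `ζ` to `n ℤ`.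
`YX q b x = -1 / (q b x^q)`. `yN q n κ ζ = κ exp (2 π i ζ / (q n)) (S n ζ)^(-1/q)`.
`NF p q`: normal form of `f l`, `l` near `mu (p / q)`, uniform in `l`: local coordinate `χ l`, its inverse `η l`.
-/

set_option autoImplicit false

open Set Filter Topology Metric

namespace Pool.Agent.CR.G

noncomputable def ee (n : ℝ) (ζ : ℂ) : ℂ := Complex.exp (2 * Real.pi * Complex.I * ζ / n)

noncomputable def S (n : ℝ) (ζ : ℂ) : ℂ := (n / (2 * Real.pi) : ℝ) * (1 - ee n ζ)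

noncomputable def cs (n : ℝ) (ζ : ℂ) : ℂ := Complex.log (S n ζ) + ee n ζ - 1

/-- `μ / (1 - μ)`, `μ = exp (-2 π i / n)` -/
noncomputable def cn (n : ℝ) : ℂ :=
  Complex.exp (-(2 * Real.pi * Complex.I / n)) / (1 - Complex.exp (-(2 * Real.pi * Complex.I / n)))

noncomputable def YY (n : ℝ) (ζ : ℂ) : ℂ := cn n * (1 - (ee n ζ)⁻¹)

/-- distance to `n ℤ` -/
noncomputable def dn (n : ℝ) (ζ : ℂ) : ℝ := ‖ζ - (round (ζ.re / n) : ℤ) * n‖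

/-- domain of the explicit functions -/
def V (n r : ℝ) : Set ℂ := {ζ | ∀ k : ℤ, r < ‖ζ - k * n‖ ∧ -ζ.im < 2 * |ζ.re - k * n|}

/-- the coordinate `Y` as a function of `x = χ z` -/
noncomputable def YX (q : ℕ) (b x : ℂ) : ℂ := -1 / (q * b * x ^ q)

noncomputable def yN (q : ℕ) (n : ℝ) (κ ζ : ℂ) : ℂ :=
  κ * Complex.exp (2 * Real.pi * Complex.I * ζ / (q * n)) * (S n ζ) ^ (-(1 / (q : ℂ)))

/-- Normal form of `f l` for `l` near `mu (p / q)`. -/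
structure NF (p q : ℕ) where
  r0 : ℝ
  r1 : ℝ
  C : ℝ
  χ : ℂ → ℂ → ℂ
  η : ℂ → ℂ → ℂ
  b : ℂ → ℂ
  ρ : ℂ → ℂ
  r0_pos : 0 < r0
  r0_le : r0 ≤ 1 / 2
  r1_pos : 0 < r1
  r1_le : r1 ≤ 1 / 4
  C_pos : 0 < C
  b_cont : ContinuousOn b (closedBall (mu ((p : ℝ) / q)) r0)
  b_ne : ∀ l ∈ closedBall (mu ((p : ℝ) / q)) r0, b l ≠ 0
  ρ_cont : ContinuousOn ρ (closedBall (mu ((p : ℝ) / q)) r0)
  χ_cont : ContinuousOn (fun x : ℂ × ℂ => χ x.1 x.2) (closedBall (mu ((p : ℝ) / q)) r0 ×ˢ univ)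
  χ_diff : ∀ l ∈ closedBall (mu ((p : ℝ) / q)) r0, Differentiable ℂ (χ l)
  χ_zero : ∀ l ∈ closedBall (mu ((p : ℝ) / q)) r0, χ l 0 = 0
  χ_deriv : ∀ l ∈ closedBall (mu ((p : ℝ) / q)) r0, deriv (χ l) 0 = 1
  /-- `χ l` is close to the identity on the ball of radius `2 r1` -/
  χ_near : ∀ l ∈ closedBall (mu ((p : ℝ) / q)) r0, ∀ z ∈ ball (0 : ℂ) (4 * r1), ∀ z' ∈ ball (0 : ℂ) (4 * r1),
    ‖χ l z - χ l z' - (z - z')‖ ≤ ‖z - z'‖ / 2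
  η_diff : ∀ l ∈ closedBall (mu ((p : ℝ) / q)) r0, DifferentiableOn ℂ (η l) (ball 0 r1)
  η_norm : ∀ l ∈ closedBall (mu ((p : ℝ) / q)) r0, ∀ y ∈ ball (0 : ℂ) r1, ‖η l y‖ ≤ 2 * ‖y‖
  χ_η : ∀ l ∈ closedBall (mu ((p : ℝ) / q)) r0, ∀ y ∈ ball (0 : ℂ) r1, χ l (η l y) = y
  η_cont : ContinuousOn (fun x : ℂ × ℂ => η x.1 x.2) (closedBall (mu ((p : ℝ) / q)) r0 ×ˢ ball 0 r1)
  step : ∀ l ∈ closedBall (mu ((p : ℝ) / q)) r0, ∀ z : ℂ, z ≠ 0 → ‖z‖ < 2 * r1 →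
    χ l z ≠ 0 ∧ χ l (f l z) ≠ 0 ∧ ‖χ l (f l z) / (l * χ l z) - 1‖ ≤ C * ‖χ l z‖ ^ q ∧
    ‖l ^ q * YX q (b l) (χ l (f l z)) - (YX q (b l) (χ l z) + 1 + ρ l / YX q (b l) (χ l z))‖ ≤
      C * ‖YX q (b l) (χ l z)‖ ^ (-(1 + 1 / (q : ℝ)))

/-- continuous convergence on `U` -/
def CC (F : ℕ → ℂ → ℂ) (G : ℂ → ℂ) (U : Set ℂ) : Prop :=
  ∀ w ∈ U, Tendsto (fun x : ℕ × ℂ => F x.1 x.2) (atTop ×ˢ 𝓝 w) (𝓝 (G w))

end Pool.Agent.CR.G
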