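import Pool.Agent.H48.CR.GDefs

/-!
# CR G: definitions, second part

`IsJ n ρ R J`: `J` is the inverse of `Φ(ζ) = ζ - ρ cs n ζ` on `Wd n R`; `IsJ0 ρ R J`: the limit `n = ∞`, `Φ_0(ζ) = ζ - ρ log (-i ζ)` on `Wd0 R`.
`Lev X n l κ`: the data of one level: `l = mu (p/q) exp (2 π i / (q n))`, `κ^q q b(l) cn(n) 2π/n = 1`.
`errN`: `f l (Z ζ) = Z (ζ + p n + 1 + errN ζ)`, `Z ζ = η l (yN ζ)`. `WN w = Z (J w)`, `dN w` the error in the coordinate `w`.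
`y0 j`, `W0f j`, `err0 j`, `d0f j`: the limits at the hole `j n` for `N → ∞`.
-/

set_option autoImplicit false

open Set Filter Topology Metric

namespace Pool.Agent.CR.G

structure IsJ (n : ℝ) (ρ : ℂ) (R : ℝ) (J : ℂ → ℂ) : Prop where
  diff : DifferentiableOn ℂ J (Wd n R)
  near : ∀ w ∈ Wd n R, ‖J w - w‖ ≤ dn n w / 16
  eq : ∀ w ∈ Wd n R, J w = w + ρ * cs n (J w)
  uniq : ∀ w ∈ Wd n R, ∀ ζ : ℂ, ‖ζ - w‖ ≤ dn n w / 8 → ζ = w + ρ * cs n ζ → ζ = J w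

structure IsJ0 (ρ : ℂ) (R : ℝ) (J : ℂ → ℂ) : Prop where
  diff : DifferentiableOn ℂ J (Wd0 R)
  near : ∀ w ∈ Wd0 R, ‖J w - w‖ ≤ ‖w‖ / 16
  eq : ∀ w ∈ Wd0 R, J w = w + ρ * Complex.log (-Complex.I * J w)
  uniq : ∀ w ∈ Wd0 R, ∀ ζ : ℂ, ‖ζ - w‖ ≤ ‖w‖ / 8 → ζ = w + ρ * Complex.log (-Complex.I * ζ) → ζ = J w

structure Lev {p q : ℕ} (X : NF p q) (n : ℝ) (l κ : ℂ) : Prop where
  mem : l ∈ closedBall (mu ((p : ℝ) / q)) X.r0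
  l_eq : l = mu ((p : ℝ) / q) * Complex.exp (2 * Real.pi * Complex.I / (q * n))
  κ_eq : κ ^ q * (q * X.b l * cn n * (2 * Real.pi / n)) = 1

noncomputable def R1N {p q : ℕ} (X : NF p q) (n : ℝ) (l κ ζ : ℂ) : ℂ :=
  l ^ q * YX q (X.b l) (X.χ l (f l (X.η l (yN q n κ ζ)))) - YY n ζ - 1

noncomputable def errN {p q : ℕ} (X : NF p q) (n : ℝ) (l κ ζ : ℂ) : ℂ :=
  -(n / (2 * Real.pi * Complex.I)) * Complex.log (1 - ee n ζ * R1N X n l κ ζ / cn n)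

noncomputable def WN {p q : ℕ} (X : NF p q) (n : ℝ) (l κ : ℂ) (J : ℂ → ℂ) (w : ℂ) : ℂ :=
  X.η l (yN q n κ (J w))

noncomputable def dN {p q : ℕ} (X : NF p q) (n : ℝ) (l κ : ℂ) (J : ℂ → ℂ) (w : ℂ) : ℂ :=
  errN X n l κ (J w) - X.ρ l * (cs n (J w + 1 + errN X n l κ (J w)) - cs n (J w))

noncomputable def y0 (q : ℕ) (κ0 : ℂ) (j : ℤ) (ζ : ℂ) : ℂ :=
  κ0 * Complex.exp (2 * Real.pi * Complex.I * j / q) * (-Complex.I * ζ) ^ (-(1 / (q : ℂ)))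

noncomputable def W0f {p q : ℕ} (X : NF p q) (κ0 : ℂ) (J0 : ℂ → ℂ) (j : ℤ) (w : ℂ) : ℂ :=
  X.η (mu ((p : ℝ) / q)) (y0 q κ0 j (J0 w))

noncomputable def err0 {p q : ℕ} (X : NF p q) (κ0 : ℂ) (j : ℤ) (ζ : ℂ) : ℂ :=
  YX q (X.b (mu ((p : ℝ) / q))) (X.χ (mu ((p : ℝ) / q)) (f (mu ((p : ℝ) / q))
    (X.η (mu ((p : ℝ) / q)) (y0 q κ0 j ζ)))) - ζ - 1

noncomputable def d0f {p q : ℕ} (X : NF p q) (κ0 : ℂ) (J0 : ℂ → ℂ) (j : ℤ) (w : ℂ) : ℂ :=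
  err0 X κ0 j (J0 w) - X.ρ (mu ((p : ℝ) / q)) *
    (Complex.log (-Complex.I * (J0 w + 1 + err0 X κ0 j (J0 w))) - Complex.log (-Complex.I * J0 w))

end Pool.Agent.CR.G
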