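import Pool.Agent.H48.CR.Pass
import Pool.Agent.H48.CR.Hz
import Pool.Agent.H48.CR.G5a

/-!
# CR Lav: convergence to the Lavaurs map

`h_N = (f lN)^[qN] → pr0 ∘ phi` locally uniformly on `B`.

Proof. `n = qN q e N`, `l0 = mu (p/q)`. `iter_lim`: for fixed `m`, `(f (lN N))^[m] z' → (f l0)^[m] z` for `N → ∞`, `z' → z` (`lN N → l0`; joint continuity). Fix `z ∈ B`, `ε > 0`. (L2) at `w = phi z`, `ε/2` gives `δ ≤ 1/8`, `k0`.
Choose `r ≥ r1` (constants of `pass`) with `C r^(-1/q) ≤ δ/8`. By (L1) fix `m` and `w` with `(f l0)^[m] z = X.W0 j w`, `j = -1 + m p`, `w.re > r + 1`, `-w.im < w.re / 4`, `‖w - m - phi z‖ ≤ δ/8`; moreover (L1) holds with `r'` instead of `r`; the point `w` has `-w.im < w.re/4` strictly.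
Choose `m' ≥ k0` with `m' ≥ 8 (‖w‖ + ‖phi z‖ + m + r + 1)`. For `N` large (`n > 100 (m + m' + ‖w‖)`) and `z'` close to `z`: `(f lN)^[m] z'` is close to `X.W0 j w`, so by `hurwitz` (applied to `F N w = X.W N (w + j n)`, `G = X.W0 j` on `U = Wd0 R`, `X.lim`, `cc_of_tlu`, `X.diff`, `Wd0_ev`, `X.inj0`) `(f lN)^[m] z' = X.W N (w' + j n)`
with `‖w' - w‖ ≤ δ/8` (and so small that `w'.re > r`, `-w'.im ≤ w'.re/4` still). Put `k = n - m - m'`. The points `w' + j n + i`, `0 ≤ i ≤ k`, are in `Wm n r`: for the holes `≤ j n` the real distance is `≥ w'.re > r` and `-w'.im ≤ w'.re/4`; for the holes `≥ (j+1) n` the real distance is `≥ n - w'.re - k = m + m' - w'.re ≥ m'/2 ≥ 4 ‖w'‖, r`.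
`pass`: `(f lN)^[k] (X.W N (w' + j n)) = X.W N (w' + j n + k (p n + 1) + E)`, `‖E‖ ≤ δ/8`. `w' + j n + k p n + k + E = (w' - m - m' + E) + (j + 1 + k p) n` and `j + 1 + k p = -1 + m p + 1 + (n - m - m') p = n p - m' p = -1 - m' p + q pN` (`q pN - p qN = 1`): by `X.per` (applied `pN` times; the points are in `Wd n R`)
`= X.W N (x + (-1 - m' p) n)`, `x = w' - m - m' + E`, `‖x - (phi z - m')‖ ≤ ‖w' - w‖ + ‖w - m - phi z‖ + ‖E‖ ≤ 3δ/8`. So `hN z' = (f lN)^[m'] (X.W N (x + (-1 - m' p) n))` (`k + m + m' = n`).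
On the compact set `closedBall (phi z - m') (3δ/8) ⊆ Wd0 R` (its points have real part `≤ -m' + |phi z| + 1 ≤ -m'/2`, and `-im ≤ |phi z| + 1 < m'/8`), `X.W N (· + (-1 - m' p) n) → X.W0 (-1 - m' p)` uniformly, and `(f lN)^[m'] → (f l0)^[m']` uniformly on bounded sets: for `N` large `‖hN z' - (f l0)^[m'] (X.W0 (-1 - m' p) x)‖ ≤ ε/2`,
and by (L2) `‖(f l0)^[m'] (X.W0 (-1 - m' p) x) - pr0 (phi z)‖ ≤ ε/2`. So `hN z' → pr0 (phi z)`: continuous convergence, `CC.tlu`.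
-/

set_option autoImplicit false

open Set Filter Topology Metric

namespace Pool.Agent.CR

private theorem Lav_n_lim {q e : ℕ} (hq : 0 < q) :
    Tendsto (fun N : ℕ => (qN q e N : ℝ)) atTop atTop := by
  apply tendsto_natCast_atTop_atTop.comp
  refine tendsto_atTop_mono (fun N => ?_) tendsto_id
  unfold qN
  show N ≤ q * N + e
  nlinarith [Nat.zero_le N]

private theorem Lav_l_lim {p q s e : ℕ} (hq : 0 < q) :
    Tendsto (fun N => lN p q s e N) atTop (𝓝 (mu ((p : ℝ) / q))) := by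
  have hq0 : (0 : ℝ) < q := by exact_mod_cast hq
  have h0 : ∀ c : ℝ, Tendsto (fun N : ℕ => c / (N : ℝ)) atTop (𝓝 0) := fun c =>
    tendsto_const_nhds.div_atTop tendsto_natCast_atTop_atTop
  have h1 : Tendsto (fun N : ℕ => ((p : ℝ) + s / N) / ((q : ℝ) + e / N)) atTop
      (𝓝 (((p : ℝ) + 0) / ((q : ℝ) + 0))) := by
    refine (tendsto_const_nhds.add (h0 s)).div (tendsto_const_nhds.add (h0 e)) ?_
    rw [add_zero]
    exact hq0.ne'
  rw [add_zero, add_zero] at h1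
  have hc : Continuous mu := by unfold mu; fun_prop
  have h2 := (hc.tendsto ((p : ℝ) / q)).comp h1
  refine h2.congr' ?_
  filter_upwards [Filter.eventually_gt_atTop 0] with N hN
  show mu (((p : ℝ) + s / N) / ((q : ℝ) + e / N)) = lN p q s e N
  unfold lN pN qN
  congr 1
  have hN0 : (0 : ℝ) < N := by exact_mod_cast hN
  have he0 : (0 : ℝ) ≤ e := Nat.cast_nonneg e
  push_cast
  rw [div_eq_div_iff (by positivity) (by positivity)]
  field_simp

theorem iter_lim {p q s e : ℕ} (hq : 0 < q) (m : ℕ) (z : ℂ) :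
    Tendsto (fun x : ℕ × ℂ => (f (lN p q s e x.1))^[m] x.2) (atTop ×ˢ 𝓝 z) (𝓝 ((f (mu ((p : ℝ) / q)))^[m] z)) := by
  have hl : Tendsto (fun x : ℕ × ℂ => lN p q s e x.1) (atTop ×ˢ 𝓝 z) (𝓝 (mu ((p : ℝ) / q))) :=
    (Lav_l_lim hq).comp tendsto_fst
  induction m with
  | zero => exact tendsto_snd
  | succ m ih =>
    simp only [Function.iterate_succ_apply']
    exact (ih.pow 2).add (hl.mul ih)

private theorem Lav_Wd {n R : ℝ} (hR : 0 < R) {x : ℂ} (hx : x ∈ Wd0 R) (hn : R + 2 * ‖x‖ ≤ n) :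
    x ∈ Wd n R := by
  intro k
  have h2 : |x.re| ≤ ‖x‖ := Complex.abs_re_le_norm x
  have h3 : |x.im| ≤ ‖x‖ := Complex.abs_im_le_norm x
  have hx0 := norm_nonneg x
  rcases eq_or_ne k 0 with rfl | hk
  · simpa using (show R < ‖x‖ ∧ -x.im < |x.re| from hx)
  · have h1 : (1 : ℝ) ≤ |(k : ℝ)| := by exact_mod_cast Int.one_le_abs hk
    have hn0 : 0 < n := by linarith
    have h4 : R + ‖x‖ ≤ |x.re - k * n| := by
      have h6 : |(k : ℝ) * n| - |x.re| ≤ |x.re - k * n| := by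
        rw [abs_sub_comm]
        exact abs_sub_abs_le_abs_sub _ _
      rw [abs_mul, abs_of_pos hn0] at h6
      nlinarith
    have h5 : |x.re - k * n| ≤ ‖x - k * n‖ := by
      have := Complex.abs_re_le_norm (x - k * n)
      simpa using this
    have h7 := hx.1
    have h8 := neg_abs_le x.im
    constructor <;> linarith

private theorem Lav_Wm {n r M i : ℝ} {w : ℂ} (hn : 0 < n) (hr : r ≤ w.re)
    (him : -w.im ≤ w.re / 4) (hi0 : 0 ≤ i) (hi : i ≤ n - M) (hM1 : r ≤ M - w.re)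
    (hM2 : -w.im ≤ (M - w.re) / 4) (j : ℤ) : w + j * n + i ∈ Wm n r := by
  intro K
  have e1 : (w + j * n + i - K * n).re = w.re + i - ((K - j : ℤ) : ℝ) * n := by
    simp
    ring
  have e2 : (w + j * n + i).re - K * n = w.re + i - ((K - j : ℤ) : ℝ) * n := by
    simp
    ring
  have e3 : (w + j * n + i).im = w.im := by simp
  have h0 := Complex.abs_re_le_norm (w + j * n + i - K * n)
  rw [e1] at h0
  rw [e2, e3]
  have key : r ≤ |w.re + i - ((K - j : ℤ) : ℝ) * n| ∧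
      -w.im ≤ |w.re + i - ((K - j : ℤ) : ℝ) * n| / 4 := by
    rcases le_or_gt (K - j) 0 with hK | hK
    · have hK' : ((K - j : ℤ) : ℝ) ≤ 0 := by exact_mod_cast hK
      have h1 : w.re ≤ w.re + i - ((K - j : ℤ) : ℝ) * n := by nlinarith
      have h2 := le_abs_self (w.re + i - ((K - j : ℤ) : ℝ) * n)
      constructor <;> linarith
    · have hK' : (1 : ℝ) ≤ ((K - j : ℤ) : ℝ) := by exact_mod_cast hK
      have h1 : w.re + i - ((K - j : ℤ) : ℝ) * n ≤ w.re - M := by nlinarith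
      have h2 := neg_abs_le (w.re + i - ((K - j : ℤ) : ℝ) * n)
      constructor <;> linarith
  exact ⟨key.1.trans h0, key.2⟩

private theorem Lav_comp {F : ℂ → ℂ} {c w : ℂ} (h : DifferentiableAt ℂ F (w + c)) :
    DifferentiableAt ℂ (fun w => F (w + c)) w :=
  DifferentiableAt.comp (g := F) (f := fun w => w + c) w h (by fun_prop)

section

variable {p q s e : ℕ} (X : Chart p q s e)

private theorem Lav_cc (j : ℤ) :
    G.CC (fun N w => X.W N (w + j * qN q e N)) (X.W0 j) (Wd0 X.R) :=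
  G.cc_of_tlu (G.isOpen_Wd0 _) (X.diff0 j).continuousOn (X.lim j)

private theorem Lav_pos {N : ℕ} (hN : N ≥ X.N0) : (0 : ℝ) < (qN q e N : ℝ) := by
  have := X.n_ge N hN
  have := X.R_ge
  linarith

private theorem Lav_Wd_add {N : ℕ} {w : ℂ} (hw : w ∈ Wd (qN q e N) X.R) (k : ℤ) :
    w + k * (qN q e N : ℂ) ∈ Wd (qN q e N) X.R := by
  have h1 := G.Wd_add hw k
  rwa [Complex.ofReal_natCast] at h1

private theorem Lav_diff (hq : 0 < q) (j : ℤ) : ∀ w ∈ Wd0 X.R, ∀ᶠ x : ℕ × ℂ in atTop ×ˢ 𝓝 w,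
    DifferentiableAt ℂ (fun w => X.W x.1 (w + j * qN q e x.1)) x.2 := by
  intro w hw
  have hge : ∀ᶠ x : ℕ × ℂ in atTop ×ˢ 𝓝 w, x.1 ≥ X.N0 :=
    (Filter.eventually_ge_atTop X.N0).prod_inl _
  filter_upwards [G.Wd0_ev (Lav_n_lim (e := e) hq) hw, hge] with x hx hN
  have h1 := Lav_Wd_add X hx j
  have h2 := (X.diff x.1 hN).differentiableAt ((G.isOpen_Wd (Lav_pos X hN) X.R).mem_nhds h1)
  exact Lav_comp h2

private theorem Lav_per {N : ℕ} (hN : N ≥ X.N0) {w : ℂ} (hw : w ∈ Wd (qN q e N) X.R) (t : ℕ) :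
    X.W N (w + t * (q * qN q e N)) = X.W N w := by
  induction t with
  | zero => simp
  | succ t ih =>
    have h1 : w + t * (q * (qN q e N : ℂ)) ∈ Wd (qN q e N) X.R := by
      have h3 := Lav_Wd_add X hw (t * q)
      have e1 : w + t * (q * (qN q e N : ℂ)) = w + ((t * q : ℤ) : ℂ) * (qN q e N : ℂ) := by
        push_cast
        ring
      rw [e1]
      exact h3
    have h2 := X.per N hN _ h1
    rw [← ih, ← h2]
    congr 1
    push_cast
    ring

end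

/-- The choice of `r`. -/
private theorem Lav_r {q : ℕ} (hq : 0 < q) {C δ : ℝ} (hδ : 0 < δ) (r1 : ℝ) :
    ∃ r : ℝ, r1 ≤ r ∧ C * r ^ (-(1 / (q : ℝ))) ≤ δ := by
  have hq0 : (0 : ℝ) < 1 / q := by
    have : (0 : ℝ) < q := by exact_mod_cast hq
    positivity
  have h1 : Tendsto (fun r : ℝ => C * r ^ (-(1 / (q : ℝ)))) atTop (𝓝 (C * 0)) :=
    (tendsto_rpow_neg_atTop hq0).const_mul C
  rw [mul_zero] at h1
  obtain ⟨r, h2, h3⟩ := ((h1.eventually (ge_mem_nhds hδ)).and (Filter.eventually_ge_atTop r1)).exists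
  exact ⟨r, h3, h2⟩

theorem lavm_of {p q s e : ℕ} (hp : 0 < p) (hpq : p < q) (hs : q * s = p * e + 1) (X : Chart p q s e)
    {B : Set ℂ} {phi prm : ℂ → ℂ} (hB : IsOpen B) (m0 : ℕ)
    (L1 : ∀ z ∈ B, ∀ r ε : ℝ, 0 < ε → ∃ (m : ℕ) (w : ℂ), r < w.re ∧ -w.im < w.re / 4 ∧
      (f (mu ((p : ℝ) / q)))^[m] z = X.W0 (-1 + m * p) w ∧ ‖w - m - phi z‖ ≤ ε)
    (L2 : ∀ (w : ℂ) (ε : ℝ), 0 < ε → ∃ (δ : ℝ) (k0 : ℕ), 0 < δ ∧ ∀ k ≥ k0, ∀ w' : ℂ, ‖w' - (w - k)‖ ≤ δ →
      ‖(f (mu ((p : ℝ) / q)))^[k - m0] (X.W0 (-1 - k * p) w') - prm w‖ ≤ ε) :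
    TendstoLocallyUniformlyOn (fun N z => (f (lN p q s e N))^[qN q e N - m0] z) (fun z => prm (phi z)) atTop B := by
  have hq : 0 < q := hp.trans hpq
  have hR4 := X.R_ge
  refine G.CC.tlu hB fun z hz => ?_
  rw [Metric.tendsto_nhds]
  intro ε hε
  obtain ⟨δ0, k0, hδ0, hL2⟩ := L2 (phi z) (ε / 4) (by linarith)
  set δ := min δ0 (1 / 8) with hδdef
  have hδ : 0 < δ := lt_min hδ0 (by norm_num)
  have hδ8 : δ ≤ 1 / 8 := min_le_right _ _
  have hδδ0 : δ ≤ δ0 := min_le_left _ _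
  obtain ⟨C, r1, hC, hr1, _, hpass⟩ := pass hq X
  obtain ⟨r, hr, hCr⟩ := Lav_r (C := C) hq (show 0 < δ / 8 by linarith) r1
  obtain ⟨m, w, hwre, hwim, hW0, hwphi⟩ := L1 z hz (r + 1) (δ / 8) (by linarith)
  have hr0 : 0 ≤ r := by linarith
  -- the constant `m'`
  obtain ⟨m', hm'⟩ := exists_nat_ge (8 * (‖w‖ + ‖phi z‖ + m + r + 1) + k0 + m0)
  have hwn := norm_nonneg w
  have hpn := norm_nonneg (phi z)
  have hmn : (0 : ℝ) ≤ m := Nat.cast_nonneg m
  have hkn : (0 : ℝ) ≤ k0 := Nat.cast_nonneg k0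
  have hm0n : (0 : ℝ) ≤ m0 := Nat.cast_nonneg m0
  have hm'1 : 8 * (‖w‖ + ‖phi z‖ + m + r + 1) ≤ m' := by linarith
  have hm'k : k0 ≤ m' := by
    have : (k0 : ℝ) ≤ m' := by linarith
    exact_mod_cast this
  have hm0' : m0 ≤ m' := by
    have : (m0 : ℝ) ≤ m' := by linarith
    exact_mod_cast this
  have hwmem : w ∈ Wd0 X.R := by
    have h1 := Complex.abs_re_le_norm w
    have h2 := le_abs_self w.re
    exact ⟨by linarith, by linarith⟩
  -- Hurwitz
  have hinj : InjOn (X.W0 (-1 + m * p)) (Wd0 X.R) := fun u hu u' hu' h =>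
    (X.inj0 _ _ u hu u' hu' h).1
  set σ := w.re / 4 + w.im with hσ
  have hσ0 : 0 < σ := by linarith
  set ε1 := min (δ / 8) (σ / 2) with hε1
  have hε1pos : 0 < ε1 := lt_min (by linarith) (by linarith)
  have hε1δ : ε1 ≤ δ / 8 := min_le_left _ _
  have hε1σ : ε1 ≤ σ / 2 := min_le_right _ _
  have hhur := G.hurwitz (G.isOpen_Wd0 X.R) (Lav_cc X (-1 + m * p)) (Lav_diff X hq (-1 + m * p))
    hinj hwmem hε1pos
  have ht : Tendsto (fun x : ℕ × ℂ => (x.1, (f (lN p q s e x.1))^[m] x.2)) (atTop ×ˢ 𝓝 z)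
      (atTop ×ˢ 𝓝 (X.W0 (-1 + m * p) w)) := by
    rw [← hW0]
    exact tendsto_fst.prodMk (iter_lim hq m z)
  have hev1 := ht.eventually hhur
  -- the compact set
  have hK : closedBall (phi z - m') (δ / 2) ⊆ Wd0 X.R := by
    intro x hx
    rw [mem_closedBall, dist_eq_norm] at hx
    have h1 := Complex.abs_re_le_norm (x - (phi z - m'))
    have h2 := Complex.abs_im_le_norm (x - (phi z - m'))
    have e1 : (x - (phi z - m')).re = x.re - (phi z).re + m' := by simp; ring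
    have e2 : (x - (phi z - m')).im = x.im - (phi z).im := by simp
    rw [e1] at h1
    rw [e2] at h2
    have h3 := abs_le.1 (Complex.abs_re_le_norm (phi z))
    have h4 := abs_le.1 (Complex.abs_im_le_norm (phi z))
    have h5 := abs_le.1 (h1.trans hx)
    have h6 := abs_le.1 (h2.trans hx)
    have h7 := neg_abs_le x.re
    have h8 := Complex.abs_re_le_norm x
    exact ⟨by linarith, by linarith⟩
  have hΨ : G.CC (fun N x => (f (lN p q s e N))^[m' - m0] (X.W N (x + ((-1 - m' * p : ℤ) : ℂ) * qN q e N)))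
      (fun x => (f (mu ((p : ℝ) / q)))^[m' - m0] (X.W0 (-1 - m' * p) x)) (Wd0 X.R) :=
    G.CC.comp (U := univ) (F := fun N y => (f (lN p q s e N))^[m' - m0] y)
      (G := fun y => (f (mu ((p : ℝ) / q)))^[m' - m0] y)
      (fun y _ => iter_lim hq (m' - m0) y) (Lav_cc X (-1 - m' * p)) (mapsTo_univ _ _)
  have hunif := (tendstoLocallyUniformlyOn_iff_forall_isCompact (G.isOpen_Wd0 X.R)).1
    (hΨ.tlu (G.isOpen_Wd0 X.R)) _ hK (isCompact_closedBall _ _)
  rw [Metric.tendstoUniformlyOn_iff] at hunif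
  have hev2 : ∀ᶠ x : ℕ × ℂ in atTop ×ˢ 𝓝 z, _ := (hunif (ε / 2) (by linarith)).prod_inl (𝓝 z)
  have hev3 : ∀ᶠ x : ℕ × ℂ in atTop ×ˢ 𝓝 z,
      (m : ℝ) + m' + X.R + 2 * (‖phi z‖ + m' + 1) ≤ (qN q e x.1 : ℝ) :=
    ((Lav_n_lim (e := e) hq).eventually_ge_atTop _).prod_inl _
  have hev4 : ∀ᶠ x : ℕ × ℂ in atTop ×ˢ 𝓝 z, x.1 ≥ X.N0 :=
    (Filter.eventually_ge_atTop X.N0).prod_inl _
  filter_upwards [hev1, hev2, hev3, hev4] with x h1 h2 h3 h4
  obtain ⟨w', hw'w, hw'⟩ := h1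
  obtain ⟨N, z'⟩ := x
  dsimp only at h2 h3 h4 hw' ⊢
  have hm'n : (0 : ℝ) ≤ m' := Nat.cast_nonneg m'
  have hmm : m + m' ≤ qN q e N := by
    have : ((m + m' : ℕ) : ℝ) ≤ (qN q e N : ℝ) := by push_cast; linarith
    exact_mod_cast this
  obtain ⟨k, hk⟩ := Nat.exists_eq_add_of_le hmm
  have hkR : (qN q e N : ℝ) = m + m' + k := by rw [hk]; push_cast; ring
  have hkC : (qN q e N : ℂ) = m + m' + k := by rw [hk]; push_cast; ring
  have hn0 : (0 : ℝ) < (qN q e N : ℝ) := Lav_pos X h4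
  have hre := Complex.abs_re_le_norm (w' - w)
  have him := Complex.abs_im_le_norm (w' - w)
  rw [Complex.sub_re] at hre
  rw [Complex.sub_im] at him
  have hre' := abs_le.1 (hre.trans hw'w)
  have him' := abs_le.1 (him.trans hw'w)
  have hwre' := abs_le.1 (Complex.abs_re_le_norm w)
  have hwim' := abs_le.1 (Complex.abs_im_le_norm w)
  -- passing the gate
  have hWm : ∀ i ≤ k, w' + ((-1 + m * p : ℤ) : ℂ) * qN q e N + i ∈ Wm (qN q e N) r := by
    intro i hi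
    have hi' : (i : ℝ) ≤ k := by exact_mod_cast hi
    have h5 := Lav_Wm (w := w') (n := (qN q e N : ℝ)) (r := r) (M := (m : ℝ) + m') (i := (i : ℝ)) hn0
      (by linarith) (by linarith) (Nat.cast_nonneg i) (by linarith) (by linarith)
      (by linarith) (-1 + m * p)
    rwa [Complex.ofReal_natCast, Complex.ofReal_natCast] at h5
  obtain ⟨E, hE, hiter⟩ := hpass r hr N h4 (w' + ((-1 + m * p : ℤ) : ℂ) * qN q e N) k (by omega) hWm
  set y := w' - m - m' + E with hy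
  have hyK : ‖y - (phi z - m')‖ ≤ 3 * δ / 8 := by
    have e1 : y - (phi z - m') = (w' - w) + (w - m - phi z) + E := by rw [hy]; ring
    rw [e1]
    have := norm_add₃_le (a := w' - w) (b := w - m - phi z) (c := E)
    linarith
  have hyK' : y ∈ closedBall (phi z - m') (δ / 2) := by
    rw [mem_closedBall, dist_eq_norm]
    linarith
  have hyn : ‖y‖ ≤ ‖phi z‖ + m' + 1 := by
    have e1 : y = (y - (phi z - m')) + (phi z - m') := by ring
    have h5 : ‖phi z - (m' : ℂ)‖ ≤ ‖phi z‖ + m' := by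
      refine (norm_sub_le _ _).trans ?_
      rw [Complex.norm_natCast]
    rw [e1]
    have := norm_add_le (y - (phi z - m')) (phi z - m')
    linarith
  have hyWd : y ∈ Wd (qN q e N) X.R :=
    Lav_Wd (by linarith) (hK hyK') (by linarith)
  have hident : w' + ((-1 + m * p : ℤ) : ℂ) * qN q e N + k * (p * qN q e N + 1) + E =
      y + ((-1 - m' * p : ℤ) : ℂ) * qN q e N + (pN p s N : ℂ) * (q * qN q e N) := by
    have hpn' : (q : ℂ) * (pN p s N : ℂ) = p * (qN q e N : ℂ) + 1 := by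
      have h6 : q * pN p s N = p * qN q e N + 1 := by
        unfold pN qN
        calc q * (p * N + s) = p * (q * N) + q * s := by ring
          _ = p * (q * N + e) + 1 := by rw [hs]; ring
      exact_mod_cast h6
    have h7 : (pN p s N : ℂ) * (q * qN q e N) = (p * (qN q e N : ℂ) + 1) * qN q e N := by
      rw [← hpn']; ring
    have hkk : (k : ℂ) = (qN q e N : ℂ) - m - m' := by rw [hkC]; ring
    rw [h7, hkk, hy]
    push_cast
    ring
  have hfin : (f (lN p q s e N))^[qN q e N - m0] z' =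
      (f (lN p q s e N))^[m' - m0] (X.W N (y + ((-1 - m' * p : ℤ) : ℂ) * qN q e N)) := by
    have h8 : qN q e N - m0 = (m' - m0) + (k + m) := by omega
    have h8' : (f (lN p q s e N))^[qN q e N - m0] z' = (f (lN p q s e N))^[(m' - m0) + (k + m)] z' :=
      congrArg (fun t => (f (lN p q s e N))^[t] z') h8
    rw [h8', Function.iterate_add_apply, Function.iterate_add_apply, ← hw', hiter, hident,
      Lav_per X h4 (Lav_Wd_add X hyWd _)]
  rw [hfin, dist_eq_norm]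
  have h9 := h2 y hyK'
  rw [dist_eq_norm] at h9
  have h10 := hL2 m' hm'k y (by linarith)
  have e2 : (f (lN p q s e N))^[m' - m0] (X.W N (y + ((-1 - m' * p : ℤ) : ℂ) * qN q e N)) - prm (phi z) =
      -((f (mu ((p : ℝ) / q)))^[m' - m0] (X.W0 (-1 - m' * p) y) -
        (f (lN p q s e N))^[m' - m0] (X.W N (y + ((-1 - m' * p : ℤ) : ℂ) * qN q e N))) +
      ((f (mu ((p : ℝ) / q)))^[m' - m0] (X.W0 (-1 - m' * p) y) - prm (phi z)) := by ring
  rw [e2]
  refine (norm_add_le _ _).trans_lt ?_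
  rw [norm_neg]
  linarith

theorem lav_of {p q s e : ℕ} (hp : 0 < p) (hpq : p < q) (hs : q * s = p * e + 1) (X : Chart p q s e)
    {B : Set ℂ} {phi pr0 : ℂ → ℂ} (hB : IsOpen B)
    (L1 : ∀ z ∈ B, ∀ r ε : ℝ, 0 < ε → ∃ (m : ℕ) (w : ℂ), r < w.re ∧ -w.im < w.re / 4 ∧
      (f (mu ((p : ℝ) / q)))^[m] z = X.W0 (-1 + m * p) w ∧ ‖w - m - phi z‖ ≤ ε)
    (L2 : ∀ (w : ℂ) (ε : ℝ), 0 < ε → ∃ (δ : ℝ) (k0 : ℕ), 0 < δ ∧ ∀ k ≥ k0, ∀ w' : ℂ, ‖w' - (w - k)‖ ≤ δ →
      ‖(f (mu ((p : ℝ) / q)))^[k] (X.W0 (-1 - k * p) w') - pr0 w‖ ≤ ε) :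
    TendstoLocallyUniformlyOn (fun N z => hN p q s e N z) (fun z => pr0 (phi z)) atTop B := by
  have h := lavm_of hp hpq hs X hB 0 L1 (prm := pr0) (by simpa using L2)
  simpa [hN] using h

end Pool.Agent.CR
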