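import Pool.Agent.H48.CR.PassS

/-!
# CR Pass: passing a gate (or passing over a hole) with small total error

`Wm n r`: the points with distance `≥ r` from the holes and `-Im w ≤ |Re w - k n| / 4`.

`sum_bound`: for `0 < a` and `r ≥ 1` and a real `x0`, `k ≤ n`, `n ≥ 1`: `Σ_{i < k} (max r (dist (x0 + i) (n ℤ)))^(-(1+a)) ≤ C r^(-a)`, `C = C(a)`.
Proof: the window `[x0, x0 + k)` has length `≤ n`, so the nearest holes of its points are among at most three consecutive multiples `m n`; for each of them `Σ_{i ≥ 0} (max r |x0 + i - m n|)^(-(1+a)) ≤ 2 Σ_{j ≥ 0} (max r j)^(-(1+a)) ≤ 2 ((r + 1) r^(-(1+a)) + ∫_r^∞ t^(-(1+a)) dt + ..) ≤ C r^(-a)`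
(the values `x0 + i - m n` are at integer distances, at most two of them have absolute value in `[j, j+1)`).

`pass`: put `w_i = w + i + E_i`, `E_0 = 0`; claim by induction on `i ≤ k`: `‖E_i‖ ≤ Σ_{j<i} C_X (dist (w + j) (nℤ) - 1/8)^(-(1+1/q)) ≤ C' r^(-1/q) ≤ 1/8` for `r ≥ r1`, and `(f lN)^[i] (W N w) = W N (w_i + i p n)`. Step: `w_i ∈ Wd n R` and `w_i + 1 ∈ Wi n R` because `w + i, w + i + 1 ∈ Wm n r` and
`‖E_i‖ ≤ 1/8`, `r ≥ R + 2`, `R ≥ 4` (if `|Re w - k n| ≥ 1` compare `|·|/4 + 1/8 < |·|/2 - 1/16`; otherwise `Im w > 1`); both domains are invariant under `w ↦ w + m n`; `X.map` at `w_i + i p n` gives `f (W N (w_i + i p n)) = W N (w_i + i p n + p n + 1 + δ)`, `E_{i+1} = E_i + δ`,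
`‖δ‖ ≤ C_X ρ^(-(1+1/q))` with `ρ = dist(w_i, nℤ) ≥ max (R) (dist(w+i, nℤ) - 1/8)` (`X.δ_small`).
-/

set_option autoImplicit false

open Set Filter Topology Metric

namespace Pool.Agent.CR

def Wm (n r : ℝ) : Set ℂ := {w | ∀ k : ℤ, r ≤ ‖w - k * n‖ ∧ -w.im ≤ |w.re - k * n| / 4}

private theorem Pass_near {n : ℝ} (hn : 0 < n) (u : ℂ) :
    ∃ m : ℤ, ∀ l : ℤ, ‖u - m * n‖ ≤ ‖u - l * n‖ := by
  refine ⟨round (u.re / n), fun l => ?_⟩
  have h1 := round_le (u.re / n) l
  have h2 : |u.re - round (u.re / n) * n| ≤ |u.re - l * n| := by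
    have e1 : u.re - round (u.re / n) * n = (u.re / n - round (u.re / n)) * n := by
      field_simp
    have e2 : u.re - l * n = (u.re / n - l) * n := by
      field_simp
    rw [e1, e2, abs_mul, abs_mul]
    exact mul_le_mul_of_nonneg_right h1 (abs_nonneg _)
  have h3 := sq_le_sq.2 h2
  rw [Complex.norm_eq_sqrt_sq_add_sq, Complex.norm_eq_sqrt_sq_add_sq]
  refine Real.sqrt_le_sqrt ?_
  simp only [Complex.sub_re, Complex.mul_re, Complex.intCast_re, Complex.ofReal_re,
    Complex.intCast_im, Complex.ofReal_im, Complex.sub_im, Complex.mul_im]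
  linarith

private theorem Pass_dom {n r : ℝ} {v E : ℂ} (hv : v ∈ Wm n r) (hr : 7 ≤ r) (hE : ‖E‖ ≤ 1 / 8)
    (m k : ℤ) : -(v + E + m * n).im < |(v + E + m * n).re - k * n| / 2 := by
  obtain ⟨h1, h2⟩ := hv (k - m)
  have e2 : (v + E + m * n).im = v.im + E.im := by simp
  have e3 : (v + E + m * n).re - k * n = (v.re - ((k - m : ℤ) : ℝ) * n) + E.re := by
    simp only [Complex.add_re, Complex.mul_re, Complex.intCast_re, Complex.ofReal_re,
      Complex.intCast_im, Complex.ofReal_im]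
    push_cast
    ring
  have e4 : (v - ((k - m : ℤ) : ℂ) * n).re = v.re - ((k - m : ℤ) : ℝ) * n := by
    simp only [Complex.sub_re, Complex.mul_re, Complex.intCast_re, Complex.ofReal_re,
      Complex.intCast_im, Complex.ofReal_im]
    ring
  have e5 : (v - ((k - m : ℤ) : ℂ) * n).im = v.im := by
    simp only [Complex.sub_im, Complex.mul_im, Complex.intCast_re, Complex.ofReal_re,
      Complex.intCast_im, Complex.ofReal_im]
    ring
  have h3 := Complex.norm_le_abs_re_add_abs_im (v - ((k - m : ℤ) : ℂ) * n)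
  rw [e4, e5] at h3
  have h4 := (Complex.abs_re_le_norm E).trans hE
  have h5 := (Complex.abs_im_le_norm E).trans hE
  rw [e2, e3]
  set x := v.re - ((k - m : ℤ) : ℝ) * n with hx
  have h6 : |x| - 1 / 8 ≤ |x + E.re| := by
    have := abs_sub_abs_le_abs_sub x (-E.re)
    rw [abs_neg, sub_neg_eq_add] at this
    linarith
  have h7 : -E.im ≤ 1 / 8 := (neg_le_abs _).trans h5
  rcases le_or_gt 1 |x| with hx1 | hx1
  · linarith
  · have h8 : 6 ≤ |v.im| := by linarith
    have h9 : 6 ≤ v.im := by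
      rcases le_or_gt 0 v.im with h0 | h0
      · rwa [abs_of_nonneg h0] at h8
      · rw [abs_of_neg h0] at h8
        linarith
    have h10 := abs_nonneg x
    linarith

private theorem Pass_norm {n r : ℝ} {v E : ℂ} (hv : ∀ l : ℤ, r ≤ ‖v - l * n‖) (hE : ‖E‖ ≤ 1 / 8)
    (m k : ℤ) : r - 1 / 8 ≤ ‖v + E + m * n - k * n‖ := by
  have h1 := hv (k - m)
  have e1 : v + E + m * n - k * n = (v - ((k - m : ℤ) : ℂ) * n) - (-E) := by
    push_cast
    ring
  rw [e1]
  have h2 := norm_sub_norm_le (v - ((k - m : ℤ) : ℂ) * n) (-E)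
  rw [norm_neg] at h2
  linarith

theorem pass {p q s e : ℕ} (hq : 0 < q) (X : Chart p q s e) : ∃ C r1 : ℝ, 0 < C ∧ X.R + 3 ≤ r1 ∧ C * r1 ^ (-(1 / (q : ℝ))) ≤ 1 / 8 ∧
    ∀ r ≥ r1, ∀ N ≥ X.N0, ∀ (w : ℂ) (k : ℕ), k ≤ qN q e N →
      (∀ i ≤ k, w + i ∈ Wm (qN q e N) r) →
      ∃ E : ℂ, ‖E‖ ≤ C * r ^ (-(1 / (q : ℝ))) ∧
        (f (lN p q s e N))^[k] (X.W N w) = X.W N (w + k * (p * qN q e N + 1) + E) := by
  have hq0 : (0 : ℝ) < q := by exact_mod_cast hq
  have ha : 0 < 1 / (q : ℝ) := by positivity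
  obtain ⟨T, hT, hsum⟩ := sum_bound ha
  set a : ℝ := 1 / (q : ℝ) with hadef
  have hCX := X.C_pos
  have hRX := X.R_ge
  set c : ℝ := X.C * 2 ^ (1 + a) with hc
  have hc0 : 0 < c := by positivity
  have ht : Tendsto (fun x : ℝ => c * T * x ^ (-a)) atTop (𝓝 0) := by
    simpa using (tendsto_rpow_neg_atTop ha).const_mul (c * T)
  obtain ⟨r1, hr1, hr1'⟩ := ((ht.eventually_le_const (show (0 : ℝ) < 1 / 8 by norm_num)).and
    (eventually_ge_atTop (X.R + 3))).exists
  refine ⟨c * T, r1, by positivity, hr1', hr1, ?_⟩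
  intro r hr N hN w k hk hw
  have hr0 : 0 < r1 := by linarith
  have hrr : c * T * r ^ (-a) ≤ 1 / 8 := by
    refine le_trans ?_ hr1
    exact mul_le_mul_of_nonneg_left (Real.rpow_le_rpow_of_nonpos hr0 hr (by linarith))
      (by positivity)
  have hnge := X.n_ge N hN
  set n : ℕ := qN q e N with hn
  have hn1 : (1 : ℝ) ≤ n := by linarith
  have hn0 : (0 : ℝ) < n := by linarith
  choose m hm using fun i : ℕ => Pass_near hn0 (w + i)
  have hd : ∀ i ≤ k, r ≤ ‖w + i - m i * (n : ℝ)‖ := fun i hi => (hw i hi (m i)).1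
  have hsum' : ∀ i ≤ k, ∑ j ∈ Finset.range i, ‖w + j - m j * (n : ℝ)‖ ^ (-(1 + a)) ≤
      T * r ^ (-a) := by
    intro i hi
    refine hsum n i r w.re (fun j => ‖w + j - m j * (n : ℝ)‖) hn1
      (by exact_mod_cast hi.trans hk) (by linarith) ?_
    intro j hj
    refine ⟨hd j (hj.le.trans hi), m j, ?_⟩
    have h1 := Complex.abs_re_le_norm (w + j - m j * (n : ℝ))
    simpa using h1
  have main : ∀ i ≤ k, ∃ E : ℂ,
      ‖E‖ ≤ c * ∑ j ∈ Finset.range i, ‖w + j - m j * (n : ℝ)‖ ^ (-(1 + a)) ∧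
      (f (lN p q s e N))^[i] (X.W N w) = X.W N (w + i * (p * n + 1) + E) := by
    intro i
    induction i with
    | zero =>
      intro _
      refine ⟨0, by simp, by simp⟩
    | succ i ih =>
      intro hi
      obtain ⟨E, hE1, hE2⟩ := ih (by omega)
      have hik : i ≤ k := by omega
      have hE : ‖E‖ ≤ 1 / 8 := by
        refine hE1.trans (le_trans ?_ hrr)
        rw [mul_assoc c T]
        exact mul_le_mul_of_nonneg_left (hsum' i hik) hc0.le
      have eu : w + i * (p * n + 1) + E = w + i + E + ((i * p : ℤ) : ℂ) * ((n : ℝ) : ℂ) := by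
        push_cast
        ring
      have eu1 : w + i * (p * n + 1) + E + 1 =
          w + (i + 1 : ℕ) + E + ((i * p : ℤ) : ℂ) * ((n : ℝ) : ℂ) := by
        push_cast
        ring
      have hWd : w + i * (p * n + 1) + E ∈ Wd n X.R := by
        intro l
        rw [eu]
        have h1 := Pass_norm (fun l => (hw i hik l).1) hE (i * p) l
        have h2 := Pass_dom (hw i hik) (by linarith) hE (i * p) l
        refine ⟨by linarith, h2.trans_le ?_⟩
        exact half_le_self (abs_nonneg _)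
      have hWi : w + i * (p * n + 1) + E + 1 ∈ Wi n X.R := by
        intro l
        rw [eu1]
        have h1 := Pass_norm (fun l => (hw (i + 1) hi l).1) hE (i * p) l
        have h2 := Pass_dom (hw (i + 1) hi) (by linarith) hE (i * p) l
        exact ⟨by linarith, h2⟩
      have hmap := X.map N hN _ hWd hWi
      have hδ := (X.δ_small N hN _ hWd hWi).2 (‖w + i - m i * (n : ℝ)‖ - 1 / 8)
        (by linarith [hd i hik]) (by
          intro l
          have h1 := Pass_norm (hm i) hE (i * p) l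
          rw [eu]
          simpa using h1)
      set δ := X.δ N (w + i * (p * n + 1) + E) with hδdef
      refine ⟨E + δ, ?_, ?_⟩
      · rw [Finset.sum_range_succ, mul_add]
        refine (norm_add_le _ _).trans (add_le_add hE1 (hδ.trans ?_))
        have h1 := hd i hik
        set d := ‖w + i - m i * (n : ℝ)‖ with hddef
        have h2 : (d - 1 / 8) ^ (-(1 + a)) ≤ (d / 2) ^ (-(1 + a)) :=
          Real.rpow_le_rpow_of_nonpos (by linarith) (by linarith) (by linarith)
        have h3 : (d / 2) ^ (-(1 + a)) = 2 ^ (1 + a) * d ^ (-(1 + a)) := by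
          rw [Real.div_rpow (by linarith) (by norm_num), Real.rpow_neg (by norm_num : (0 : ℝ) ≤ 2),
            div_inv_eq_mul, mul_comm]
        rw [h3] at h2
        calc X.C * (d - 1 / 8) ^ (-(1 + a)) ≤ X.C * (2 ^ (1 + a) * d ^ (-(1 + a))) :=
              mul_le_mul_of_nonneg_left h2 hCX.le
          _ = c * d ^ (-(1 + a)) := by
              rw [hc]
              ring
      · rw [Function.iterate_succ_apply', hE2, hmap]
        congr 1
        push_cast
        ring
  obtain ⟨E, hE1, hE2⟩ := main k le_rfl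
  refine ⟨E, ?_, hE2⟩
  refine hE1.trans ?_
  rw [mul_assoc c T]
  exact mul_le_mul_of_nonneg_left (hsum' k le_rfl) hc0.le

end Pool.Agent.CR
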