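import Pool.Agent.H48.CR.Chart
import Pool.Agent.H33.CR.GA

/-!
# CR PassS: a sum bound for orbits passing a gate

`sum_bound`, from `rsum` (module GA, `α = a`; constant `T`): for `i < k` let `m_i` be the integer nearest to `(x0 + i)/n` (`round`); then `|x0 + i - m_i n| ≤ |x0 + i - m n| ≤ d i` for the
given `m`, so `d i ≥ max r |x0 + i - m_i n|`. All `x0 + i`, `i < k ≤ n`, lie in `[x0, x0 + n)`, so `m_i ∈ {m_0, m_0 + 1, m_0 + 2}` with `m_0 = round (x0/n)`
(`round` is monotone; `x0/n ≤ (x0+i)/n < x0/n + 1`). Hence `(d i)^(-(1+a)) ≤ ∑_{t=0,1,2} (max r |(x0 - (m_0 + t) n) + i|)^(-(1+a))` and `rsum` for each `t` gives the bound `3 T r^(-a)`.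
-/

set_option autoImplicit false

open Set Filter Topology Metric

namespace Pool.Agent.CR

theorem sum_bound {a : ℝ} (ha : 0 < a) : ∃ C : ℝ, 0 < C ∧ ∀ (n : ℝ) (k : ℕ) (r : ℝ) (x0 : ℝ) (d : ℕ → ℝ), 1 ≤ n → (k : ℝ) ≤ n → 1 ≤ r →
    (∀ i < k, r ≤ d i ∧ ∃ m : ℤ, |x0 + i - m * n| ≤ d i) → ∑ i ∈ Finset.range k, d i ^ (-(1 + a)) ≤ C * r ^ (-a) := by
  obtain ⟨T, hT, hT'⟩ := rsum ha
  refine ⟨2 * T, by positivity, fun n k r x0 d hn hk hr h => ?_⟩
  have hn0 : 0 < n := by linarith
  obtain ⟨m0, hm0⟩ : ∃ m : ℤ, m = round (x0 / n) := ⟨_, rfl⟩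
  have h1 : ∀ i ∈ Finset.range k, d i ^ (-(1 + a)) ≤
      (max r |(x0 - m0 * n) + i|) ^ (-(1 + a)) +
        (max r |(x0 - (m0 + 1) * n) + i|) ^ (-(1 + a)) := by
    intro i hi
    have hik := Finset.mem_range.1 hi
    obtain ⟨h2, m, h3⟩ := h i hik
    obtain ⟨j, hj⟩ : ∃ j : ℤ, j = round ((x0 + i) / n) := ⟨_, rfl⟩
    have h4 : |x0 + i - j * n| ≤ |x0 + i - m * n| := by
      have h5 := round_le ((x0 + i) / n) m
      rw [← hj] at h5
      have h6 : ∀ z : ℤ, |x0 + i - z * n| = |(x0 + i) / n - z| * n := by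
        intro z
        rw [← abs_of_pos hn0, ← abs_mul, abs_of_pos hn0]
        congr 1
        field_simp
      rw [h6, h6]
      exact mul_le_mul_of_nonneg_right h5 hn0.le
    have h5 : j = m0 ∨ j = m0 + 1 := by
      have hik' : (i : ℝ) < n := by
        have : (i : ℝ) < k := by exact_mod_cast hik
        linarith
      have h6 : m0 ≤ j := by
        rw [hm0, hj, round_eq, round_eq]
        apply Int.floor_le_floor
        have : x0 / n ≤ (x0 + i) / n := by
          apply div_le_div_of_nonneg_right _ hn0.le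
          have : (0 : ℝ) ≤ i := Nat.cast_nonneg i
          linarith
        linarith
      have h7 : j ≤ m0 + 1 := by
        rw [hm0, hj, round_eq, round_eq, ← Int.floor_add_one]
        apply Int.floor_le_floor
        have h8 : (x0 + i) / n = x0 / n + i / n := by ring
        have h9 : (i : ℝ) / n ≤ 1 := by
          rw [div_le_one hn0]
          exact hik'.le
        rw [h8]
        linarith
      omega
    have hpos : ∀ z : ℝ, 0 < max r z := fun z => lt_of_lt_of_le (by linarith) (le_max_left r z)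
    have h6 : d i ^ (-(1 + a)) ≤ (max r |x0 + i - j * n|) ^ (-(1 + a)) :=
      Real.rpow_le_rpow_of_nonpos (hpos _) (max_le h2 (h4.trans h3)) (by linarith)
    refine h6.trans ?_
    rcases h5 with h5 | h5
    · have e : x0 + i - j * n = (x0 - m0 * n) + i := by
        rw [h5]
        ring
      rw [e]
      have := Real.rpow_nonneg (hpos |(x0 - (m0 + 1) * n) + i|).le (-(1 + a))
      linarith
    · have e : x0 + i - j * n = (x0 - (m0 + 1) * n) + i := by
        rw [h5]
        push_cast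
        ring
      rw [e]
      have := Real.rpow_nonneg (hpos |(x0 - m0 * n) + i|).le (-(1 + a))
      linarith
  refine (Finset.sum_le_sum h1).trans ?_
  rw [Finset.sum_add_distrib]
  have h2 := hT' r hr (x0 - m0 * n) k
  have h3 := hT' r hr (x0 - (m0 + 1) * n) k
  linarith

end Pool.Agent.CR
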